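import Pool.Agent.MP_7e71a7_ag.Defs
import Pool.Agent.Lib.SCV.Division

-- part MP_7e71a7_ag.Basic
section

/-! Auxiliary notions: cross-caps, double point set, Jacobian function, charts. -/

open Filter Topology Set Function Metric Module

namespace Pool.Agent.MP_7e71a7_ag

variable {E F V : Type} [NormedAddCommGroup E] [NormedSpace ℂ E] [NormedAddCommGroup F]
  [NormedSpace ℂ F] [NormedAddCommGroup V] [NormedSpace ℂ V]

/-- Cross-cap condition at `x`. -/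
def CrossCap (g : E → F) (x : E) : Prop :=
  ∃ v : E, v ≠ 0 ∧ fderiv ℂ g x v = 0 ∧
    ∀ y : F, ∃ a b : E, fderiv ℂ g x a + fderiv ℂ (fderiv ℂ g) x b v = y

/-- Double points together with the singular points on the diagonal. -/
def Dbar (g : E → F) : Set (E × E) :=
  {p | (p.1 ≠ p.2 ∧ g p.1 = g p.2) ∨ (p.1 = p.2 ∧ ¬ Injective (fderiv ℂ g p.1))}

/-- Transverse double point or cross-cap. -/
def Nice (g : E → F) (p : E × E) : Prop :=
  (p.1 ≠ p.2 ∧ ∀ y : F, ∃ a b : E, fderiv ℂ g p.1 a + fderiv ℂ g p.2 b = y) ∨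
    (p.1 = p.2 ∧ CrossCap g p.1)

/-- `θ = tg ξ + ωg η` near the points of `S`. -/
def Inf (g : E → F) (S : Set E) (y : F) (θ : E → F) : Prop :=
  ∃ (ξ : E → E) (η : F → F), (∀ x ∈ S, DifferentiableAt ℂ ξ x) ∧ DifferentiableAt ℂ η y ∧
    ∀ x ∈ S, ∀ᶠ z in 𝓝 x, θ z = fderiv ℂ g z (ξ z) + η (g z)

/-- Determinant of the map with rows `T` and `ℓ`. -/
noncomputable def DET (J : (F × ℂ) ≃L[ℂ] (E × E)) (T : E × E →L[ℂ] F) (ℓ : E × E →L[ℂ] ℂ) : ℂ :=
  ((J : F × ℂ →L[ℂ] E × E).comp (T.prod ℓ)).det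

/-- Jacobian determinant of `(x, x') ↦ (g x - g x', l (x - x'))` in the coordinates
`(x - x', x')`. -/
noncomputable def jac (J : (F × ℂ) ≃L[ℂ] (E × E)) (l : E →L[ℂ] ℂ) (g : E → F) (p : E × E) : ℂ :=
  DET J ((fderiv ℂ g p.1).coprod (fderiv ℂ g p.1 - fderiv ℂ g p.2))
    (l.comp (ContinuousLinearMap.fst ℂ E E))

/-- The anti-invariant function `l (x - x')`. -/
noncomputable def ww (l : E →L[ℂ] ℂ) (p : E × E) : ℂ := l (p.1 - p.2)

/-- `γ` is a holomorphic chart of `Z` at `p`. -/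
structure Chart (Z : Set V) (p : V) (γ : ℂ → V) : Prop where
  an : AnalyticAt ℂ γ 0
  zero : γ 0 = p
  inj : ∃ U ∈ 𝓝 (0 : ℂ), InjOn γ U
  map : Filter.map γ (𝓝 0) = 𝓝[Z] p

/-- A chart in which `w` is `t ↦ w p + t ^ e`. -/
structure NChart (Z : Set V) (w : V → ℂ) (p : V) (e : ℕ) (γ : ℂ → V) : Prop
    extends Chart Z p γ where
  pos : 1 ≤ e
  pow : ∀ᶠ t in 𝓝 (0 : ℂ), w (γ t) = w p + t ^ e

/-- Fibre of `w` on `Z`. -/
def fib {B : Type} (Z : Set V) (w : V → B) (y : B) : Set V := {p | p ∈ Z ∧ w p = y}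

/-- `Z` is a compact set which is a branched covering of the open set `Ω` through `w`. -/
structure RS (Z : Set V) (w : V → ℂ) (Ω : Set ℂ) (e : V → ℕ) (γ : V → ℂ → V) : Prop where
  cpt : IsCompact Z
  cont : Continuous w
  opn : IsOpen Ω
  chart : ∀ p ∈ Z, w p ∈ Ω → NChart Z w p (e p) (γ p)

/-- Norm of a function. -/
noncomputable def nrm (Z : Set V) (w : V → ℂ) (e : V → ℕ) (g : V → ℂ) (y : ℂ) : ℂ :=
  ∏ᶠ p ∈ fib Z w y, g p ^ e p

/-- Number of points of the fibre with multiplicity. -/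
noncomputable def deg (Z : Set V) (w : V → ℂ) (e : V → ℕ) (y : ℂ) : ℕ :=
  ∑ᶠ p ∈ fib Z w y, e p

theorem Chart.congr_set {Z Z' : Set V} {p : V} {γ : ℂ → V} (h : Chart Z p γ)
    (hZ : 𝓝[Z] p = 𝓝[Z'] p) : Chart Z' p γ :=
  ⟨h.an, h.zero, h.inj, h.map.trans hZ⟩

theorem Inf.mono {g : E → F} {S S' : Set E} {y : F} {θ : E → F} (h : Inf g S y θ)
    (hS : S' ⊆ S) : Inf g S' y θ := by
  obtain ⟨ξ, η, h1, h2, h3⟩ := h
  exact ⟨ξ, η, fun x hx => h1 x (hS hx), h2, fun x hx => h3 x (hS hx)⟩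

theorem Dbar.eq {g : E → F} {p : E × E} (h : p ∈ Dbar g) : g p.1 = g p.2 := by
  rcases h with h | h
  · exact h.2
  · rw [h.1]

theorem Dbar.swap {g : E → F} {p : E × E} (h : p ∈ Dbar g) : p.swap ∈ Dbar g := by
  rcases h with h | h
  · exact Or.inl ⟨fun h' => h.1 h'.symm, h.2.symm⟩
  · exact Or.inr ⟨h.1.symm, by simpa [← h.1] using h.2⟩

theorem continuous_ww (l : E →L[ℂ] ℂ) : Continuous (ww l) := by
  unfold ww; fun_prop

theorem analyticAt_ww (l : E →L[ℂ] ℂ) (p : E × E) : AnalyticAt ℂ (ww l) p :=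
  (l.analyticAt _).comp (analyticAt_fst.sub analyticAt_snd)

theorem ww_swap (l : E →L[ℂ] ℂ) (p : E × E) : ww l p.swap = - ww l p := by
  simp [ww]

end Pool.Agent.MP_7e71a7_ag

end

-- part MP_7e71a7_ag.Jac
section

/-! The Jacobian function; closedness of the double point set. -/

open Filter Topology Set Function Metric Module

set_option linter.unusedSectionVars false

namespace Pool.Agent.MP_7e71a7_ag

variable {E F P : Type} [NormedAddCommGroup E] [NormedSpace ℂ E] [FiniteDimensional ℂ E]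
  [NormedAddCommGroup F] [NormedSpace ℂ F] [FiniteDimensional ℂ F]
  [NormedAddCommGroup P] [NormedSpace ℂ P] [FiniteDimensional ℂ P]

theorem jac_analyticAt_det {V : Type} [NormedAddCommGroup V] [NormedSpace ℂ V]
    [FiniteDimensional ℂ V] (A : V →L[ℂ] V) :
    AnalyticAt ℂ (fun B : V →L[ℂ] V => B.det) A := by
  classical
  let b := Module.finBasis ℂ V
  have e : (fun B : V →L[ℂ] V => B.det) = fun B : V →L[ℂ] V =>
      ∑ σ : Equiv.Perm (Fin (finrank ℂ V)), ((Equiv.Perm.sign σ : ℤ) : ℂ) *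
        ∏ i, b.repr (B (b i)) (σ i) := by
    funext B
    unfold ContinuousLinearMap.det
    rw [← LinearMap.det_toMatrix b, Matrix.det_apply']
    simp [LinearMap.toMatrix_apply]
  rw [e]
  refine Finset.analyticAt_fun_sum _ fun σ _ => analyticAt_const.mul ?_
  refine Finset.analyticAt_fun_prod _ fun i _ => ?_
  exact ((LinearMap.toContinuousLinearMap (b.coord (σ i))).comp
    (ContinuousLinearMap.apply ℂ V (b i))).analyticAt A

/- HINT. Compose on the right with `(id).prodMap (t • id)`; `LinearMap.det_prodMap` (or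
`det_fromBlocks`), `LinearMap.det_smul`. -/
theorem DET_smul (J : (F × ℂ) ≃L[ℂ] (E × E)) (A B : E →L[ℂ] F) (l : E →L[ℂ] ℂ) (t : ℂ) :
    DET J (A.coprod (t • B)) (l.comp (ContinuousLinearMap.fst ℂ E E)) =
      t ^ finrank ℂ E * DET J (A.coprod B) (l.comp (ContinuousLinearMap.fst ℂ E E)) := by
  unfold DET ContinuousLinearMap.det
  have key : (((J : F × ℂ →L[ℂ] E × E).comp ((A.coprod (t • B)).prod
      (l.comp (ContinuousLinearMap.fst ℂ E E))) : E × E →L[ℂ] E × E) : E × E →ₗ[ℂ] E × E) =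
      (((J : F × ℂ →L[ℂ] E × E).comp ((A.coprod B).prod
      (l.comp (ContinuousLinearMap.fst ℂ E E))) : E × E →L[ℂ] E × E) : E × E →ₗ[ℂ] E × E).comp
        ((LinearMap.id : E →ₗ[ℂ] E).prodMap (t • (LinearMap.id : E →ₗ[ℂ] E))) := by
    apply LinearMap.ext
    rintro ⟨a, b⟩
    simp
  rw [key, LinearMap.det_comp, LinearMap.det_prodMap, LinearMap.det_smul]
  simp [mul_comm]

theorem DET_ne_zero_iff (J : (F × ℂ) ≃L[ℂ] (E × E)) (T : E × E →L[ℂ] F) (ℓ : E × E →L[ℂ] ℂ) :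
    DET J T ℓ ≠ 0 ↔ Bijective (T.prod ℓ) := by
  unfold DET ContinuousLinearMap.det
  rw [Ne, LinearMap.det_eq_zero_iff_ker_ne_bot, not_not, LinearMap.ker_eq_bot]
  have hinj : Injective (((J : F × ℂ →L[ℂ] E × E).comp (T.prod ℓ) : E × E →L[ℂ] E × E) :
      E × E →ₗ[ℂ] E × E) ↔ Injective (T.prod ℓ) :=
    Function.Injective.of_comp_iff (f := J) J.injective (T.prod ℓ)
  constructor
  · intro h
    refine ⟨hinj.1 h, ?_⟩
    have hs := LinearMap.injective_iff_surjective.1 h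
    intro y
    obtain ⟨a, ha⟩ := hs (J y)
    exact ⟨a, J.injective ha⟩
  · intro h
    exact hinj.2 h.1

theorem DET_ne_zero_of_injective (J : (F × ℂ) ≃L[ℂ] (E × E)) (T : E × E →L[ℂ] F)
    (ℓ : E × E →L[ℂ] ℂ) (h : ∀ a, T a = 0 → ℓ a = 0 → a = 0) : DET J T ℓ ≠ 0 := by
  unfold DET ContinuousLinearMap.det
  rw [Ne, LinearMap.det_eq_zero_iff_ker_ne_bot, not_not, LinearMap.ker_eq_bot']
  intro a ha
  have h1 : J (T a, ℓ a) = 0 := ha
  have h2 : (T a, ℓ a) = 0 := J.injective (by rw [h1, map_zero])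
  exact h a (congrArg Prod.fst h2) (congrArg Prod.snd h2)

/- HINT. `T.prod ℓ = (T.prod ℓ₀) ∘ S` with the transvection `S a = a + (ℓ a - ℓ₀ a) • τ`;
`LinearMap.transvection.det`. -/
theorem DET_row (J : (F × ℂ) ≃L[ℂ] (E × E)) (T : E × E →L[ℂ] F) (ℓ ℓ₀ : E × E →L[ℂ] ℂ)
    {τ : E × E} (hT : T τ = 0) (h0 : ℓ₀ τ = 1) : DET J T ℓ = ℓ τ * DET J T ℓ₀ := by
  unfold DET ContinuousLinearMap.det
  have key : (((J : F × ℂ →L[ℂ] E × E).comp (T.prod ℓ) : E × E →L[ℂ] E × E) :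
      E × E →ₗ[ℂ] E × E) =
      (((J : F × ℂ →L[ℂ] E × E).comp (T.prod ℓ₀) : E × E →L[ℂ] E × E) : E × E →ₗ[ℂ] E × E).comp
        (LinearMap.transvection ((ℓ : E × E →ₗ[ℂ] ℂ) - (ℓ₀ : E × E →ₗ[ℂ] ℂ)) τ) := by
    apply LinearMap.ext
    intro a
    have e1 : T (a + (ℓ a - ℓ₀ a) • τ) = T a := by rw [map_add, map_smul, hT]; simp
    have e2 : ℓ₀ (a + (ℓ a - ℓ₀ a) • τ) = ℓ a := by rw [map_add, map_smul, h0]; simp
    change J (T a, ℓ a) = J (T (a + (ℓ a - ℓ₀ a) • τ), ℓ₀ (a + (ℓ a - ℓ₀ a) • τ))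
    rw [e1, e2]
  rw [key, LinearMap.det_comp, LinearMap.transvection.det]
  have e3 : (1 : ℂ) + ((ℓ : E × E →ₗ[ℂ] ℂ) - (ℓ₀ : E × E →ₗ[ℂ] ℂ)) τ = ℓ τ := by
    change (1 : ℂ) + (ℓ τ - ℓ₀ τ) = ℓ τ
    rw [h0]; ring
  rw [e3, mul_comm]

/- HINT. Determinant in a basis: `LinearMap.det_toMatrix`, `Matrix.det_apply`; the entries are
continuous linear in `T`; `Finset.analyticAt_fun_sum`, `Finset.analyticAt_fun_prod`. -/
theorem analyticAt_DET (J : (F × ℂ) ≃L[ℂ] (E × E)) (ℓ : E × E →L[ℂ] ℂ) (T : E × E →L[ℂ] F) :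
    AnalyticAt ℂ (fun T' => DET J T' ℓ) T := by
  unfold DET
  have h1 : AnalyticAt ℂ (fun T' : E × E →L[ℂ] F => T'.prod ℓ) T := by
    have h := ((ContinuousLinearMap.prodL (𝕜 := ℂ) (E := E × E) (F := F) (G := ℂ) ℂ :
      ((E × E →L[ℂ] F) × (E × E →L[ℂ] ℂ)) →L[ℂ] (E × E →L[ℂ] F × ℂ)).analyticAt (T, ℓ)).comp
      (f := fun T' : E × E →L[ℂ] F => (T', ℓ)) (analyticAt_id.prod analyticAt_const)
    exact h
  have h2 : AnalyticAt ℂ (fun T' : E × E →L[ℂ] F =>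
      (J : F × ℂ →L[ℂ] E × E).comp (T'.prod ℓ)) T :=
    ((ContinuousLinearMap.compL ℂ (E × E) (F × ℂ) (E × E)
      (J : F × ℂ →L[ℂ] E × E)).analyticAt _).comp h1
  exact (jac_analyticAt_det _).comp h2

theorem analyticAt_coprod (q : (E →L[ℂ] F) × (E →L[ℂ] F)) :
    AnalyticAt ℂ (fun q : (E →L[ℂ] F) × (E →L[ℂ] F) => q.1.coprod q.2) q := by
  exact ((ContinuousLinearMap.coprodEquivL (𝕜 := ℂ) (E := E) (F := E) (G := F) ℂ :
      ((E →L[ℂ] F) × (E →L[ℂ] F)) →L[ℂ] (E × E →L[ℂ] F)).analyticAt q)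

theorem analyticAt_jac (J : (F × ℂ) ≃L[ℂ] (E × E)) (l : E →L[ℂ] ℂ) {g : E → F} {p : E × E}
    (h1 : AnalyticAt ℂ g p.1) (h2 : AnalyticAt ℂ g p.2) : AnalyticAt ℂ (jac J l g) p := by
  have d1 : AnalyticAt ℂ (fun q : E × E => fderiv ℂ g q.1) p :=
    h1.fderiv.comp (f := fun q : E × E => q.1) analyticAt_fst
  have d2 : AnalyticAt ℂ (fun q : E × E => fderiv ℂ g q.2) p :=
    h2.fderiv.comp (f := fun q : E × E => q.2) analyticAt_snd
  have d3 := (analyticAt_coprod _).comp (d1.prod (d1.sub d2))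
  exact (analyticAt_DET J _ _).comp d3

theorem fderiv_slice {G : E × P → F} {x : E} {s : P} (h : AnalyticAt ℂ G (x, s)) :
    fderiv ℂ (fun z => G (z, s)) x = (fderiv ℂ G (x, s)).comp (ContinuousLinearMap.inl ℂ E P) := by
  have h1 : HasFDerivAt (fun z : E => (z, s)) (ContinuousLinearMap.inl ℂ E P) x :=
    hasFDerivAt_prodMk_left x s
  exact (h.differentiableAt.hasFDerivAt.comp x h1).fderiv

theorem jac_contAt_slice {G : E × P → F} {x : E} {s : P} (h : AnalyticAt ℂ G (x, s)) :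
    ContinuousAt (fun r : E × P => fderiv ℂ (fun z => G (z, r.2)) r.1) (x, s) := by
  have c : ContinuousAt (fun r : E × P => (fderiv ℂ G r).comp (ContinuousLinearMap.inl ℂ E P))
      (x, s) := h.fderiv.continuousAt.clm_comp continuousAt_const
  refine c.congr ?_
  filter_upwards [h.eventually_analyticAt] with r hr
  exact (fderiv_slice (G := G) (x := r.1) (s := r.2) hr).symm

theorem continuousAt_jac_param (J : (F × ℂ) ≃L[ℂ] (E × E)) (l : E →L[ℂ] ℂ) {G : E × P → F}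
    {p : E × E} {s : P} (h1 : AnalyticAt ℂ G (p.1, s)) (h2 : AnalyticAt ℂ G (p.2, s)) :
    ContinuousAt (fun q : (E × E) × P => jac J l (fun z => G (z, q.2)) q.1) (p, s) := by
  have c1 : ContinuousAt (fun q : (E × E) × P => (q.1.1, q.2)) (p, s) := by fun_prop
  have c2 : ContinuousAt (fun q : (E × E) × P => (q.1.2, q.2)) (p, s) := by fun_prop
  have d1 : ContinuousAt (fun q : (E × E) × P => fderiv ℂ (fun z => G (z, q.2)) q.1.1) (p, s) :=
    ContinuousAt.comp (f := fun q : (E × E) × P => (q.1.1, q.2))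
      (g := fun r : E × P => fderiv ℂ (fun z => G (z, r.2)) r.1) (jac_contAt_slice h1) c1
  have d2 : ContinuousAt (fun q : (E × E) × P => fderiv ℂ (fun z => G (z, q.2)) q.1.2) (p, s) :=
    ContinuousAt.comp (f := fun q : (E × E) × P => (q.1.2, q.2))
      (g := fun r : E × P => fderiv ℂ (fun z => G (z, r.2)) r.1) (jac_contAt_slice h2) c2
  have d3 := (analyticAt_coprod (E := E) (F := F) _).continuousAt.comp (d1.prodMk (d1.sub d2))
  exact (analyticAt_DET J _ _).continuousAt.comp d3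

theorem jac_diag (hn : 1 ≤ finrank ℂ E) (J : (F × ℂ) ≃L[ℂ] (E × E)) (l : E →L[ℂ] ℂ) (g : E → F)
    {p : E × E} (h : p.1 = p.2) : jac J l g p = 0 := by
  unfold jac
  have e : fderiv ℂ g p.1 - fderiv ℂ g p.2 = (0 : ℂ) • (0 : E →L[ℂ] F) := by rw [h]; simp
  rw [e, DET_smul, zero_pow (by omega), zero_mul]

theorem nice_of_jac (hn : 1 ≤ finrank ℂ E) {J : (F × ℂ) ≃L[ℂ] (E × E)} {l : E →L[ℂ] ℂ}
    {g : E → F} {p : E × E} (h : jac J l g p ≠ 0) : p.1 ≠ p.2 ∧ Nice g p := by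
  have hne : p.1 ≠ p.2 := fun e => h (jac_diag hn J l g e)
  refine ⟨hne, Or.inl ⟨hne, fun y => ?_⟩⟩
  obtain ⟨⟨a, b⟩, hab⟩ := ((DET_ne_zero_iff J _ _).1 h).2 (y, 0)
  have e : fderiv ℂ g p.1 a + (fderiv ℂ g p.1 b - fderiv ℂ g p.2 b) = y := congrArg Prod.fst hab
  refine ⟨a + b, -b, ?_⟩
  rw [map_add, map_neg, ← e]
  abel

theorem jac_lower_param {G : E × P → F} {x : E} {s : P} (h : AnalyticAt ℂ G (x, s))
    (hinj : Injective (fderiv ℂ (fun z => G (z, s)) x)) :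
    ∃ c > 0, ∀ᶠ q in 𝓝 (((x, x), s) : (E × E) × P),
      c * ‖q.1.1 - q.1.2‖ ≤ ‖G (q.1.1, q.2) - G (q.1.2, q.2)‖ := by
  rw [fderiv_slice h] at hinj
  obtain ⟨K, hK, hanti⟩ := (((fderiv ℂ G (x, s)).comp (ContinuousLinearMap.inl ℂ E P) :
    E →L[ℂ] F) : E →ₗ[ℂ] F).injective_iff_antilipschitz.1 hinj
  have hK' : (0 : ℝ) < K := hK
  have hb : ∀ w : E, ‖w‖ ≤ K * ‖fderiv ℂ G (x, s) (w, 0)‖ := fun w =>
    ZeroHomClass.bound_of_antilipschitz _ hanti w
  have hs := h.hasStrictFDerivAt.isLittleO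
  have c0 : Tendsto (fun q : (E × E) × P => ((q.1.1, q.2), (q.1.2, q.2))) (𝓝 ((x, x), s))
      (𝓝 ((x, s), (x, s))) := by
    have : ContinuousAt (fun q : (E × E) × P => ((q.1.1, q.2), (q.1.2, q.2))) ((x, x), s) := by
      fun_prop
    exact this
  have hc : (0 : ℝ) < 1 / (2 * K) := by positivity
  refine ⟨1 / (2 * K), hc, ?_⟩
  filter_upwards [c0.eventually (hs.def hc)] with q hq
  have e : ((q.1.1, q.2) : E × P) - (q.1.2, q.2) = (q.1.1 - q.1.2, 0) := by simp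
  have en : ‖((q.1.1 - q.1.2, 0) : E × P)‖ = ‖q.1.1 - q.1.2‖ := by simp
  simp only [e, en] at hq
  have h1 := hb (q.1.1 - q.1.2)
  have h2 : ‖fderiv ℂ G (x, s) (q.1.1 - q.1.2, 0)‖ ≤ ‖G (q.1.1, q.2) - G (q.1.2, q.2)‖ +
      ‖G (q.1.1, q.2) - G (q.1.2, q.2) - fderiv ℂ G (x, s) (q.1.1 - q.1.2, 0)‖ := by
    have := norm_sub_le (G (q.1.1, q.2) - G (q.1.2, q.2))
      (G (q.1.1, q.2) - G (q.1.2, q.2) - fderiv ℂ G (x, s) (q.1.1 - q.1.2, 0))
    rwa [sub_sub_cancel] at this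
  have h3 : 2 * (1 / (2 * K) * ‖q.1.1 - q.1.2‖) ≤ ‖fderiv ℂ G (x, s) (q.1.1 - q.1.2, 0)‖ := by
    have : 2 * (1 / (2 * (K : ℝ)) * ‖q.1.1 - q.1.2‖) = ‖q.1.1 - q.1.2‖ / K := by field_simp
    rw [this, div_le_iff₀ hK', mul_comm]
    exact h1
  linarith

/- HINT. If `p.1 ≠ p.2` use continuity. If `p.1 = p.2 = x`, the partial derivative `A` at `(x, s)`
is injective hence `c ‖v‖ ≤ ‖A v‖` (`LinearMap.exists_antilipschitzWith` or
`ContinuousLinearMap.antilipschitz_of_bound`-like lemmas); strict differentiability of `G` at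
`(x, s)` applied to the pair `(x₁, s'), (x₂, s')` gives `G (x₁, s') ≠ G (x₂, s')` for `x₁ ≠ x₂`, and
injectivity of linear maps is an open condition (`ContinuousLinearMap.isOpen_injective`). -/
theorem not_mem_Dbar_eventually {G : E × P → F} {p : E × E} {s : P}
    (h1 : AnalyticAt ℂ G (p.1, s)) (h2 : AnalyticAt ℂ G (p.2, s))
    (h : p ∉ Dbar (fun z => G (z, s))) :
    ∀ᶠ q in 𝓝 ((p, s) : (E × E) × P), q.1 ∉ Dbar (fun z => G (z, q.2)) := by
  by_cases hp : p.1 = p.2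
  · have hinj : Injective (fderiv ℂ (fun z => G (z, s)) p.1) := by
      by_contra hn
      exact h (Or.inr ⟨hp, hn⟩)
    obtain ⟨c, hc, hlow⟩ := jac_lower_param h1 hinj
    have c0 : ContinuousAt (fun q : (E × E) × P => ((q.1.1, q.1.2), q.2)) (p, s) := by fun_prop
    have e0 : ((p.1, p.2), s) = ((p.1, p.1), s) := by rw [← hp]
    have hlow' : ∀ᶠ q in 𝓝 ((p, s) : (E × E) × P),
        c * ‖q.1.1 - q.1.2‖ ≤ ‖G (q.1.1, q.2) - G (q.1.2, q.2)‖ := by
      have e1 : (p, s) = ((p.1, p.1), s) := e0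
      rw [e1]
      exact hlow
    have c1 : ContinuousAt (fun q : (E × E) × P => (q.1.1, q.2)) (p, s) := by fun_prop
    have d1 : ContinuousAt (fun q : (E × E) × P => fderiv ℂ (fun z => G (z, q.2)) q.1.1) (p, s) :=
      ContinuousAt.comp (f := fun q : (E × E) × P => (q.1.1, q.2))
        (g := fun r : E × P => fderiv ℂ (fun z => G (z, r.2)) r.1) (jac_contAt_slice h1) c1
    have hopen := d1.eventually (ContinuousLinearMap.isOpen_injective.mem_nhds hinj)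
    filter_upwards [hlow', hopen] with q hq1 hq2
    rintro (⟨hne, heq⟩ | ⟨-, hni⟩)
    · have heq' : G (q.1.1, q.2) = G (q.1.2, q.2) := heq
      rw [heq', sub_self, norm_zero] at hq1
      have : 0 < c * ‖q.1.1 - q.1.2‖ := mul_pos hc (norm_pos_iff.2 (sub_ne_zero.2 hne))
      linarith
    · exact hni hq2
  · have hne : G (p.1, s) ≠ G (p.2, s) := fun e => h (Or.inl ⟨hp, e⟩)
    have c1 : ContinuousAt (fun q : (E × E) × P => (q.1.1, q.2)) (p, s) := by fun_prop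
    have c2 : ContinuousAt (fun q : (E × E) × P => (q.1.2, q.2)) (p, s) := by fun_prop
    have g1 : ContinuousAt (fun q : (E × E) × P => G (q.1.1, q.2)) (p, s) :=
      ContinuousAt.comp (f := fun q : (E × E) × P => (q.1.1, q.2)) h1.continuousAt c1
    have g2 : ContinuousAt (fun q : (E × E) × P => G (q.1.2, q.2)) (p, s) :=
      ContinuousAt.comp (f := fun q : (E × E) × P => (q.1.2, q.2)) h2.continuousAt c2
    have a1 : ContinuousAt (fun q : (E × E) × P => q.1.1 - q.1.2) (p, s) := by fun_prop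
    have e1 := (g1.sub g2).eventually_ne (sub_ne_zero.2 hne)
    have e2 := a1.eventually_ne (sub_ne_zero.2 hp)
    filter_upwards [e1, e2] with q hq1 hq2
    rintro (⟨-, heq⟩ | ⟨heq, -⟩)
    · exact hq1 (sub_eq_zero.2 heq)
    · exact hq2 (sub_eq_zero.2 heq)

theorem not_mem_Dbar_eventually' {g : E → F} {p : E × E} (h1 : AnalyticAt ℂ g p.1)
    (h2 : AnalyticAt ℂ g p.2) (h : p ∉ Dbar g) : ∀ᶠ q in 𝓝 p, q ∉ Dbar g := by
  have a1 : AnalyticAt ℂ (fun r : E × ℂ => g r.1) (p.1, 0) :=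
    AnalyticAt.comp (f := fun r : E × ℂ => r.1) h1 analyticAt_fst
  have a2 : AnalyticAt ℂ (fun r : E × ℂ => g r.1) (p.2, 0) :=
    AnalyticAt.comp (f := fun r : E × ℂ => r.1) h2 analyticAt_fst
  have h3 := not_mem_Dbar_eventually (G := fun r : E × ℂ => g r.1) a1 a2 h
  have c : ContinuousAt (fun q : E × E => (q, (0 : ℂ))) p := by fun_prop
  exact c.eventually h3

/-- Quantitative form. -/
theorem lower_of_not_mem_Dbar {g : E → F} {p : E × E} (h1 : AnalyticAt ℂ g p.1)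
    (h2 : AnalyticAt ℂ g p.2) (h : p ∉ Dbar g) :
    ∃ c > 0, ∀ᶠ q in 𝓝 p, c * ‖q.1 - q.2‖ ≤ ‖g q.1 - g q.2‖ := by
  by_cases hp : p.1 = p.2
  · have hinj : Injective (fderiv ℂ g p.1) := by
      by_contra hn
      exact h (Or.inr ⟨hp, hn⟩)
    have a1 : AnalyticAt ℂ (fun r : E × ℂ => g r.1) (p.1, 0) :=
      AnalyticAt.comp (f := fun r : E × ℂ => r.1) h1 analyticAt_fst
    obtain ⟨c, hc, hlow⟩ := jac_lower_param (G := fun r : E × ℂ => g r.1) a1 hinj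
    refine ⟨c, hc, ?_⟩
    have c0 : ContinuousAt (fun q : E × E => (q, (0 : ℂ))) (p.1, p.1) := by fun_prop
    have e1 : p = (p.1, p.1) := Prod.ext rfl hp.symm
    rw [e1]
    exact c0.eventually hlow
  · have hne : g p.1 ≠ g p.2 := fun e => h (Or.inl ⟨hp, e⟩)
    have hA : 0 < ‖g p.1 - g p.2‖ := norm_pos_iff.2 (sub_ne_zero.2 hne)
    have hB : 0 < ‖p.1 - p.2‖ := norm_pos_iff.2 (sub_ne_zero.2 hp)
    refine ⟨‖g p.1 - g p.2‖ / (2 * ‖p.1 - p.2‖), by positivity, ?_⟩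
    have g1 : ContinuousAt (fun q : E × E => g q.1) p :=
      ContinuousAt.comp (f := fun q : E × E => q.1) h1.continuousAt continuousAt_fst
    have g2 : ContinuousAt (fun q : E × E => g q.2) p :=
      ContinuousAt.comp (f := fun q : E × E => q.2) h2.continuousAt continuousAt_snd
    have a1 : ContinuousAt (fun q : E × E =>
        ‖g p.1 - g p.2‖ / (2 * ‖p.1 - p.2‖) * ‖q.1 - q.2‖) p := by fun_prop
    have hlt : ‖g p.1 - g p.2‖ / (2 * ‖p.1 - p.2‖) * ‖p.1 - p.2‖ < ‖g p.1 - g p.2‖ := by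
      have : ‖g p.1 - g p.2‖ / (2 * ‖p.1 - p.2‖) * ‖p.1 - p.2‖ = ‖g p.1 - g p.2‖ / 2 := by
        field_simp
      rw [this]; linarith
    exact (a1.eventually_lt (g1.sub g2).norm hlt).mono fun q hq => hq.le

theorem isCompact_Dbar_inter {g : E → F} {K : Set (E × E)} (hK : IsCompact K)
    (hg : ∀ p ∈ K, AnalyticAt ℂ g p.1 ∧ AnalyticAt ℂ g p.2) : IsCompact (Dbar g ∩ K) := by
  refine hK.of_isClosed_subset ?_ inter_subset_right
  rw [← isOpen_compl_iff, isOpen_iff_mem_nhds]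
  intro p hp
  by_cases hpK : p ∈ K
  · have hpD : p ∉ Dbar g := fun h => hp ⟨h, hpK⟩
    filter_upwards [not_mem_Dbar_eventually' (hg p hpK).1 (hg p hpK).2 hpD] with q hq
    exact fun h => hq h.1
  · filter_upwards [hK.isClosed.isOpen_compl.mem_nhds hpK] with q hq
    exact fun h => hq h.2

theorem jac_quot_tendsto {H : Type} [NormedAddCommGroup H] [NormedSpace ℂ H] [CompleteSpace H]
    {f : E → H} (hf : AnalyticAt ℂ f 0) {L : Filter (E × E)} (hL : L ≤ 𝓝 0)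
    (hne : ∀ᶠ p in L, p.1 ≠ p.2) {v : E}
    (hv : Tendsto (fun p : E × E => ((‖p.1 - p.2‖ : ℂ))⁻¹ • (p.1 - p.2)) L (𝓝 v)) :
    Tendsto (fun p : E × E => ((‖p.1 - p.2‖ : ℂ))⁻¹ • (f p.1 - f p.2)) L
      (𝓝 (fderiv ℂ f 0 v)) := by
  have hs := hf.hasStrictFDerivAt.isLittleO
  have t1 : Tendsto (fun p : E × E => ((‖p.1 - p.2‖ : ℂ))⁻¹ •
      (f p.1 - f p.2 - fderiv ℂ f 0 (p.1 - p.2))) L (𝓝 0) := by
    rw [NormedAddGroup.tendsto_nhds_zero]
    intro δ hδ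
    filter_upwards [hL (hs.def (half_pos hδ)), hne] with p hp hpn
    have hp' : 0 < ‖p.1 - p.2‖ := norm_pos_iff.2 (sub_ne_zero.2 hpn)
    rw [norm_smul, norm_inv, Complex.norm_real, norm_norm, inv_mul_lt_iff₀ hp']
    have hp2 : ‖f p.1 - f p.2 - fderiv ℂ f 0 (p.1 - p.2)‖ ≤ δ / 2 * ‖p.1 - p.2‖ := hp
    nlinarith
  have t2 := ((fderiv ℂ f 0).continuous.tendsto v).comp hv
  have t3 := t1.add t2
  rw [zero_add] at t3
  refine t3.congr fun p => ?_
  simp only [Function.comp, map_smul]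
  rw [← smul_add, sub_add_cancel]

/- HINT. Otherwise take an ultrafilter (or a sequence) of bad points `p → 0`; `W = p.1 - p.2 ≠ 0`
by `jac_diag`; `W / ‖W‖ → v` in the unit sphere. `jac = ‖W‖ ^ n * DET (dg p.1, Δ / ‖W‖)` by
`DET_smul`; strict differentiability of `g` and of `fderiv g` at `0` give `fderiv g 0 v = 0` and
`Δ / ‖W‖ → fderiv (fderiv g) 0 v`. In the limit `DET ≠ 0`, so the map is onto, and with the
symmetry of the second derivative `CrossCap g 0`. -/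
theorem jac_small (hn : 1 ≤ finrank ℂ E) (J : (F × ℂ) ≃L[ℂ] (E × E)) (l : E →L[ℂ] ℂ) {g : E → F}
    (hg : AnalyticAt ℂ g 0) (hc : ¬ CrossCap g 0) {ε : ℝ} (hε : 0 < ε) :
    ∀ᶠ p in 𝓝 (0 : E × E), p ∈ Dbar g → ‖jac J l g p‖ ≤ ε * ‖p.1 - p.2‖ ^ finrank ℂ E := by
  by_contra hcon
  have hfr : ∃ᶠ p in 𝓝 (0 : E × E), p ∈ Dbar g ∧
      ε * ‖p.1 - p.2‖ ^ finrank ℂ E < ‖jac J l g p‖ := by
    rw [Filter.not_eventually] at hcon
    refine hcon.mono fun p hp => ?_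
    by_contra hn
    exact hp fun hD => not_lt.1 fun hlt => hn ⟨hD, hlt⟩
  have hne := Filter.frequently_iff_neBot.1 hfr
  set U : Ultrafilter (E × E) := Ultrafilter.of (𝓝 (0 : E × E) ⊓ 𝓟 {p | p ∈ Dbar g ∧
      ε * ‖p.1 - p.2‖ ^ finrank ℂ E < ‖jac J l g p‖}) with hU
  have hUle := Ultrafilter.of_le (𝓝 (0 : E × E) ⊓ 𝓟 {p | p ∈ Dbar g ∧
      ε * ‖p.1 - p.2‖ ^ finrank ℂ E < ‖jac J l g p‖})
  have hU0 : (U : Filter (E × E)) ≤ 𝓝 0 := hUle.trans inf_le_left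
  have hUbad : ∀ᶠ p in (U : Filter (E × E)), p ∈ Dbar g ∧
      ε * ‖p.1 - p.2‖ ^ finrank ℂ E < ‖jac J l g p‖ :=
    (hUle.trans inf_le_right) (mem_principal_self _)
  have hUne : ∀ᶠ p in (U : Filter (E × E)), p.1 ≠ p.2 := by
    filter_upwards [hUbad] with p hp e
    have h0 := hp.2
    rw [jac_diag hn J l g e, norm_zero] at h0
    have : 0 ≤ ε * ‖p.1 - p.2‖ ^ finrank ℂ E := by positivity
    linarith
  let u : E × E → E := fun p => ((‖p.1 - p.2‖ : ℂ))⁻¹ • (p.1 - p.2)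
  have hu : ∀ᶠ p in (U : Filter (E × E)), u p ∈ sphere (0 : E) 1 := by
    filter_upwards [hUne] with p hp
    have hp' : ‖p.1 - p.2‖ ≠ 0 := norm_ne_zero_iff.2 (sub_ne_zero.2 hp)
    simp only [u, mem_sphere_iff_norm, sub_zero, norm_smul, norm_inv, Complex.norm_real, norm_norm]
    exact inv_mul_cancel₀ hp'
  have : ProperSpace E := FiniteDimensional.proper ℂ E
  obtain ⟨v, hv, huv⟩ := (isCompact_sphere (0 : E) 1).ultrafilter_le_nhds (U.map u)
    (by rw [Ultrafilter.coe_map, le_principal_iff]; exact hu)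
  have huv' : Tendsto u (U : Filter (E × E)) (𝓝 v) := huv
  have hv0 : v ≠ 0 := by
    intro e
    rw [e] at hv
    simp at hv
  have t1 := jac_quot_tendsto hg hU0 hUne huv'
  have t2 := jac_quot_tendsto hg.fderiv hU0 hUne huv'
  have hAv : fderiv ℂ g 0 v = 0 := by
    refine tendsto_nhds_unique t1 (tendsto_const_nhds.congr' ?_)
    filter_upwards [hUbad] with p hp
    rw [Dbar.eq hp.1, sub_self, smul_zero]
  have t0 : Tendsto (fun p : E × E => fderiv ℂ g p.1) (U : Filter (E × E)) (𝓝 (fderiv ℂ g 0)) := by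
    have c : ContinuousAt (fun p : E × E => fderiv ℂ g p.1) 0 :=
      ContinuousAt.comp (f := fun p : E × E => p.1) hg.fderiv.continuousAt continuousAt_fst
    exact c.tendsto.mono_left hU0
  have t3 := (analyticAt_coprod (fderiv ℂ g 0, fderiv ℂ (fderiv ℂ g) 0 v)).continuousAt.tendsto.comp
    (t0.prodMk_nhds t2)
  have t4 := ((analyticAt_DET J (l.comp (ContinuousLinearMap.fst ℂ E E))
    _).continuousAt.tendsto.comp t3).norm
  have hge : ε ≤ ‖DET J ((fderiv ℂ g 0).coprod (fderiv ℂ (fderiv ℂ g) 0 v))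
      (l.comp (ContinuousLinearMap.fst ℂ E E))‖ := by
    refine ge_of_tendsto t4 ?_
    filter_upwards [hUbad, hUne] with p hp hpn
    have hp' : 0 < ‖p.1 - p.2‖ := norm_pos_iff.2 (sub_ne_zero.2 hpn)
    have hpc : ((‖p.1 - p.2‖ : ℝ) : ℂ) ≠ 0 := Complex.ofReal_ne_zero.2 hp'.ne'
    have e : jac J l g p = ((‖p.1 - p.2‖ : ℝ) : ℂ) ^ finrank ℂ E *
        DET J ((fderiv ℂ g p.1).coprod (((‖p.1 - p.2‖ : ℝ) : ℂ)⁻¹ •
          (fderiv ℂ g p.1 - fderiv ℂ g p.2))) (l.comp (ContinuousLinearMap.fst ℂ E E)) := by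
      rw [← DET_smul, smul_smul, mul_inv_cancel₀ hpc, one_smul]
      rfl
    have h0 := hp.2
    rw [e, norm_mul, norm_pow, Complex.norm_real, norm_norm, mul_comm ε] at h0
    exact (lt_of_mul_lt_mul_left h0 (by positivity)).le
  have hD : DET J ((fderiv ℂ g 0).coprod (fderiv ℂ (fderiv ℂ g) 0 v))
      (l.comp (ContinuousLinearMap.fst ℂ E E)) ≠ 0 := norm_pos_iff.1 (hε.trans_le hge)
  have hsym : IsSymmSndFDerivAt ℂ g 0 := hg.contDiffAt.isSymmSndFDerivAt_of_omega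
  refine hc ⟨v, hv0, hAv, fun y => ?_⟩
  obtain ⟨⟨a, b⟩, hab⟩ := ((DET_ne_zero_iff J _ _).1 hD).2 (y, 0)
  refine ⟨a, b, ?_⟩
  rw [hsym.eq b v]
  exact congrArg Prod.fst hab

end Pool.Agent.MP_7e71a7_ag

end

-- part MP_7e71a7_ag.ChartThm
section

/-! Charts of the double point curve at transverse double points and at cross-caps. -/

open Filter Topology Set Function Metric Module

namespace Pool.Agent.MP_7e71a7_ag

open Pool.Agent.Lib.SCV

set_option linter.unusedSectionVars false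

variable {E F V X : Type} [NormedAddCommGroup E] [NormedSpace ℂ E] [FiniteDimensional ℂ E]
  [NormedAddCommGroup F] [NormedSpace ℂ F] [FiniteDimensional ℂ F]
  [NormedAddCommGroup V] [NormedSpace ℂ V] [FiniteDimensional ℂ V]
  [NormedAddCommGroup X] [NormedSpace ℂ X] [FiniteDimensional ℂ X]

omit [FiniteDimensional ℂ V] in
theorem chart_of_retr {Z : Set V} {p : V} {γ : ℂ → V} {π : V → ℂ} (han : AnalyticAt ℂ γ 0)
    (h0 : γ 0 = p) (hZ : ∀ᶠ t in 𝓝 (0 : ℂ), γ t ∈ Z) (hπ : Tendsto π (𝓝 p) (𝓝 0))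
    (h1 : ∀ᶠ t in 𝓝 (0 : ℂ), π (γ t) = t) (h2 : ∀ᶠ q in 𝓝 p, q ∈ Z → γ (π q) = q) :
    Chart Z p γ := by
  refine ⟨han, h0, ⟨_, h1, fun a ha b hb hab => ?_⟩, le_antisymm ?_ fun s hs => ?_⟩
  · have ha' : π (γ a) = a := ha
    have hb' : π (γ b) = b := hb
    rw [← ha', ← hb', hab]
  · exact tendsto_nhdsWithin_iff.2 ⟨h0 ▸ han.continuousAt, hZ⟩
  · have h3 : ∀ᶠ q in 𝓝 p, γ (π q) ∈ s := hπ.eventually (mem_map.1 hs)
    refine eventually_nhdsWithin_iff.2 ?_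
    filter_upwards [h2, h3] with q a1 a2 hq
    rwa [a1 hq] at a2

omit [FiniteDimensional ℂ V] in
theorem Chart.eventually_mem {Z : Set V} {p : V} {γ : ℂ → V} (h : Chart Z p γ) :
    ∀ᶠ t in 𝓝 (0 : ℂ), γ t ∈ Z := by
  have : Z ∈ Filter.map γ (𝓝 0) := h.map ▸ self_mem_nhdsWithin
  exact this

omit [FiniteDimensional ℂ V] in
theorem Chart.eventually_retr {Z : Set V} {p : V} {γ : ℂ → V} (h : Chart Z p γ) {π : V → ℂ}
    (h1 : ∀ᶠ t in 𝓝 (0 : ℂ), π (γ t) = t) : ∀ᶠ q in 𝓝 p, q ∈ Z → γ (π q) = q := by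
  have h2 : γ '' {t | π (γ t) = t} ∈ 𝓝[Z] p := h.map ▸ image_mem_map h1
  filter_upwards [eventually_nhdsWithin_iff.1 h2] with q hq hZ
  obtain ⟨t, ht, rfl⟩ := hq hZ
  have ht' : π (γ t) = t := ht
  rw [ht']

/-- Implicit function theorem for curves. -/
theorem chart_zero_set {Γ : V → X} {z : V} (hΓ : AnalyticAt ℂ Γ z) (h0 : Γ z = 0) (ℓ : V →L[ℂ] ℂ)
    (hb : Bijective ((fderiv ℂ Γ z).prod ℓ)) :
    ∃ γ : ℂ → V, Chart {q | Γ q = 0} z γ ∧ ∀ᶠ t in 𝓝 (0 : ℂ), ℓ (γ t) = ℓ z + t := by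
  have hΦ : AnalyticAt ℂ (fun q => (Γ q, ℓ q)) z := hΓ.prod (ℓ.analyticAt z)
  have hd : HasFDerivAt (fun q => (Γ q, ℓ q)) ((fderiv ℂ Γ z).prod ℓ) z :=
    hΓ.differentiableAt.hasFDerivAt.prodMk ℓ.hasFDerivAt
  obtain ⟨χ, hχ, hχ0, hl, hr⟩ := exists_local_inverse hΦ (hd.fderiv ▸ hb)
  have e0 : ((Γ z, ℓ z) : X × ℂ) = (0, ℓ z + 0) := by rw [h0, add_zero]
  rw [e0] at hχ hχ0 hr
  have hι : AnalyticAt ℂ (fun t : ℂ => ((0, ℓ z + t) : X × ℂ)) 0 :=
    analyticAt_const.prod (analyticAt_const.add analyticAt_id)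
  have hr' := hι.continuousAt.tendsto.eventually hr
  have h2 : ∀ᶠ t in 𝓝 (0 : ℂ), ℓ (χ (0, ℓ z + t)) = ℓ z + t :=
    hr'.mono fun t ht => congrArg Prod.snd ht
  refine ⟨fun t => χ (0, ℓ z + t), chart_of_retr (π := fun q => ℓ q - ℓ z)
    (AnalyticAt.comp (f := fun t : ℂ => ((0, ℓ z + t) : X × ℂ)) hχ hι) hχ0
    (hr'.mono fun t ht => congrArg Prod.fst ht) ?_ (h2.mono fun t ht => ?_) ?_, h2⟩
  · have : ContinuousAt (fun q => ℓ q - ℓ z) z := by fun_prop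
    simpa using this.tendsto
  · rw [ht]; ring
  · filter_upwards [hl] with q hq hZ
    have hZ' : Γ q = 0 := hZ
    rw [hZ'] at hq
    rw [add_sub_cancel]
    exact hq

theorem chart_ker_line {T : V →L[ℂ] X} (hT : Surjective T)
    (hd : finrank ℂ V = finrank ℂ X + 1) :
    (∃ τ, τ ≠ 0 ∧ T τ = 0) ∧ ∀ τ, τ ≠ 0 → T τ = 0 → ∀ a, T a = 0 → ∃ c : ℂ, c • τ = a := by
  have h1 := LinearMap.finrank_range_add_finrank_ker (T : V →ₗ[ℂ] X)
  rw [LinearMap.range_eq_top.2 hT, finrank_top] at h1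
  have h2 : finrank ℂ (LinearMap.ker (T : V →ₗ[ℂ] X)) = 1 := by omega
  constructor
  · obtain ⟨v, hv, -⟩ := finrank_eq_one_iff'.1 h2
    exact ⟨v, fun h => hv (Subtype.ext h), v.2⟩
  · intro τ h0 hτ a ha
    obtain ⟨c, hc⟩ := (finrank_eq_one_iff_of_nonzero'
      (⟨τ, hτ⟩ : LinearMap.ker (T : V →ₗ[ℂ] X)) (fun h => h0 (congrArg Subtype.val h))).1 h2 ⟨a, ha⟩
    exact ⟨c, congrArg Subtype.val hc⟩

theorem chart_bij {T : V →L[ℂ] X} {ℓ : V →L[ℂ] ℂ} (hd : finrank ℂ V = finrank ℂ X + 1)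
    (h : ∀ a, T a = 0 → ℓ a = 0 → a = 0) : Bijective (T.prod ℓ) := by
  have hi : Injective (T.prod ℓ) := by
    rw [injective_iff_map_eq_zero]
    intro a ha
    exact h a (congrArg Prod.fst ha) (congrArg Prod.snd ha)
  refine ⟨hi, (LinearMap.injective_iff_surjective_of_finrank_eq_finrank
    (f := (T.prod ℓ : V →ₗ[ℂ] X × ℂ)) ?_).1 hi⟩
  rw [finrank_prod, finrank_self, hd]

theorem chart_dim (J : (F × ℂ) ≃L[ℂ] (E × E)) : finrank ℂ (E × E) = finrank ℂ F + 1 := by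
  rw [← J.toLinearEquiv.finrank_eq, finrank_prod, finrank_self]

theorem chart_jac (J : (F × ℂ) ≃L[ℂ] (E × E)) (l : E →L[ℂ] ℂ) {g : E → F} {γ : ℂ → E × E}
    (hγ : AnalyticAt ℂ γ 0) (h1 : AnalyticAt ℂ g (γ 0).1) (h2 : AnalyticAt ℂ g (γ 0).2)
    (he : ∀ᶠ t in 𝓝 (0 : ℂ), g (γ t).1 = g (γ t).2) (ℓ₀ : E × E →L[ℂ] ℂ) (c : ℂ)
    (hℓ : ∀ᶠ t in 𝓝 (0 : ℂ), ℓ₀ ((γ t).1 - (γ t).2, (γ t).2) = c + t) :
    ∀ᶠ t in 𝓝 (0 : ℂ), jac J l g (γ t) =
      DET J ((fderiv ℂ g (γ t).1).coprod (fderiv ℂ g (γ t).1 - fderiv ℂ g (γ t).2)) ℓ₀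
        * deriv (fun t => ww l (γ t)) t := by
  filter_upwards [hγ.eventually_analyticAt,
    hγ.continuousAt.fst.tendsto.eventually h1.eventually_analyticAt,
    hγ.continuousAt.snd.tendsto.eventually h2.eventually_analyticAt,
    he.eventually_nhds, hℓ.eventually_nhds] with t a0 a1 a2 a3 a4
  have d0 := a0.differentiableAt.hasDerivAt
  have d1 : HasDerivAt (fun s => (γ s).1) (deriv γ t).1 t :=
    (ContinuousLinearMap.fst ℂ E E).hasFDerivAt.comp_hasDerivAt t d0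
  have d2 : HasDerivAt (fun s => (γ s).2) (deriv γ t).2 t :=
    (ContinuousLinearMap.snd ℂ E E).hasFDerivAt.comp_hasDerivAt t d0
  have e1 : fderiv ℂ g (γ t).1 (deriv γ t).1 = fderiv ℂ g (γ t).2 (deriv γ t).2 :=
    (a1.differentiableAt.hasFDerivAt.comp_hasDerivAt t d1).unique
      ((a2.differentiableAt.hasFDerivAt.comp_hasDerivAt t d2).congr_of_eventuallyEq a3)
  have e2 : ℓ₀ ((deriv γ t).1 - (deriv γ t).2, (deriv γ t).2) = 1 :=
    (ℓ₀.hasFDerivAt.comp_hasDerivAt t ((d1.sub d2).prodMk d2)).unique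
      (((hasDerivAt_id t).const_add c).congr_of_eventuallyEq a4)
  have e3 : deriv (fun t => ww l (γ t)) t = l ((deriv γ t).1 - (deriv γ t).2) :=
    (l.hasFDerivAt.comp_hasDerivAt t (d1.sub d2)).deriv
  rw [jac, DET_row J _ _ ℓ₀ (τ := ((deriv γ t).1 - (deriv γ t).2, (deriv γ t).2)) ?_ e2, e3,
    mul_comm]
  · rfl
  · simp only [ContinuousLinearMap.coprod_apply, map_sub, _root_.sub_apply, e1]
    abel

theorem chart_an (J : (F × ℂ) ≃L[ℂ] (E × E)) (ℓ : E × E →L[ℂ] ℂ) {A B : ℂ → E →L[ℂ] F}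
    (hA : AnalyticAt ℂ A 0) (hB : AnalyticAt ℂ B 0) :
    AnalyticAt ℂ (fun t => DET J ((A t).coprod (B t)) ℓ) 0 :=
  AnalyticAt.comp (g := fun T' => DET J T' ℓ) (f := fun t => (A t).coprod (B t))
    (analyticAt_DET J ℓ _)
    (AnalyticAt.comp (g := fun q : (E →L[ℂ] F) × (E →L[ℂ] F) => q.1.coprod q.2)
      (f := fun t => (A t, B t)) (analyticAt_coprod _) (hA.prod hB))

theorem chart_double (J : (F × ℂ) ≃L[ℂ] (E × E)) (l : E →L[ℂ] ℂ) {g : E → F} {p : E × E}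
    (h1 : AnalyticAt ℂ g p.1) (h2 : AnalyticAt ℂ g p.2) (hp : p.1 ≠ p.2) (he : g p.1 = g p.2)
    (ht : ∀ y : F, ∃ a b : E, fderiv ℂ g p.1 a + fderiv ℂ g p.2 b = y) :
    ∃ (γ : ℂ → E × E) (u : ℂ → ℂ), Chart (Dbar g) p γ ∧ AnalyticAt ℂ u 0 ∧ u 0 ≠ 0 ∧
      ∀ᶠ t in 𝓝 (0 : ℂ), jac J l g (γ t) = u t * deriv (fun t => ww l (γ t)) t := by
  have : CompleteSpace F := FiniteDimensional.complete ℂ F
  have hΓ : AnalyticAt ℂ (fun q : E × E => g q.1 - g q.2) p :=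
    (AnalyticAt.comp (f := Prod.fst) h1 analyticAt_fst).sub
      (AnalyticAt.comp (f := Prod.snd) h2 analyticAt_snd)
  have hd : HasFDerivAt (fun q : E × E => g q.1 - g q.2)
      ((fderiv ℂ g p.1).comp (ContinuousLinearMap.fst ℂ E E)
        - (fderiv ℂ g p.2).comp (ContinuousLinearMap.snd ℂ E E)) p :=
    (h1.differentiableAt.hasFDerivAt.comp p hasFDerivAt_fst).sub
      (h2.differentiableAt.hasFDerivAt.comp p hasFDerivAt_snd)
  have hs : Surjective (fderiv ℂ (fun q : E × E => g q.1 - g q.2) p) := by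
    intro y
    obtain ⟨a, b, hab⟩ := ht y
    refine ⟨(a, -b), ?_⟩
    rw [hd.fderiv, ← hab]
    simp
  obtain ⟨⟨τ, hτ0, hτ⟩, hk⟩ := chart_ker_line hs (chart_dim J)
  obtain ⟨ℓ, hℓ⟩ := SeparatingDual.exists_eq_one (R := ℂ) hτ0
  have hinj : ∀ a, fderiv ℂ (fun q : E × E => g q.1 - g q.2) p a = 0 → ℓ a = 0 → a = 0 := by
    intro a ha hl
    obtain ⟨c, rfl⟩ := hk τ hτ0 hτ a ha
    rw [map_smul, hℓ, smul_eq_mul, mul_one] at hl
    rw [hl, zero_smul]
  obtain ⟨γ, hγ, hγℓ⟩ := chart_zero_set hΓ (sub_eq_zero.2 he) ℓ (chart_bij (chart_dim J) hinj)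
  have hne : ∀ᶠ q : E × E in 𝓝 p, q.1 ≠ q.2 :=
    (isOpen_ne_fun continuous_fst continuous_snd).mem_nhds hp
  have h1' : AnalyticAt ℂ g (γ 0).1 := hγ.zero ▸ h1
  have h2' : AnalyticAt ℂ g (γ 0).2 := hγ.zero ▸ h2
  let ℓ₀ : E × E →L[ℂ] ℂ := ℓ.comp ((ContinuousLinearMap.fst ℂ E E
    + ContinuousLinearMap.snd ℂ E E).prod (ContinuousLinearMap.snd ℂ E E))
  have hℓ₀ : ∀ a b, ℓ₀ (a, b) = ℓ (a + b, b) := fun a b => rfl
  have hA : AnalyticAt ℂ (fun t => fderiv ℂ g (γ t).1) 0 :=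
    AnalyticAt.comp (f := fun t => (γ t).1) h1'.fderiv (analyticAt_fst.comp hγ.an)
  have hB : AnalyticAt ℂ (fun t => fderiv ℂ g (γ t).2) 0 :=
    AnalyticAt.comp (f := fun t => (γ t).2) h2'.fderiv (analyticAt_snd.comp hγ.an)
  refine ⟨γ, _, hγ.congr_set (nhdsWithin_eq_iff_eventuallyEq.2 ?_),
    chart_an J ℓ₀ hA (hA.sub hB), ?_, chart_jac J l hγ.an h1' h2'
      (hγ.eventually_mem.mono fun t ht => sub_eq_zero.1 ht) ℓ₀ (ℓ p) ?_⟩
  · filter_upwards [hne] with q hq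
    refine propext ⟨fun h => Or.inl ⟨hq, sub_eq_zero.1 h⟩, fun h => sub_eq_zero.2 (Dbar.eq h)⟩
  · refine DET_ne_zero_of_injective J _ _ fun a ha hl => ?_
    obtain ⟨a, b⟩ := a
    have h3 := hinj (a + b, b) (by
      rw [hd.fderiv, ← ha]
      simp only [hγ.zero, Pi.sub_apply, ContinuousLinearMap.coprod_apply, map_add,
        _root_.sub_apply, ContinuousLinearMap.comp_apply,
        ContinuousLinearMap.coe_fst', ContinuousLinearMap.coe_snd']
      abel) hl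
    have hb : b = 0 := congrArg Prod.snd h3
    have ha' : a + b = 0 := congrArg Prod.fst h3
    rw [hb, add_zero] at ha'
    rw [ha', hb]
    rfl
  · filter_upwards [hγℓ] with t ht
    rw [hℓ₀, sub_add_cancel]
    exact ht

/-- Near a cross-cap the direction of a double point is close to the kernel line. -/
theorem chart_dir {g : E → F} {x₀ v₀ : E} (h1 : AnalyticAt ℂ g x₀) {m : E →L[ℂ] ℂ}
    (hm : m v₀ = 1) (hv : fderiv ℂ g x₀ v₀ = 0)
    (hk : ∀ w, fderiv ℂ g x₀ w = 0 → m w = 0 → w = 0) {η : ℝ} (hη : 0 < η) :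
    ∀ᶠ q : E × E in 𝓝 (x₀, x₀), q ∈ Dbar g → ∃ v, ‖v - v₀‖ < η ∧ m v = 1 ∧
      q.1 - q.2 = m (q.1 - q.2) • v ∧ (q.1 = q.2 → fderiv ℂ g q.2 v = 0) := by
  have : CompleteSpace F := FiniteDimensional.complete ℂ F
  obtain ⟨K, hK0, hK⟩ := LinearMap.exists_antilipschitzWith
    (((fderiv ℂ g x₀).prod m : E →L[ℂ] F × ℂ) : E →ₗ[ℂ] F × ℂ) (by
      rw [LinearMap.ker_eq_bot']
      intro w hw
      exact hk w (congrArg Prod.fst hw) (congrArg Prod.snd hw))
  have hK0' : (0 : ℝ) < K := hK0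
  have hb : ∀ w, m w = 0 → ‖w‖ ≤ K * ‖fderiv ℂ g x₀ w‖ := by
    intro w hw
    have h := hK.le_mul_dist w 0
    simpa [hw, Prod.norm_def] using h
  obtain ⟨ε, hε, hε1, hε2⟩ : ∃ ε : ℝ, 0 < ε ∧ K * ε ≤ 1 / 2 ∧ K * ε * (2 * ‖v₀‖) < η := by
    have t1 : Tendsto (fun ε : ℝ => (K : ℝ) * ε) (𝓝[>] 0) (𝓝 0) := by
      have : ContinuousAt (fun ε : ℝ => (K : ℝ) * ε) 0 := by fun_prop
      simpa using this.tendsto.mono_left nhdsWithin_le_nhds
    have t2 : Tendsto (fun ε : ℝ => (K : ℝ) * ε * (2 * ‖v₀‖)) (𝓝[>] 0) (𝓝 0) := by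
      simpa using t1.mul_const (2 * ‖v₀‖)
    obtain ⟨ε, a1, a2, a3⟩ := ((eventually_mem_nhdsWithin (s := Ioi (0 : ℝ)) (a := 0)).and
      ((t1.eventually (ge_mem_nhds (by norm_num : (0 : ℝ) < 1 / 2))).and
        (t2.eventually (gt_mem_nhds hη)))).exists
    exact ⟨ε, a1, a2, a3⟩
  have key : ∀ W : E, W ≠ 0 → ‖fderiv ℂ g x₀ W‖ ≤ ε * ‖W‖ →
      m W ≠ 0 ∧ ‖(m W)⁻¹ • W - v₀‖ < η := by
    intro W hW hA
    have a0 : 0 < ‖W‖ := norm_pos_iff.2 hW
    have a1 : ‖W - m W • v₀‖ ≤ K * ε * ‖W‖ := by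
      refine (hb _ (by simp [hm])).trans ?_
      rw [map_sub, map_smul, hv, smul_zero, sub_zero, mul_assoc]
      exact mul_le_mul_of_nonneg_left hA hK0'.le
    have a2 : ‖W‖ ≤ ‖m W‖ * ‖v₀‖ + K * ε * ‖W‖ := by
      calc ‖W‖ = ‖m W • v₀ + (W - m W • v₀)‖ := by rw [add_sub_cancel]
        _ ≤ ‖m W • v₀‖ + ‖W - m W • v₀‖ := norm_add_le _ _
        _ ≤ _ := by rw [norm_smul]; linarith
    have a3 : ‖W‖ ≤ ‖m W‖ * (2 * ‖v₀‖) := by nlinarith
    have a4 : m W ≠ 0 := fun h => by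
      rw [h, norm_zero, zero_mul] at a3
      linarith
    have a5 : 0 < ‖m W‖ := norm_pos_iff.2 a4
    refine ⟨a4, ?_⟩
    have e : (m W)⁻¹ • W - v₀ = (m W)⁻¹ • (W - m W • v₀) := by
      rw [smul_sub, smul_smul, inv_mul_cancel₀ a4, one_smul]
    rw [e, norm_smul, norm_inv, inv_mul_lt_iff₀ a5]
    have a6 : K * ε * ‖W‖ ≤ K * ε * (‖m W‖ * (2 * ‖v₀‖)) :=
      mul_le_mul_of_nonneg_left a3 (by positivity)
    nlinarith
  have s1 := h1.hasStrictFDerivAt.isLittleO.def hε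
  have s2 : ∀ᶠ q : E × E in 𝓝 (x₀, x₀), ‖fderiv ℂ g x₀ - fderiv ℂ g q.2‖ < ε := by
    have c : ContinuousAt (fun q : E × E => ‖fderiv ℂ g x₀ - fderiv ℂ g q.2‖) (x₀, x₀) :=
      (continuousAt_const.sub (ContinuousAt.comp (f := Prod.snd) (g := fderiv ℂ g)
        h1.fderiv.continuousAt continuousAt_snd)).norm
    exact c.tendsto.eventually (gt_mem_nhds (by simpa using hε))
  filter_upwards [s1, s2] with q b1 b2 hq
  rcases hq with ⟨hne, he⟩ | ⟨he, hni⟩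
  · rw [he, sub_self, zero_sub, norm_neg] at b1
    obtain ⟨c1, c2⟩ := key _ (sub_ne_zero.2 hne) b1
    refine ⟨_, c2, by rw [map_smul, smul_eq_mul, inv_mul_cancel₀ c1], ?_, fun h => absurd h hne⟩
    rw [smul_smul, mul_inv_cancel₀ c1, one_smul]
  · rw [injective_iff_map_eq_zero] at hni
    push Not at hni
    obtain ⟨W, hW, hW0⟩ := hni
    rw [he] at hW
    obtain ⟨c1, c2⟩ := key W hW0 (by
      have : fderiv ℂ g x₀ W = (fderiv ℂ g x₀ - fderiv ℂ g q.2) W := by simp [hW]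
      rw [this]
      exact (ContinuousLinearMap.le_opNorm _ _).trans
        (mul_le_mul_of_nonneg_right b2.le (norm_nonneg _)))
    refine ⟨_, c2, by rw [map_smul, smul_eq_mul, inv_mul_cancel₀ c1], by simp [he], fun _ => ?_⟩
    rw [map_smul, hW, smul_zero]

theorem chart_cross (J : (F × ℂ) ≃L[ℂ] (E × E)) (l : E →L[ℂ] ℂ) {g : E → F} {x₀ : E}
    (h1 : AnalyticAt ℂ g x₀) (hc : CrossCap g x₀) :
    ∃ (γ : ℂ → E × E) (u : ℂ → ℂ), Chart (Dbar g) (x₀, x₀) γ ∧ AnalyticAt ℂ u 0 ∧ u 0 ≠ 0 ∧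
      (∀ᶠ t in 𝓝 (0 : ℂ),
        jac J l g (γ t) = t ^ finrank ℂ E * u t * deriv (fun t => ww l (γ t)) t) ∧
      ∀ᶠ t in 𝓝[≠] (0 : ℂ), (γ t).1 ≠ (γ t).2 := by
  have : CompleteSpace F := FiniteDimensional.complete ℂ F
  obtain ⟨v₀, hv0, hv, hon⟩ := hc
  obtain ⟨m, hm⟩ := SeparatingDual.exists_eq_one (R := ℂ) hv0
  -- the kernel of the onto map
  have hker : ∀ a b : E, fderiv ℂ g x₀ a + fderiv ℂ (fderiv ℂ g) x₀ b v₀ = 0 → m a = 0 →
      a = 0 ∧ b = 0 := by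
    intro a b hab ha
    have hs : Surjective ((fderiv ℂ g x₀).coprod ((fderiv ℂ (fderiv ℂ g) x₀).flip v₀)) := by
      intro y
      obtain ⟨a, b, h⟩ := hon y
      exact ⟨(a, b), h⟩
    obtain ⟨c, hc⟩ := (chart_ker_line hs (chart_dim J)).2 (v₀, 0)
      (fun h => hv0 (congrArg Prod.fst h)) (by simp [hv]) (a, b) hab
    have e1 : c • v₀ = a := congrArg Prod.fst hc
    have e2 : c • (0 : E) = b := congrArg Prod.snd hc
    rw [← e1, map_smul, hm, smul_eq_mul, mul_one] at ha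
    rw [← e1, ← e2, ha]
    simp
  -- the divided difference
  have hL : ∀ q : ℂ × E × E, AnalyticAt ℂ (fun q : ℂ × E × E => q.2.1 + q.1 • q.2.2) q := fun q =>
    (analyticAt_fst.comp analyticAt_snd).add
      (analyticAt_fst.smul (analyticAt_snd.comp analyticAt_snd))
  have hGan : ∀ x v : E, AnalyticAt ℂ g x →
      AnalyticAt ℂ (fun q : ℂ × E × E => g (q.2.1 + q.1 • q.2.2) - g q.2.1) (0, x, v) := by
    intro x v hx
    refine (AnalyticAt.comp (f := fun q : ℂ × E × E => q.2.1 + q.1 • q.2.2) ?_ (hL _)).sub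
      (AnalyticAt.comp (f := fun q : ℂ × E × E => q.2.1) hx (analyticAt_fst.comp analyticAt_snd))
    simpa using hx
  obtain ⟨Q, hQ, hQ1, hQ2⟩ := exists_div (hGan x₀ v₀ h1) (Eventually.of_forall fun p => by simp)
  have hQ3 : ∀ᶠ p : E × E in 𝓝 (x₀, v₀), Q (0, p) = fderiv ℂ g p.1 p.2 := by
    filter_upwards [hQ2, continuousAt_fst.tendsto.eventually h1.eventually_analyticAt] with p a1 a2
    rw [a1]
    have d1 : HasDerivAt (fun s : ℂ => ((s, p) : ℂ × E × E)) (1, 0) 0 :=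
      (hasDerivAt_id 0).prodMk (hasDerivAt_const 0 p)
    have d2 := (hGan p.1 p.2 a2).differentiableAt.hasFDerivAt.comp_hasDerivAt (0 : ℂ) d1
    have d3 : HasDerivAt (fun s : ℂ => p.1 + s • p.2) p.2 0 := by
      simpa using ((hasDerivAt_id (0 : ℂ)).smul_const p.2).const_add p.1
    have d4 : HasFDerivAt g (fderiv ℂ g p.1) (p.1 + (0 : ℂ) • p.2) := by
      simpa using a2.differentiableAt.hasFDerivAt
    exact d2.unique ((d4.comp_hasDerivAt (0 : ℂ) d3).sub_const (g p.1))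
  have hQ4 : ∀ a b : E, fderiv ℂ Q (0, x₀, v₀) (0, a, b)
      = fderiv ℂ g x₀ b + fderiv ℂ (fderiv ℂ g) x₀ a v₀ := by
    intro a b
    have d1 : HasFDerivAt (fun p : E × E => Q (0, p))
        ((fderiv ℂ Q (0, x₀, v₀)).comp (ContinuousLinearMap.inr ℂ ℂ (E × E))) (x₀, v₀) :=
      hQ.differentiableAt.hasFDerivAt.comp (x₀, v₀) (hasFDerivAt_prodMk_right 0 (x₀, v₀))
    have d2 := ((h1.fderiv.differentiableAt.hasFDerivAt.comp (x₀, v₀)
      (hasFDerivAt_fst (𝕜 := ℂ) (p := (x₀, v₀)))).clm_apply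
        (hasFDerivAt_snd (𝕜 := ℂ) (p := (x₀, v₀))))
    have e := d1.unique (d2.congr_of_eventuallyEq hQ3)
    simpa using congrArg (fun T => T (a, b)) e
  have hΓ : AnalyticAt ℂ (fun q : ℂ × E × E => (Q q, m q.2.2 - 1)) (0, x₀, v₀) :=
    hQ.prod (((m.analyticAt _).comp (analyticAt_snd.comp analyticAt_snd)).sub analyticAt_const)
  have hΓd : HasFDerivAt (fun q : ℂ × E × E => (Q q, m q.2.2 - 1))
      ((fderiv ℂ Q (0, x₀, v₀)).prod (m.comp ((ContinuousLinearMap.snd ℂ E E).comp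
        (ContinuousLinearMap.snd ℂ ℂ (E × E))))) (0, x₀, v₀) :=
    hQ.differentiableAt.hasFDerivAt.prodMk ((m.comp ((ContinuousLinearMap.snd ℂ E E).comp
        (ContinuousLinearMap.snd ℂ ℂ (E × E)))).hasFDerivAt.sub_const 1)
  obtain ⟨δ, hδ, hδ1⟩ := chart_zero_set hΓ (by simp [hQ3.self_of_nhds, hv, hm])
    (ContinuousLinearMap.fst ℂ ℂ (E × E)) (chart_bij (by
      rw [finrank_prod, finrank_self, J.toLinearEquiv.finrank_eq, add_comm]) (by
      rintro ⟨s, a, b⟩ h2 h3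
      obtain rfl : s = 0 := h3
      rw [hΓd.fderiv] at h2
      have h4 : fderiv ℂ Q (0, x₀, v₀) (0, a, b) = 0 := congrArg Prod.fst h2
      obtain ⟨rfl, rfl⟩ := hker b a (hQ4 a b ▸ h4) (congrArg Prod.snd h2)
      rfl))
  replace hδ1 : ∀ᶠ t in 𝓝 (0 : ℂ), (δ t).1 = t := hδ1.mono fun t ht => by simpa using ht
  have hx : AnalyticAt ℂ (fun t => (δ t).2.1) 0 := analyticAt_fst.comp (analyticAt_snd.comp hδ.an)
  have hw : AnalyticAt ℂ (fun t => (δ t).2.2) 0 := analyticAt_snd.comp (analyticAt_snd.comp hδ.an)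
  have hy : AnalyticAt ℂ (fun t : ℂ => (δ t).2.1 + t • (δ t).2.2) 0 :=
    hx.add (analyticAt_id.smul hw)
  set γ : ℂ → E × E := fun t => ((δ t).2.1 + t • (δ t).2.2, (δ t).2.1) with hγ
  have hγan : AnalyticAt ℂ γ 0 := hy.prod hx
  have hγ0 : γ 0 = (x₀, x₀) := by simp [hγ, hδ.zero]
  have hW : ∀ t, (γ t).1 - (γ t).2 = t • (δ t).2.2 := fun t => by simp [hγ]
  have hmem := hδ.eventually_mem
  have hπ : ∀ᶠ t in 𝓝 (0 : ℂ), m ((γ t).1 - (γ t).2) = t := by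
    filter_upwards [hmem] with t ht
    have h2 : m (δ t).2.2 - 1 = 0 := congrArg Prod.snd ht
    rw [hW, map_smul, sub_eq_zero.1 h2, smul_eq_mul, mul_one]
  have heq : ∀ᶠ t in 𝓝 (0 : ℂ), g (γ t).1 = g (γ t).2 := by
    filter_upwards [hmem, hδ1, (hδ.zero ▸ hδ.an.continuousAt.tendsto).eventually hQ1]
      with t a1 a2 a3
    have h2 : Q (δ t) = 0 := congrArg Prod.fst a1
    rw [h2, smul_zero, a2] at a3
    exact sub_eq_zero.1 a3
  have hne : ∀ t, m ((γ t).1 - (γ t).2) = t → t ≠ 0 → (γ t).1 ≠ (γ t).2 := by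
    intro t a1 a2 a3
    rw [a3, sub_self, map_zero] at a1
    exact a2 a1.symm
  have hch : Chart (Dbar g) (x₀, x₀) γ := by
    refine chart_of_retr (π := fun q => m (q.1 - q.2)) hγan hγ0 ?_ ?_ hπ ?_
    · filter_upwards [hπ, heq] with t a1 a2
      by_cases ht : t = 0
      · rw [ht, hγ0]
        exact Or.inr ⟨rfl, fun h => hv0 (h (hv.trans (map_zero _).symm))⟩
      · exact Or.inl ⟨hne t a1 ht, a2⟩
    · have : ContinuousAt (fun q : E × E => m (q.1 - q.2)) (x₀, x₀) := by fun_prop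
      simpa using this.tendsto
    · have k1 := hδ.eventually_retr (π := fun q => q.1) hδ1
      have k2 : ∀ᶠ q : ℂ × E × E in 𝓝 (0, x₀, v₀), Q (0, q.2) = fderiv ℂ g q.2.1 q.2.2 :=
        (continuousAt_snd (p := ((0, x₀, v₀) : ℂ × E × E))).tendsto.eventually hQ3
      obtain ⟨η, hη, hall⟩ := Metric.eventually_nhds_iff.1 (k1.and (k2.and hQ1))
      have k3 : ∀ᶠ q : E × E in 𝓝 (x₀, x₀), dist (m (q.1 - q.2)) 0 < η := by
        have : ContinuousAt (fun q : E × E => dist (m (q.1 - q.2)) 0) (x₀, x₀) := by fun_prop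
        exact this.tendsto.eventually (gt_mem_nhds (by simpa using hη))
      have k4 : ∀ᶠ q : E × E in 𝓝 (x₀, x₀), dist q.2 x₀ < η := by
        have : ContinuousAt (fun q : E × E => dist q.2 x₀) (x₀, x₀) := by fun_prop
        exact this.tendsto.eventually (gt_mem_nhds (by simpa using hη))
      filter_upwards [k3, k4, chart_dir h1 hm hv
        (fun w a1 a2 => (hker w 0 (by simpa using a1) a2).1) hη] with q a1 a2 a3 hq
      obtain ⟨v, b1, b2, b3, b4⟩ := a3 hq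
      obtain ⟨c1, c2, c3⟩ := hall (y := (m (q.1 - q.2), q.2, v)) (by
        rw [Prod.dist_eq, Prod.dist_eq]
        exact max_lt a1 (max_lt a2 (by rwa [dist_eq_norm])))
      have e1 : q.2 + m (q.1 - q.2) • v = q.1 := by rw [← b3, add_sub_cancel]
      have hQ0 : Q (m (q.1 - q.2), q.2, v) = 0 := by
        by_cases h : q.1 = q.2
        · have h' : m (q.1 - q.2) = 0 := by simp [h]
          rw [h']
          exact c2.trans (b4 h)
        · have h' : m (q.1 - q.2) ≠ 0 := fun h0 => by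
            rw [h0, zero_smul] at b3
            exact h (sub_eq_zero.1 b3)
          simp only at c3
          rw [e1, Dbar.eq hq, sub_self] at c3
          exact (smul_eq_zero.1 c3.symm).resolve_left h'
      have c4 := c1 (Prod.ext hQ0 (sub_eq_zero.2 b2))
      simp only at c4
      simp only [hγ, c4, e1]
  have h1' : AnalyticAt ℂ g (γ 0).1 := by rw [hγ0]; exact h1
  have h2' : AnalyticAt ℂ g (γ 0).2 := by rw [hγ0]; exact h1
  have hA : AnalyticAt ℂ (fun t => fderiv ℂ g (γ t).1) 0 :=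
    AnalyticAt.comp (f := fun t => (γ t).1) h1'.fderiv hy
  have hB : AnalyticAt ℂ (fun t => fderiv ℂ g (γ t).2) 0 :=
    AnalyticAt.comp (f := fun t => (γ t).2) h2'.fderiv hx
  set D : ℂ → E →L[ℂ] F := fun t => fderiv ℂ g (γ t).1 - fderiv ℂ g (γ t).2 with hD
  have hDan : AnalyticAt ℂ (dslope D 0) 0 := by
    obtain ⟨p, hp⟩ := hA.sub hB
    exact ⟨_, hp.has_fpower_series_dslope_fslope⟩
  have hD0 : D 0 = 0 := by simp [hD, hγ0]
  have hD1 : dslope D 0 0 = fderiv ℂ (fderiv ℂ g) x₀ v₀ := by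
    rw [dslope_same]
    have d0 : HasFDerivAt (fderiv ℂ g) (fderiv ℂ (fderiv ℂ g) x₀) x₀ :=
      h1.fderiv.differentiableAt.hasFDerivAt
    have d1 := hx.differentiableAt.hasDerivAt
    have d2 := d1.add ((hasDerivAt_id (0 : ℂ)).smul hw.differentiableAt.hasDerivAt)
    have e1 : x₀ = (γ 0).1 := by rw [hγ0]
    have e2 : x₀ = (γ 0).2 := by rw [hγ0]
    have d3 := (d0.comp_hasDerivAt_of_eq (0 : ℂ) (f := fun t => (γ t).1) d2 e1).sub
      (d0.comp_hasDerivAt_of_eq (0 : ℂ) (f := fun t => (γ t).2) d1 e2)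
    refine d3.deriv.trans ?_
    simp [hδ.zero]
  refine ⟨γ, fun t => DET J ((fderiv ℂ g (γ t).1).coprod (dslope D 0 t))
    (m.comp (ContinuousLinearMap.fst ℂ E E)), hch, chart_an J _ hA hDan, ?_, ?_, ?_⟩
  · refine DET_ne_zero_of_injective J _ _ fun a ha hl => ?_
    obtain ⟨a, b⟩ := a
    rw [hD1, hγ0, ContinuousLinearMap.coprod_apply,
      h1.contDiffAt.isSymmSndFDerivAt_of_omega.eq v₀ b] at ha
    obtain ⟨rfl, rfl⟩ := hker a b ha hl
    rfl
  · filter_upwards [chart_jac J l hγan h1' h2' heq (m.comp (ContinuousLinearMap.fst ℂ E E)) 0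
      (hπ.mono fun t ht => by simpa using ht)] with t ht
    have e : fderiv ℂ g (γ t).1 - fderiv ℂ g (γ t).2 = t • dslope D 0 t := by
      have := sub_smul_dslope_of_zero hD0 t
      rw [sub_zero] at this
      exact this.symm
    rw [ht, e, DET_smul]
  · filter_upwards [hπ.filter_mono nhdsWithin_le_nhds, self_mem_nhdsWithin] with t a1 a2
    exact hne t a1 a2

open Classical in
theorem chart_of_nice (J : (F × ℂ) ≃L[ℂ] (E × E)) (l : E →L[ℂ] ℂ) {g : E → F} {p : E × E}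
    (h1 : AnalyticAt ℂ g p.1) (h2 : AnalyticAt ℂ g p.2) (hp : p ∈ Dbar g) (hn : Nice g p) :
    ∃ (γ : ℂ → E × E) (u : ℂ → ℂ), Chart (Dbar g) p γ ∧ AnalyticAt ℂ u 0 ∧ u 0 ≠ 0 ∧
      (∀ᶠ t in 𝓝 (0 : ℂ), jac J l g (γ t) =
        t ^ (if p.1 = p.2 then finrank ℂ E else 0) * u t * deriv (fun t => ww l (γ t)) t) ∧
      ∀ᶠ t in 𝓝[≠] (0 : ℂ), (γ t).1 ≠ (γ t).2 := by
  rcases hn with ⟨hne, ht⟩ | ⟨he, hc⟩
  · obtain ⟨γ, u, hγ, hu, hu0, hj⟩ := chart_double J l h1 h2 hne (Dbar.eq hp) ht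
    refine ⟨γ, u, hγ, hu, hu0, by simpa [hne] using hj, ?_⟩
    have hc : ContinuousAt (fun t => (γ t).1 - (γ t).2) 0 :=
      hγ.an.continuousAt.fst.sub hγ.an.continuousAt.snd
    have : ∀ᶠ t in 𝓝 (0 : ℂ), (γ t).1 - (γ t).2 ≠ 0 :=
      hc.eventually_ne (by simpa [hγ.zero, sub_eq_zero] using hne)
    exact (this.mono fun t ht => sub_ne_zero.1 ht).filter_mono nhdsWithin_le_nhds
  · obtain ⟨x, x'⟩ := p
    obtain rfl : x = x' := he
    simpa using chart_cross J l h1 hc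

end Pool.Agent.MP_7e71a7_ag

end

-- part MP_7e71a7_ag.Cont
section

/-! Fibres of maps on compact sets; continuity in parameters. -/

open Filter Topology Set Function Metric Module

namespace Pool.Agent.MP_7e71a7_ag

open Pool.Agent.Lib.SCV

variable {E F P V : Type} [NormedAddCommGroup E] [NormedSpace ℂ E] [FiniteDimensional ℂ E]
  [NormedAddCommGroup F] [NormedSpace ℂ F] [FiniteDimensional ℂ F]
  [NormedAddCommGroup P] [NormedSpace ℂ P] [FiniteDimensional ℂ P]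
  [NormedAddCommGroup V] [NormedSpace ℂ V]

/- HINT. `Set.Finite.t2_separation`; the compact set `Z \ ⋃ U' p` has closed image not containing
`b`. -/
/-- Fibre decomposition. -/
theorem fib_decomp {B : Type} [TopologicalSpace B] [T2Space B] {Z : Set V} (hZ : IsCompact Z)
    {π : V → B} (hπ : Continuous π) {b : B} (hfin : (fib Z π b).Finite) (U : V → Set V)
    (hU : ∀ p ∈ fib Z π b, U p ∈ 𝓝[Z] p) :
    ∃ U' : V → Set V, (∀ p ∈ fib Z π b, U' p ∈ 𝓝[Z] p ∧ U' p ⊆ U p ∩ Z) ∧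
      (fib Z π b).PairwiseDisjoint U' ∧
      ∀ᶠ y in 𝓝 b, fib Z π y ⊆ ⋃ p ∈ fib Z π b, U' p := by
  obtain ⟨W, hW, hWd⟩ := hfin.t2_separation
  choose! O hOo hOp hOU using fun p hp => mem_nhdsWithin.1 (hU p hp)
  refine ⟨fun p => W p ∩ O p ∩ Z, fun p hp => ⟨?_, fun q hq => ⟨hOU p hp ⟨hq.1.2, hq.2⟩, hq.2⟩⟩,
    hWd.mono fun p q hq => hq.1.1, ?_⟩
  · exact inter_mem (mem_nhdsWithin_of_mem_nhds
      (((hW p).2.inter (hOo p hp)).mem_nhds ⟨(hW p).1, hOp p hp⟩)) self_mem_nhdsWithin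
  · have hc : IsCompact (Z \ ⋃ p ∈ fib Z π b, W p ∩ O p) :=
      hZ.diff (isOpen_biUnion fun p hp => (hW p).2.inter (hOo p hp))
    have hb : b ∉ π '' (Z \ ⋃ p ∈ fib Z π b, W p ∩ O p) := by
      rintro ⟨q, hq, hqb⟩
      exact hq.2 (mem_biUnion (show q ∈ fib Z π b from ⟨hq.1, hqb⟩)
        ⟨(hW q).1, hOp q ⟨hq.1, hqb⟩⟩)
    filter_upwards [(hc.image hπ).isClosed.isOpen_compl.mem_nhds hb] with y hy q hq
    by_contra hn
    refine hy ⟨q, ⟨hq.1, fun h => hn ?_⟩, hq.2⟩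
    obtain ⟨p, hp, hqp⟩ := mem_iUnion₂.1 h
    exact mem_biUnion hp ⟨hqp, hq.1⟩

/- HINT. `fib_decomp` with `U p` an injectivity domain; near `b` every `U' p` contains exactly one
point `σ p y` of the fibre, and `σ p y → p` within `Z` (for a smaller neighbourhood `W` of `p`,
eventually `y ∈ π '' (W ∩ U' p)`). `finprod_mem_eq_of_bijOn`, `tendsto_finset_prod`. -/
theorem fib_param {B : Type} [TopologicalSpace B] [T2Space B] {Z : Set V} (hZ : IsCompact Z)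
    {π : V → B} (hπ : Continuous π) {b : B}
    (hopen : ∀ p ∈ fib Z π b, 𝓝 b ≤ map π (𝓝[Z] p))
    (hinj : ∀ p ∈ fib Z π b, ∃ U ∈ 𝓝[Z] p, InjOn π U) {G : V → ℂ}
    (hG : ∀ p ∈ fib Z π b, ContinuousWithinAt G Z p) :
    (fib Z π b).Finite ∧
    ContinuousAt (fun y => ∏ᶠ p ∈ fib Z π y, G p) b ∧
      ∀ᶠ y in 𝓝 b, (fib Z π y).Finite ∧ (fib Z π y).ncard = (fib Z π b).ncard := by
  choose! U hU hUi using hinj
  have hfin : (fib Z π b).Finite := by
    have hc : IsCompact (fib Z π b) := hZ.inter_right (isClosed_singleton.preimage hπ)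
    have := hc.induction_on (p := fun t => (t ∩ fib Z π b).Finite) (by simp)
      (fun s t hst ht => ht.subset (inter_subset_inter_left _ hst))
      (fun s t hs ht => by rw [union_inter_distrib_right]; exact hs.union ht)
      (fun x hx => ⟨U x, nhdsWithin_mono x (fun q hq => hq.1) (hU x hx),
        (finite_singleton x).subset fun q hq =>
          hUi x hx hq.1 (mem_of_mem_nhdsWithin hx.1 (hU x hx)) (hq.2.2.trans hx.2.symm)⟩)
    rwa [inter_self] at this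
  obtain ⟨U', h1, h2, h3⟩ := fib_decomp hZ hπ hfin U hU
  have hi : ∀ p ∈ fib Z π b, InjOn π (U' p) := fun p hp =>
    (hUi p hp).mono fun q hq => ((h1 p hp).2 hq).1
  have hbij : ∀ᶠ y in 𝓝 b, BijOn (fun p => invFunOn π (U' p) y) (fib Z π b) (fib Z π y) := by
    have h4 : ∀ᶠ y in 𝓝 b, ∀ p ∈ fib Z π b, y ∈ π '' U' p :=
      (eventually_all_finite hfin).2 fun p hp => hopen p hp (image_mem_map (h1 p hp).1)
    filter_upwards [h3, h4] with y hy hy'
    refine ⟨fun p hp => ⟨((h1 p hp).2 (invFunOn_mem (hy' p hp))).2, invFunOn_eq (hy' p hp)⟩,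
      fun p hp q hq hpq => ?_, fun q hq => ?_⟩
    · by_contra hne
      have hq' := invFunOn_mem (hy' q hq)
      simp only at hpq
      rw [← hpq] at hq'
      exact disjoint_left.1 (h2 hp hq hne) (invFunOn_mem (hy' p hp)) hq'
    · obtain ⟨p, hp, hqp⟩ := mem_iUnion₂.1 (hy hq)
      refine ⟨p, hp, ?_⟩
      rw [← hq.2]
      exact (hi p hp).leftInvOn_invFunOn hqp
  refine ⟨hfin, ?_, hbij.mono fun y hy => ⟨hfin.of_surjOn _ hy.surjOn, hy.ncard_eq.symm⟩⟩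
  have ht : ∀ p ∈ hfin.toFinset, Tendsto (fun y => G (invFunOn π (U' p) y)) (𝓝 b) (𝓝 (G p)) := by
    intro p hp
    rw [Finite.mem_toFinset] at hp
    refine (hG p hp).tendsto.comp (tendsto_def.2 fun W hW => ?_)
    filter_upwards [hopen p hp (image_mem_map (inter_mem hW (h1 p hp).1))] with y hy
    obtain ⟨q, hq, rfl⟩ := hy
    rw [mem_preimage, (hi p hp).leftInvOn_invFunOn hq.2]
    exact hq.1
  rw [ContinuousAt, finprod_mem_eq_finite_toFinset_prod _ hfin]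
  refine (tendsto_finsetProd _ ht).congr' ?_
  filter_upwards [hbij] with y hy
  rw [← finprod_mem_eq_finite_toFinset_prod (fun p => G (invFunOn π (U' p) y)) hfin]
  exact finprod_mem_eq_of_bijOn _ hy fun _ _ => rfl

/- HINT. Disjoint neighbourhoods of the points of `s`, each with image a neighbourhood of `b`. -/
/-- Lower semicontinuity of the number of points in the fibre. -/
theorem fib_lsc {B : Type} [TopologicalSpace B] {Z : Set V} {π : V → B} {b : B} (s : Finset V)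
    (hopen : ∀ p ∈ s, 𝓝 b ≤ map π (𝓝[Z] p)) :
    ∀ᶠ y in 𝓝 b, (fib Z π y).Finite → s.card ≤ (fib Z π y).ncard := by
  obtain ⟨W, hW, hWd⟩ := s.finite_toSet.t2_separation
  have h4 : ∀ᶠ y in 𝓝 b, ∀ p ∈ s, y ∈ π '' (W p ∩ Z) :=
    (eventually_all_finset s).2 fun p hp => hopen p hp (image_mem_map (inter_mem
      (mem_nhdsWithin_of_mem_nhds ((hW p).2.mem_nhds (hW p).1)) self_mem_nhdsWithin))
  filter_upwards [h4] with y hy hfin
  choose! σ hσ hσy using hy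
  rw [← ncard_coe_finset]
  refine ncard_le_ncard_of_injOn σ (fun p hp => ⟨(hσ p hp).2, hσy p hp⟩)
    (fun p hp q hq hpq => ?_) hfin
  by_contra hne
  have hq' := (hσ q hq).1
  rw [← hpq] at hq'
  exact disjoint_left.1 (hWd hp hq hne) (hσ p hp).1 hq'

/- HINT. For `U ∈ 𝓝 z`, `Γ '' U ∈ 𝓝 (0, b)`, pull back by `b' ↦ (0, b')`. -/
theorem slice_open {X B : Type} [TopologicalSpace X] [Zero X] [TopologicalSpace B] {Z : Set V}
    {Γ : V → X × B} {z : V} (h0 : (Γ z).1 = 0) (hopen : 𝓝 (Γ z) ≤ map Γ (𝓝 z))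
    (hZ : ∀ᶠ q in 𝓝 z, (Γ q).1 = 0 → q ∈ Z) :
    𝓝 (Γ z).2 ≤ map (fun q => (Γ q).2) (𝓝[Z] z) := by
  intro S hS
  have h1 : ∀ᶠ q in 𝓝 z, q ∈ Z → (Γ q).2 ∈ S := eventually_nhdsWithin_iff.1 hS
  have h2 : {w : X × B | w.1 = 0 → w.2 ∈ S} ∈ 𝓝 (Γ z) := by
    refine hopen (mem_map.2 ?_)
    filter_upwards [h1, hZ] with q hq hq' h using hq (hq' h)
  have h3 : Tendsto (fun b' : B => ((0 : X), b')) (𝓝 (Γ z).2) (𝓝 (Γ z)) := by
    have hc : Continuous (fun b' : B => ((0 : X), b')) := by fun_prop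
    exact hc.tendsto' _ _ (Prod.ext h0.symm rfl)
  filter_upwards [h3 h2] with b' hb' using hb' rfl

/- HINT. `Γ (q, s) = (G (q.1, s) - G (q.2, s), (ww l q, s))` is analytic at `(p, s)` with bijective
derivative (`DET_ne_zero_iff`, `fderiv_slice`; the kernel vector `((a, b), 0)` gives the kernel
vector `(a - b, b)` of the matrix in `jac`; count dimensions with `J`). `exists_local_inverse`
gives openness and local injectivity; `slice_open`. Near `(p, s)` the two points are different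
(`nice_of_jac`), so membership in `Dbar` means `Γ.1 = 0`. -/
theorem local_homeo_param (hn : 1 ≤ finrank ℂ E) {J : (F × ℂ) ≃L[ℂ] (E × E)} {l : E →L[ℂ] ℂ}
    {G : E × P → F} {p : E × E} {s : P} (h1 : AnalyticAt ℂ G (p.1, s))
    (h2 : AnalyticAt ℂ G (p.2, s)) (hp : p ∈ Dbar (fun z => G (z, s)))
    (hj : jac J l (fun z => G (z, s)) p ≠ 0) :
    𝓝 (ww l p, s) ≤ map (fun q : (E × E) × P => (ww l q.1, q.2))
        (𝓝[{q | q.1 ∈ Dbar (fun z => G (z, q.2))}] (p, s)) ∧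
      ∃ U ∈ 𝓝[{q : (E × E) × P | q.1 ∈ Dbar (fun z => G (z, q.2))}] (p, s),
        InjOn (fun q : (E × E) × P => (ww l q.1, q.2)) U := by
  let Γ : (E × E) × P → F × (ℂ × P) := fun q =>
    (G (q.1.1, q.2) - G (q.1.2, q.2), (ww l q.1, q.2))
  let A : (E × E) × P →L[ℂ] E × P := (ContinuousLinearMap.fst ℂ E E).prodMap (.id ℂ P)
  let B : (E × E) × P →L[ℂ] E × P := (ContinuousLinearMap.snd ℂ E E).prodMap (.id ℂ P)
  let L : (E × E) × P →L[ℂ] ℂ := l.comp ((ContinuousLinearMap.fst ℂ E E -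
    ContinuousLinearMap.snd ℂ E E).comp (ContinuousLinearMap.fst ℂ (E × E) P))
  have hΓ : AnalyticAt ℂ Γ (p, s) :=
    ((AnalyticAt.comp (f := A) h1 (A.analyticAt _)).sub
      (AnalyticAt.comp (f := B) h2 (B.analyticAt _))).prod
      ((L.analyticAt _).prod analyticAt_snd)
  have hd : HasFDerivAt Γ (((fderiv ℂ G (p.1, s)).comp A - (fderiv ℂ G (p.2, s)).comp B).prod
      (L.prod (ContinuousLinearMap.snd ℂ (E × E) P))) (p, s) :=
    ((HasFDerivAt.comp (f := A) (p, s) h1.differentiableAt.hasFDerivAt A.hasFDerivAt).sub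
      (HasFDerivAt.comp (f := B) (p, s) h2.differentiableAt.hasFDerivAt B.hasFDerivAt)).prodMk
      (L.hasFDerivAt.prodMk hasFDerivAt_snd)
  have hinj : Injective (fderiv ℂ Γ (p, s)) := by
    rw [hd.fderiv, injective_iff_map_eq_zero]
    rintro ⟨⟨a, b⟩, σ⟩ h
    have e1 : fderiv ℂ G (p.1, s) (a, σ) - fderiv ℂ G (p.2, s) (b, σ) = 0 := congrArg Prod.fst h
    have e2 : l (a - b) = 0 := congrArg (fun w => w.2.1) h
    have e3 : σ = 0 := congrArg (fun w => w.2.2) h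
    subst e3
    have hb := ((DET_ne_zero_iff _ _ _).1 hj).1
    rw [injective_iff_map_eq_zero, fderiv_slice h1, fderiv_slice h2] at hb
    have e4 : ((a - b, b) : E × E) = 0 := by
      refine hb _ (Prod.ext ?_ e2)
      change fderiv ℂ G (p.1, s) (a - b, 0) + (fderiv ℂ G (p.1, s) (b, 0) -
        fderiv ℂ G (p.2, s) (b, 0)) = 0
      rw [← add_sub_assoc, ← map_add, Prod.mk_add_mk, sub_add_cancel, add_zero]
      exact e1
    obtain ⟨e5, rfl⟩ := Prod.mk_eq_zero.1 e4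
    rw [sub_zero] at e5
    rw [e5]
    rfl
  have hdim : finrank ℂ ((E × E) × P) = finrank ℂ (F × (ℂ × P)) := by
    have := J.toLinearEquiv.finrank_eq
    simp only [finrank_prod] at this ⊢
    omega
  obtain ⟨χ, hχ, hχ0, hl, hr⟩ := exists_local_inverse hΓ ⟨hinj,
    (LinearMap.injective_iff_surjective_of_finrank_eq_finrank
      (f := (fderiv ℂ Γ (p, s) : (E × E) × P →ₗ[ℂ] F × (ℂ × P))) hdim).1 hinj⟩
  have h0 : ∀ q : (E × E) × P, q.1 ∈ Dbar (fun z => G (z, q.2)) → (Γ q).1 = 0 := fun q hq =>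
    sub_eq_zero.2 (Dbar.eq hq)
  constructor
  · refine slice_open (Γ := Γ) (z := (p, s)) (h0 _ hp) (fun S hS => ?_) ?_
    · have ht := hχ.continuousAt.tendsto
      rw [hχ0] at ht
      filter_upwards [ht hS, hr] with y hy hy'
      rw [← hy']
      exact hy
    · have hne : ∀ᶠ q : (E × E) × P in 𝓝 (p, s), q.1.1 ≠ q.1.2 :=
        (isOpen_ne_fun (by fun_prop) (by fun_prop)).mem_nhds (nice_of_jac hn hj).1
      filter_upwards [hne] with q hq h using Or.inl ⟨hq, sub_eq_zero.1 h⟩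
  · refine ⟨_, inter_mem (mem_nhdsWithin_of_mem_nhds hl) self_mem_nhdsWithin,
      fun q hq q' hq' h => ?_⟩
    have : Γ q = Γ q' := Prod.ext ((h0 q hq.2).trans (h0 q' hq'.2).symm) h
    rw [← show χ (Γ q) = q from hq.1, this]
    exact hq'.1

/- HINT. `Q = ∏ v ∈ C, (y - v) ^ k v`. `Q / N` is differentiable off `C`, bounded near each point
of `C`; remove the singularities (`Complex.differentiableOn_update_limUnder_of_bddAbove`, or show
directly that `N = Q' * unit`), maximum modulus (`Complex.norm_le_of_forall_mem_frontier_norm_le`):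
`‖Q y‖ ≤ (2 r₁) ^ K' / κ * ‖N y‖` on the closed disc, `K' = ∑ k v`. On the other hand the polynomial
`z ↦ ∏ (1 - v z) ^ k v` is `1` at `0`, so it has norm at least `1` somewhere on `‖z‖ = 1 / r₂`
(`Complex.exists_mem_frontier_isMaxOn_norm`), which gives `y = z⁻¹` with `r₂ ^ K' ≤ ‖Q y‖`. -/
theorem zero_bound {N : ℂ → ℂ} {r₁ r₂ κ : ℝ} (h2 : 0 < r₂) (h12 : r₂ < r₁) (C : Finset ℂ)
    (hC : ∀ v ∈ C, ‖v‖ < r₁) (k : ℂ → ℕ) {K : ℕ} (hK : ∑ v ∈ C, k v ≤ K)
    (hN : ∀ y ∈ closedBall (0 : ℂ) r₁, AnalyticAt ℂ N y)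
    (hne : ∀ y ∈ closedBall (0 : ℂ) r₁, y ∉ C → N y ≠ 0)
    (hlow : ∀ v ∈ C, ∃ c > 0, ∀ᶠ y in 𝓝[≠] v, c * ‖y - v‖ ^ k v ≤ ‖N y‖) (hκ : 0 < κ)
    (hs : ∀ y ∈ sphere (0 : ℂ) r₁, κ ≤ ‖N y‖) :
    ∃ y ∈ sphere (0 : ℂ) r₂, κ * (r₂ / (2 * r₁)) ^ K ≤ ‖N y‖ := by
  classical
  have h1 : 0 < r₁ := h2.trans h12
  let Q : ℂ → ℂ := fun y => ∏ v ∈ C, (y - v) ^ k v
  have hQ : Differentiable ℂ Q := by fun_prop
  let f : ℂ → ℂ := fun y => Q y / N y
  let H : ℂ → ℂ := fun y => if y ∈ C then limUnder (𝓝[≠] y) f else f y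
  have hnot : ∀ y : ℂ, ∀ᶠ z in 𝓝[≠] y, z ∉ C := fun y =>
    nhdsNE_le_cofinite y C.eventually_cofinite_notMem
  have hHf : ∀ y : ℂ, y ∉ C → H =ᶠ[𝓝 y] f := fun y hy => by
    filter_upwards [C.finite_toSet.isClosed.isOpen_compl.mem_nhds hy] with z hz
    exact if_neg hz
  have hfd : ∀ y ∈ closedBall (0 : ℂ) r₁, y ∉ C → DifferentiableAt ℂ f y := fun y hy hyC =>
    (hQ y).div (hN y hy).differentiableAt (hne y hy hyC)
  have hball : ∀ v ∈ C, ∀ᶠ z in 𝓝[≠] v, z ∈ closedBall (0 : ℂ) r₁ := fun v hv =>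
    mem_nhdsWithin_of_mem_nhds (closedBall_mem_nhds_of_mem (mem_ball_zero_iff.2 (hC v hv)))
  have hlim : ∀ v ∈ C, Tendsto f (𝓝[≠] v) (𝓝 (H v)) := by
    intro v hv
    rw [show H v = limUnder (𝓝[≠] v) f from if_pos hv]
    refine Complex.tendsto_limUnder_of_differentiable_on_punctured_nhds_of_bounded_under ?_ ?_
    · filter_upwards [hball v hv, hnot v] with z hz hzC using hfd z hz hzC
    · obtain ⟨c, hc, hcv⟩ := hlow v hv
      have hR : Continuous fun y : ℂ => ‖∏ u ∈ C.erase v, (y - u) ^ k u‖ := by fun_prop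
      refine ⟨(‖∏ u ∈ C.erase v, (v - u) ^ k u‖ + 1) / c + ‖f v‖, ?_⟩
      rw [eventually_map]
      filter_upwards [hcv, self_mem_nhdsWithin, mem_nhdsWithin_of_mem_nhds
        (hR.continuousAt.eventually (gt_mem_nhds (lt_add_one _)))] with z hz hzv hzR
      refine (norm_sub_le _ _).trans (add_le_add_left ?_ _)
      have hp : 0 < ‖z - v‖ ^ k v := pow_pos (norm_pos_iff.2 (sub_ne_zero.2 hzv)) _
      have hNp : 0 < ‖N z‖ := lt_of_lt_of_le (mul_pos hc hp) hz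
      simp only [f, Q]
      rw [norm_div, ← Finset.mul_prod_erase C _ hv, norm_mul, norm_pow, div_le_div_iff₀ hNp hc]
      have hzR' : ‖∏ u ∈ C.erase v, (z - u) ^ k u‖ ≤ ‖∏ u ∈ C.erase v, (v - u) ^ k u‖ + 1 :=
        le_of_lt hzR
      calc _ = ‖∏ u ∈ C.erase v, (z - u) ^ k u‖ * (c * ‖z - v‖ ^ k v) := by ring
        _ ≤ _ := by gcongr
  have hHd : ∀ y ∈ closedBall (0 : ℂ) r₁, DifferentiableAt ℂ H y := by
    intro y hy
    by_cases hyC : y ∈ C
    · refine (Complex.analyticAt_of_differentiable_on_punctured_nhds_of_continuousAt ?_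
        ?_).differentiableAt
      · filter_upwards [hball y hyC, hnot y] with z hz hzC
        exact (hfd z hz hzC).congr_of_eventuallyEq (hHf z hzC)
      · rw [← continuousWithinAt_compl_self]
        refine (hlim y hyC).congr' ?_
        filter_upwards [hnot y] with z hz
        exact (if_neg hz).symm
    · exact (hfd y hy hyC).congr_of_eventuallyEq (hHf y hyC)
  have hmul : ∀ y ∈ closedBall (0 : ℂ) r₁, H y * N y = Q y := by
    intro y hy
    by_cases hyC : y ∈ C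
    · refine tendsto_nhds_unique ((hlim y hyC).mul
        ((hN y hy).continuousAt.tendsto.mono_left nhdsWithin_le_nhds))
        (((hQ y).continuousAt.tendsto.mono_left nhdsWithin_le_nhds).congr' ?_)
      filter_upwards [hball y hyC, hnot y] with z hz hzC
      exact (div_mul_cancel₀ _ (hne z hz hzC)).symm
    · rw [show H y = f y from if_neg hyC]
      exact div_mul_cancel₀ _ (hne y hy hyC)
  have hbd : ∀ y ∈ closedBall (0 : ℂ) r₁, ‖H y‖ ≤ (2 * r₁) ^ (∑ v ∈ C, k v) / κ := by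
    intro y hy
    rw [← closure_ball _ h1.ne'] at hy
    refine Complex.norm_le_of_forall_mem_frontier_norm_le isBounded_ball
      (DifferentiableOn.diffContOnCl ?_) (fun z hz => ?_) hy
    · rw [closure_ball _ h1.ne']
      exact fun z hz => (hHd z hz).differentiableWithinAt
    · rw [frontier_ball _ h1.ne'] at hz
      rw [le_div_iff₀ hκ]
      calc ‖H z‖ * κ ≤ ‖H z‖ * ‖N z‖ := mul_le_mul_of_nonneg_left (hs z hz) (norm_nonneg _)
        _ = ∏ v ∈ C, ‖z - v‖ ^ k v := by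
          rw [← norm_mul, hmul z (sphere_subset_closedBall hz)]
          simp only [Q, norm_prod, norm_pow]
        _ ≤ ∏ v ∈ C, (2 * r₁) ^ k v := by
          refine Finset.prod_le_prod (fun v _ => by positivity) fun v hv => ?_
          refine pow_le_pow_left₀ (norm_nonneg _) ?_ _
          linarith [norm_sub_le z v, hC v hv, mem_sphere_zero_iff_norm.1 hz]
        _ = _ := Finset.prod_pow_eq_pow_sum _ _ _
  have hi2 : 0 < r₂⁻¹ := inv_pos.2 h2
  have hR : Differentiable ℂ fun z : ℂ => ∏ v ∈ C, (1 - v * z) ^ k v := by fun_prop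
  obtain ⟨z, hz, hmax⟩ := Complex.exists_mem_frontier_isMaxOn_norm (U := ball (0 : ℂ) r₂⁻¹)
    isBounded_ball ⟨0, mem_ball_self hi2⟩ hR.diffContOnCl
  rw [frontier_ball _ hi2.ne', mem_sphere_zero_iff_norm] at hz
  have hz0 : z ≠ 0 := norm_pos_iff.1 (hz ▸ hi2)
  have hy : ‖z⁻¹‖ = r₂ := by rw [norm_inv, hz, inv_inv]
  have hR1 : 1 ≤ ‖∏ v ∈ C, (1 - v * z) ^ k v‖ := by
    have := hmax (subset_closure (mem_ball_self hi2))
    simpa using this
  have hyb : z⁻¹ ∈ closedBall (0 : ℂ) r₁ := mem_closedBall_zero_iff.2 (hy ▸ h12.le)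
  refine ⟨z⁻¹, mem_sphere_zero_iff_norm.2 hy, ?_⟩
  have hQy : Q z⁻¹ = z⁻¹ ^ (∑ v ∈ C, k v) * ∏ v ∈ C, (1 - v * z) ^ k v := by
    rw [← Finset.prod_pow_eq_pow_sum, ← Finset.prod_mul_distrib]
    refine Finset.prod_congr rfl fun v _ => ?_
    rw [← mul_pow]
    congr 1
    field_simp
  have h3 : r₂ ^ (∑ v ∈ C, k v) ≤ (2 * r₁) ^ (∑ v ∈ C, k v) / κ * ‖N z⁻¹‖ := by
    calc _ ≤ ‖Q z⁻¹‖ := by
          rw [hQy, norm_mul, norm_pow, hy]
          exact le_mul_of_one_le_right (by positivity) hR1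
      _ = ‖H z⁻¹‖ * ‖N z⁻¹‖ := by rw [← norm_mul, hmul _ hyb]
      _ ≤ _ := mul_le_mul_of_nonneg_right (hbd _ hyb) (norm_nonneg _)
  have h4 : (r₂ / (2 * r₁)) ^ K ≤ (r₂ / (2 * r₁)) ^ (∑ v ∈ C, k v) :=
    pow_le_pow_of_le_one (by positivity) (div_le_one_of_le₀ (by linarith) (by positivity)) hK
  refine (mul_le_mul_of_nonneg_left h4 hκ.le).trans ?_
  rw [div_pow, ← mul_div_assoc, div_le_iff₀ (by positivity)]
  rw [div_mul_eq_mul_div, le_div_iff₀ hκ] at h3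
  linarith

end Pool.Agent.MP_7e71a7_ag

end

-- part MP_7e71a7_ag.RS
section

/-! Compact curves as branched coverings of open subsets of the plane. -/

open Filter Topology Set Function Metric Module

namespace Pool.Agent.MP_7e71a7_ag

variable {V : Type} [NormedAddCommGroup V] [NormedSpace ℂ V]
  {Z : Set V} {w : V → ℂ} {Ω : Set ℂ} {e : V → ℕ} {γ : V → ℂ → V}

theorem Chart.rs_eventually_mem {p : V} {c : ℂ → V} (h : Chart Z p c) :
    ∀ᶠ t in 𝓝 (0 : ℂ), c t ∈ Z := by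
  have : Z ∈ Filter.map c (𝓝 0) := by rw [h.map]; exact self_mem_nhdsWithin
  exact this

theorem Chart.eventually_map {p : V} {c : ℂ → V} (h : Chart Z p c) :
    ∀ᶠ t in 𝓝 (0 : ℂ), c t ∈ Z ∧ Filter.map c (𝓝 t) = 𝓝[Z] (c t) := by
  obtain ⟨U, hU, hinj⟩ := h.inj
  have h1 : ∀ᶠ t in 𝓝 (0 : ℂ), t ∈ U ∧ ContinuousAt c t ∧ c t ∈ Z := by
    filter_upwards [hU, h.an.eventually_continuousAt, h.rs_eventually_mem] with t a b d
    exact ⟨a, b, d⟩
  obtain ⟨r, hr, hb⟩ := nhds_basis_closedBall.eventually_iff.1 h1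
  have h2 : c '' ball 0 r ∈ 𝓝[Z] p := by
    rw [← h.map]; exact image_mem_map (ball_mem_nhds 0 hr)
  obtain ⟨O, hO, hpO, hOZ⟩ := mem_nhdsWithin.1 h2
  have h3 : ∀ᶠ t in 𝓝 (0 : ℂ), c t ∈ O := by
    have := h.an.continuousAt
    rw [ContinuousAt, h.zero] at this
    exact this (hO.mem_nhds hpO)
  filter_upwards [h3, ball_mem_nhds 0 hr] with t htO ht
  have ht' := hb (ball_subset_closedBall ht)
  refine ⟨ht'.2.2, le_antisymm ?_ ?_⟩
  · refine tendsto_nhdsWithin_iff.2 ⟨ht'.2.1, ?_⟩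
    filter_upwards [isOpen_ball.mem_nhds ht] with s hs
    exact (hb (ball_subset_closedBall hs)).2.2
  · intro W hW
    have hW' : c ⁻¹' W ∈ 𝓝 t := hW
    have hK : IsCompact (closedBall (0 : ℂ) r \ interior (c ⁻¹' W)) :=
      (isCompact_closedBall 0 r).diff isOpen_interior
    have hcK : IsClosed (c '' (closedBall (0 : ℂ) r \ interior (c ⁻¹' W))) :=
      (hK.image_of_continuousOn fun s hs => (hb hs.1).2.1.continuousWithinAt).isClosed
    have hnot : c t ∉ c '' (closedBall (0 : ℂ) r \ interior (c ⁻¹' W)) := by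
      rintro ⟨s, hs, hst⟩
      have : s = t := hinj (hb hs.1).1 ht'.1 hst
      exact hs.2 (this ▸ mem_interior_iff_mem_nhds.2 hW')
    filter_upwards [self_mem_nhdsWithin, mem_nhdsWithin_of_mem_nhds (hO.mem_nhds htO),
      mem_nhdsWithin_of_mem_nhds (hcK.isOpen_compl.mem_nhds hnot)] with q hqZ hqO hqK
    obtain ⟨s, hs, rfl⟩ := hOZ ⟨hqO, hqZ⟩
    by_contra hc
    exact hqK ⟨s, ⟨ball_subset_closedBall hs, fun h' => hc (interior_subset (s := c ⁻¹' W) h')⟩,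
      rfl⟩

omit [NormedSpace ℂ V] in
theorem rs_accPt_of_inj {c : ℂ → V} {t : ℂ} (hc : ContinuousAt c t) {U : Set ℂ} (hU : U ∈ 𝓝 t)
    (hinj : InjOn c U) {S : Set V} (hS : ∀ᶠ s in 𝓝 t, c s ∈ S) : AccPt (c t) (𝓟 S) := by
  rw [accPt_iff_frequently]
  have h1 : Tendsto c (𝓝[≠] t) (𝓝 (c t)) := hc.tendsto.mono_left nhdsWithin_le_nhds
  refine h1.frequently (Eventually.frequently ?_)
  filter_upwards [self_mem_nhdsWithin, mem_nhdsWithin_of_mem_nhds hU,
    mem_nhdsWithin_of_mem_nhds hS] with s hs hsU hsS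
  exact ⟨fun h => hs (hinj hsU (mem_of_mem_nhds hU) h), hsS⟩

theorem Chart.rs_accPt {p : V} {c : ℂ → V} (hc : Chart Z p c) {y : ℂ}
    (h : ∀ᶠ t in 𝓝 (0 : ℂ), w (c t) = y) : ∀ᶠ t in 𝓝 (0 : ℂ), c t ∈ derivedSet (fib Z w y) := by
  obtain ⟨U, hU, hinj⟩ := hc.inj
  filter_upwards [eventually_eventually_nhds.2 (hc.rs_eventually_mem.and h),
    hc.an.eventually_continuousAt, eventually_mem_nhds_iff.2 hU] with t h1 h2 h3
  exact rs_accPt_of_inj h2 h3 hinj h1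

theorem not_const_of_compact [FiniteDimensional ℂ V] (hZ : IsCompact Z)
    (hw : ∀ q, AnalyticAt ℂ w q) {y : ℂ} (hch : ∀ p ∈ fib Z w y, ∃ c, Chart Z p c) {p : V}
    (hp : p ∈ fib Z w y) {c : ℂ → V} (hc : Chart Z p c) : ¬ ∀ᶠ t in 𝓝 (0 : ℂ), w (c t) = y := by
  intro hcon
  have hwc : Continuous w := continuous_iff_continuousAt.2 fun q => (hw q).continuousAt
  have hcl : IsClosed (fib Z w y) := hZ.isClosed.inter (isClosed_eq hwc continuous_const)
  have hsub : derivedSet (fib Z w y) ⊆ fib Z w y := (isClosed_iff_derivedSet_subset _).1 hcl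
  have hA : IsCompact (derivedSet (fib Z w y)) :=
    hZ.of_isClosed_subset (isClosed_derivedSet _) fun q hq => (hsub hq).1
  have hne : (derivedSet (fib Z w y)).Nonempty := ⟨_, (hc.rs_accPt hcon).self_of_nhds⟩
  let ι : V ≃L[ℂ] EuclideanSpace ℂ (Fin (finrank ℂ V)) :=
    ContinuousLinearEquiv.ofFinrankEq (by simp)
  obtain ⟨q, hq, hmax⟩ := hA.exists_isMaxOn hne (f := fun v => ‖ι v‖)
    (ι.continuous.norm.continuousOn)
  obtain ⟨d, hd⟩ := hch q (hsub hq)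
  have han : AnalyticAt ℂ (fun t => w (d t)) 0 := (hw (d 0)).comp hd.an
  rcases han.eventually_eq_or_eventually_ne (analyticAt_const (v := y)) with h1 | h1
  · have h2 := hd.rs_accPt h1
    have han2 : AnalyticAt ℂ (fun t => ι (d t)) 0 :=
      ((ι : V →L[ℂ] EuclideanSpace ℂ (Fin (finrank ℂ V))).analyticAt (d 0)).comp hd.an
    have h3 : IsLocalMax (norm ∘ fun t => ι (d t)) 0 := by
      filter_upwards [h2] with t ht
      have := hmax ht
      simpa [hd.zero] using this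
    have h4 := Complex.eventually_eq_of_isLocalMax_norm
      (han2.eventually_analyticAt.mono fun t ht => ht.differentiableAt) h3
    obtain ⟨U, hU, hinj⟩ := hd.inj
    have h5 : ∀ᶠ t in 𝓝[≠] (0 : ℂ), False := by
      filter_upwards [self_mem_nhdsWithin, mem_nhdsWithin_of_mem_nhds hU,
        mem_nhdsWithin_of_mem_nhds h4] with t ht htU ht4
      exact ht (hinj htU (mem_of_mem_nhds hU) (ι.injective ht4))
    exact h5.exists.elim fun _ h => h
  · have h2 : ∀ᶠ v in 𝓝[Z] q, v ≠ q → w v ≠ y := by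
      rw [← hd.map, eventually_map]
      filter_upwards [eventually_nhdsWithin_iff.1 h1] with t ht htq
      exact ht fun h0 => htq (by rw [mem_singleton_iff.1 h0, hd.zero])
    have h3 := accPt_iff_frequently.1 hq
    obtain ⟨v, hv1, hv2⟩ := (h3.and_eventually (eventually_nhdsWithin_iff.1 h2)).exists
    exact hv2 hv1.2.1 hv1.1 hv1.2.2

theorem rs_exists_inv {φ : ℂ → ℂ} {a : ℂ} (hφ : AnalyticAt ℂ φ a) (h0 : deriv φ a ≠ 0) :
    ∃ ψ : ℂ → ℂ, AnalyticAt ℂ ψ (φ a) ∧ ψ (φ a) = a ∧ (∀ᶠ x in 𝓝 a, ψ (φ x) = x) ∧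
      (∀ᶠ y in 𝓝 (φ a), φ (ψ y) = y) := by
  refine Pool.Agent.Lib.SCV.exists_local_inverse hφ ?_
  have h1 : ∀ v, fderiv ℂ φ a v = v * deriv φ a := fun v => by
    rw [hφ.differentiableAt.hasDerivAt.hasFDerivAt.fderiv]; simp
  refine ⟨fun v v' h => ?_, fun v => ⟨v / deriv φ a, by rw [h1]; field_simp⟩⟩
  rw [h1, h1] at h
  exact mul_right_cancel₀ h0 h

theorem rs_exists_root {a : ℂ → ℂ} (ha : AnalyticAt ℂ a 0) (h0 : a 0 ≠ 0) {n : ℕ} (hn : 0 < n) :
    ∃ b : ℂ → ℂ, AnalyticAt ℂ b 0 ∧ b 0 ≠ 0 ∧ ∀ᶠ t in 𝓝 (0 : ℂ), b t ^ n = a t := by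
  obtain ⟨β, hβ⟩ := IsAlgClosed.exists_pow_nat_eq (a 0) hn
  have hβ0 : β ≠ 0 := by
    rintro rfl
    exact h0 (by rw [← hβ, zero_pow hn.ne'])
  have hn' : (n : ℂ) ≠ 0 := by exact_mod_cast hn.ne'
  refine ⟨fun t => β * Complex.exp (Complex.log (a t / a 0) / n), ?_, ?_, ?_⟩
  · refine analyticAt_const.mul (AnalyticAt.cexp' (AnalyticAt.div_const ?_))
    refine (ha.div_const).clog ?_
    simp [div_self h0]
  · exact mul_ne_zero hβ0 (Complex.exp_ne_zero _)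
  · filter_upwards [ha.continuousAt.eventually_ne h0] with t ht
    rw [mul_pow, hβ, ← Complex.exp_nat_mul, mul_div_cancel₀ _ hn',
      Complex.exp_log (div_ne_zero ht h0)]
    field_simp

theorem Chart.normalize {p : V} {c : ℂ → V} (hc : Chart Z p c) (hw : AnalyticAt ℂ w p)
    (hne : ¬ ∀ᶠ t in 𝓝 (0 : ℂ), w (c t) = w p) {h : V → ℂ} {u : ℂ → ℂ} {k : ℕ}
    (hu : AnalyticAt ℂ u 0) (hu0 : u 0 ≠ 0)
    (hh : ∀ᶠ t in 𝓝 (0 : ℂ), h (c t) = t ^ k * u t * deriv (fun t => w (c t)) t) :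
    ∃ (n : ℕ) (c' : ℂ → V), NChart Z w p n c' ∧ (h p ≠ 0 → n = 1) ∧
      ∃ κ > 0, ∀ᶠ t in 𝓝 (0 : ℂ), κ * ‖t‖ ^ (k + n - 1) ≤ ‖h (c' t)‖ := by
  have hwc : AnalyticAt ℂ (fun t => w (c t)) 0 := by
    have : AnalyticAt ℂ w (c 0) := by rw [hc.zero]; exact hw
    exact this.comp hc.an
  have hf : AnalyticAt ℂ (fun t => w (c t) - w p) 0 := hwc.sub analyticAt_const
  obtain ⟨n, a, ha, ha0, hfa⟩ := hf.exists_eventuallyEq_pow_smul_nonzero_iff.2
    (by simpa only [sub_eq_zero] using hne)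
  simp only [sub_zero, smul_eq_mul] at hfa
  have hn : 0 < n := by
    rcases Nat.eq_zero_or_pos n with rfl | hn
    · have := hfa.self_of_nhds
      rw [hc.zero] at this
      exact absurd (by simpa using this.symm) ha0
    · exact hn
  obtain ⟨m, rfl⟩ : ∃ m, n = m + 1 := ⟨n - 1, by omega⟩
  obtain ⟨b, hb, hb0, hba⟩ := rs_exists_root ha ha0 hn
  have hφ : AnalyticAt ℂ (fun t => t * b t) 0 := analyticAt_id.mul hb
  have hφd : deriv (fun t => t * b t) 0 ≠ 0 := by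
    have := ((hasDerivAt_id' (0 : ℂ)).mul hb.differentiableAt.hasDerivAt).deriv
    have h2 : deriv (fun t => t * b t) 0 = b 0 := this.trans (by simp)
    rw [h2]; exact hb0
  obtain ⟨ψ, hψ, hψ0, hl, hr⟩ := rs_exists_inv hφ hφd
  simp only [zero_mul] at hψ hψ0 hr
  have hψt : Tendsto ψ (𝓝 0) (𝓝 0) := by
    have := hψ.continuousAt
    rwa [ContinuousAt, hψ0] at this
  have hφt : Tendsto (fun t => t * b t) (𝓝 0) (𝓝 0) := by
    have := hφ.continuousAt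
    simpa [ContinuousAt] using this
  have hmap : Filter.map ψ (𝓝 0) = 𝓝 0 := by
    refine le_antisymm hψt fun W hW => ?_
    have h1 : ∀ᶠ t in 𝓝 (0 : ℂ), ψ (t * b t) ∈ W := hφt hW
    filter_upwards [h1, hl] with t h1 h2
    rwa [h2] at h1
  -- the derivative
  have hder : ∀ᶠ t in 𝓝 (0 : ℂ),
      deriv (fun t => w (c t)) t = t ^ m * ((m + 1 : ℕ) * a t + t * deriv a t) := by
    filter_upwards [eventually_eventually_nhds.2 hfa, ha.eventually_analyticAt] with t h1 h2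
    have h3 : (fun t => w (c t)) =ᶠ[𝓝 t] fun t => t ^ (m + 1) * a t + w p := by
      filter_upwards [h1] with s hs
      rw [← hs]; ring
    rw [h3.deriv_eq]
    have h4 := (((hasDerivAt_pow (m + 1) t).mul h2.differentiableAt.hasDerivAt).add_const
      (w p)).deriv
    refine Eq.trans ?_ (h4.trans ?_)
    · rfl
    · simp only [Nat.add_sub_cancel]; ring
  obtain ⟨U, hU, hinj⟩ := hc.inj
  refine ⟨m + 1, fun s => c (ψ s), ⟨⟨?_, ?_, ?_, ?_⟩, hn, ?_⟩, ?_, ?_⟩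
  · have : AnalyticAt ℂ c (ψ 0) := by rw [hψ0]; exact hc.an
    exact this.comp hψ
  · simp only [hψ0, hc.zero]
  · refine ⟨{s | ψ s ∈ U ∧ ψ s * b (ψ s) = s}, (hψt.eventually hU).and hr, ?_⟩
    intro s hs s' hs' hss
    have := hinj hs.1 hs'.1 hss
    rw [← hs.2, ← hs'.2, this]
  · rw [← hc.map]
    conv_rhs => rw [← hmap]
    rfl
  · filter_upwards [hψt.eventually hfa, hψt.eventually hba, hr] with s h1 h2 h3
    rw [← h2, ← mul_pow, h3] at h1
    rw [← h1]; ring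
  · intro hp
    have h1 := hh.self_of_nhds
    rw [hc.zero, hder.self_of_nhds] at h1
    by_contra hm
    have hm' : m ≠ 0 := by omega
    exact hp (by rw [h1, zero_pow hm']; simp)
  · let R : ℂ → ℝ := fun t => ‖u t * ((m + 1 : ℕ) * a t + t * deriv a t)‖ / ‖b t‖ ^ (k + m)
    have hRc : ContinuousAt R 0 := by
      refine ContinuousAt.div ?_ (hb.continuousAt.norm.pow _)
        (pow_ne_zero _ (norm_ne_zero_iff.2 hb0))
      exact (hu.continuousAt.mul ((continuousAt_const.mul ha.continuousAt).add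
        (continuousAt_id.mul ha.deriv.continuousAt))).norm
    have hR0 : 0 < R 0 := by
      refine div_pos (norm_pos_iff.2 (mul_ne_zero hu0 ?_)) (pow_pos (norm_pos_iff.2 hb0) _)
      rw [zero_mul, add_zero]
      exact mul_ne_zero (by exact_mod_cast hn.ne') ha0
    refine ⟨R 0 / 2, by positivity, ?_⟩
    have hRe : ∀ᶠ t in 𝓝 (0 : ℂ), R 0 / 2 ≤ R t :=
      hRc.eventually (eventually_ge_nhds (by linarith))
    filter_upwards [hψt.eventually hRe, hψt.eventually hh, hψt.eventually hder, hr,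
      hψt.eventually (hb.continuousAt.eventually_ne hb0)] with s h1 h2 h3 h4 h5
    have h6 : ‖b (ψ s)‖ ^ (k + m) ≠ 0 := pow_ne_zero _ (norm_ne_zero_iff.2 h5)
    have h7 : ‖h (c (ψ s))‖ = R (ψ s) * ‖s‖ ^ (k + (m + 1) - 1) := by
      rw [h2, h3]
      conv_rhs => rw [← h4]
      have : k + (m + 1) - 1 = k + m := by omega
      simp only [R, this, h4]
      conv_rhs => rw [← h4]
      simp only [h4, norm_mul, norm_pow]
      rw [div_mul_eq_mul_div, eq_div_iff h6]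
      have h8 : ‖s‖ = ‖ψ s‖ * ‖b (ψ s)‖ := by rw [← norm_mul, h4]
      rw [h8, mul_pow]; ring
    rw [h7]
    exact mul_le_mul_of_nonneg_right h1 (by positivity)

theorem NChart.isOpenAt {p : V} {n : ℕ} {c : ℂ → V} (h : NChart Z w p n c) :
    𝓝 (w p) ≤ Filter.map w (𝓝[Z] p) := by
  have : NeZero n := ⟨by have := h.pos; omega⟩
  rw [← h.map, Filter.map_map]
  have h1 : Filter.map (w ∘ c) (𝓝 0) = Filter.map (fun t : ℂ => w p + t ^ n) (𝓝 0) :=
    Filter.map_congr h.pow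
  rw [h1]
  have h2 : IsOpenMap fun t : ℂ => w p + t ^ n :=
    (isOpenMap_add_left (w p)).comp (Complex.isOpenQuotientMap_pow n).isOpenMap
  have h3 := h2.nhds_le 0
  simpa [zero_pow (NeZero.ne n)] using h3

theorem NChart.injOn {p : V} {c : ℂ → V} (h : NChart Z w p 1 c) : ∃ U ∈ 𝓝[Z] p, InjOn w U := by
  refine ⟨c '' {t | w (c t) = w p + t ^ 1}, ?_, ?_⟩
  · rw [← h.map]; exact image_mem_map h.pow
  · rintro _ ⟨s, hs, rfl⟩ _ ⟨t, ht, rfl⟩ hst
    rw [hs, ht] at hst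
    have : s = t := by simpa using hst
    rw [this]

theorem NChart.eq_one {p : V} {n : ℕ} {c : ℂ → V} (h : NChart Z w p n c)
    (hi : ∃ U ∈ 𝓝[Z] p, InjOn w U) : n = 1 := by
  obtain ⟨U, hU, hi⟩ := hi
  obtain ⟨U₀, hU₀, hinj⟩ := h.inj
  have hn : n ≠ 0 := by have := h.pos; omega
  by_contra h1
  have hζ := Complex.isPrimitiveRoot_exp n hn
  set ζ := Complex.exp (2 * Real.pi * Complex.I / n)
  have hζ1 : ζ ≠ 1 := hζ.ne_one (by omega)
  rw [← h.map] at hU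
  have h2 : ∀ᶠ t in 𝓝 (0 : ℂ), c t ∈ U ∧ t ∈ U₀ ∧ w (c t) = w p + t ^ n := by
    filter_upwards [hU, hU₀, h.pow] with t a b d
    exact ⟨a, b, d⟩
  have h3 : Tendsto (fun t : ℂ => ζ * t) (𝓝 0) (𝓝 0) := by
    simpa using (continuous_const_mul ζ).tendsto 0
  have h5 : ∀ᶠ t in 𝓝[≠] (0 : ℂ), False := by
    filter_upwards [self_mem_nhdsWithin, mem_nhdsWithin_of_mem_nhds h2,
      mem_nhdsWithin_of_mem_nhds (h3.eventually h2)] with t ht a b
    have h6 : w (c (ζ * t)) = w (c t) := by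
      rw [a.2.2, b.2.2, mul_pow, hζ.pow_eq_one, one_mul]
    have h7 := hinj b.2.1 a.2.1 (hi b.1 a.1 h6)
    exact hζ1 (mul_right_cancel₀ ht (h7.trans (one_mul t).symm))
  exact h5.exists.elim fun _ h => h

theorem RS.finite (h : RS Z w Ω e γ) {y : ℂ} (hy : y ∈ Ω) : (fib Z w y).Finite := by
  have hcl : IsClosed (fib Z w y) := h.cpt.isClosed.inter (isClosed_eq h.cont continuous_const)
  have hK : IsCompact (fib Z w y) := h.cpt.of_isClosed_subset hcl fun q hq => hq.1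
  refine hK.induction_on (p := Set.Finite) finite_empty (fun s t hst ht => ht.subset hst)
    (fun s t hs ht => hs.union ht) fun p hp => ⟨{p}, ?_, finite_singleton p⟩
  have hc := h.chart p hp.1 (hp.2 ▸ hy)
  have h1 : ∀ᶠ q in 𝓝[Z] p, w q = w p → q = p := by
    rw [← hc.map, eventually_map]
    filter_upwards [hc.pow] with t ht htp
    rw [htp] at ht
    have : t = 0 := by
      have h2 : t ^ e p = 0 := by simpa using ht
      exact pow_eq_zero_iff (by have := hc.pos; omega) |>.1 h2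
    rw [this, hc.zero]
  filter_upwards [self_mem_nhdsWithin, nhdsWithin_mono p (fun q hq => hq.1) h1] with q hq h2
  exact h2 (hq.2.trans hp.2.symm)

theorem rs_roots_small {n : ℕ} {W : Set ℂ} (hW : W ∈ 𝓝 (0 : ℂ)) (v : ℂ) :
    ∀ᶠ y in 𝓝 v, ∀ t, t ^ n = y - v → t ∈ W := by
  obtain ⟨ε, hε, hb⟩ := Metric.mem_nhds_iff.1 hW
  filter_upwards [ball_mem_nhds v (pow_pos hε n)] with y hy t ht
  apply hb
  rw [mem_ball_iff_norm, ← ht, norm_pow] at hy
  rw [mem_ball_zero_iff]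
  exact lt_of_pow_lt_pow_left₀ n hε.le hy

theorem rs_roots_prod {M : Type} [CommMonoid M] {n : ℕ} (hn : 0 < n) {α z : ℂ} (hz : z ≠ 0)
    (hα : α ^ n = z) (F : ℂ → M) :
    ∏ t ∈ Polynomial.nthRootsFinset n z, F t =
      ∏ ζ ∈ Polynomial.nthRootsFinset n (1 : ℂ), F (ζ * α) := by
  have hα0 : α ≠ 0 := by
    rintro rfl
    exact hz (by rw [← hα, zero_pow hn.ne'])
  symm
  refine Finset.prod_nbij' (fun ζ => ζ * α) (fun t => t / α) ?_ ?_ ?_ ?_ ?_
  · intro ζ hζ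
    rw [Polynomial.mem_nthRootsFinset hn] at hζ ⊢
    rw [mul_pow, hζ, hα, one_mul]
  · intro t ht
    rw [Polynomial.mem_nthRootsFinset hn] at ht ⊢
    rw [div_pow, ht, hα, div_self hz]
  · intro ζ _
    field_simp
  · intro t _
    field_simp
  · intro ζ _
    rfl

theorem rs_card_roots_one {n : ℕ} (hn : 0 < n) : (Polynomial.nthRootsFinset n (1 : ℂ)).card = n :=
  (Complex.isPrimitiveRoot_exp n hn.ne').card_nthRootsFinset

theorem rs_roots_prod_const {M : Type} [CommMonoid M] {n : ℕ} (hn : 0 < n) {z : ℂ} (hz : z ≠ 0)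
    (a : M) : ∏ _t ∈ Polynomial.nthRootsFinset n z, a = a ^ n := by
  obtain ⟨α, hα⟩ := IsAlgClosed.exists_pow_nat_eq z hn
  rw [rs_roots_prod hn hz hα (fun _ => a), Finset.prod_const, rs_card_roots_one hn]

theorem rs_card_roots {n : ℕ} (hn : 0 < n) {z : ℂ} (hz : z ≠ 0) :
    (Polynomial.nthRootsFinset n z).card = n := by
  have := rs_roots_prod_const hn hz (2 : ℕ)
  rw [Finset.prod_const] at this
  exact Nat.pow_right_injective (le_refl 2) this

theorem NChart.eventually_injOn {p : V} {n : ℕ} {c : ℂ → V} (h : NChart Z w p n c) :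
    ∀ᶠ t in 𝓝 (0 : ℂ), t ≠ 0 → ∃ U ∈ 𝓝[Z] (c t), InjOn w U := by
  filter_upwards [h.toChart.eventually_map, eventually_eventually_nhds.2 h.pow] with t h1 h2 ht
  have hn : n ≠ 0 := by have := h.pos; omega
  have han : AnalyticAt ℂ (fun s : ℂ => s ^ n) t := analyticAt_id.pow n
  have hd : deriv (fun s : ℂ => s ^ n) t ≠ 0 := by
    rw [(hasDerivAt_pow n t).deriv]
    exact mul_ne_zero (by exact_mod_cast hn) (pow_ne_zero _ ht)
  obtain ⟨ψ, -, -, hl, -⟩ := rs_exists_inv han hd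
  refine ⟨c '' {s | w (c s) = w p + s ^ n ∧ ψ (s ^ n) = s}, ?_, ?_⟩
  · rw [← h1.2]; exact image_mem_map (h2.and hl)
  · rintro _ ⟨s, hs, rfl⟩ _ ⟨s', hs', rfl⟩ hss
    rw [hs.1, hs'.1, add_right_inj] at hss
    rw [← hs.2, ← hs'.2, hss]

theorem RS.local_struct (h : RS Z w Ω e γ) {v : ℂ} (hv : v ∈ Ω) :
    ∀ᶠ y in 𝓝[≠] v, (∀ p ∈ fib Z w y, e p = 1) ∧
      fib Z w y = ⋃ p ∈ fib Z w v, γ p '' (Polynomial.nthRootsFinset (e p) (y - v) : Set ℂ) ∧
      (fib Z w v).PairwiseDisjoint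
        (fun p => γ p '' (Polynomial.nthRootsFinset (e p) (y - v) : Set ℂ)) ∧
      ∀ p ∈ fib Z w v, InjOn (γ p) (Polynomial.nthRootsFinset (e p) (y - v) : Set ℂ) := by
  have hfin := h.finite hv
  have hc : ∀ p ∈ fib Z w v, NChart Z w p (e p) (γ p) := fun p hp =>
    h.chart p hp.1 (hp.2 ▸ hv)
  have h1 : ∀ p ∈ fib Z w v, ∃ T ∈ 𝓝 (0 : ℂ), InjOn (γ p) T ∧ ∀ t ∈ T,
      w (γ p t) = v + t ^ e p ∧ (t ≠ 0 → ∃ U ∈ 𝓝[Z] (γ p t), InjOn w U) := by
    intro p hp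
    obtain ⟨U, hU, hinj⟩ := (hc p hp).inj
    refine ⟨{t | t ∈ U ∧ w (γ p t) = w p + t ^ e p ∧
      (t ≠ 0 → ∃ U ∈ 𝓝[Z] (γ p t), InjOn w U)}, ?_, hinj.mono fun t ht => ht.1, ?_⟩
    · filter_upwards [hU, (hc p hp).pow, (hc p hp).eventually_injOn] with t a b d
      exact ⟨a, b, d⟩
    · intro t ht
      exact ⟨by rw [ht.2.1, hp.2], ht.2.2⟩
  choose! T hT hTinj hTw using h1
  obtain ⟨U', hU', hdisj, hsub⟩ := fib_decomp h.cpt h.cont hfin (fun p => γ p '' T p)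
    fun p hp => by rw [← (hc p hp).map]; exact image_mem_map (hT p hp)
  have h2 : ∀ᶠ y in 𝓝 v, ∀ p ∈ fib Z w v, ∀ t, t ^ e p = y - v → t ∈ T p ∩ γ p ⁻¹' U' p := by
    refine (eventually_all_finite hfin).2 fun p hp => rs_roots_small (inter_mem (hT p hp) ?_) v
    have := (hU' p hp).1
    rwa [← (hc p hp).map] at this
  filter_upwards [self_mem_nhdsWithin, mem_nhdsWithin_of_mem_nhds hsub,
    mem_nhdsWithin_of_mem_nhds h2, mem_nhdsWithin_of_mem_nhds (h.opn.mem_nhds hv)]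
    with y hyv hy1 hy2 hyΩ
  have hmem : ∀ p ∈ fib Z w v, ∀ t, t ∈ (Polynomial.nthRootsFinset (e p) (y - v) : Set ℂ) ↔
      t ^ e p = y - v := fun p hp t => by
    rw [Finset.mem_coe, Polynomial.mem_nthRootsFinset (hc p hp).pos]
  have h3 : ∀ q ∈ fib Z w y, ∃ p ∈ fib Z w v, ∃ t ∈ T p, γ p t = q ∧ t ^ e p = y - v := by
    intro q hq
    obtain ⟨p, hp, hqp⟩ := mem_iUnion₂.1 (hy1 hq)
    obtain ⟨t, ht, rfl⟩ := ((hU' p hp).2 hqp).1
    refine ⟨p, hp, t, ht, rfl, ?_⟩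
    rw [← hq.2, (hTw p hp t ht).1]; ring
  refine ⟨fun q hq => ?_, ?_, ?_, ?_⟩
  · obtain ⟨p, hp, t, ht, rfl, htp⟩ := h3 q hq
    refine (h.chart _ hq.1 (hq.2 ▸ hyΩ)).eq_one ((hTw p hp t ht).2 ?_)
    rintro rfl
    rw [zero_pow (by have := (hc p hp).pos; omega)] at htp
    exact hyv (sub_eq_zero.1 htp.symm)
  · refine Subset.antisymm (fun q hq => ?_) ?_
    · obtain ⟨p, hp, t, ht, rfl, htp⟩ := h3 q hq
      exact mem_iUnion₂.2 ⟨p, hp, t, (hmem p hp t).2 htp, rfl⟩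
    · refine iUnion₂_subset fun p hp => ?_
      rintro _ ⟨t, ht, rfl⟩
      have h4 := hy2 p hp t ((hmem p hp t).1 ht)
      refine ⟨((hU' p hp).2 h4.2).2, ?_⟩
      rw [(hTw p hp t h4.1).1, (hmem p hp t).1 ht]; ring
  · refine hdisj.mono_on fun p hp => ?_
    rintro _ ⟨t, ht, rfl⟩
    exact (hy2 p hp t ((hmem p hp t).1 ht)).2
  · intro p hp
    exact (hTinj p hp).mono fun t ht => (hy2 p hp t ((hmem p hp t).1 ht)).1

theorem RS.local_prod (h : RS Z w Ω e γ) {v : ℂ} (hv : v ∈ Ω) (M : Type) [CommMonoid M] :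
    ∀ᶠ y in 𝓝[≠] v, (∀ p ∈ fib Z w y, e p = 1) ∧ ∀ G : V → M,
      ∏ᶠ p ∈ fib Z w y, G p =
        ∏ᶠ p ∈ fib Z w v, ∏ t ∈ Polynomial.nthRootsFinset (e p) (y - v), G (γ p t) := by
  filter_upwards [h.local_struct hv] with y ⟨h1, h2, h3, h4⟩
  refine ⟨h1, fun G => ?_⟩
  rw [h2, finprod_mem_biUnion h3 (h.finite hv) fun p _ => (Finset.finite_toSet _).image _]
  refine finprod_mem_congr rfl fun p hp => ?_
  rw [finprod_mem_image (h4 p hp), finprod_mem_coe_finset]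

theorem RS.deg_const (h : RS Z w Ω e γ) (hΩ : IsPreconnected Ω) :
    ∃ m : ℕ, ∀ y ∈ Ω, deg Z w e y = m := by
  have hc : ContinuousOn (deg Z w e) Ω := by
    intro v hv
    have h0 : ∀ᶠ y in 𝓝[≠] v, deg Z w e y = deg Z w e v := by
      filter_upwards [h.local_struct hv, self_mem_nhdsWithin] with y ⟨h1, h2, h3, h4⟩ hyv
      have h5 : deg Z w e y = ∑ᶠ p ∈ fib Z w y, 1 := finsum_mem_congr rfl h1
      rw [h5, h2, finsum_mem_biUnion h3 (h.finite hv) fun p _ => (Finset.finite_toSet _).image _]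
      refine finsum_mem_congr rfl fun p hp => ?_
      rw [finsum_mem_image (h4 p hp), finsum_mem_coe_finset, ← Finset.card_eq_sum_ones,
        rs_card_roots (h.chart p hp.1 (hp.2 ▸ hv)).pos (sub_ne_zero.2 hyv)]
    have h1 : ∀ᶠ y in 𝓝 v, deg Z w e y = deg Z w e v := by
      filter_upwards [eventually_nhdsWithin_iff.1 h0] with y hy
      by_cases hyv : y = v
      · rw [hyv]
      · exact hy hyv
    exact (continuousAt_const.congr (EventuallyEq.symm h1)).continuousWithinAt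
  rcases Ω.eq_empty_or_nonempty with rfl | ⟨v, hv⟩
  · exact ⟨0, fun y hy => hy.elim⟩
  · exact ⟨_, fun y hy => hΩ.constant hc hy hv⟩

theorem RS.nrm_local (h : RS Z w Ω e γ) (g : V → ℂ) {v : ℂ} (hv : v ∈ Ω) :
    ∀ᶠ y in 𝓝[≠] v, (∀ p ∈ fib Z w y, e p = 1) ∧ nrm Z w e g y = ∏ p ∈ (h.finite hv).toFinset,
      ∏ t ∈ Polynomial.nthRootsFinset (e p) (y - v), g (γ p t) := by
  filter_upwards [h.local_prod hv ℂ] with y ⟨h1, h2⟩
  refine ⟨h1, ?_⟩
  rw [← finprod_mem_eq_finite_toFinset_prod, ← h2 g]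
  exact finprod_mem_congr rfl fun p hp => by rw [h1 p hp, pow_one]

theorem RS.analytic_reg (h : RS Z w Ω e γ) {g : V → ℂ}
    (hg : ∀ p ∈ Z, w p ∈ Ω → AnalyticAt ℂ g p) {v : ℂ} (hv : v ∈ Ω)
    (h1 : ∀ p ∈ fib Z w v, e p = 1) : AnalyticAt ℂ (nrm Z w e g) v := by
  have h2 : AnalyticAt ℂ (fun y => ∏ p ∈ (h.finite hv).toFinset, g (γ p (y - v))) v := by
    refine Finset.analyticAt_fun_prod _ fun p hp => ?_
    have hp' : p ∈ fib Z w v := (Set.Finite.mem_toFinset _).1 hp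
    have hc := h.chart p hp'.1 (hp'.2 ▸ hv)
    have h3 : AnalyticAt ℂ g (γ p 0) := by rw [hc.zero]; exact hg p hp'.1 (hp'.2 ▸ hv)
    have h4 : AnalyticAt ℂ (fun t => g (γ p t)) (v - v) := by
      rw [sub_self]; exact h3.comp hc.an
    exact h4.comp (f := fun y => y - v) (analyticAt_id.sub analyticAt_const)
  refine h2.congr ?_
  filter_upwards [eventually_nhdsWithin_iff.1 (h.nrm_local g hv)] with y hy
  by_cases hyv : y = v
  · subst hyv
    rw [nrm, finprod_mem_eq_finite_toFinset_prod _ (h.finite hv)]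
    refine Finset.prod_congr rfl fun p hp => ?_
    have hp' : p ∈ fib Z w y := (Set.Finite.mem_toFinset _).1 hp
    rw [h1 p hp', pow_one, sub_self, (h.chart p hp'.1 (hp'.2 ▸ hv)).zero]
  · rw [(hy hyv).2]
    refine Finset.prod_congr rfl fun p hp => ?_
    have hp' : p ∈ fib Z w v := (Set.Finite.mem_toFinset _).1 hp
    have : Polynomial.nthRootsFinset (e p) (y - v) = {y - v} := by
      ext t
      rw [h1 p hp', Polynomial.mem_nthRootsFinset one_pos, pow_one, Finset.mem_singleton]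
    rw [this, Finset.prod_singleton]

theorem rs_tendsto_roots_prod {n : ℕ} (hn : 0 < n) {F : ℂ → ℂ} (hF : ContinuousAt F 0) (v : ℂ) :
    Tendsto (fun y => ∏ t ∈ Polynomial.nthRootsFinset n (y - v), F t) (𝓝[≠] v)
      (𝓝 (F 0 ^ n)) := by
  choose α hα using fun y : ℂ => IsAlgClosed.exists_pow_nat_eq (y - v) hn
  have h1 : Tendsto α (𝓝 v) (𝓝 0) := fun W hW =>
    (rs_roots_small (n := n) hW v).mono fun y hy => hy _ (hα y)
  have h2 : Tendsto (fun y => ∏ ζ ∈ Polynomial.nthRootsFinset n (1 : ℂ), F (ζ * α y)) (𝓝 v)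
      (𝓝 (∏ _ζ ∈ Polynomial.nthRootsFinset n (1 : ℂ), F 0)) := by
    refine tendsto_finsetProd _ fun ζ _ => hF.tendsto.comp ?_
    simpa using h1.const_mul ζ
  rw [Finset.prod_const, rs_card_roots_one hn] at h2
  refine (h2.mono_left nhdsWithin_le_nhds).congr' ?_
  filter_upwards [self_mem_nhdsWithin] with y hy
  exact (rs_roots_prod hn (sub_ne_zero.2 hy) (hα y) F).symm

theorem RS.analytic (h : RS Z w Ω e γ) {g : V → ℂ}
    (hg : ∀ p ∈ Z, w p ∈ Ω → AnalyticAt ℂ g p) : AnalyticOnNhd ℂ (nrm Z w e g) Ω := by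
  intro v hv
  refine Complex.analyticAt_of_differentiable_on_punctured_nhds_of_continuousAt ?_ ?_
  · filter_upwards [h.nrm_local g hv, mem_nhdsWithin_of_mem_nhds (h.opn.mem_nhds hv)] with y h1 h2
    exact (h.analytic_reg hg h2 h1.1).differentiableAt
  · rw [← continuousWithinAt_compl_self, ContinuousWithinAt]
    have h1 : Tendsto (fun y => ∏ p ∈ (h.finite hv).toFinset,
        ∏ t ∈ Polynomial.nthRootsFinset (e p) (y - v), g (γ p t)) (𝓝[≠] v)
        (𝓝 (∏ p ∈ (h.finite hv).toFinset, g p ^ e p)) := by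
      refine tendsto_finsetProd _ fun p hp => ?_
      have hp' : p ∈ fib Z w v := (Set.Finite.mem_toFinset _).1 hp
      have hc := h.chart p hp'.1 (hp'.2 ▸ hv)
      have h3 : AnalyticAt ℂ g (γ p 0) := by rw [hc.zero]; exact hg p hp'.1 (hp'.2 ▸ hv)
      have h4 := rs_tendsto_roots_prod hc.pos (F := fun t => g (γ p t))
        (h3.comp hc.an).continuousAt v
      rwa [hc.zero] at h4
    rw [← finprod_mem_eq_finite_toFinset_prod] at h1
    refine h1.congr' ?_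
    filter_upwards [h.nrm_local g hv] with y hy
    exact hy.2.symm

theorem RS.lower (h : RS Z w Ω e γ) {g : V → ℂ} {v : ℂ} (hv : v ∈ Ω) (k : V → ℕ)
    (hk : ∀ p ∈ fib Z w v, ∃ κ > 0, ∀ᶠ t in 𝓝 (0 : ℂ), κ * ‖t‖ ^ k p ≤ ‖g (γ p t)‖) :
    ∃ κ > 0, ∀ᶠ y in 𝓝[≠] v, κ * ‖y - v‖ ^ (∑ᶠ p ∈ fib Z w v, k p) ≤ ‖nrm Z w e g y‖ := by
  choose! κ hκ hb using hk
  have hfin := h.finite hv
  refine ⟨∏ p ∈ hfin.toFinset, κ p ^ e p, Finset.prod_pos fun p hp =>
    pow_pos (hκ p (hfin.mem_toFinset.1 hp)) _, ?_⟩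
  have h2 : ∀ᶠ y in 𝓝 v, ∀ p ∈ fib Z w v, ∀ t, t ^ e p = y - v →
      t ∈ {t : ℂ | κ p * ‖t‖ ^ k p ≤ ‖g (γ p t)‖} :=
    (eventually_all_finite hfin).2 fun p hp => rs_roots_small (hb p hp) v
  filter_upwards [h.nrm_local g hv, mem_nhdsWithin_of_mem_nhds h2, self_mem_nhdsWithin]
    with y h1 h3 hyv
  rw [h1.2, finsum_mem_eq_finite_toFinset_sum _ hfin, norm_prod, ← Finset.prod_pow_eq_pow_sum,
    ← Finset.prod_mul_distrib]
  refine Finset.prod_le_prod (fun p hp => ?_) fun p hp => ?_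
  · have := hκ p (hfin.mem_toFinset.1 hp)
    positivity
  · have hp' := hfin.mem_toFinset.1 hp
    have hκp := hκ p hp'
    have hpos : 0 < e p := (h.chart p hp'.1 (hp'.2 ▸ hv)).pos
    obtain ⟨α, hα⟩ := IsAlgClosed.exists_pow_nat_eq (y - v) hpos
    have h4 : κ p ^ e p * ‖y - v‖ ^ k p =
        ∏ _t ∈ Polynomial.nthRootsFinset (e p) (y - v), κ p * ‖α‖ ^ k p := by
      rw [rs_roots_prod_const hpos (sub_ne_zero.2 hyv), ← hα, norm_pow, mul_pow, ← pow_mul,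
        ← pow_mul, mul_comm (k p)]
    rw [h4, norm_prod]
    refine Finset.prod_le_prod (fun t _ => by positivity) fun t ht => ?_
    rw [Polynomial.mem_nthRootsFinset hpos] at ht
    have h5 : ‖α‖ = ‖t‖ := by
      refine (pow_left_inj₀ (norm_nonneg _) (norm_nonneg _) hpos.ne').1 ?_
      rw [← norm_pow, ← norm_pow, hα, ht]
    rw [h5]
    exact h3 p hp' t ht

theorem RS.crit_finite (h : RS Z w Ω e γ) {K : Set ℂ} (hK : IsCompact K) (hKΩ : K ⊆ Ω) :
    {v | v ∈ K ∧ ∃ p ∈ fib Z w v, e p ≠ 1}.Finite := by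
  refine hK.induction_on (p := fun s => {v | v ∈ s ∧ ∃ p ∈ fib Z w v, e p ≠ 1}.Finite)
    (by simp) (fun s t hst ht => ht.subset fun v hv => ⟨hst hv.1, hv.2⟩)
    (fun s t hs ht => (hs.union ht).subset fun v hv => hv.1.imp (⟨·, hv.2⟩) (⟨·, hv.2⟩))
    fun x hx => ⟨{y | y ≠ x → ∀ p ∈ fib Z w y, e p = 1}, ?_, (finite_singleton x).subset ?_⟩
  · refine mem_nhdsWithin_of_mem_nhds ?_
    filter_upwards [eventually_nhdsWithin_iff.1 (h.local_struct (hKΩ hx))] with y hy hyx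
    exact (hy hyx).1
  · rintro y ⟨h1, p, hp, hp1⟩
    by_contra hyx
    exact hp1 (h1 hyx p hp)

theorem RS.ncard_le (h : RS Z w Ω e γ) {y : ℂ} (hy : y ∈ Ω) :
    (fib Z w y).ncard ≤ deg Z w e y := by
  have hfin := h.finite hy
  rw [deg, finsum_mem_eq_finite_toFinset_sum _ hfin, Set.ncard_eq_toFinset_card _ hfin,
    Finset.card_eq_sum_ones]
  refine Finset.sum_le_sum fun p hp => ?_
  have hp' := hfin.mem_toFinset.1 hp
  exact (h.chart p hp'.1 (hp'.2 ▸ hy)).pos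

theorem RS.ncard_eq (h : RS Z w Ω e γ) {y : ℂ} (hy : y ∈ Ω) (h1 : ∀ p ∈ fib Z w y, e p = 1) :
    (fib Z w y).ncard = deg Z w e y := by
  have hfin := h.finite hy
  rw [deg, finsum_mem_eq_finite_toFinset_sum _ hfin, Set.ncard_eq_toFinset_card _ hfin,
    Finset.card_eq_sum_ones]
  exact Finset.sum_congr rfl fun p hp => (h1 p (hfin.mem_toFinset.1 hp)).symm

theorem isPreconnected_punctured (R : ℝ) : IsPreconnected (ball (0 : ℂ) R \ {0}) := by
  have h1 : ball (0 : ℂ) R \ {0} =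
      (fun q : ℝ × ℝ => (q.1 : ℂ) * Complex.exp (q.2 * Complex.I)) '' (Ioo 0 R ×ˢ univ) := by
    ext z
    constructor
    · rintro ⟨hz, hz0⟩
      exact ⟨(‖z‖, z.arg), ⟨⟨norm_pos_iff.2 hz0, mem_ball_zero_iff.1 hz⟩, mem_univ _⟩,
        Complex.norm_mul_exp_arg_mul_I z⟩
    · rintro ⟨⟨r, θ⟩, ⟨⟨h0, hR⟩, -⟩, rfl⟩
      have hn : ‖(r : ℂ) * Complex.exp (θ * Complex.I)‖ = r := by
        rw [norm_mul, Complex.norm_exp_ofReal_mul_I, mul_one, Complex.norm_real,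
          Real.norm_of_nonneg h0.le]
      refine ⟨mem_ball_zero_iff.2 (by rw [hn]; exact hR), fun hz => ?_⟩
      have hz' : (r : ℂ) * Complex.exp (θ * Complex.I) = 0 := hz
      rw [hz', norm_zero] at hn
      exact h0.ne hn
  rw [h1]
  refine (isPreconnected_Ioo.prod isPreconnected_univ).image _ (Continuous.continuousOn ?_)
  fun_prop

/-- Norms of bounded functions over a punctured disc extend across the puncture. -/
theorem RS.extend {R : ℝ} (hR : 0 < R) (h : RS Z w (ball 0 R \ {0}) e γ) {g : V → ℂ}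
    (hg : ∀ p ∈ Z, AnalyticAt ℂ g p) :
    ∃ N : ℂ → ℂ, AnalyticAt ℂ N 0 ∧ ∀ y, y ≠ 0 → N y = nrm Z w e g y := by
  obtain ⟨m, hm⟩ := h.deg_const (isPreconnected_punctured R)
  obtain ⟨B, hB⟩ := h.cpt.exists_bound_of_continuousOn
    (f := g) fun p hp => (hg p hp).continuousAt.continuousWithinAt
  have han := h.analytic (g := g) fun p hp _ => hg p hp
  have hb : BddAbove (norm ∘ nrm Z w e g '' (ball 0 R \ {0})) := by
    refine ⟨B ^ m, ?_⟩
    rintro _ ⟨y, hy, rfl⟩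
    have hfin := h.finite hy
    rw [← hm y hy, comp_apply, nrm, deg, finsum_mem_eq_finite_toFinset_sum _ hfin,
      finprod_mem_eq_finite_toFinset_prod _ hfin, norm_prod, ← Finset.prod_pow_eq_pow_sum]
    refine Finset.prod_le_prod (fun p _ => norm_nonneg _) fun p hp => ?_
    rw [norm_pow]
    exact pow_le_pow_left₀ (norm_nonneg _) (hB p (hfin.mem_toFinset.1 hp).1) _
  have hd := Complex.differentiableOn_update_limUnder_of_bddAbove (ball_mem_nhds (0 : ℂ) hR)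
    han.differentiableOn hb
  exact ⟨_, hd.analyticAt (ball_mem_nhds (0 : ℂ) hR), fun y hy => update_of_ne hy _ _⟩

end Pool.Agent.MP_7e71a7_ag

end
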