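import Pool.Agent.MP_7e71a7_ag.Mg.NF
import Pool.Agent.MP_7e71a7_ag.Mg.RS

-- part MP_7e71a7_ag.Cross
section

/-! Cross-caps are stable (Whitney's normal form with parameters). -/

open Filter Topology Set Function Metric Module

namespace Pool.Agent.MP_7e71a7_ag

open Pool.Agent.Lib.SCV

variable {E F U P : Type} [NormedAddCommGroup E] [NormedSpace ℂ E] [FiniteDimensional ℂ E]
  [NormedAddCommGroup F] [NormedSpace ℂ F] [FiniteDimensional ℂ F]
  [NormedAddCommGroup U] [NormedSpace ℂ U] [FiniteDimensional ℂ U]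
  [NormedAddCommGroup P] [NormedSpace ℂ P] [FiniteDimensional ℂ P]

/-- Whitney's normal form `(z, u) ↦ (u, z ^ 2, z u)`. -/
noncomputable def whitney (U : Type) [NormedAddCommGroup U] [NormedSpace ℂ U] (x : ℂ × U) :
    U × ℂ × U := (x.2, x.1 ^ 2, x.1 • x.2)

attribute [local fun_prop] analyticAt_fst analyticAt_snd

section Aux

variable {X Y Z : Type} [NormedAddCommGroup X] [NormedSpace ℂ X] [FiniteDimensional ℂ X]
  [NormedAddCommGroup Y] [NormedSpace ℂ Y] [FiniteDimensional ℂ Y]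
  [NormedAddCommGroup Z] [NormedSpace ℂ Z] [FiniteDimensional ℂ Z]

omit [FiniteDimensional ℂ X] in
theorem cross_an2 {g : X → Y} {x : X} (hg : AnalyticAt ℂ g x) : AnalyticAt ℂ (fderiv ℂ g) x := by
  have : CompleteSpace Y := FiniteDimensional.complete ℂ Y
  exact hg.fderiv

omit [FiniteDimensional ℂ X] in
theorem cross_has {g : X → Y} {x : X} (hg : AnalyticAt ℂ g x) (v : X) :
    HasFDerivAt (fun y => fderiv ℂ g y v)
      ((ContinuousLinearMap.apply ℂ Y v).comp (fderiv ℂ (fderiv ℂ g) x)) x :=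
  (ContinuousLinearMap.apply ℂ Y v).hasFDerivAt.comp x (cross_an2 hg).differentiableAt.hasFDerivAt

omit [FiniteDimensional ℂ X] in
theorem cross_snd {g : X → Y} {x v : X} (hg : AnalyticAt ℂ g x) {φ : X → Y} {φ' : X →L[ℂ] Y}
    (h : ∀ᶠ y in 𝓝 x, fderiv ℂ g y v = φ y) (hφ : HasFDerivAt φ φ' x) (b : X) :
    fderiv ℂ (fderiv ℂ g) x b v = φ' b := by
  have := (cross_has hg v).unique (hφ.congr_of_eventuallyEq h)
  simpa using congrArg (fun T => T b) this

omit [FiniteDimensional ℂ X] [FiniteDimensional ℂ Y] [FiniteDimensional ℂ Z] in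
theorem cross_post1 {g : X → Y} {x : X} (hg : AnalyticAt ℂ g x) (L : Y →L[ℂ] Z) (v : X) :
    fderiv ℂ (fun y => L (g y)) x v = L (fderiv ℂ g x v) := by
  have := (L.hasFDerivAt.comp x hg.differentiableAt.hasFDerivAt).fderiv
  exact congrArg (fun T => T v) this

omit [FiniteDimensional ℂ X] in
theorem cross_post2 {g : X → Y} {x : X} (hg : AnalyticAt ℂ g x) (L : Y →L[ℂ] Z) (b v : X) :
    fderiv ℂ (fderiv ℂ (fun y => L (g y))) x b v = L (fderiv ℂ (fderiv ℂ g) x b v) := by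
  have : CompleteSpace Y := FiniteDimensional.complete ℂ Y
  have h := cross_snd (v := v) ((L.analyticAt _).comp hg)
    (hg.eventually_analyticAt.mono fun y hy => cross_post1 hy L v)
    (L.hasFDerivAt.comp x (cross_has hg v)) b
  exact h

omit [FiniteDimensional ℂ X] [FiniteDimensional ℂ Y] [FiniteDimensional ℂ Z] in
theorem cross_pre1 {g : Y → Z} (M : X →L[ℂ] Y) {x : X} (hg : AnalyticAt ℂ g (M x)) (v : X) :
    fderiv ℂ (fun y => g (M y)) x v = fderiv ℂ g (M x) (M v) := by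
  have := (hg.differentiableAt.hasFDerivAt.comp x M.hasFDerivAt).fderiv
  exact congrArg (fun T => T v) this

omit [FiniteDimensional ℂ X] [FiniteDimensional ℂ Y] in
theorem cross_pre2 {g : Y → Z} (M : X →L[ℂ] Y) {x : X} (hg : AnalyticAt ℂ g (M x)) (b v : X) :
    fderiv ℂ (fderiv ℂ (fun y => g (M y))) x b v = fderiv ℂ (fderiv ℂ g) (M x) (M b) (M v) := by
  have : CompleteSpace Z := FiniteDimensional.complete ℂ Z
  have h := cross_snd (v := v) (hg.comp (M.analyticAt x))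
    ((M.continuous.continuousAt.eventually hg.eventually_analyticAt).mono
      fun y hy => cross_pre1 M hy v)
    ((cross_has hg (M v)).comp x M.hasFDerivAt) b
  exact h

omit [FiniteDimensional ℂ X] [FiniteDimensional ℂ Y] [FiniteDimensional ℂ Z] in
theorem cross_part {g : X × Y → Z} (hg : AnalyticAt ℂ g 0) (v : X) :
    fderiv ℂ (fun x => g (x, 0)) 0 v = fderiv ℂ g 0 (v, 0) := by
  exact cross_pre1 (g := g) (ContinuousLinearMap.inl ℂ X Y) (x := 0) hg v

omit [FiniteDimensional ℂ X] [FiniteDimensional ℂ Y] [FiniteDimensional ℂ Z] in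
theorem cross_an0 {g : X × Y → Z} (hg : AnalyticAt ℂ g 0) : AnalyticAt ℂ (fun x => g (x, 0)) 0 :=
  AnalyticAt.comp (f := fun x : X => ((x, 0) : X × Y)) hg (analyticAt_id.prod analyticAt_const)

theorem cross_tend {X Y : Type} [NormedAddCommGroup X] [NormedAddCommGroup Y] :
    Tendsto (fun x : X => ((x, 0) : X × Y)) (𝓝 0) (𝓝 0) :=
  (continuous_id.prodMk continuous_const).tendsto' 0 0 rfl

omit [FiniteDimensional ℂ Y] in
theorem cross_bij (T : X × Y →L[ℂ] X) (h : ∀ v, T (v, 0) = 0 → v = 0) :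
    Bijective fun v : X => T (v, 0) := by
  let S : X →ₗ[ℂ] X := (T.comp (ContinuousLinearMap.inl ℂ X Y) : X →L[ℂ] X)
  have hi : Injective S := (injective_iff_map_eq_zero S).2 h
  exact ⟨hi, LinearMap.injective_iff_surjective.1 hi⟩

/-- The cross-cap condition for a map whose first component is the second coordinate. -/
theorem cross_split {g : ℂ × U → Y} (hg : AnalyticAt ℂ g 0)
    (hc : CrossCap (fun x : ℂ × U => ((x.2, g x) : U × Y)) 0) :
    fderiv ℂ g 0 (1, 0) = 0 ∧ ∀ y : Y, ∃ b, fderiv ℂ (fderiv ℂ g) 0 b (1, 0) = y := by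
  obtain ⟨v, hv, h1, h2⟩ := hc
  have hG : AnalyticAt ℂ (fun x : ℂ × U => ((x.2, g x) : U × Y)) 0 := analyticAt_snd.prod hg
  have a1 : ∀ w, (fderiv ℂ (fun x : ℂ × U => ((x.2, g x) : U × Y)) 0 w).1 = w.2 := fun w => by
    have := cross_post1 hG (ContinuousLinearMap.fst ℂ U Y) w
    simp only [ContinuousLinearMap.coe_fst'] at this
    rw [← this, fderiv_snd]; rfl
  have a2 : ∀ w, (fderiv ℂ (fun x : ℂ × U => ((x.2, g x) : U × Y)) 0 w).2 = fderiv ℂ g 0 w :=
    fun w => (cross_post1 hG (ContinuousLinearMap.snd ℂ U Y) w).symm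
  have a3 : ∀ b w, (fderiv ℂ (fderiv ℂ (fun x : ℂ × U => ((x.2, g x) : U × Y))) 0 b w).1 = 0 :=
    fun b w => by
    have := cross_post2 hG (ContinuousLinearMap.fst ℂ U Y) b w
    simp only [ContinuousLinearMap.coe_fst'] at this
    rw [← this]
    have h3 : (fderiv ℂ fun x : ℂ × U => x.2) = fun _ => ContinuousLinearMap.snd ℂ ℂ U :=
      funext fun x => fderiv_snd
    rw [h3]; simp
  have a4 : ∀ b w, (fderiv ℂ (fderiv ℂ (fun x : ℂ × U => ((x.2, g x) : U × Y))) 0 b w).2 =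
      fderiv ℂ (fderiv ℂ g) 0 b w :=
    fun b w => (cross_post2 hG (ContinuousLinearMap.snd ℂ U Y) b w).symm
  have hv2 : v.2 = 0 := by rw [← a1, h1]; rfl
  have hv1 : v.1 ≠ 0 := fun h => hv (Prod.ext h hv2)
  have hve : v = v.1 • ((1, 0) : ℂ × U) := Prod.ext (by simp) (by simp [hv2])
  have h3 : fderiv ℂ g 0 (1, 0) = 0 := by
    have h4 : fderiv ℂ g 0 v = 0 := by rw [← a2, h1]; rfl
    rw [hve, map_smul] at h4
    exact (smul_eq_zero.1 h4).resolve_left hv1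
  refine ⟨h3, fun y => ?_⟩
  obtain ⟨a, b, hab⟩ := h2 (0, y)
  have b1 := congrArg Prod.fst hab
  have b2 := congrArg Prod.snd hab
  rw [Prod.fst_add, a1, a3, add_zero] at b1
  rw [Prod.snd_add, a2, a4] at b2
  have hae : a = a.1 • ((1, 0) : ℂ × U) := Prod.ext (by simp) (by simpa using b1)
  rw [hae, map_smul, h3, smul_zero, zero_add, hve, map_smul] at b2
  exact ⟨v.1 • b, by rw [map_smul]; exact b2⟩

end Aux

theorem nf_step3 {a : U × P → ℂ} {H : (ℂ × U) × P → U} (ha : AnalyticAt ℂ a 0)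
    (hH : AnalyticAt ℂ H 0)
    (hc : CrossCap (fun x : ℂ × U => ((x.2, a (x.2, 0) + x.1 ^ 2, H (x, 0)) : U × ℂ × U)) 0) :
    NF (whitney U) (fun q : (ℂ × U) × P => ((q.1.2, a (q.1.2, q.2) + q.1.1 ^ 2, H q) : U × ℂ × U)) := by
  have : CompleteSpace U := FiniteDimensional.complete ℂ U
  have hK : AnalyticAt ℂ (fun q : ℂ × (U × P) => H ((q.1, q.2.1), q.2.2)) (0, 0) :=
    AnalyticAt.comp (f := fun q : ℂ × (U × P) => (((q.1, q.2.1), q.2.2) : (ℂ × U) × P)) hH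
      (by fun_prop)
  obtain ⟨A, B, hA, hB, hAB⟩ := exists_even_odd hK
  have hA0 : AnalyticAt ℂ A 0 := hA
  have hB0 : AnalyticAt ℂ B 0 := hB
  have hAB' : ∀ᶠ q in 𝓝 (0 : (ℂ × U) × P),
      H q = A (q.1.1 ^ 2, q.1.2, q.2) + q.1.1 • B (q.1.1 ^ 2, q.1.2, q.2) :=
    (Continuous.tendsto' (f := fun q : (ℂ × U) × P => ((q.1.1, q.1.2, q.2) : ℂ × (U × P)))
      (by fun_prop) 0 (0, 0) rfl).eventually hAB
  have g2 : AnalyticAt ℂ (fun x : ℂ × U => a (x.2, 0) + x.1 ^ 2) 0 :=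
    (AnalyticAt.comp (f := fun x : ℂ × U => ((x.2, 0) : U × P)) ha (by fun_prop)).add
      (by fun_prop)
  have g3 : AnalyticAt ℂ (fun x : ℂ × U => H (x, 0)) 0 := cross_an0 hH
  obtain ⟨c1, c2⟩ := cross_split (g2.prod g3) hc
  -- derivative in the first variable along the axis
  have d3 : ∀ᶠ u in 𝓝 (0 : U), fderiv ℂ (fun x : ℂ × U => H (x, 0)) (0, u) (1, 0) = B (0, u, 0) := by
    have t1 : Tendsto (fun u : U => ((0, u) : ℂ × U)) (𝓝 0) (𝓝 0) :=
      Continuous.tendsto' (by fun_prop) 0 0 rfl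
    have t2 : Tendsto (fun u : U => ((0, u, 0) : ℂ × U × P)) (𝓝 0) (𝓝 0) :=
      Continuous.tendsto' (by fun_prop) 0 0 rfl
    filter_upwards [t1.eventually (cross_tend.eventually hAB').eventually_nhds,
      t2.eventually hA0.eventually_analyticAt, t2.eventually hB0.eventually_analyticAt]
      with u h1 h2 h3
    have i1 : HasFDerivAt (fun x : ℂ × U => ((x.1 ^ 2, x.2, 0) : ℂ × U × P)) _ (0, u) :=
      ((hasFDerivAt_fst (𝕜 := ℂ)).pow 2).prodMk
        ((hasFDerivAt_snd (𝕜 := ℂ)).prodMk (hasFDerivAt_const _ _))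
    have h4 : HasFDerivAt A (fderiv ℂ A (0, u, 0)) (((0, u) : ℂ × U).1 ^ 2, ((0, u) : ℂ × U).2, 0) := by
      simpa using h2.differentiableAt.hasFDerivAt
    have h5 : HasFDerivAt B (fderiv ℂ B (0, u, 0)) (((0, u) : ℂ × U).1 ^ 2, ((0, u) : ℂ × U).2, 0) := by
      simpa using h3.differentiableAt.hasFDerivAt
    have h7 := HasFDerivAt.comp (f := fun x : ℂ × U => ((x.1 ^ 2, x.2, 0) : ℂ × U × P)) (0, u) h4 i1
    have h8 := HasFDerivAt.comp (f := fun x : ℂ × U => ((x.1 ^ 2, x.2, 0) : ℂ × U × P)) (0, u) h5 i1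
    have h6 := (h7.add ((hasFDerivAt_fst (𝕜 := ℂ)).smul h8)).congr_of_eventuallyEq h1
    rw [h6.fderiv]
    simp [Prod.mk_zero_zero]
  have e3 : ∀ w, (fderiv ℂ (fun x : ℂ × U => (a (x.2, 0) + x.1 ^ 2, H (x, 0))) 0 w).2 =
      fderiv ℂ (fun x : ℂ × U => H (x, 0)) 0 w :=
    fun w => (cross_post1 (g2.prod g3) (ContinuousLinearMap.snd ℂ ℂ U) w).symm
  have hB00 : B 0 = 0 := by
    have h1 := d3.self_of_nhds
    have h2 := e3 (1, 0)
    rw [c1] at h2
    exact h1.symm.trans h2.symm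
  have s2 : ∀ b : ℂ × U,
      fderiv ℂ (fderiv ℂ (fun x : ℂ × U => a (x.2, 0) + x.1 ^ 2)) 0 b (1, 0) = 2 * b.1 := by
    intro b
    have t1 : Tendsto (fun x : ℂ × U => ((x.2, 0) : U × P)) (𝓝 0) (𝓝 0) :=
      Continuous.tendsto' (by fun_prop) 0 0 rfl
    have h1 : ∀ᶠ x in 𝓝 (0 : ℂ × U),
        fderiv ℂ (fun x : ℂ × U => a (x.2, 0) + x.1 ^ 2) x (1, 0) = 2 * x.1 := by
      filter_upwards [t1.eventually ha.eventually_analyticAt] with x hx
      have i1 : HasFDerivAt (fun x : ℂ × U => ((x.2, 0) : U × P)) _ x :=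
        (hasFDerivAt_snd (𝕜 := ℂ)).prodMk (hasFDerivAt_const _ _)
      have h2 := (hx.differentiableAt.hasFDerivAt.comp x i1).add (hasFDerivAt_fst.pow 2)
      erw [h2.fderiv]
      simp [Prod.mk_zero_zero]
    rw [cross_snd g2 h1 (hasFDerivAt_fst.const_mul 2)]
    simp
  have s3 : ∀ u : U, fderiv ℂ (fderiv ℂ (fun x : ℂ × U => H (x, 0))) 0 (0, u) (1, 0) =
      fderiv ℂ B 0 (0, u, 0) := by
    intro u
    have h1 : HasFDerivAt (fun u : U => fderiv ℂ (fun x : ℂ × U => H (x, 0)) (0, u) (1, 0)) _ 0 :=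
      HasFDerivAt.comp (f := fun u : U => ((0, u) : ℂ × U)) 0 (cross_has g3 (1, 0))
        ((hasFDerivAt_const _ _).prodMk (hasFDerivAt_id _))
    have h2 : HasFDerivAt (fun u : U => B (0, u, 0)) _ 0 :=
      HasFDerivAt.comp (f := fun u : U => ((0, u, 0) : ℂ × U × P)) 0
        hB0.differentiableAt.hasFDerivAt
        ((hasFDerivAt_const _ _).prodMk ((hasFDerivAt_id _).prodMk (hasFDerivAt_const _ _)))
    have h3 := h1.unique (h2.congr_of_eventuallyEq d3)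
    simpa using congrArg (fun T => T u) h3
  have hsur : ∀ y : U, ∃ u, fderiv ℂ B 0 (0, u, 0) = y := by
    intro y
    obtain ⟨b, hb⟩ := c2 (0, y)
    have b1 := cross_post2 (g2.prod g3) (ContinuousLinearMap.fst ℂ ℂ U) b (1, 0)
    have b2 := cross_post2 (g2.prod g3) (ContinuousLinearMap.snd ℂ ℂ U) b (1, 0)
    rw [hb] at b1 b2
    have b3 : 2 * b.1 = 0 := (s2 b).symm.trans b1
    have b4 : b = (0, b.2) := Prod.ext (by simpa using b3) rfl
    refine ⟨b.2, ?_⟩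
    rw [← s3, ← b4]
    exact b2
  have hinj : ∀ u : U, fderiv ℂ B 0 (0, u, 0) = 0 → u = 0 := by
    let S : U →ₗ[ℂ] U := ((fderiv ℂ B 0).comp ((ContinuousLinearMap.inr ℂ ℂ (U × P)).comp
      (ContinuousLinearMap.inl ℂ U P)) : U →L[ℂ] U)
    have hs : Surjective S := hsur
    exact (injective_iff_map_eq_zero S).1 (LinearMap.injective_iff_surjective.2 hs)
  have hΘd : HasFDerivAt (fun q : U × (ℂ × P) => B (q.2.1, q.1, q.2.2)) _ 0 :=
    HasFDerivAt.comp (f := fun q : U × (ℂ × P) => ((q.2.1, q.1, q.2.2) : ℂ × U × P)) 0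
      hB0.differentiableAt.hasFDerivAt
      (hasFDerivAt_snd.fst.prodMk (hasFDerivAt_fst.prodMk hasFDerivAt_snd.snd))
  have hΘ : AnalyticAt ℂ (fun q : U × (ℂ × P) => B (q.2.1, q.1, q.2.2)) 0 :=
    AnalyticAt.comp (f := fun q : U × (ℂ × P) => ((q.2.1, q.1, q.2.2) : ℂ × U × P)) hB0
      (by fun_prop)
  obtain ⟨β, hβ, hβ0, hl, -, hβb⟩ := exists_param_inverse hΘ hB00
    (cross_bij _ fun v hv => hinj v (by rw [hΘd.fderiv] at hv; simpa using hv))
  have iΦ : AnalyticAt ℂ (fun q : (ℂ × U) × P => ((q.1.1 ^ 2, q.1.2, q.2) : ℂ × U × P)) 0 := by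
    fun_prop
  have zΦ : (((0 : (ℂ × U) × P).1.1 ^ 2, (0 : (ℂ × U) × P).1.2, (0 : (ℂ × U) × P).2) :
    ℂ × U × P) = 0 := by simp
  have bΨ : AnalyticAt ℂ (fun q : (U × ℂ × U) × P => β (q.1.1, q.1.2.1, q.2)) 0 :=
    AnalyticAt.comp (f := fun q : (U × ℂ × U) × P => ((q.1.1, q.1.2.1, q.2) : U × ℂ × P)) hβ
      (by fun_prop)
  have bΨ0 : β ((0 : (U × ℂ × U) × P).1.1, (0 : (U × ℂ × U) × P).1.2.1,
    (0 : (U × ℂ × U) × P).2) = 0 := hβ0
  have aΨ : AnalyticAt ℂ a (β ((0 : (U × ℂ × U) × P).1.1, (0 : (U × ℂ × U) × P).1.2.1,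
    (0 : (U × ℂ × U) × P).2), (0 : (U × ℂ × U) × P).2) := by rw [bΨ0]; exact ha
  have AΨ : AnalyticAt ℂ A ((0 : (U × ℂ × U) × P).1.2.1, β ((0 : (U × ℂ × U) × P).1.1,
    (0 : (U × ℂ × U) × P).1.2.1, (0 : (U × ℂ × U) × P).2), (0 : (U × ℂ × U) × P).2) := by
    rw [bΨ0]; exact hA0
  refine ⟨fun q => (q.1.1, B (q.1.1 ^ 2, q.1.2, q.2)),
    fun q => (β (q.1.1, q.1.2.1, q.2), a (β (q.1.1, q.1.2.1, q.2), q.2) + q.1.2.1,
      A (q.1.2.1, β (q.1.1, q.1.2.1, q.2), q.2) + q.1.2.2), ?_, ?_, ?_, ?_, ?_, ?_⟩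
  · exact (analyticAt_fst.comp analyticAt_fst).prod
      (AnalyticAt.comp (f := fun q : (ℂ × U) × P => ((q.1.1 ^ 2, q.1.2, q.2) : ℂ × U × P))
        (by rw [zΦ]; exact hB0) iΦ)
  · refine bΨ.prod (AnalyticAt.prod (AnalyticAt.add ?_ (by fun_prop))
      (AnalyticAt.add ?_ (by fun_prop)))
    · exact AnalyticAt.comp
        (f := fun q : (U × ℂ × U) × P => ((β (q.1.1, q.1.2.1, q.2), q.2) : U × P)) aΨ
        (bΨ.prod analyticAt_snd)
    · exact AnalyticAt.comp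
        (f := fun q : (U × ℂ × U) × P => ((q.1.2.1, β (q.1.1, q.1.2.1, q.2), q.2) : ℂ × U × P))
        AΨ (AnalyticAt.prod (by fun_prop) (bΨ.prod analyticAt_snd))
  · show ((0 : ℂ), B _) = 0
    rw [zΦ, hB00]; rfl
  · refine cross_bij _ fun v hv => ?_
    have h1 : HasFDerivAt B (fderiv ℂ B 0) ((0 : (ℂ × U) × P).1.1 ^ 2, (0 : (ℂ × U) × P).1.2,
      (0 : (ℂ × U) × P).2) := by rw [zΦ]; exact hB0.differentiableAt.hasFDerivAt
    have h2 : HasFDerivAt (fun q : (ℂ × U) × P => (q.1.1, B (q.1.1 ^ 2, q.1.2, q.2))) _ 0 :=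
      hasFDerivAt_fst.fst.prodMk (HasFDerivAt.comp
        (f := fun q : (ℂ × U) × P => ((q.1.1 ^ 2, q.1.2, q.2) : ℂ × U × P)) 0 h1
        ((hasFDerivAt_fst.fst.pow 2).prodMk (hasFDerivAt_fst.snd.prodMk hasFDerivAt_snd)))
    rw [h2.fderiv] at hv
    have h3 : v.1 = 0 := by simpa using congrArg Prod.fst hv
    have h4 : fderiv ℂ B 0 (0, v.2, 0) = 0 := by simpa using congrArg Prod.snd hv
    exact Prod.ext h3 (hinj _ h4)
  · refine cross_bij _ fun v hv => ?_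
    have h1 : HasFDerivAt (fun q : (U × ℂ × U) × P => β (q.1.1, q.1.2.1, q.2)) _ 0 :=
      HasFDerivAt.comp
        (f := fun q : (U × ℂ × U) × P => ((q.1.1, q.1.2.1, q.2) : U × ℂ × P)) 0
        hβ.differentiableAt.hasFDerivAt
        (hasFDerivAt_fst.fst.prodMk (hasFDerivAt_fst.snd.fst.prodMk hasFDerivAt_snd))
    have h2 : HasFDerivAt (fun q : (U × ℂ × U) × P => a (β (q.1.1, q.1.2.1, q.2), q.2)) _ 0 :=
      HasFDerivAt.comp
        (f := fun q : (U × ℂ × U) × P => ((β (q.1.1, q.1.2.1, q.2), q.2) : U × P)) 0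
        aΨ.differentiableAt.hasFDerivAt (h1.prodMk hasFDerivAt_snd)
    have h3 : HasFDerivAt
        (fun q : (U × ℂ × U) × P => A (q.1.2.1, β (q.1.1, q.1.2.1, q.2), q.2)) _ 0 :=
      HasFDerivAt.comp
        (f := fun q : (U × ℂ × U) × P => ((q.1.2.1, β (q.1.1, q.1.2.1, q.2), q.2) : ℂ × U × P)) 0
        AΨ.differentiableAt.hasFDerivAt
        (hasFDerivAt_fst.snd.fst.prodMk (h1.prodMk hasFDerivAt_snd))
    have h0 := hasFDerivAt_fst (𝕜 := ℂ) (p := (0 : (U × ℂ × U) × P))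
    have h5 := h0.snd.fst
    have h6 := h0.snd.snd
    have h4 := h1.prodMk ((h2.add h5).prodMk (h3.add h6))
    erw [h4.fderiv] at hv
    have k1 : fderiv ℂ β 0 (v.1, v.2.1, 0) = 0 := congrArg Prod.fst hv
    have k2 : fderiv ℂ a _ (fderiv ℂ β 0 (v.1, v.2.1, 0), 0) + v.2.1 = 0 :=
      congrArg (fun x => x.2.1) hv
    have k3 : fderiv ℂ A _ (v.2.1, fderiv ℂ β 0 (v.1, v.2.1, 0), 0) + v.2.2 = 0 :=
      congrArg (fun x => x.2.2) hv
    rw [k1, Prod.mk_zero_zero, map_zero, zero_add] at k2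
    rw [k1, k2, Prod.mk_zero_zero, Prod.mk_zero_zero, map_zero, zero_add] at k3
    rw [k2, Prod.mk_zero_zero] at k1
    have k4 : v.1 = 0 := hβb.1 (k1.trans (by simp [Prod.mk_zero_zero]))
    exact Prod.ext k4 (Prod.ext k2 k3)
  · have t1 : Tendsto (fun q : (ℂ × U) × P => ((q.1.2, q.1.1 ^ 2, q.2) : U × ℂ × P)) (𝓝 0) (𝓝 0) :=
      Continuous.tendsto' (by fun_prop) 0 0 (by simp)
    filter_upwards [hAB', t1.eventually hl] with q h1 h2
    simp only [whitney] at h2 ⊢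
    rw [h2, h1]

theorem nf_step2 {G₂ : (ℂ × U) × P → ℂ} {G₃ : (ℂ × U) × P → U} (h₂ : AnalyticAt ℂ G₂ 0)
    (h₃ : AnalyticAt ℂ G₃ 0) (h1 : fderiv ℂ G₂ 0 ((1, 0), 0) = 0)
    (h2 : fderiv ℂ (fderiv ℂ G₂) 0 ((1, 0), 0) ((1, 0), 0) ≠ 0)
    (hc : CrossCap (fun x : ℂ × U => ((x.2, G₂ (x, 0), G₃ (x, 0)) : U × ℂ × U)) 0) :
    NF (whitney U) (fun q : (ℂ × U) × P => ((q.1.2, G₂ q, G₃ q) : U × ℂ × U)) := by
  let M : ℂ × (U × P) →L[ℂ] (ℂ × U) × P := (ContinuousLinearEquiv.prodAssoc ℂ ℂ U P).symm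
  have hM : AnalyticAt ℂ G₂ (M 0) := h₂
  obtain ⟨ζ, a, hζ, ha, hζ0, hζ1, hK⟩ := exists_morse (G := fun q => G₂ (M q))
    (hM.comp (M.analyticAt 0)) ((cross_pre1 M hM _).trans h1)
    (by rw [cross_pre2 M hM]; exact h2)
  have t0 : Tendsto (fun q : (ℂ × U) × P => ((q.1.1, q.1.2, q.2) : ℂ × (U × P))) (𝓝 0) (𝓝 0) :=
    Continuous.tendsto' (by fun_prop) 0 0 rfl
  have hK' : ∀ᶠ q in 𝓝 (0 : (ℂ × U) × P), G₂ q = a (q.1.2, q.2) + ζ (q.1.1, q.1.2, q.2) ^ 2 :=
    t0.eventually hK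
  have hΦ : AnalyticAt ℂ (fun q : (ℂ × U) × P => ((ζ (q.1.1, q.1.2, q.2), q.1.2) : ℂ × U)) 0 :=
    (AnalyticAt.comp (f := fun q : (ℂ × U) × P => ((q.1.1, q.1.2, q.2) : ℂ × (U × P))) hζ
      (by fun_prop)).prod (by fun_prop)
  have hΦ0 : (fun q : (ℂ × U) × P => ((ζ (q.1.1, q.1.2, q.2), q.1.2) : ℂ × U)) 0 = 0 :=
    Prod.ext hζ0 rfl
  have hΦb : Bijective fun v : ℂ × U =>
      fderiv ℂ (fun q : (ℂ × U) × P => ((ζ (q.1.1, q.1.2, q.2), q.1.2) : ℂ × U)) 0 (v, 0) := by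
    refine cross_bij _ fun v hv => ?_
    have h0 := hasFDerivAt_fst (𝕜 := ℂ) (p := (0 : (ℂ × U) × P))
    have h3 := (HasFDerivAt.comp
      (f := fun q : (ℂ × U) × P => ((q.1.1, q.1.2, q.2) : ℂ × (U × P))) 0
      hζ.differentiableAt.hasFDerivAt (h0.fst.prodMk (h0.snd.prodMk hasFDerivAt_snd))).prodMk h0.snd
    erw [h3.fderiv] at hv
    have k1 : fderiv ℂ ζ 0 (v.1, v.2, 0) = 0 := congrArg Prod.fst hv
    have k2 : v.2 = 0 := congrArg Prod.snd hv
    have k3 : ((v.1, v.2, 0) : ℂ × U × P) = v.1 • (1, 0) := by simp [k2, Prod.mk_zero_zero]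
    rw [k3, map_smul] at k1
    exact Prod.ext ((smul_eq_zero.1 k1).resolve_right hζ1) k2
  obtain ⟨χ, hχ, hχ0, hl, hr, hχb⟩ := exists_param_inverse hΦ hΦ0 hΦb
  have hχ2 : AnalyticAt ℂ (fun q : (ℂ × U) × P => ((χ q, q.2) : (ℂ × U) × P)) 0 :=
    hχ.prod analyticAt_snd
  have hχ3 : ((χ 0, (0 : (ℂ × U) × P).2) : (ℂ × U) × P) = 0 := by rw [hχ0]; rfl
  have hH : AnalyticAt ℂ (fun q : (ℂ × U) × P => G₃ (χ q, q.2)) 0 :=
    AnalyticAt.comp (f := fun q : (ℂ × U) × P => ((χ q, q.2) : (ℂ × U) × P))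
      (by rw [hχ3]; exact h₃) hχ2
  refine NF.of_source hΦ hΦ0 hΦb ?_ (nf_step3 ha hH ?_)
  · filter_upwards [hK', hl] with q e1 e2
    rw [e1, e2]
  · have hg : AnalyticAt ℂ (fun x : ℂ × U => ((x.2, G₂ (x, 0), G₃ (x, 0)) : U × ℂ × U)) 0 :=
      analyticAt_snd.prod ((cross_an0 h₂).prod (cross_an0 h₃))
    have hχ00 : χ (0, 0) = 0 := hχ0
    have h4 := CrossCap.comp (χ := fun x : ℂ × U => χ (x, 0)) (a := 0) (cross_an0 hχ)
      (by rw [show ⇑(fderiv ℂ (fun x : ℂ × U => χ (x, 0)) 0) = fun v => fderiv ℂ χ 0 (v, 0) from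
        funext (cross_part hχ)]; exact hχb)
      (by rw [hχ00]; exact hg) (by rw [hχ00]; exact hc)
    refine h4.congr ?_
    have t1 : Tendsto (fun q : (ℂ × U) × P => ((χ q, q.2) : (ℂ × U) × P)) (𝓝 0) (𝓝 0) := by
      have := hχ2.continuousAt.tendsto
      rwa [hχ3] at this
    filter_upwards [cross_tend.eventually hr, cross_tend.eventually (t1.eventually hK')]
      with x e1 e2
    have e3 : ζ ((χ (x, 0)).1, (χ (x, 0)).2, 0) = x.1 := congrArg Prod.fst e1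
    have e4 : (χ (x, 0)).2 = x.2 := (Prod.ext_iff.1 e1).2
    rw [e2, e3, e4]

theorem nf_step1 {G : (ℂ × U) × P → ℂ × U} (hG : AnalyticAt ℂ G 0)
    (hc : CrossCap (fun x : ℂ × U => ((x.2, G (x, 0)) : U × ℂ × U)) 0) :
    NF (whitney U) (fun q : (ℂ × U) × P => ((q.1.2, G q) : U × ℂ × U)) := by
  obtain ⟨c1, c2⟩ := cross_split (cross_an0 hG) hc
  let S : ℂ × U →ₗ[ℂ] ℂ × U := ((ContinuousLinearMap.apply ℂ (ℂ × U) ((1, 0) : ℂ × U)).comp
    (fderiv ℂ (fderiv ℂ fun x : ℂ × U => G (x, 0)) 0) : ℂ × U →L[ℂ] ℂ × U)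
  have hs : Surjective S := c2
  let Me : (ℂ × U) ≃L[ℂ] ℂ × U := (LinearEquiv.ofBijective S
    ⟨LinearMap.injective_iff_surjective.2 hs, hs⟩).toContinuousLinearEquiv
  have hMe : Me (1, 0) = fderiv ℂ (fderiv ℂ G) 0 ((1, 0), 0) ((1, 0), 0) :=
    cross_pre2 (g := G) (ContinuousLinearMap.inl ℂ (ℂ × U) P) (x := 0) hG (1, 0) (1, 0)
  let L : (U × ℂ × U) ≃L[ℂ] U × ℂ × U := (ContinuousLinearEquiv.refl ℂ U).prodCongr Me.symm
  let L₂ : ℂ × U →L[ℂ] ℂ := (ContinuousLinearMap.fst ℂ ℂ U).comp (Me.symm : ℂ × U →L[ℂ] ℂ × U)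
  let L₃ : ℂ × U →L[ℂ] U := (ContinuousLinearMap.snd ℂ ℂ U).comp (Me.symm : ℂ × U →L[ℂ] ℂ × U)
  refine NF.of_target L (nf_step2 (G₂ := fun q => L₂ (G q)) (G₃ := fun q => L₃ (G q))
    ((L₂.analyticAt _).comp hG) ((L₃.analyticAt _).comp hG) ?_ ?_ ?_)
  · rw [cross_post1 hG, ← cross_part hG, c1, map_zero]
  · rw [cross_post2 hG, ← hMe]
    simp [L₂]
  · exact CrossCap.target L (analyticAt_snd.prod (cross_an0 hG)) hc

theorem isStable_of_crossCap (hdim : finrank ℂ F + 1 = 2 * finrank ℂ E) {f : E → F}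
    (hf : AnalyticAt ℂ f 0) (hf0 : f 0 = 0) (hc : CrossCap f 0) : IsStable f {0} 0 := by
  obtain ⟨v, hv, hv0, hsur⟩ := id hc
  obtain ⟨l, hl⟩ := SeparatingDual.exists_eq_one (R := ℂ) hv
  let W : Submodule ℂ E := LinearMap.ker (l : E →ₗ[ℂ] ℂ)
  have hW : finrank ℂ W + 1 = finrank ℂ E := by
    have h1 := LinearMap.finrank_range_add_finrank_ker (l : E →ₗ[ℂ] ℂ)
    have h2 : LinearMap.range (l : E →ₗ[ℂ] ℂ) = ⊤ :=
      LinearMap.range_eq_top.2 fun z => ⟨z • v, by simp [hl]⟩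
    rw [h2, finrank_top, finrank_self] at h1
    rw [add_comm]; exact h1
  have hmem : ∀ x : E, x - l x • v ∈ W := fun x => by simp [W, hl]
  let T : W × ℂ × W →ₗ[ℂ] F :=
    { toFun := fun p => fderiv ℂ f 0 p.1 + fderiv ℂ (fderiv ℂ f) 0 (p.2.1 • v + p.2.2) v
      map_add' := fun p p' => by
        simp only [Prod.fst_add, Prod.snd_add, Submodule.coe_add, map_add, add_smul,
          add_apply]
        abel
      map_smul' := fun c p => by
        simp only [Prod.smul_fst, Prod.smul_snd, Submodule.coe_smul, map_smul, smul_eq_mul,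
          mul_smul, map_add, add_apply, smul_apply,
          RingHom.id_apply, smul_add] }
  have hA : ∀ x : E, T (⟨x - l x • v, hmem x⟩, 0, 0) = fderiv ℂ f 0 x := fun x => by
    simp [T, hv0]
  have hTs : Surjective T := fun y => by
    obtain ⟨a, b, hab⟩ := hsur y
    refine ⟨(⟨a - l a • v, hmem a⟩, l b, ⟨b - l b • v, hmem b⟩), ?_⟩
    rw [← hab]
    simp [T, hv0]
  have hfr : finrank ℂ (W × ℂ × W) = finrank ℂ F := by
    rw [finrank_prod, finrank_prod, finrank_self]; omega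
  have hTb : Bijective T :=
    ⟨(LinearMap.injective_iff_surjective_of_finrank_eq_finrank hfr).2 hTs, hTs⟩
  let L : F ≃L[ℂ] W × ℂ × W := (LinearEquiv.ofBijective T hTb).toContinuousLinearEquiv.symm
  have hL : ∀ x : E, L (fderiv ℂ f 0 x) = (⟨x - l x • v, hmem x⟩, 0, 0) := fun x => by
    rw [← hA]
    exact (LinearEquiv.ofBijective T hTb).symm_apply_apply _
  intro d G hG
  obtain ⟨hG1, hG2⟩ := hG 0 rfl
  have hGa : AnalyticAt ℂ G 0 := hG1
  have hG0 : G 0 = 0 := hG2.self_of_nhds.trans hf0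
  let L₁ : F →L[ℂ] W := (ContinuousLinearMap.fst ℂ W (ℂ × W)).comp (L : F →L[ℂ] W × ℂ × W)
  let L₂ : F →L[ℂ] ℂ × W := (ContinuousLinearMap.snd ℂ W (ℂ × W)).comp (L : F →L[ℂ] W × ℂ × W)
  have hΦ : AnalyticAt ℂ (fun q : E × Cn d => ((l q.1, L₁ (G q)) : ℂ × W)) 0 :=
    ((l.analyticAt _).comp analyticAt_fst).prod ((L₁.analyticAt _).comp hGa)
  have hΦ0 : (fun q : E × Cn d => ((l q.1, L₁ (G q)) : ℂ × W)) 0 = 0 := by
    simp [hG0]
  have hΦb : Bijective fun x : E =>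
      fderiv ℂ (fun q : E × Cn d => ((l q.1, L₁ (G q)) : ℂ × W)) 0 (x, 0) := by
    have h1 := (l.hasFDerivAt.comp (0 : E × Cn d) hasFDerivAt_fst).prodMk
      (L₁.hasFDerivAt.comp (0 : E × Cn d) hGa.differentiableAt.hasFDerivAt)
    have h2 : ∀ x : E, fderiv ℂ G 0 (x, 0) = fderiv ℂ f 0 x := fun x => by
      rw [← cross_part hGa, Filter.EventuallyEq.fderiv_eq hG2]
    have h3 : (fun x : E => fderiv ℂ (fun q : E × Cn d => ((l q.1, L₁ (G q)) : ℂ × W)) 0 (x, 0)) =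
        fun x => (l x, ⟨x - l x • v, hmem x⟩) := by
      funext x
      erw [h1.fderiv]
      refine Prod.ext rfl ?_
      show (L (fderiv ℂ G 0 (x, 0))).1 = _
      rw [h2, hL]
    rw [h3]
    constructor
    · intro x y hxy
      have k1 : l x = l y := congrArg Prod.fst hxy
      have k2 : x - l x • v = y - l y • v := congrArg (fun p : ℂ × W => (p.2 : E)) hxy
      rw [k1] at k2
      exact sub_left_injective k2
    · rintro ⟨z, u⟩
      have k1 : l (z • v + u) = z := by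
        have : l u = 0 := u.2
        simp [hl, this]
      exact ⟨z • v + u, Prod.ext k1 (Subtype.ext (by simp only [k1]; abel))⟩
  obtain ⟨χ, hχ, hχ0, hl', hr, hχb⟩ := exists_param_inverse hΦ hΦ0 hΦb
  have hχ2 : AnalyticAt ℂ (fun q : (ℂ × W) × Cn d => ((χ q, q.2) : E × Cn d)) 0 :=
    hχ.prod analyticAt_snd
  have hχ3 : ((χ 0, (0 : (ℂ × W) × Cn d).2) : E × Cn d) = 0 := by rw [hχ0]; rfl
  have hH : AnalyticAt ℂ (fun q : (ℂ × W) × Cn d => L₂ (G (χ q, q.2))) 0 :=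
    (L₂.analyticAt _).comp (AnalyticAt.comp
      (f := fun q : (ℂ × W) × Cn d => ((χ q, q.2) : E × Cn d)) (by rw [hχ3]; exact hGa) hχ2)
  refine isTrivial_of_NF (N := whitney W) (by unfold whitney; fun_prop) (by simp [whitney]) hf0 hG
    (NF.of_target L (NF.of_source hΦ hΦ0 hΦb ?_ (nf_step1 hH ?_)))
  · filter_upwards [hl'] with q e1
    rw [e1]
    rfl
  · have hχ00 : χ (0, 0) = 0 := hχ0
    have hχa := cross_an0 hχ
    have h4 := CrossCap.comp (χ := fun x : ℂ × W => χ (x, 0)) (a := 0) hχa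
      (by rw [show ⇑(fderiv ℂ (fun x : ℂ × W => χ (x, 0)) 0) = fun v => fderiv ℂ χ 0 (v, 0) from
        funext (cross_part hχ)]; exact hχb)
      (by rw [hχ00]; exact hf) (by rw [hχ00]; exact hc)
    have h5 := CrossCap.target L (AnalyticAt.comp (f := fun x : ℂ × W => χ (x, 0))
      (by rw [hχ00]; exact hf) hχa) h4
    refine h5.congr ?_
    have t1 : Tendsto (fun x : ℂ × W => χ (x, 0)) (𝓝 0) (𝓝 0) := by
      have := hχa.continuousAt.tendsto
      rwa [hχ00] at this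
    filter_upwards [cross_tend.eventually hr, t1.eventually hG2] with x e1 e2
    have e4 : L₁ (G (χ (x, 0), 0)) = x.2 := congrArg Prod.snd e1
    simp only [Function.comp]
    rw [← e4, ← e2]
    rfl

end Pool.Agent.MP_7e71a7_ag

end

-- part MP_7e71a7_ag.Inf
section

/-! Infinitesimal consequences of stability and of finite codimension. -/

open Filter Topology Set Function Metric Module

namespace Pool.Agent.MP_7e71a7_ag

variable {E F : Type} [NormedAddCommGroup E] [NormedSpace ℂ E] [FiniteDimensional ℂ E]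
  [NormedAddCommGroup F] [NormedSpace ℂ F] [FiniteDimensional ℂ F]

omit [FiniteDimensional ℂ E] [FiniteDimensional ℂ F] in
theorem fderiv_slice_left {d : ℕ} {Ψ : F × Cn d → F} {y : F}
    (hd : DifferentiableAt ℂ Ψ (y, 0)) (h : ∀ᶠ z in 𝓝 y, Ψ (z, 0) = z) (u : F) :
    fderiv ℂ Ψ (y, 0) (u, 0) = u := by
  have h1 : HasFDerivAt (fun z : F => ((z, 0) : F × Cn d)) (ContinuousLinearMap.inl ℂ F (Cn d)) y :=
    hasFDerivAt_prodMk_left y 0
  have h2 := HasFDerivAt.comp y (f := fun z : F => ((z, 0) : F × Cn d)) hd.hasFDerivAt h1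
  have h3 : HasFDerivAt (Ψ ∘ fun z : F => ((z, 0) : F × Cn d)) (ContinuousLinearMap.id ℂ F) y :=
    (hasFDerivAt_id y).congr_of_eventuallyEq (h.mono fun z hz => by simpa using hz)
  have h4 := h2.unique h3
  have h5 := congrArg (fun T : F →L[ℂ] F => T u) h4
  simpa using h5

omit [FiniteDimensional ℂ E] [FiniteDimensional ℂ F] in
theorem differentiableAt_slice [CompleteSpace F] {d : ℕ} {Ψ : E × Cn d → F} {x : E}
    (h : AnalyticAt ℂ Ψ (x, 0)) (w : E × Cn d) :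
    DifferentiableAt ℂ (fun z : E => fderiv ℂ Ψ (z, 0) w) x := by
  have h1 : DifferentiableAt ℂ (fderiv ℂ Ψ) (x, 0) := h.fderiv.differentiableAt
  have h2 : DifferentiableAt ℂ (fun z : E => ((z, 0) : E × Cn d)) x := by fun_prop
  have h3 := DifferentiableAt.comp x (f := fun z : E => ((z, 0) : E × Cn d)) h1 h2
  exact h3.clm_apply (differentiableAt_const w)

/- HINT. Unfolding `G (z, τ) = g z + τ 0 • θ z` with `d = 1`. With `e = EuclideanSpace.single 0 1`,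
`ξ z = fderiv Φ (z, 0) (0, e)`, `η y' = fderiv Ψ (y', 0) (0, e)`. Differentiate
`G q = Ψ (g (Φ q), q.2)` at `(z, 0)`, `z` near `x`, in the direction `(0, e)`; use `Φ (z, 0) = z`
and `fderiv Ψ (y', 0) (u, 0) = u` for `y'` near `y` (from `Ψ (y', 0) = y'` near `y`). -/
theorem inf_of_isStable {g : E → F} {S : Set E} {y : F} (hg : ∀ x ∈ S, AnalyticAt ℂ g x)
    (hy : ∀ x ∈ S, g x = y) (hs : IsStable g S y) {θ : E → F} (hθ : ∀ x ∈ S, AnalyticAt ℂ θ x) :
    Inf g S y θ := by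
  haveI : CompleteSpace E := FiniteDimensional.complete ℂ E
  haveI : CompleteSpace F := FiniteDimensional.complete ℂ F
  set e : Cn 1 := EuclideanSpace.single 0 1 with he
  let π : Cn 1 →L[ℂ] ℂ := EuclideanSpace.proj 0
  have hπe : π e = 1 := by simp [π, he]
  have hU : IsUnfolding g S (fun q : E × Cn 1 => g q.1 + π q.2 • θ q.1) := by
    intro x hx
    refine ⟨?_, Eventually.of_forall fun z => by simp⟩
    have a1 : AnalyticAt ℂ (fun q : E × Cn 1 => g q.1) (x, 0) :=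
      AnalyticAt.comp (g := g) (f := Prod.fst) (hg x hx) analyticAt_fst
    have a2 : AnalyticAt ℂ (fun q : E × Cn 1 => θ q.1) (x, 0) :=
      AnalyticAt.comp (g := θ) (f := Prod.fst) (hθ x hx) analyticAt_fst
    have a3 : AnalyticAt ℂ (fun q : E × Cn 1 => π q.2) (x, 0) :=
      AnalyticAt.comp (g := π) (f := Prod.snd) (π.analyticAt _) analyticAt_snd
    exact a1.add (a3.smul a2)
  obtain ⟨Φ, Ψ, hΦ, hΨ, hG⟩ := hs 1 _ hU
  obtain ⟨hΨa, hΨe⟩ := hΨ y rfl
  refine ⟨fun z => fderiv ℂ Φ (z, 0) (0, e), fun z => fderiv ℂ Ψ (z, 0) (0, e),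
    fun x hx => differentiableAt_slice (hΦ x hx).1 _, differentiableAt_slice hΨa _, ?_⟩
  intro x hx
  have hgx : Tendsto g (𝓝 x) (𝓝 y) := by
    have := (hg x hx).continuousAt
    rwa [ContinuousAt, hy x hx] at this
  have t1 : Tendsto (fun z : E => ((z, 0) : E × Cn 1)) (𝓝 x) (𝓝 (x, 0)) :=
    (continuous_id.prodMk continuous_const).continuousAt
  have t2 : Tendsto (fun z : E => ((g z, 0) : F × Cn 1)) (𝓝 x) (𝓝 (y, 0)) :=
    hgx.prodMk_nhds tendsto_const_nhds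
  have e1 := t1.eventually (hΦ x hx).1.eventually_analyticAt
  have e2 := (hΦ x hx).2
  have e3 := (hg x hx).eventually_analyticAt
  have e4 := t2.eventually hΨa.eventually_analyticAt
  have e5 := hgx.eventually hΨe.eventually_nhds
  have e6 := t1.eventually (hG x hx).eventually_nhds
  filter_upwards [e1, e2, e3, e4, e5, e6] with z z1 z2 z3 z4 z5 z6
  simp only [id] at z2 z5
  have c1 : HasDerivAt (fun t : ℂ => t • e) e 0 := by
    simpa using (hasDerivAt_id (0 : ℂ)).smul_const e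
  have c2 : HasDerivAt (fun t : ℂ => ((z, t • e) : E × Cn 1)) (0, e) 0 :=
    (hasDerivAt_const (0 : ℂ) z).prodMk c1
  have c3 : HasDerivAt (fun t : ℂ => Φ (z, t • e)) (fderiv ℂ Φ (z, 0) (0, e)) 0 :=
    HasFDerivAt.comp_hasDerivAt_of_eq (0 : ℂ) z1.differentiableAt.hasFDerivAt c2 (by simp)
  have c4 : HasDerivAt (fun t : ℂ => g (Φ (z, t • e)))
      (fderiv ℂ g z (fderiv ℂ Φ (z, 0) (0, e))) 0 :=
    HasFDerivAt.comp_hasDerivAt_of_eq (0 : ℂ) z3.differentiableAt.hasFDerivAt c3 (by simp [z2])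
  have c5 : HasDerivAt (fun t : ℂ => Ψ (g (Φ (z, t • e)), t • e))
      (fderiv ℂ Ψ (g z, 0) (fderiv ℂ g z (fderiv ℂ Φ (z, 0) (0, e)), e)) 0 :=
    HasFDerivAt.comp_hasDerivAt_of_eq (0 : ℂ) z4.differentiableAt.hasFDerivAt (c4.prodMk c1)
      (by simp [z2])
  have c6 : HasDerivAt (fun t : ℂ => g z + t • θ z) (θ z) 0 := by
    simpa using ((hasDerivAt_id (0 : ℂ)).smul_const (θ z)).const_add (g z)
  have t3 : Tendsto (fun t : ℂ => ((z, t • e) : E × Cn 1)) (𝓝 0) (𝓝 (z, 0)) := by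
    simpa using c2.continuousAt.tendsto
  have c7 : HasDerivAt (fun t : ℂ => Ψ (g (Φ (z, t • e)), t • e)) (θ z) 0 := by
    refine c6.congr_of_eventuallyEq ?_
    filter_upwards [t3.eventually z6] with t ht
    simp only [map_smul, hπe, smul_eq_mul, mul_one] at ht
    exact ht.symm
  have c8 := c7.unique c5
  have c9 : ((fderiv ℂ g z (fderiv ℂ Φ (z, 0) (0, e)), e) : F × Cn 1) =
      (fderiv ℂ g z (fderiv ℂ Φ (z, 0) (0, e)), 0) + (0, e) := by simp
  rw [c8, c9, map_add, fderiv_slice_left z4.differentiableAt z5]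

omit [FiniteDimensional ℂ E] in
theorem fderiv_inf {g θ : E → F} {ξ : E → E} {η : F → F} {x v : E} (hg : AnalyticAt ℂ g x)
    (hξ : DifferentiableAt ℂ ξ x) (hη : DifferentiableAt ℂ η (g x)) (hv : fderiv ℂ g x v = 0)
    (h : ∀ᶠ z in 𝓝 x, θ z = fderiv ℂ g z (ξ z) + η (g z)) :
    fderiv ℂ θ x v =
      fderiv ℂ g x (fderiv ℂ ξ x v) + fderiv ℂ (fderiv ℂ g) x v (ξ x) := by
  haveI : CompleteSpace F := FiniteDimensional.complete ℂ F
  have h1 := hg.fderiv.differentiableAt.hasFDerivAt.clm_apply hξ.hasFDerivAt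
  have h2 := HasFDerivAt.comp x hη.hasFDerivAt hg.differentiableAt.hasFDerivAt
  have h3 : HasFDerivAt θ _ x := (h1.add h2).congr_of_eventuallyEq h
  rw [h3.fderiv]
  simp [hv]

omit [FiniteDimensional ℂ E] [FiniteDimensional ℂ F] in
theorem exists_kernel {T : E →L[ℂ] F} (h : ¬ Injective T) : ∃ v, v ≠ 0 ∧ T v = 0 := by
  by_contra hc
  push Not at hc
  refine h ((injective_iff_map_eq_zero T).2 fun v hv => ?_)
  by_contra h0
  exact hc v h0 hv

/- HINT. Double point: choose `L` with `L (p.1 - p.2) = y`, subtract the values at the two points.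
Singular point with kernel vector `v`: choose `L` with `L v = y` and differentiate in the
direction `v`; symmetry of the second derivative (`ContDiffAt.isSymmSndFDerivAt_of_omega`).
Such `L`: `l.smulRight y` with `l` from `SeparatingDual.exists_eq_one` (or `exists_dual_vector`). -/
theorem nice_of_inf {g : E → F} {p : E × E} (hp : p ∈ Dbar g) (h1 : AnalyticAt ℂ g p.1)
    (h2 : AnalyticAt ℂ g p.2)
    (h : ∀ L : E →L[ℂ] F, Inf g {p.1, p.2} (g p.1) (fun z => L z)) : Nice g p := by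
  rcases hp with hp | hp
  · refine Or.inl ⟨hp.1, fun y => ?_⟩
    obtain ⟨l, hl⟩ := SeparatingDual.exists_eq_one (R := ℂ) (sub_ne_zero.2 hp.1)
    obtain ⟨ξ, η, -, -, h3⟩ := h (l.smulRight y)
    have a1 := (h3 p.1 (by simp)).self_of_nhds
    have a2 := (h3 p.2 (by simp)).self_of_nhds
    beta_reduce at a1 a2
    refine ⟨ξ p.1, - ξ p.2, ?_⟩
    have a3 : (l.smulRight y) p.1 - (l.smulRight y) p.2 = y := by
      rw [← map_sub]; simp [hl]
    rw [← a3, a1, a2, hp.2, map_neg]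
    abel
  · obtain ⟨v, hv0, hv⟩ := exists_kernel hp.2
    refine Or.inr ⟨hp.1, v, hv0, hv, fun y => ?_⟩
    obtain ⟨l, hl⟩ := SeparatingDual.exists_eq_one (R := ℂ) hv0
    obtain ⟨ξ, η, a1, a2, h3⟩ := h (l.smulRight y)
    have a3 := fderiv_inf h1 (a1 p.1 (by simp)) a2 hv (h3 p.1 (by simp))
    have a4 : fderiv ℂ (fun z => (l.smulRight y) z) p.1 v = y := by
      rw [(l.smulRight y).fderiv]; simp [hl]
    have a5 : IsSymmSndFDerivAt ℂ g p.1 := h1.contDiffAt.isSymmSndFDerivAt_of_omega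
    refine ⟨fderiv ℂ ξ p.1 v, ξ p.1, ?_⟩
    rw [a5.eq, ← a3, a4]

omit [FiniteDimensional ℂ E] in
theorem an_sub_right (l : E →L[ℂ] ℂ) (b x : E) : AnalyticAt ℂ (fun z => l (z - b)) x :=
  (l.analyticAt _).comp (analyticAt_id.sub analyticAt_const)

omit [FiniteDimensional ℂ E] in
theorem an_sub_left (l : E →L[ℂ] ℂ) (b x : E) : AnalyticAt ℂ (fun z => l (b - z)) x :=
  (l.analyticAt _).comp (analyticAt_const.sub analyticAt_id)

theorem not_onto (hdim : finrank ℂ F + 1 = 2 * finrank ℂ E) (hn : 3 ≤ finrank ℂ E)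
    (T : (E × E × E × F) →ₗ[ℂ] (F × F × F)) : ¬ Surjective T := by
  intro hT
  have h := LinearMap.finrank_le_finrank_of_surjective hT
  simp only [Module.finrank_prod] at h
  omega

theorem no_triple (hdim : finrank ℂ F + 1 = 2 * finrank ℂ E) (hn : 3 ≤ finrank ℂ E)
    {g : E → F} {S : Set E} {y : F} (hy : ∀ x ∈ S, g x = y)
    (h : ∀ θ : E → F, (∀ x, AnalyticAt ℂ θ x) → Inf g S y θ) {a b c : E} (ha : a ∈ S)
    (hb : b ∈ S) (hc : c ∈ S) (hab : a ≠ b) (hac : a ≠ c) (hbc : b ≠ c) : False := by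
  obtain ⟨l₁, h₁⟩ := SeparatingDual.exists_eq_one (R := ℂ) (sub_ne_zero.2 hab)
  obtain ⟨l₂, h₂⟩ := SeparatingDual.exists_eq_one (R := ℂ) (sub_ne_zero.2 hac)
  obtain ⟨l₃, h₃⟩ := SeparatingDual.exists_eq_one (R := ℂ) (sub_ne_zero.2 hbc)
  let T : (E × E × E × F) →ₗ[ℂ] (F × F × F) :=
    { toFun := fun q => (fderiv ℂ g a q.1 + q.2.2.2, fderiv ℂ g b q.2.1 + q.2.2.2,
        fderiv ℂ g c q.2.2.1 + q.2.2.2)
      map_add' := fun q r => by
        simp only [Prod.fst_add, Prod.snd_add, map_add, Prod.mk_add_mk, Prod.mk.injEq]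
        refine ⟨?_, ?_, ?_⟩ <;> abel
      map_smul' := fun r q => by simp }
  refine not_onto hdim hn T ?_
  rintro ⟨u, v, w⟩
  obtain ⟨ξ, η, -, -, h3⟩ := h (fun z => (l₁ (z - b) * l₂ (z - c)) • u +
    (l₁ (a - z) * l₃ (z - c)) • v + (l₂ (a - z) * l₃ (b - z)) • w)
    (fun x => ((((an_sub_right l₁ b x).mul (an_sub_right l₂ c x)).smul analyticAt_const).add
      (((an_sub_left l₁ a x).mul (an_sub_right l₃ c x)).smul analyticAt_const)).add
      (((an_sub_left l₂ a x).mul (an_sub_left l₃ b x)).smul analyticAt_const))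
  have a1 := (h3 a ha).self_of_nhds
  have a2 := (h3 b hb).self_of_nhds
  have a3 := (h3 c hc).self_of_nhds
  simp only [sub_self, map_zero, h₁, h₂, h₃, mul_zero, zero_mul, mul_one, one_smul, zero_smul,
    add_zero, zero_add, hy a ha, hy b hb, hy c hc] at a1 a2 a3
  exact ⟨(ξ a, ξ b, ξ c, η y), Prod.ext a1.symm (Prod.ext a2.symm a3.symm)⟩

theorem no_singular_double (hdim : finrank ℂ F + 1 = 2 * finrank ℂ E) (hn : 3 ≤ finrank ℂ E)
    {g : E → F} {S : Set E} {y : F} (hy : ∀ x ∈ S, g x = y)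
    (h : ∀ θ : E → F, (∀ x, AnalyticAt ℂ θ x) → Inf g S y θ) {a c : E} (ha : a ∈ S)
    (hc : c ∈ S) (hg : AnalyticAt ℂ g a) (hac : a ≠ c) (hs : ¬ Injective (fderiv ℂ g a)) :
    False := by
  obtain ⟨v, hv0, hv⟩ := exists_kernel hs
  obtain ⟨l, hl⟩ := SeparatingDual.exists_eq_one (R := ℂ) (sub_ne_zero.2 hac.symm)
  obtain ⟨m, hm⟩ := SeparatingDual.exists_eq_one (R := ℂ) hv0
  let T : (E × E × E × F) →ₗ[ℂ] (F × F × F) :=
    { toFun := fun q => (fderiv ℂ g a q.1 + q.2.2.2,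
        fderiv ℂ g a q.2.1 + fderiv ℂ (fderiv ℂ g) a v q.1,
        fderiv ℂ g c q.2.2.1 + q.2.2.2)
      map_add' := fun q r => by
        simp only [Prod.fst_add, Prod.snd_add, map_add, Prod.mk_add_mk, Prod.mk.injEq]
        refine ⟨?_, ?_, ?_⟩ <;> abel
      map_smul' := fun r q => by simp }
  refine not_onto hdim hn T ?_
  rintro ⟨u, w, t⟩
  obtain ⟨ξ, η, b1, b2, h3⟩ := h (fun z => u + (m (z - a) * (1 - l (z - a))) • w +
    (l (z - a) * l (z - a)) • (t - u))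
    (fun x => (analyticAt_const.add (((an_sub_right m a x).mul
      (analyticAt_const.sub (an_sub_right l a x))).smul analyticAt_const)).add
      (((an_sub_right l a x).mul (an_sub_right l a x)).smul analyticAt_const))
  have a1 := (h3 a ha).self_of_nhds
  have a3 := (h3 c hc).self_of_nhds
  have a2 := fderiv_inf hg (b1 a ha) (by rw [hy a ha]; exact b2) hv (h3 a ha)
  have d0 : HasFDerivAt (fun z : E => z - a) (ContinuousLinearMap.id ℂ E) a :=
    (hasFDerivAt_id a).sub_const a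
  have d1 : HasFDerivAt (fun z : E => m (z - a)) (m.comp (ContinuousLinearMap.id ℂ E)) a :=
    HasFDerivAt.comp a (f := fun z : E => z - a) m.hasFDerivAt d0
  have d2 : HasFDerivAt (fun z : E => l (z - a)) (l.comp (ContinuousLinearMap.id ℂ E)) a :=
    HasFDerivAt.comp a (f := fun z : E => z - a) l.hasFDerivAt d0
  have d3 := (((d1.fun_mul (d2.const_sub 1)).smul_const w).const_add u).fun_add
    ((d2.fun_mul d2).smul_const (t - u))
  rw [d3.fderiv] at a2
  simp only [sub_self, map_zero, hl, mul_zero, zero_mul, mul_one, one_smul, zero_smul,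
    add_zero, hy a ha, hy c hc, add_sub_cancel] at a1 a3
  simp [hm] at a2
  exact ⟨(ξ a, fderiv ℂ ξ a v, ξ c, η y), Prod.ext a1.symm (Prod.ext a2.symm a3.symm)⟩

/- HINT. Suppose `(x, x')`, `(x, x'')` in `Dbar g`, `x' ≠ x''`. Either `x, x', x''` are distinct or
(after swapping) `x' = x` is singular with kernel vector `v` and `x'' ≠ x`. Choose a functional `μ`
that is nonzero on the finitely many differences (and on `v`); Lagrange resp. Hermite interpolation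
in `μ z` gives entire `θ` with arbitrary `(θ x, θ x', θ x'')` resp. `(θ x, fderiv θ x v, θ x'')`
(with `t = μ z - μ x`, `T = μ x'' - μ x`: `1 - t²/T²`, `t - t²/T`, `t²/T²`). Hence the linear map
`E × E × E × F → F × F × F`, `(a, b, c, u) ↦ (dg x a + u, dg x' b + u, dg x'' c + u)` resp.
`(dg x a + u, d²g x v a + dg x b, dg x'' c + u)` is onto, so
`3 finrank F ≤ 3 finrank E + finrank F`, false. -/
theorem injOn_of_inf (hdim : finrank ℂ F + 1 = 2 * finrank ℂ E) (hn : 3 ≤ finrank ℂ E)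
    {g : E → F} {K : Set E} (hg : ∀ x ∈ K, AnalyticAt ℂ g x)
    (h : ∀ (y : F) (θ : E → F), (∀ x, AnalyticAt ℂ θ x) → Inf g {x | x ∈ K ∧ g x = y} y θ) :
    InjOn Prod.fst (Dbar g ∩ K ×ˢ K) := by
  rintro ⟨x, x'⟩ ⟨hp, hx, hx'⟩ ⟨x₀, x''⟩ ⟨hq, -, hx''⟩ hpq
  simp only at hpq hx hx' hx''
  subst hpq
  by_contra hne
  have hne' : x' ≠ x'' := fun h => hne (by rw [h])
  have hy : ∀ z ∈ {z | z ∈ K ∧ g z = g x}, g z = g x := fun z hz => hz.2
  have m0 : x ∈ {z | z ∈ K ∧ g z = g x} := ⟨hx, rfl⟩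
  have m1 : x' ∈ {z | z ∈ K ∧ g z = g x} := ⟨hx', (Dbar.eq hp).symm⟩
  have m2 : x'' ∈ {z | z ∈ K ∧ g z = g x} := ⟨hx'', (Dbar.eq hq).symm⟩
  rcases hp with hp | hp
  · rcases hq with hq | hq
    · exact no_triple hdim hn hy (h (g x)) m0 m1 m2 hp.1 hq.1 hne'
    · exact no_singular_double hdim hn hy (h (g x)) m0 m1 (hg x hx) hp.1 hq.2
  · have h1 : x = x' := hp.1
    exact no_singular_double hdim hn hy (h (g x)) m0 m2 (hg x hx) (h1 ▸ hne') hp.2

/- HINT. The `k + finrank F + 1` vectors `(c i, η i 0)` of `(Fin k → ℂ) × F` are linearly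
dependent. -/
theorem IsAFinite.dep {f : E → F} (h : IsAFinite f) (θ : ℕ → E → F)
    (hθ : ∀ i, AnalyticAt ℂ (θ i) 0) :
    ∃ (N : ℕ) (β : Fin N → ℂ) (ξ : E → E) (η : F → F), β ≠ 0 ∧ AnalyticAt ℂ ξ 0 ∧
      AnalyticAt ℂ η 0 ∧ η 0 = 0 ∧
        ∀ᶠ x in 𝓝 (0 : E), ∑ i, β i • θ i x = fderiv ℂ f x (ξ x) + η (f x) := by
  obtain ⟨k, θ₀, -, H⟩ := h
  choose c ξ η hξ hη hE using fun i => H (θ i) (hθ i)
  have hdep : ¬ LinearIndependent ℂ
      (fun i : Fin (k + finrank ℂ F + 1) => ((c i, η i 0) : (Fin k → ℂ) × F)) := by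
    intro hli
    have := hli.fintype_card_le_finrank
    simp only [Fintype.card_fin, Module.finrank_prod, Module.finrank_fin_fun] at this
    omega
  rw [Fintype.not_linearIndependent_iff] at hdep
  obtain ⟨β, hβ, i₀, hi₀⟩ := hdep
  have hβ1 : ∑ i, β i • c i = 0 := by simpa [Prod.fst_sum] using congrArg Prod.fst hβ
  have hβ2 : ∑ i, β i • η i 0 = 0 := by simpa [Prod.snd_sum] using congrArg Prod.snd hβ
  refine ⟨_, β, fun x => ∑ i, β i • ξ i x, fun x => ∑ i, β i • η i x,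
    fun h0 => hi₀ (by rw [h0]; rfl), ?_, ?_, hβ2, ?_⟩
  · exact Finset.analyticAt_fun_sum _ fun i _ => analyticAt_const.smul (hξ i)
  · exact Finset.analyticAt_fun_sum _ fun i _ => analyticAt_const.smul (hη i)
  · have hall : ∀ᶠ x in 𝓝 (0 : E), ∀ i : Fin (k + finrank ℂ F + 1),
        θ i x = ∑ j, c i j • θ₀ j x + fderiv ℂ f x (ξ i x) + η i (f x) :=
      eventually_all.2 fun i => hE i
    filter_upwards [hall] with x hx
    have hz : ∑ i, β i • ∑ j, c i j • θ₀ j x = 0 := by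
      simp only [Finset.smul_sum, smul_smul]
      rw [Finset.sum_comm]
      refine Finset.sum_eq_zero fun j _ => ?_
      rw [← Finset.sum_smul]
      have := congrFun hβ1 j
      simp only [Finset.sum_apply, Pi.smul_apply, smul_eq_mul, Pi.zero_apply] at this
      rw [this, zero_smul]
    simp only [hx, smul_add, Finset.sum_add_distrib, hz, zero_add, map_sum, map_smul]

theorem eventually_poly_ne {N : ℕ} {β : Fin N → ℂ} (hβ : β ≠ 0) :
    ∀ᶠ t in 𝓝 (0 : ℂ), t ≠ 0 → ∑ i, β i * t ^ (i : ℕ) ≠ 0 := by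
  classical
  let P : Polynomial ℂ := ∑ i : Fin N, Polynomial.monomial (i : ℕ) (β i)
  have hP : P ≠ 0 := by
    intro h0
    apply hβ
    funext j
    have := congrArg (fun Q : Polynomial ℂ => Q.coeff j) h0
    simpa [P, Polynomial.finset_sum_coeff, Polynomial.coeff_monomial, Fin.val_inj] using this
  have hfin : ({t | P.IsRoot t} \ {0}).Finite := (Polynomial.finite_setOf_isRoot hP).diff
  have hn : ({t | P.IsRoot t} \ {0})ᶜ ∈ 𝓝 (0 : ℂ) :=
    hfin.isClosed.isOpen_compl.mem_nhds (by simp)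
  filter_upwards [hn] with t ht h0 h1
  apply ht
  refine ⟨?_, h0⟩
  simpa [P, Polynomial.IsRoot, Polynomial.eval_finset_sum] using h1

omit [FiniteDimensional ℂ F] in
theorem exists_coords : ∃ (n : ℕ) (μ : Fin n → E →L[ℂ] ℂ), ∀ x : E, x ≠ 0 → ∃ j, μ j x ≠ 0 := by
  refine ⟨finrank ℂ E, fun j => LinearMap.toContinuousLinearMap ((Module.finBasis ℂ E).coord j),
    fun x hx => ?_⟩
  by_contra hc
  push Not at hc
  exact hx ((Module.finBasis ℂ E).forall_coord_eq_zero_iff.1 fun j => by simpa using hc j)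

/- HINT. For a functional `μ` on `E` and `a : F` apply `dep` to `θ i z = μ z ^ i • a`; the
polynomial `∑ β i t ^ i` is nonzero for small `t ≠ 0`. So near `0`, if `f z = 0` and `μ z ≠ 0` then
`a` is in the range of `fderiv f z`. Let `μ`, `a` run through (dual) bases. -/
theorem IsAFinite.fibre (hdim : finrank ℂ E < finrank ℂ F) {f : E → F} (h : IsAFinite f) :
    ∀ᶠ x in 𝓝 (0 : E), f x = 0 → x = 0 := by
  obtain ⟨n, μ, hμ⟩ := exists_coords (E := E)
  have key : ∀ (j : Fin n) (a : F), ∀ᶠ x in 𝓝 (0 : E), f x = 0 → μ j x ≠ 0 →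
      a ∈ LinearMap.range (fderiv ℂ f x : E →ₗ[ℂ] F) := by
    intro j a
    obtain ⟨N, β, ξ, η, hβ, -, -, h0, hE⟩ := h.dep (fun i z => μ j z ^ i • a)
      (fun i => (((μ j).analyticAt _).pow i).smul analyticAt_const)
    have t1 : Tendsto (μ j) (𝓝 0) (𝓝 0) := by simpa using (μ j).continuous.tendsto 0
    filter_upwards [hE, t1.eventually (eventually_poly_ne hβ)] with x hx hP hf hne
    have hP' := hP hne
    simp only [smul_smul, hf, h0, add_zero] at hx
    rw [← Finset.sum_smul] at hx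
    refine ⟨(∑ i, β i * μ j x ^ (i : ℕ))⁻¹ • ξ x, ?_⟩
    simp only [ContinuousLinearMap.coe_coe, map_smul]
    rw [← hx, smul_smul, inv_mul_cancel₀ hP', one_smul]
  have hall : ∀ᶠ x in 𝓝 (0 : E), ∀ (j : Fin n) (k : Fin (finrank ℂ F)), f x = 0 → μ j x ≠ 0 →
      Module.finBasis ℂ F k ∈ LinearMap.range (fderiv ℂ f x : E →ₗ[ℂ] F) :=
    eventually_all.2 fun j => eventually_all.2 fun k => key j _
  filter_upwards [hall] with x hx hf
  by_contra h0
  obtain ⟨j, hj⟩ := hμ x h0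
  have htop : LinearMap.range (fderiv ℂ f x : E →ₗ[ℂ] F) = ⊤ := by
    rw [eq_top_iff, ← (Module.finBasis ℂ F).span_eq, Submodule.span_le]
    rintro _ ⟨k, rfl⟩
    exact hx j k hf hj
  have := LinearMap.finrank_le_finrank_of_surjective (LinearMap.range_eq_top.1 htop)
  omega

omit [FiniteDimensional ℂ E] [FiniteDimensional ℂ F] in
theorem Inf.sum {g : E → F} {S : Set E} {y : F} {n : ℕ} {θ : Fin n → E → F}
    (h : ∀ i, Inf g S y (θ i)) (c : Fin n → ℂ) : Inf g S y (fun z => ∑ i, c i • θ i z) := by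
  choose ξ η h1 h2 h3 using h
  refine ⟨fun z => ∑ i, c i • ξ i z, fun z => ∑ i, c i • η i z, fun x hx => ?_, ?_,
    fun x hx => ?_⟩
  · exact DifferentiableAt.fun_sum fun i _ => (h1 i x hx).fun_const_smul (c i)
  · exact DifferentiableAt.fun_sum fun i _ => (h2 i).fun_const_smul (c i)
  · filter_upwards [eventually_all.2 fun i => h3 i x hx] with z hz
    simp only [hz, smul_add, Finset.sum_add_distrib, map_sum, map_smul]

theorem IsAFinite.inf_aux {f : E → F} (hf : AnalyticAt ℂ f 0) (hf0 : f 0 = 0) (h : IsAFinite f)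
    (μ : F →L[ℂ] ℂ) (L : E →L[ℂ] F) :
    ∀ᶠ ρ in 𝓝[>] (0 : ℝ), ∀ y : F, μ y ≠ 0 →
      Inf f {x | x ∈ ball (0 : E) ρ ∧ f x = y} y (fun z => L z) := by
  haveI : CompleteSpace E := FiniteDimensional.complete ℂ E
  haveI : CompleteSpace F := FiniteDimensional.complete ℂ F
  obtain ⟨N, β, ξ, η, hβ, hξ, hη, -, hE⟩ := h.dep (fun i z => μ (f z) ^ i • L z)
    (fun i => (((μ.analyticAt _).comp hf).pow i).smul (L.analyticAt _))
  have t0 : Tendsto f (𝓝 0) (𝓝 0) := by simpa [hf0] using hf.continuousAt.tendsto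
  have t1 : Tendsto μ (𝓝 0) (𝓝 0) := by simpa using μ.continuous.tendsto 0
  have e1 := hE.eventually_nhds
  have e2 := t0.eventually (t1.eventually (eventually_poly_ne hβ))
  have e3 := hf.eventually_analyticAt
  have e4 := hξ.eventually_analyticAt
  have e5 := t0.eventually hη.eventually_analyticAt
  obtain ⟨ρ₀, hρ₀, hball⟩ := Metric.eventually_nhds_iff_ball.1
    (e1.and (e2.and (e3.and (e4.and e5))))
  filter_upwards [Ioo_mem_nhdsGT hρ₀] with ρ hρ y hy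
  refine Inf.mono (S := {x | x ∈ ball (0 : E) ρ₀ ∧ f x = y}) ?_
    (fun x hx => ⟨ball_subset_ball hρ.2.le hx.1, hx.2⟩)
  rcases Set.eq_empty_or_nonempty {x | x ∈ ball (0 : E) ρ₀ ∧ f x = y} with he | ⟨x₀, hx₀, hy₀⟩
  · rw [he]
    exact ⟨fun _ => 0, fun _ => 0, by simp, by simp, by simp⟩
  let Q : F → ℂ := fun w => ∑ i, β i * μ w ^ (i : ℕ)
  have hQd : Differentiable ℂ Q := by
    unfold Q; fun_prop
  have hQ : Q y ≠ 0 := by
    have := (hball x₀ hx₀).2.1
    rw [hy₀] at this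
    exact this hy
  have hQi : DifferentiableAt ℂ (fun w => (Q w)⁻¹) y := (hQd y).fun_inv hQ
  refine ⟨fun z => (Q (f z))⁻¹ • ξ z, fun w => (Q w)⁻¹ • η w, fun x hx => ?_, ?_,
    fun x hx => ?_⟩
  · obtain ⟨-, -, a3, a4, -⟩ := hball x hx.1
    have : DifferentiableAt ℂ (fun z => (Q (f z))⁻¹) x :=
      DifferentiableAt.comp x (g := fun w => (Q w)⁻¹) (by rw [hx.2]; exact hQi)
        a3.differentiableAt
    exact this.fun_smul a4.differentiableAt
  · have a5 := (hball x₀ hx₀).2.2.2.2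
    rw [hy₀] at a5
    exact hQi.fun_smul a5.differentiableAt
  · obtain ⟨a1, -, a3, -, -⟩ := hball x hx.1
    have t2 : ContinuousAt (fun z => Q (f z)) x :=
      ContinuousAt.comp (g := Q) hQd.continuous.continuousAt a3.continuousAt
    have a6 : ∀ᶠ z in 𝓝 x, Q (f z) ≠ 0 := t2.eventually_ne (by rw [hx.2]; exact hQ)
    filter_upwards [a1, a6] with z hz hne
    simp only [smul_smul] at hz
    rw [← Finset.sum_smul] at hz
    rw [map_smul, ← smul_add, ← hz, smul_smul, inv_mul_cancel₀ hne, one_smul]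

/- HINT. For a functional `μ` on `F` and `L` apply `dep` to `θ i z = μ (f z) ^ i • L z`; divide
`ξ` by `P (μ (f z))` and `η` by `P (μ y)`. Let `μ` run through a dual basis and `L` through a basis
of `E →L[ℂ] F`; `Inf` is linear in `θ`. -/
theorem IsAFinite.inf {f : E → F} (hf : AnalyticAt ℂ f 0) (hf0 : f 0 = 0) (h : IsAFinite f) :
    ∃ ρ > 0, ∀ y : F, y ≠ 0 → ∀ L : E →L[ℂ] F,
      Inf f {x | x ∈ ball (0 : E) ρ ∧ f x = y} y (fun z => L z) := by
  obtain ⟨n, μ, hμ⟩ := exists_coords (E := F)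
  let b := Module.finBasis ℂ (E →L[ℂ] F)
  have hall : ∀ᶠ ρ in 𝓝[>] (0 : ℝ), ∀ j k, ∀ y : F, μ j y ≠ 0 →
      Inf f {x | x ∈ ball (0 : E) ρ ∧ f x = y} y (fun z => b k z) :=
    eventually_all.2 fun j => eventually_all.2 fun k => h.inf_aux hf hf0 _ _
  obtain ⟨ρ, hρ, hpos⟩ := (hall.and self_mem_nhdsWithin).exists
  refine ⟨ρ, hpos, fun y hy L => ?_⟩
  obtain ⟨j, hj⟩ := hμ y hy
  have h1 := Inf.sum (fun k => hρ j k y hj) (fun k => b.repr L k)
  have h2 : (fun z => L z) = fun z => ∑ k, b.repr L k • b k z := by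
    funext z
    have := congrArg (fun T : E →L[ℂ] F => T z) (b.sum_repr L)
    simp only [ContinuousLinearMap.sum_apply, ContinuousLinearMap.smul_apply] at this
    exact this.symm
  rw [h2]
  exact h1

theorem IsAFinite.nice (hdim : finrank ℂ E < finrank ℂ F) {f : E → F} (hf : AnalyticAt ℂ f 0)
    (hf0 : f 0 = 0) (h : IsAFinite f) :
    ∀ᶠ p in 𝓝 (0 : E × E), p ∈ Dbar f → p ≠ 0 → Nice f p := by
  haveI : CompleteSpace F := FiniteDimensional.complete ℂ F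
  obtain ⟨ρ, hρ, hI⟩ := h.inf hf hf0
  have e0 : ∀ᶠ x in 𝓝 (0 : E), (f x = 0 → x = 0) ∧ AnalyticAt ℂ f x ∧ x ∈ ball (0 : E) ρ :=
    (h.fibre hdim).and (hf.eventually_analyticAt.and (ball_mem_nhds _ hρ))
  have e1 := (continuous_fst.tendsto (0 : E × E)).eventually e0
  have e2 := (continuous_snd.tendsto (0 : E × E)).eventually e0
  filter_upwards [e1, e2] with p p1 p2 hp h0
  have hy : f p.1 ≠ 0 := fun hz =>
    h0 (Prod.ext (p1.1 hz) (p2.1 ((Dbar.eq hp).symm.trans hz)))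
  refine nice_of_inf hp p1.2.1 p2.2.1 fun L => (hI _ hy L).mono ?_
  rintro x (rfl | rfl)
  · exact ⟨p1.2.2, rfl⟩
  · exact ⟨p2.2.2, (Dbar.eq hp).symm⟩

end Pool.Agent.MP_7e71a7_ag

end

-- part MP_7e71a7_ag.Main
section

/-! Unstable finitely determined germs `(ℂ^n, 0) → (ℂ^(2n-1), 0)`, `n ≥ 3`, have a
non-contractible disentanglement. -/

open Filter Topology Set Function Metric Module

namespace Pool.Agent.MP_7e71a7_ag

variable {E F : Type} [NormedAddCommGroup E] [NormedSpace ℂ E] [FiniteDimensional ℂ E]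
  [NormedAddCommGroup F] [InnerProductSpace ℂ F] [FiniteDimensional ℂ F]

theorem main (hdim : finrank ℂ F + 1 = 2 * finrank ℂ E) (hn : 3 ≤ finrank ℂ E) {f : E → F}
    (hf0 : f 0 = 0) (hfin : IsAFinite f) (hun : ¬ IsStable f {0} 0) {d : ℕ} {G : E × Cn d → F}
    (hG : IsUnfolding f {0} G) :
    ∃ ρ₀ > 0, ∀ ρ, 0 < ρ → ρ < ρ₀ → ∃ ε₀ > 0, ∀ ε, 0 < ε → ε < ε₀ → ∃ δ > 0, ∀ s : Cn d, ‖s‖ < δ →
      IsLocallyStable (fun x => G (x, s)) (source (fun x => G (x, s)) ρ ε) →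
        ¬ ContractibleSpace ((fun x => G (x, s)) '' source (fun x => G (x, s)) ρ ε) := by
  have : ProperSpace E := FiniteDimensional.proper ℂ E
  obtain ⟨hGa, hGf⟩ := hG 0 rfl
  have hslice : ∀ x s, AnalyticAt ℂ G (x, s) → AnalyticAt ℂ (fun z => G (z, s)) x :=
    fun x s h => h.comp_of_eq (analyticAt_id.prod analyticAt_const) rfl
  have ha0 : AnalyticAt ℂ (fun z => G (z, 0)) 0 := hslice 0 0 hGa
  have h00 : G (0, 0) = 0 := hGf.self_of_nhds.trans hf0
  have hfin0 : IsAFinite (fun z => G (z, 0)) := hfin.congr (hGf.mono fun _ h => h.symm)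
  have hun0 : ¬ IsStable (fun z => G (z, 0)) {0} 0 := fun h => hun (h.congr hGf)
  have hlt : finrank ℂ E < finrank ℂ F := by omega
  obtain ⟨ρ₁, hρ₁, han, hcore⟩ := core hdim hGa (hfin0.nice hlt ha0 h00)
    (fun h => hun0 (isStable_of_immersion ha0 h00 h))
    (fun h => hun0 (isStable_of_crossCap hdim ha0 h00 h))
  obtain ⟨ρ₃, hρ₃, hfib⟩ := Metric.eventually_nhds_iff.1 (hfin0.fibre hlt)
  refine ⟨min ρ₁ ρ₃, by positivity, fun ρ hρ hρ' => ?_⟩
  simp only [lt_min_iff] at hρ'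
  have han0 : ∀ x, ‖x‖ ≤ ρ → AnalyticAt ℂ G (x, 0) := fun x hx =>
    han x 0 (hx.trans hρ'.1.le) (by simpa using hρ₁.le)
  have hA : IsCompact (closedBall (0 : E) ρ \ ball 0 (ρ / 2)) :=
    (isCompact_closedBall _ _).diff isOpen_ball
  obtain ⟨ε₀, hε₀, hε₀'⟩ := hA.exists_forall_le' (f := fun x => ‖G (x, 0)‖) (a := 0)
    (fun x hx => (hslice _ _ (han0 x (by simpa using hx.1))).continuousAt.norm.continuousWithinAt)
    fun x hx => norm_pos_iff.2 fun h => hx.2 (by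
      have h1 : ‖x‖ ≤ ρ := by simpa using hx.1
      rw [hfib (y := x) (by simpa using h1.trans_lt hρ'.2) h]
      simpa using hρ)
  refine ⟨ε₀, hε₀, fun ε hε hε' => ?_⟩
  obtain ⟨ρ₂, hρ₂, hρ₂'⟩ := Metric.eventually_nhds_iff.1
    ((hGa.continuousAt.norm.tendsto.eventually_lt_const (u := ε) (by simpa [h00] using hε)).and
      ((continuous_fst.norm.tendsto ((0, 0) : E × Cn d)).eventually_lt_const (u := ρ)
        (by simpa using hρ)))
  have E1 := eventually_forall_compact hA (y₀ := (0 : Cn d)) (Q := fun q => ε < ‖G q‖)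
    fun x hx => (han0 x (by simpa using hx.1)).continuousAt.norm.tendsto.eventually_const_lt
      (hε'.trans_le (hε₀' x hx))
  obtain ⟨δ, hδ, hδ'⟩ := Metric.eventually_nhds_iff.1 ((hcore ρ₂ hρ₂).and (E1.and
    (Eventually.and (closedBall_mem_nhds (0 : Cn d) hρ₁) (ball_mem_nhds (0 : Cn d) hρ₂))))
  refine ⟨δ, hδ, fun s hs hst => ?_⟩
  obtain ⟨h1, h2, h3, h4⟩ := hδ' (y := s) (by simpa using hs)
  set g : E → F := fun x => G (x, s) with hg
  have hgan : ∀ x, ‖x‖ ≤ ρ → AnalyticAt ℂ g x := fun x hx =>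
    hslice _ _ (han x s (hx.trans hρ'.1.le) (by simpa using h3))
  have hU : source g ρ ε = closedBall 0 (ρ / 2) ∩ g ⁻¹' closedBall 0 ε := by
    ext x
    simp only [source, mem_ofPred_eq, mem_inter_iff, mem_closedBall, dist_zero_right, mem_preimage]
    refine ⟨fun h => ⟨?_, h.2⟩, fun h => ⟨by linarith [h.1], h.2⟩⟩
    by_contra hx
    exact absurd (h2 x ⟨by simpa using h.1.le, by simpa using (not_le.1 hx).le⟩) (not_lt.2 h.2)
  have hUc : IsCompact (source g ρ ε) := by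
    rw [hU]
    refine (isCompact_closedBall _ _).of_isClosed_subset
      (ContinuousOn.preimage_isClosed_of_isClosed (fun x hx => ?_) isClosed_closedBall
        isClosed_closedBall) inter_subset_left
    exact (hgan x (by simp at hx; linarith)).continuousAt.continuousWithinAt
  have hUan : ∀ x ∈ source g ρ ε, AnalyticAt ℂ g x := fun x hx => hgan x hx.1.le
  have hinf : ∀ (y : F) (θ : E → F), (∀ x, AnalyticAt ℂ θ x) →
      Inf g {x | x ∈ source g ρ ε ∧ g x = y} y θ := fun y θ hθ =>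
    inf_of_isStable (fun x hx => hUan x hx.1) (fun x hx => hx.2) (hst y) fun x _ => hθ x
  refine h1 _ hUc (fun x hx => ?_) (fun x hx => ?_) (fun p hp => ?_) (injOn_of_inf hdim hn hUan hinf)
  · have := hρ₂' (y := (x, s)) (by
      rw [Prod.dist_eq]; exact max_lt hx h4)
    exact ⟨this.2, this.1.le⟩
  · simpa using hx.1.trans hρ'.1
  · refine nice_of_inf hp.1 (hUan _ hp.2.1) (hUan _ hp.2.2) fun L =>
      (hinf _ _ fun x => L.analyticAt x).mono ?_
    rintro x (rfl | rfl)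
    · exact ⟨hp.2.1, rfl⟩
    · exact ⟨hp.2.2, (Dbar.eq hp.1).symm⟩

end Pool.Agent.MP_7e71a7_ag

end
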