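import Pool.Agent.MP_7e71a7_ag.Mg.RS
import Pool.Agent.Lib.SCV.MinPrinciple
import Mathlib

-- part MP_7e71a7_ag.Germ
section

/-! The double point curve of the germ: a good linear projection; the curve is not empty. -/

open Filter Topology Set Function Metric Module

namespace Pool.Agent.MP_7e71a7_ag

open Pool.Agent.Lib.SCV

variable {E : Type} [NormedAddCommGroup E] [NormedSpace ℂ E] [FiniteDimensional ℂ E]

/- HINT. `μ a = ∑ i, a ^ i • (b.coord i)` for a basis `b` indexed by `Fin n`; the polynomial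
`∑ (b.repr W i) X ^ i` is nonzero of degree less than `n`. -/
theorem exists_moment : ∃ μ : ℂ → E →L[ℂ] ℂ, ∀ W : E, W ≠ 0 →
    {a | μ a W = 0}.Finite ∧ {a | μ a W = 0}.ncard ≤ finrank ℂ E := by
  classical
  let b := Module.finBasis ℂ E
  refine ⟨fun a => ∑ i : Fin (finrank ℂ E),
    a ^ (i : ℕ) • LinearMap.toContinuousLinearMap (b.coord i), fun W hW => ?_⟩
  let P : Polynomial ℂ := ∑ i : Fin (finrank ℂ E), Polynomial.monomial (i : ℕ) (b.repr W i)
  have hco : ∀ i : Fin (finrank ℂ E), P.coeff i = b.repr W i := by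
    intro i
    simp only [P, Polynomial.finsetSum_coeff, Polynomial.coeff_monomial]
    rw [Finset.sum_eq_single i]
    · simp
    · intro j _ hj
      rw [if_neg (fun h => hj (Fin.ext h))]
    · simp
  have hP : P ≠ 0 := by
    intro h
    apply hW
    apply b.repr.injective
    ext i
    rw [← hco i, h]; simp
  have hdeg : P.natDegree ≤ finrank ℂ E := by
    refine Polynomial.natDegree_sum_le_of_forall_le _ _ fun i _ => ?_
    exact (Polynomial.natDegree_monomial_le _).trans i.2.le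
  have hset : {a : ℂ | (∑ i : Fin (finrank ℂ E),
      a ^ (i : ℕ) • LinearMap.toContinuousLinearMap (b.coord i)) W = 0} = ↑P.roots.toFinset := by
    ext a
    have : P.eval a = (∑ i : Fin (finrank ℂ E),
        a ^ (i : ℕ) • LinearMap.toContinuousLinearMap (b.coord i)) W := by
      simp only [P, Polynomial.eval_finsetSum, Polynomial.eval_monomial,
        _root_.sum_apply, _root_.smul_apply,
        LinearMap.coe_toContinuousLinearMap', Module.Basis.coord_apply, smul_eq_mul]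
      exact Finset.sum_congr rfl fun i _ => mul_comm _ _
    rw [mem_ofPred_eq, ← this, Finset.mem_coe, Multiset.mem_toFinset, Polynomial.mem_roots hP]
    rfl
  rw [hset]
  refine ⟨Finset.finite_toSet _, ?_⟩
  rw [ncard_coe_finset]
  exact (Multiset.toFinset_card_le _).trans ((Polynomial.card_roots' P).trans hdeg)

/- HINT. Compactness of the product of `m` unit spheres: the continuous function
`W ↦ ∑ a ∈ A, ‖∏ i, μ a (W i)‖` is positive since `m * n` values of `a` at most are killed; or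
directly: for a unit vector at most `n` elements of `A` have `‖μ a W‖ < κ`. -/
theorem moment_lower {μ : ℂ → E →L[ℂ] ℂ} {n : ℕ}
    (hμ : ∀ W : E, W ≠ 0 → {a | μ a W = 0}.Finite ∧ {a | μ a W = 0}.ncard ≤ n) (m : ℕ)
    (A : Finset ℂ) (hA : m * n < A.card) :
    ∃ κ > 0, ∀ W : Fin m → E, ∃ a ∈ A, κ * ∏ i, ‖W i‖ ≤ ‖∏ i, μ a (W i)‖ := by
  classical
  have : ProperSpace E := FiniteDimensional.proper ℂ E
  have hAne : A.Nonempty := Finset.card_pos.1 (lt_of_le_of_lt (Nat.zero_le _) hA)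
  have hApos : (0 : ℝ) < A.card := by exact_mod_cast Finset.card_pos.2 hAne
  have hK : IsCompact (univ.pi fun _ : Fin m => sphere (0 : E) 1) :=
    isCompact_univ_pi fun _ => isCompact_sphere 0 1
  have hc : Continuous fun W : Fin m → E => ∑ a ∈ A, ‖∏ i, μ a (W i)‖ := by fun_prop
  have hpos : ∀ W ∈ univ.pi fun _ : Fin m => sphere (0 : E) 1,
      0 < ∑ a ∈ A, ‖∏ i, μ a (W i)‖ := by
    intro W hW
    have hne : ∀ i, W i ≠ 0 := fun i h => by
      have := hW i (mem_univ i)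
      simp [h] at this
    let B : Finset ℂ := Finset.univ.biUnion fun i => (hμ (W i) (hne i)).1.toFinset
    have hB : B.card ≤ m * n := by
      refine Finset.card_biUnion_le.trans ?_
      calc ∑ i : Fin m, (hμ (W i) (hne i)).1.toFinset.card ≤ ∑ _i : Fin m, n :=
            Finset.sum_le_sum fun i _ => by
              rw [← ncard_eq_toFinset_card _ (hμ (W i) (hne i)).1]
              exact (hμ (W i) (hne i)).2
        _ = m * n := by simp
    obtain ⟨a, haA, haB⟩ := Finset.exists_mem_notMem_of_card_lt_card (lt_of_le_of_lt hB hA)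
    refine Finset.sum_pos' (fun _ _ => norm_nonneg _) ⟨a, haA, norm_pos_iff.2 ?_⟩
    refine Finset.prod_ne_zero_iff.2 fun i _ h => haB ?_
    exact Finset.mem_biUnion.2 ⟨i, Finset.mem_univ i, by simpa using h⟩
  obtain ⟨κ, hκ, hle⟩ := hK.exists_forall_le' hc.continuousOn hpos
  refine ⟨κ / A.card, div_pos hκ hApos, fun W => ?_⟩
  by_cases h0 : ∃ i, W i = 0
  · obtain ⟨i, hi⟩ := h0
    obtain ⟨a, ha⟩ := hAne
    refine ⟨a, ha, ?_⟩
    rw [Finset.prod_eq_zero (Finset.mem_univ i) (by simp [hi]), mul_zero]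
    exact norm_nonneg _
  push Not at h0
  have hn : ∀ i, 0 < ‖W i‖ := fun i => norm_pos_iff.2 (h0 i)
  let W' : Fin m → E := fun i => ((‖W i‖⁻¹ : ℝ) : ℂ) • W i
  have hW' : W' ∈ univ.pi fun _ : Fin m => sphere (0 : E) 1 := by
    intro i _
    simp only [W', mem_sphere_iff_norm, sub_zero, norm_smul, Complex.norm_real, norm_inv,
      norm_norm]
    exact inv_mul_cancel₀ (hn i).ne'
  have h1 : ∑ _a ∈ A, κ / A.card ≤ ∑ a ∈ A, ‖∏ i, μ a (W' i)‖ := by
    rw [Finset.sum_const, nsmul_eq_mul, mul_div_cancel₀ _ hApos.ne']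
    exact hle W' hW'
  obtain ⟨a, ha, h2⟩ := Finset.exists_le_of_sum_le hAne h1
  refine ⟨a, ha, ?_⟩
  have h3 : ‖∏ i, μ a (W' i)‖ * ∏ i, ‖W i‖ = ‖∏ i, μ a (W i)‖ := by
    rw [norm_prod, norm_prod, ← Finset.prod_mul_distrib]
    refine Finset.prod_congr rfl fun i _ => ?_
    simp only [W', map_smul, norm_smul, Complex.norm_real, norm_inv, norm_norm]
    field_simp [(hn i).ne']
  rw [← h3]
  exact mul_le_mul_of_nonneg_right h2 (Finset.prod_nonneg fun i _ => (hn i).le)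

omit [FiniteDimensional ℂ E] in
theorem moment_lower' {V : Type} {μ : ℂ → E →L[ℂ] ℂ} {m : ℕ} {A : Finset ℂ} {κ : ℝ}
    (h : ∀ W : Fin m → E, ∃ a ∈ A, κ * ∏ i, ‖W i‖ ≤ ‖∏ i, μ a (W i)‖) (s : Finset V)
    (e : V → ℕ) (hs : ∑ p ∈ s, e p = m) (W : V → E) :
    ∃ a ∈ A, κ * ∏ p ∈ s, ‖W p‖ ^ e p ≤ ‖∏ p ∈ s, μ a (W p) ^ e p‖ := by
  classical
  have hcard : Fintype.card ((p : s) × Fin (e p)) = m := by
    rw [Fintype.card_sigma, ← hs]
    simp only [Fintype.card_fin]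
    exact Finset.sum_coe_sort s e
  let φ := (Fintype.equivFinOfCardEq hcard).symm
  have key : ∀ (M : Type) [CommMonoid M] (f : V → M),
      ∏ i, f (φ i).1 = ∏ p ∈ s, f p ^ e p := by
    intro M _ f
    rw [Equiv.prod_comp φ (fun j => f j.1), Fintype.prod_sigma]
    simp only [Finset.prod_const, Finset.card_univ, Fintype.card_fin]
    exact Finset.prod_coe_sort s (fun p => f p ^ e p)
  obtain ⟨a, ha, hle⟩ := h fun i => W (φ i).1
  refine ⟨a, ha, ?_⟩
  rw [← key ℝ (fun p => ‖W p‖), ← key ℂ (fun p => μ a (W p))]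
  exact hle

theorem countable_zeros {f : ℂ → ℂ} {U : Set ℂ} (hf : AnalyticOnNhd ℂ f U)
    (hU : IsPreconnected U) {t : ℂ} (ht : t ∈ U) (hft : f t ≠ 0) :
    {z | z ∈ U ∧ f z = 0}.Countable := by
  have h : ∀ x ∈ {z | z ∈ U ∧ f z = 0}, ({x} : Set ℂ) ∈ 𝓝[{z | z ∈ U ∧ f z = 0}] x := by
    intro x hx
    rcases (hf x hx.1).eventually_eq_zero_or_eventually_ne_zero with h | h
    · exact absurd (hf.eqOn_zero_of_preconnected_of_eventuallyEq_zero hU hx.1 h ht) hft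
    · rw [eventually_nhdsWithin_iff] at h
      rw [mem_nhdsWithin_iff_eventually]
      filter_upwards [h] with y hy hy'
      by_contra hne
      exact hy hne hy'.2
  obtain ⟨T, -, hT, hsub⟩ := TopologicalSpace.countable_cover_nhdsWithin h
  refine hT.mono fun z hz => ?_
  have := hsub hz
  simpa using this

theorem exists_dominant {N : ℂ → ℂ → ℂ} {A : Finset ℂ} (hA : A.Nonempty)
    (hN : ∀ a ∈ A, AnalyticAt ℂ (N a) 0) :
    ∃ a₀ ∈ A, ∃ C > 0, ∀ᶠ y in 𝓝 (0 : ℂ), ∀ a ∈ A, ‖N a y‖ ≤ C * ‖N a₀ y‖ := by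
  obtain ⟨a₀, ha₀, hmin⟩ := A.exists_min_image (fun a => analyticOrderAt (N a) 0) hA
  have hO : ∀ a ∈ A, (fun y => ‖N a y‖) =O[𝓝 0] N a₀ := by
    intro a ha
    rw [Asymptotics.isBigO_norm_left]
    have hle := hmin a ha
    cases hk : analyticOrderAt (N a₀) 0 with
    | top =>
      rw [hk, top_le_iff, analyticOrderAt_eq_top] at hle
      exact (Asymptotics.isBigO_zero (N a₀) (𝓝 0)).congr' (hle.mono fun y hy => hy.symm)
        EventuallyEq.rfl
    | coe k =>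
      rw [hk] at hle
      obtain ⟨g₀, hg₀, hne, he₀⟩ := (hN a₀ ha₀).analyticOrderAt_eq_natCast.1 hk
      obtain ⟨g, hg, he⟩ := (natCast_le_analyticOrderAt (hN a ha)).1 hle
      have h1 : g =O[𝓝 0] g₀ := by
        have h3 : (fun _ : ℂ => (1 : ℂ)) =O[𝓝 0] g₀ :=
          (Asymptotics.isBigO_const_left_iff_pos_le_norm one_ne_zero).2
            ⟨‖g₀ 0‖ / 2, half_pos (norm_pos_iff.2 hne), (hg₀.continuousAt.norm.eventually
              (Ici_mem_nhds (half_lt_self (norm_pos_iff.2 hne))))⟩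
        exact (hg.continuousAt.tendsto.isBigO_one ℂ).trans h3
      have h2 := (Asymptotics.isBigO_refl (fun z : ℂ => (z - 0) ^ k) (𝓝 0)).mul h1
      exact h2.congr' (he.mono fun y hy => hy.symm) (he₀.mono fun y hy => hy.symm)
  obtain ⟨C, hC, hb⟩ := (Asymptotics.IsBigO.sum hO).exists_pos
  refine ⟨a₀, ha₀, C, hC, ?_⟩
  filter_upwards [hb.bound] with y hy a ha
  refine le_trans ?_ hy
  rw [Finset.sum_apply, Real.norm_of_nonneg (Finset.sum_nonneg fun _ _ => norm_nonneg _)]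
  exact Finset.single_le_sum (f := fun a => ‖N a y‖) (fun _ _ => norm_nonneg _) ha

theorem factor_bound {V : Type} (s : Finset V) (e : V → ℕ) (x z : V → ℝ) {M : ℝ} (hM : 1 ≤ M)
    (hx : ∀ q ∈ s, 0 ≤ x q) (hz : ∀ q ∈ s, 0 ≤ z q) (hxz : ∀ q ∈ s, x q ≤ M * z q) {p : V}
    (hp : p ∈ s) (he : 1 ≤ e p) :
    z p * ∏ q ∈ s, x q ^ e q ≤ x p * (M ^ (∑ q ∈ s, e q) * ∏ q ∈ s, z q ^ e q) := by
  classical
  have h1 : M ^ (∑ q ∈ s, e q) * ∏ q ∈ s, z q ^ e q = ∏ q ∈ s, (M * z q) ^ e q := by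
    rw [← Finset.prod_pow_eq_pow_sum, ← Finset.prod_mul_distrib]
    exact Finset.prod_congr rfl fun q _ => (mul_pow _ _ _).symm
  rw [h1, ← Finset.mul_prod_erase s _ hp, ← Finset.mul_prod_erase s _ hp]
  obtain ⟨k, hk⟩ : ∃ k, e p = k + 1 := ⟨e p - 1, by omega⟩
  have h2 : ∏ q ∈ s.erase p, x q ^ e q ≤ ∏ q ∈ s.erase p, (M * z q) ^ e q :=
    Finset.prod_le_prod (fun q hq => pow_nonneg (hx q (Finset.mem_of_mem_erase hq)) _)
      fun q hq => pow_le_pow_left₀ (hx q (Finset.mem_of_mem_erase hq))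
        (hxz q (Finset.mem_of_mem_erase hq)) _
  have h3 : z p * x p ^ e p ≤ x p * (M * z p) ^ e p := by
    rw [hk, pow_succ, pow_succ]
    have h4 : x p ^ k ≤ (M * z p) ^ k := pow_le_pow_left₀ (hx p hp) (hxz p hp) _
    have h5 : z p ≤ M * z p := le_mul_of_one_le_left (hz p hp) hM
    have h6 : x p ^ k * z p ≤ (M * z p) ^ k * (M * z p) :=
      mul_le_mul h4 h5 (hz p hp) ((pow_nonneg (hx p hp) _).trans h4)
    calc z p * (x p ^ k * x p) = x p * (x p ^ k * z p) := by ring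
      _ ≤ _ := mul_le_mul_of_nonneg_left h6 (hx p hp)
  rw [← mul_assoc, ← mul_assoc]
  exact mul_le_mul h3 h2
    (Finset.prod_nonneg fun q hq => pow_nonneg (hx q (Finset.mem_of_mem_erase hq)) _)
    (mul_nonneg (hx p hp) (pow_nonneg ((hx p hp).trans (hxz p hp)) _))

omit [FiniteDimensional ℂ E] in
theorem exists_small {F : Type} [NormedAddCommGroup F] [NormedSpace ℂ F] [FiniteDimensional ℂ F]
    {g : E → F}
    (hg : AnalyticAt ℂ g 0) {P : E × E → Prop} (hP : ∀ᶠ p in 𝓝 (0 : E × E), P p) :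
    ∃ ρ > 0, (∀ x, ‖x‖ ≤ ρ → AnalyticAt ℂ g x) ∧ ∀ p, ‖p‖ ≤ ρ → P p := by
  have : CompleteSpace F := FiniteDimensional.complete ℂ F
  obtain ⟨ρ₁, h₁, H₁⟩ := nhds_basis_closedBall.eventually_iff.1 hg.eventually_analyticAt
  obtain ⟨ρ₂, h₂, H₂⟩ := nhds_basis_closedBall.eventually_iff.1 hP
  refine ⟨min ρ₁ ρ₂, lt_min h₁ h₂, fun x hx => H₁ ?_, fun p hp => H₂ ?_⟩
  · simpa using hx.trans (min_le_left _ _)
  · simpa using hp.trans (min_le_right _ _)

variable {F : Type} [NormedAddCommGroup F] [NormedSpace ℂ F] [FiniteDimensional ℂ F]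

/- HINT. Charts from `chart_of_nice` at the points of `Z₀ = Dbar g ∩ ball 0 ρ₀ \ {0}`; each `γ p`
is analytic on a disc `ball 0 (ε p)`; countably many sets `γ p '' ball 0 (ε p)` cover `Z₀`
(`TopologicalSpace.countable_cover_nhdsWithin`). For each chart take `t p ≠ 0` in the disc with
`(γ p t).1 ≠ (γ p t).2`; choose `a` outside the countably many finite sets
`{a | μ a (W (γ p (t p))) = 0}`. Then `ww l ∘ γ p` has countably many zeros in the disc (identity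
theorem; a discrete subset of `ℂ` is countable). -/
theorem exists_countable (J : (F × ℂ) ≃L[ℂ] (E × E)) {g : E → F} (hg : AnalyticAt ℂ g 0)
    (hnice : ∀ᶠ p in 𝓝 (0 : E × E), p ∈ Dbar g → p ≠ 0 → Nice g p) :
    ∃ (l : E →L[ℂ] ℂ) (ρ : ℝ), 0 < ρ ∧ {p | p ∈ Dbar g ∧ ‖p‖ < ρ ∧ ww l p = 0}.Countable := by
  have : ProperSpace E := FiniteDimensional.proper ℂ E
  obtain ⟨ρ, hρ, han, hn⟩ := exists_small hg hnice
  let Z₀ : Set (E × E) := {p | p ∈ Dbar g ∧ ‖p‖ < ρ ∧ p ≠ 0}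
  have h : ∀ p ∈ Z₀, ∃ (γ : ℂ → E × E) (ε : ℝ) (t : ℂ), AnalyticOnNhd ℂ γ (ball 0 ε) ∧
      γ '' ball 0 ε ∈ 𝓝[Z₀] p ∧ t ∈ ball (0 : ℂ) ε ∧ (γ t).1 - (γ t).2 ≠ 0 := by
    intro p hp
    obtain ⟨γ, u, hγ, -, -, -, hne⟩ := chart_of_nice J 0
      (han p.1 ((norm_fst_le p).trans hp.2.1.le)) (han p.2 ((norm_snd_le p).trans hp.2.1.le))
      hp.1 (hn p hp.2.1.le hp.1 hp.2.2)
    obtain ⟨ε, hε, H⟩ := nhds_basis_ball.eventually_iff.1 hγ.an.eventually_analyticAt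
    have hb : ball (0 : ℂ) ε ∈ 𝓝 (0 : ℂ) := ball_mem_nhds _ hε
    obtain ⟨t, ht1, ht2⟩ := (hne.and (mem_nhdsWithin_of_mem_nhds hb)).exists
    refine ⟨γ, ε, t, fun x hx => H hx, ?_, ht2, sub_ne_zero.2 ht1⟩
    have h1 : γ '' ball 0 ε ∈ 𝓝[Dbar g] p := by
      rw [← hγ.map]
      exact image_mem_map hb
    exact nhdsWithin_mono p (fun q hq => hq.1) h1
  choose! γ ε t h1 h2 h3 h4 using h
  obtain ⟨T, hT, hTc, hcov⟩ := TopologicalSpace.countable_cover_nhdsWithin h2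
  obtain ⟨μ, hμ⟩ := exists_moment (E := E)
  have hB : (⋃ p ∈ T, {a | μ a ((γ p (t p)).1 - (γ p (t p)).2) = 0}).Countable :=
    hTc.biUnion fun p hp => (hμ _ (h4 p (hT hp))).1.countable
  obtain ⟨a, ha⟩ := (hB.dense_compl ℂ).nonempty
  refine ⟨μ a, ρ, hρ, ?_⟩
  have hc : ∀ p ∈ T, (γ p '' {z | z ∈ ball 0 (ε p) ∧ ww (μ a) (γ p z) = 0}).Countable := by
    intro p hp
    refine (countable_zeros (f := fun z => ww (μ a) (γ p z))
      (fun z hz => (analyticAt_ww _ _).comp (h1 p (hT hp) z hz))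
      (convex_ball _ _).isPreconnected (h3 p (hT hp)) fun h0 => ha ?_).image _
    exact mem_biUnion hp h0
  refine ((hTc.biUnion hc).insert 0).mono fun q hq => ?_
  by_cases hq0 : q = 0
  · exact Or.inl hq0
  · obtain ⟨p, hp, z, hz, rfl⟩ := mem_iUnion₂.1 (hcov ⟨hq.1, hq.2.1, hq0⟩)
    exact Or.inr (mem_biUnion hp ⟨z, ⟨hz, hq.2.2⟩, rfl⟩)

/-- The compact piece of the double point curve. -/
def ZZ (g : E → F) (l : E →L[ℂ] ℂ) (ρ R : ℝ) : Set (E × E) :=
  Dbar g ∩ (closedBall 0 ρ ∩ {p | ‖ww l p‖ ≤ R})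

theorem isCompact_ZZ (l : E →L[ℂ] ℂ) {g : E → F} {ρ : ℝ}
    (hg : ∀ x, ‖x‖ ≤ ρ → AnalyticAt ℂ g x) (R : ℝ) : IsCompact (ZZ g l ρ R) := by
  have : ProperSpace E := FiniteDimensional.proper ℂ E
  refine isCompact_Dbar_inter ((isCompact_closedBall 0 ρ).inter_right
    (isClosed_le (continuous_ww l).norm continuous_const)) fun p hp => ?_
  have hp' : ‖p‖ ≤ ρ := mem_closedBall_zero_iff.1 hp.1
  exact ⟨hg _ ((norm_fst_le p).trans hp'), hg _ ((norm_snd_le p).trans hp')⟩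

open Classical in
theorem chart_ZZ (J : (F × ℂ) ≃L[ℂ] (E × E)) (l : E →L[ℂ] ℂ) {g : E → F} {ρ R : ℝ}
    (hg : ∀ x, ‖x‖ ≤ ρ → AnalyticAt ℂ g x) (hsph : ∀ p ∈ Dbar g, ‖p‖ = ρ → R < ‖ww l p‖)
    {p : E × E} (hp : p ∈ ZZ g l ρ R) (hR : ‖ww l p‖ < R) (hn : Nice g p) :
    ∃ (c : ℂ → E × E) (u : ℂ → ℂ), Chart (ZZ g l ρ R) p c ∧ AnalyticAt ℂ u 0 ∧ u 0 ≠ 0 ∧
      (∀ᶠ t in 𝓝 (0 : ℂ), jac J l g (c t) =
        t ^ (if p.1 = p.2 then finrank ℂ E else 0) * u t * deriv (fun t => ww l (c t)) t) := by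
  have hp' : ‖p‖ ≤ ρ := mem_closedBall_zero_iff.1 hp.2.1
  have hlt : ‖p‖ < ρ := lt_of_le_of_ne hp' fun h => lt_asymm hR (hsph p hp.1 h)
  obtain ⟨c, u, hc, hu, hu0, hj, -⟩ := chart_of_nice J l (hg _ ((norm_fst_le p).trans hp'))
    (hg _ ((norm_snd_le p).trans hp')) hp.1 hn
  refine ⟨c, u, hc.congr_set (nhdsWithin_inter_of_mem' (mem_nhdsWithin_of_mem_nhds ?_)).symm,
    hu, hu0, hj⟩
  refine inter_mem (closedBall_mem_nhds_of_mem (mem_ball_zero_iff.2 hlt)) ?_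
  exact mem_of_superset ((isOpen_lt (continuous_ww l).norm continuous_const).mem_nhds hR)
    fun q hq => (le_of_lt hq : ‖ww l q‖ ≤ R)

/- HINT. `ZZ` is compact (`isCompact_Dbar_inter`); at its points with `ww l p ∈ Ω` we have
`‖p‖ < ρ`, `‖ww l p‖ < R`, so `𝓝[ZZ] p = 𝓝[Dbar g] p`; `chart_of_nice`, `Chart.congr_set`,
`not_const_of_compact`, `Chart.normalize`, `choose`. -/
open Classical in
theorem exists_RS_gen (J : (F × ℂ) ≃L[ℂ] (E × E)) (l : E →L[ℂ] ℂ) {g : E → F} {ρ R : ℝ}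
    {Ω : Set ℂ} (hΩ : IsOpen Ω) (hΩR : Ω ⊆ ball 0 R) (hg : ∀ x, ‖x‖ ≤ ρ → AnalyticAt ℂ g x)
    (hsph : ∀ p ∈ Dbar g, ‖p‖ = ρ → R < ‖ww l p‖)
    (hnice : ∀ p ∈ ZZ g l ρ R, ww l p ∈ Ω → Nice g p) :
    ∃ (e : E × E → ℕ) (γ : E × E → ℂ → E × E), RS (ZZ g l ρ R) (ww l) Ω e γ ∧
      ∀ p ∈ ZZ g l ρ R, ww l p ∈ Ω → (jac J l g p ≠ 0 → e p = 1) ∧
        ∃ κ > 0, ∀ᶠ t in 𝓝 (0 : ℂ),
          κ * ‖t‖ ^ ((if p.1 = p.2 then finrank ℂ E else 0) + e p - 1) ≤ ‖jac J l g (γ p t)‖ := by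
  have hZ := isCompact_ZZ l hg R
  have hch : ∀ p ∈ ZZ g l ρ R, ww l p ∈ Ω → ∃ (c : ℂ → E × E) (u : ℂ → ℂ),
      Chart (ZZ g l ρ R) p c ∧ AnalyticAt ℂ u 0 ∧ u 0 ≠ 0 ∧
      (∀ᶠ t in 𝓝 (0 : ℂ), jac J l g (c t) =
        t ^ (if p.1 = p.2 then finrank ℂ E else 0) * u t * deriv (fun t => ww l (c t)) t) :=
    fun p hp hpΩ => chart_ZZ J l hg hsph hp (by simpa using hΩR hpΩ) (hnice p hp hpΩ)
  have h : ∀ p ∈ ZZ g l ρ R, ww l p ∈ Ω → ∃ (n : ℕ) (c : ℂ → E × E),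
      NChart (ZZ g l ρ R) (ww l) p n c ∧ (jac J l g p ≠ 0 → n = 1) ∧
        ∃ κ > 0, ∀ᶠ t in 𝓝 (0 : ℂ),
          κ * ‖t‖ ^ ((if p.1 = p.2 then finrank ℂ E else 0) + n - 1) ≤ ‖jac J l g (c t)‖ := by
    intro p hp hpΩ
    obtain ⟨c, u, hc, hu, hu0, hj⟩ := hch p hp hpΩ
    refine hc.normalize (analyticAt_ww l p) ?_ hu hu0 hj
    refine not_const_of_compact hZ (analyticAt_ww l) (fun q hq => ?_) ⟨hp, rfl⟩ hc
    obtain ⟨c, -, hc, -⟩ := hch q hq.1 (hq.2 ▸ hpΩ)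
    exact ⟨c, hc⟩
  choose! e γ h1 h2 using h
  exact ⟨e, γ, ⟨hZ, continuous_ww l, hΩ, h1⟩, h2⟩

/- HINT. `R` is half the positive minimum of `‖ww l‖` on the compact set `Dbar g ∩ sphere 0 ρ`. -/
theorem exists_radius (l : E →L[ℂ] ℂ) {g : E → F} {ρ : ℝ}
    (hg : ∀ x, ‖x‖ ≤ ρ → AnalyticAt ℂ g x) (hsph : ∀ p ∈ Dbar g, ‖p‖ = ρ → ww l p ≠ 0) :
    ∃ R > 0, ∀ p ∈ Dbar g, ‖p‖ = ρ → R < ‖ww l p‖ := by
  have : ProperSpace E := FiniteDimensional.proper ℂ E
  have hK : IsCompact (Dbar g ∩ sphere 0 ρ) :=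
    isCompact_Dbar_inter (isCompact_sphere 0 ρ) fun p hp => by
      have hp' : ‖p‖ = ρ := by simpa using hp
      exact ⟨hg _ ((norm_fst_le p).trans hp'.le), hg _ ((norm_snd_le p).trans hp'.le)⟩
  obtain ⟨a, ha, hle⟩ := hK.exists_forall_le' (f := fun p => ‖ww l p‖)
    (continuous_ww l).norm.continuousOn (a := 0)
    fun p hp => norm_pos_iff.2 (hsph p hp.1 (by simpa using hp.2))
  exact ⟨a / 2, half_pos ha, fun p hp hρ =>
    (half_lt_self ha).trans_le (hle p ⟨hp, by simpa using hρ⟩)⟩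

/- HINT. `l₁, ρ₀` from `exists_countable`; `ρ` small outside the countable set of norms; `R, e, γ`
from `exists_radius`, `exists_RS_gen` over `ball 0 R \ {0}`, degree `m` (`RS.deg_const`). At `p ≠ 0` in the fibre of `0` a chart `c` has
`ww l₁ ∘ c` not locally zero (countability, `c` injective), so `Chart.normalize` and
`NChart.isOpenAt` apply, and `fib_lsc` with `RS.ncard_le` bounds the number of such `p` by `m`:
so `0` is isolated in the fibre. Take `A` of cardinality `m n + 1` avoiding `{a | μ a v₀ = 0}`,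
`N a` from `RS.extend` for `p ↦ ww (μ a) p`. By `moment_lower` (list the fibre with multiplicity
`e`, or use regular `y` only and then density) for every `y ≠ 0` some `N a y ≠ 0`; let `a₀` have
minimal order at `0` among those not locally zero: `‖N a y‖ ≤ C ‖N a₀ y‖` near `0`. Then
`κ ∏ ‖W p‖ ^ e p ≤ C ∏ ‖μ a₀ (W p)‖ ^ e p`, and each factor on the right is at most
`‖μ a₀‖ ‖W p‖`. -/
theorem exists_good_functional (J : (F × ℂ) ≃L[ℂ] (E × E)) {g : E → F} (hg : AnalyticAt ℂ g 0)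
    (hnice : ∀ᶠ p in 𝓝 (0 : E × E), p ∈ Dbar g → p ≠ 0 → Nice g p) {v₀ : E} (hv₀ : v₀ ≠ 0) :
    ∃ (l : E →L[ℂ] ℂ) (C : ℝ), l v₀ ≠ 0 ∧ ∀ᶠ p in 𝓝 (0 : E × E), p ∈ Dbar g → p ≠ 0 →
      p.1 ≠ p.2 ∧ ‖p.1 - p.2‖ ≤ C * ‖ww l p‖ := by
  classical
  obtain ⟨l₁, ρ₀, hρ₀, hcount⟩ := exists_countable J hg hnice
  obtain ⟨ρ₁, hρ₁, han₁, hn₁⟩ := exists_small hg hnice
  obtain ⟨ρ, hρS, hρ, hρlt⟩ := ((hcount.image norm).dense_compl ℝ).exists_mem_open isOpen_Ioo
    (nonempty_Ioo.2 (lt_min hρ₀ hρ₁))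
  have hρ0 : ρ < ρ₀ := hρlt.trans_le (min_le_left _ _)
  have hρ1 : ρ < ρ₁ := hρlt.trans_le (min_le_right _ _)
  have han : ∀ x, ‖x‖ ≤ ρ → AnalyticAt ℂ g x := fun x hx => han₁ x (hx.trans hρ1.le)
  obtain ⟨R, hR, hsph⟩ := exists_radius l₁ han fun p hp hpρ h0 =>
    hρS ⟨p, ⟨hp, hpρ ▸ hρ0, h0⟩, hpρ⟩
  have hZn : ∀ p ∈ ZZ g l₁ ρ R, p ≠ 0 → Nice g p := fun p hp h0 =>
    hn₁ p ((mem_closedBall_zero_iff.1 hp.2.1).trans hρ1.le) hp.1 h0
  have hw0 : ww l₁ 0 = 0 := by simp [ww]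
  obtain ⟨e, γ, hRS, -⟩ := exists_RS_gen J l₁ (Ω := ball 0 R \ {0})
    (isOpen_ball.sdiff isClosed_singleton) sdiff_subset han hsph
    fun p hp hpΩ => hZn p hp fun h0 => hpΩ.2 (by rw [h0]; exact hw0)
  obtain ⟨m, hm⟩ := hRS.deg_const (isPreconnected_punctured R)
  have hΩ : ∀ᶠ y in 𝓝[≠] (0 : ℂ), y ∈ ball (0 : ℂ) R \ {0} := by
    filter_upwards [mem_nhdsWithin_of_mem_nhds (ball_mem_nhds (0 : ℂ) hR), self_mem_nhdsWithin]
      with y h1 h2 using ⟨h1, h2⟩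
  -- the nonzero points of the fibre over `0`
  have hopen : ∀ p ∈ fib (ZZ g l₁ ρ R) (ww l₁) 0 \ {0},
      𝓝 (0 : ℂ) ≤ map (ww l₁) (𝓝[ZZ g l₁ ρ R] p) := by
    rintro p ⟨⟨hp, hp0⟩, hne⟩
    obtain ⟨c, u, hc, hu, hu0, hj⟩ := chart_ZZ J l₁ han hsph hp (by rw [hp0]; simpa using hR)
      (hZn p hp hne)
    have hnc : ¬ ∀ᶠ t in 𝓝 (0 : ℂ), ww l₁ (c t) = ww l₁ p := by
      intro hev
      obtain ⟨U, hU, hinj⟩ := hc.inj
      have hin : ∀ᶠ t in 𝓝 (0 : ℂ), c t ∈ ZZ g l₁ ρ R := by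
        have : ZZ g l₁ ρ R ∈ map c (𝓝 0) := by rw [hc.map]; exact self_mem_nhdsWithin
        exact this
      have hU' : U ∩ {t | ww l₁ (c t) = ww l₁ p ∧ c t ∈ ZZ g l₁ ρ R} ∈ 𝓝 (0 : ℂ) :=
        inter_mem hU (hev.and hin)
      have hcU : (U ∩ {t | ww l₁ (c t) = ww l₁ p ∧ c t ∈ ZZ g l₁ ρ R}).Countable := by
        refine MapsTo.countable_of_injOn (f := c) (fun t ht => ?_) (hinj.mono inter_subset_left)
          hcount
        exact ⟨ht.2.2.1, (mem_closedBall_zero_iff.1 ht.2.2.2.1).trans_lt hρ0, ht.2.1.trans hp0⟩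
      obtain ⟨t, ht1, ht2⟩ := (hcU.dense_compl ℂ).inter_nhds_nonempty hU'
      exact ht1 ht2
    obtain ⟨n, c', hc', -⟩ := hc.normalize (analyticAt_ww l₁ p) hnc hu hu0 hj
    have := hc'.isOpenAt
    rwa [hp0] at this
  have hfin : (fib (ZZ g l₁ ρ R) (ww l₁) 0 \ {0}).Finite := by
    by_contra hinf
    obtain ⟨s, hs, hcard⟩ := Set.Infinite.exists_subset_card_eq hinf (m + 1)
    have h1 := fib_lsc (Z := ZZ g l₁ ρ R) (π := ww l₁) (b := (0 : ℂ)) s
      fun p hp => hopen p (hs hp)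
    obtain ⟨y, hy1, hy2⟩ := ((h1.filter_mono nhdsWithin_le_nhds).and hΩ).exists
    have h2 := (hy1 (hRS.finite hy2)).trans (hRS.ncard_le hy2)
    rw [hm y hy2, hcard] at h2
    omega
  -- the functional
  obtain ⟨μ, hμ⟩ := exists_moment (E := E)
  obtain ⟨A, hA, hAc⟩ := Set.Infinite.exists_subset_card_eq (hμ v₀ hv₀).1.infinite_compl
    (m * finrank ℂ E + 1)
  obtain ⟨κ, hκ, hlow⟩ := moment_lower hμ m A (by omega)
  have hN : ∀ a : ℂ, ∃ N : ℂ → ℂ, AnalyticAt ℂ N 0 ∧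
      ∀ y, y ≠ 0 → N y = nrm (ZZ g l₁ ρ R) (ww l₁) e (ww (μ a)) y :=
    fun a => hRS.extend hR fun p _ => analyticAt_ww _ p
  choose N hN1 hN2 using hN
  obtain ⟨a₀, ha₀, C, hC, hdom⟩ := exists_dominant (N := N) (A := A)
    (Finset.card_pos.1 (by omega)) fun a _ => hN1 a
  refine ⟨μ a₀, C * (‖μ a₀‖ + 1) ^ m / κ, hA ha₀, ?_⟩
  have hw : Tendsto (ww l₁) (𝓝 0) (𝓝 0) := by
    have := (continuous_ww l₁).tendsto 0
    rwa [hw0] at this
  have hT : (fib (ZZ g l₁ ρ R) (ww l₁) 0 \ {0})ᶜ ∈ 𝓝 (0 : E × E) :=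
    hfin.isClosed.isOpen_compl.mem_nhds fun h => h.2 rfl
  filter_upwards [hT, closedBall_mem_nhds (0 : E × E) hρ, hw.eventually (ball_mem_nhds 0 hR),
    hw.eventually hdom] with p hpT hpρ hpR hpd hp hp0
  have hpZ : p ∈ ZZ g l₁ ρ R := ⟨hp, hpρ, (mem_ball_zero_iff.1 hpR).le⟩
  have hy0 : ww l₁ p ≠ 0 := fun h => hpT ⟨⟨hpZ, h⟩, hp0⟩
  have hyΩ : ww l₁ p ∈ ball (0 : ℂ) R \ {0} := ⟨hpR, hy0⟩
  have hf := hRS.finite hyΩ
  have hne : ∀ q ∈ hf.toFinset, q.1 - q.2 ≠ 0 := by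
    intro q hq h0
    have h1 : ww l₁ q = ww l₁ p := (hf.mem_toFinset.1 hq).2
    apply hy0
    rw [← h1, ww, h0, map_zero]
  have hps : p ∈ hf.toFinset := hf.mem_toFinset.2 ⟨hpZ, rfl⟩
  refine ⟨sub_ne_zero.1 (hne p hps), ?_⟩
  have hsum : ∑ q ∈ hf.toFinset, e q = m := by
    rw [← hm _ hyΩ, deg, finsum_mem_eq_finite_toFinset_sum _ hf]
  have hnrm : ∀ a, N a (ww l₁ p) = ∏ q ∈ hf.toFinset, μ a (q.1 - q.2) ^ e q := by
    intro a
    rw [hN2 a _ hy0, nrm, finprod_mem_eq_finite_toFinset_prod _ hf]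
    rfl
  obtain ⟨a, ha, h1⟩ := moment_lower' hlow hf.toFinset e hsum fun q => q.1 - q.2
  have h2 := hpd a ha
  rw [hnrm, hnrm] at h2
  have h3 := factor_bound hf.toFinset e (fun q => ‖μ a₀ (q.1 - q.2)‖) (fun q => ‖q.1 - q.2‖)
    (M := ‖μ a₀‖ + 1) (le_add_of_nonneg_left (norm_nonneg _)) (fun _ _ => norm_nonneg _)
    (fun _ _ => norm_nonneg _)
    (fun q _ => ((μ a₀).le_opNorm _).trans
      (mul_le_mul_of_nonneg_right (le_add_of_nonneg_right zero_le_one) (norm_nonneg _)))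
    hps (hRS.chart p hpZ hyΩ).pos
  rw [hsum] at h3
  have hP : 0 < ∏ q ∈ hf.toFinset, ‖q.1 - q.2‖ ^ e q :=
    Finset.prod_pos fun q hq => pow_pos (norm_pos_iff.2 (hne q hq)) _
  have h4 : ‖∏ q ∈ hf.toFinset, μ a₀ (q.1 - q.2) ^ e q‖ =
      ∏ q ∈ hf.toFinset, ‖μ a₀ (q.1 - q.2)‖ ^ e q := by
    rw [norm_prod]
    exact Finset.prod_congr rfl fun q _ => norm_pow _ _
  rw [h4] at h2
  have h5 := h1.trans h2
  rw [div_mul_eq_mul_div, le_div_iff₀ hκ]
  refine le_of_mul_le_mul_right ?_ hP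
  change _ ≤ C * (‖μ a₀‖ + 1) ^ m * ‖μ a₀ (p.1 - p.2)‖ * _
  calc ‖p.1 - p.2‖ * κ * ∏ q ∈ hf.toFinset, ‖q.1 - q.2‖ ^ e q
      = ‖p.1 - p.2‖ * (κ * ∏ q ∈ hf.toFinset, ‖q.1 - q.2‖ ^ e q) := by ring
    _ ≤ ‖p.1 - p.2‖ * (C * ∏ q ∈ hf.toFinset, ‖μ a₀ (q.1 - q.2)‖ ^ e q) :=
        mul_le_mul_of_nonneg_left h5 (norm_nonneg _)
    _ = C * (‖p.1 - p.2‖ * ∏ q ∈ hf.toFinset, ‖μ a₀ (q.1 - q.2)‖ ^ e q) := by ring
    _ ≤ C * (‖μ a₀ (p.1 - p.2)‖ * ((‖μ a₀‖ + 1) ^ m * ∏ q ∈ hf.toFinset, ‖q.1 - q.2‖ ^ e q)) :=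
        mul_le_mul_of_nonneg_left h3 hC.le
    _ = _ := by ring

end Pool.Agent.MP_7e71a7_ag

end

-- part MP_7e71a7_ag.Exist
section

/-! A singular germ has double points. -/

open Filter Topology Set Function Metric Module

namespace Pool.Agent.MP_7e71a7_ag

open Pool.Agent.Lib.SCV

variable {E F : Type} [NormedAddCommGroup E] [NormedSpace ℂ E] [FiniteDimensional ℂ E]
  [NormedAddCommGroup F] [InnerProductSpace ℂ F] [FiniteDimensional ℂ F]

theorem exists_double (hdim : finrank ℂ F + 1 = 2 * finrank ℂ E) {g : E → F}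
    (hg : AnalyticAt ℂ g 0) {l : E →L[ℂ] ℂ} {v₀ : E} (hv : fderiv ℂ g 0 v₀ = 0) (hl : l v₀ ≠ 0)
    (hiso : ∀ᶠ p in 𝓝 (0 : E × E), p ∈ Dbar g → ww l p = 0 → p = 0) {ρ : ℝ} (hρ : 0 < ρ) :
    ∀ᶠ y in 𝓝[≠] (0 : ℂ), ∃ p ∈ Dbar g, ‖p‖ < ρ ∧ ww l p = y := by
  set v : E := (l v₀)⁻¹ • v₀ with hvdef
  have hlv : l v = 1 := by rw [hvdef, map_smul, smul_eq_mul, inv_mul_cancel₀ hl]
  have hdv : fderiv ℂ g 0 v = 0 := by rw [hvdef, map_smul, hv, smul_zero]
  have hv0 : v ≠ 0 := by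
    intro h; rw [h, map_zero] at hlv; exact zero_ne_one hlv
  have hvn : 0 < ‖v‖ := norm_pos_iff.2 hv0
  set N : Submodule ℂ E := LinearMap.ker (l : E →ₗ[ℂ] ℂ) with hN
  have hNl : ∀ k : N, l (k : E) = 0 := fun k => k.2
  have hfin : finrank ℂ F ≤ finrank ℂ (N × E) := by
    have h1 : (l : E →ₗ[ℂ] ℂ) ≠ 0 := by
      intro h
      apply hl
      have := LinearMap.congr_fun h v₀
      simpa using this
    have h2 : finrank ℂ N + 1 = finrank ℂ E := Module.Dual.finrank_ker_add_one_of_ne_zero h1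
    rw [Module.finrank_prod]
    omega
  have : ProperSpace (N × E) := FiniteDimensional.proper ℂ (N × E)
  obtain ⟨r₁, hr₁, hiso'⟩ := Metric.eventually_nhds_iff_ball.1 hiso
  obtain ⟨r₂, hr₂, han⟩ := Metric.eventually_nhds_iff_ball.1 hg.eventually_analyticAt
  set r : ℝ := min (min r₁ r₂) ρ / 3 with hr
  have hm : 0 < min (min r₁ r₂) ρ := lt_min (lt_min hr₁ hr₂) hρ
  have hrpos : 0 < r := by positivity
  have hr1 : 3 * r ≤ r₁ := by
    have := (min_le_left (min r₁ r₂) ρ).trans (min_le_left r₁ r₂); rw [hr]; linarith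
  have hr2 : 3 * r ≤ r₂ := by
    have := (min_le_left (min r₁ r₂) ρ).trans (min_le_right r₁ r₂); rw [hr]; linarith
  have hr3 : 3 * r ≤ ρ := by
    have := min_le_right (min r₁ r₂) ρ; rw [hr]; linarith
  set P : ℂ → N × E → E × E := fun y b => (b.2 + (y • v + (b.1 : E)), b.2) with hP
  have hPn : ∀ (y : ℂ) (b : N × E), ‖y • v‖ < r → ‖b‖ ≤ r →
      ‖(P y b).1‖ < 3 * r ∧ ‖(P y b).2‖ < 3 * r := by
    intro y b hy hb
    have h1 : ‖(b.1 : E)‖ ≤ r := (norm_fst_le b).trans hb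
    have h2 : ‖b.2‖ ≤ r := (norm_snd_le b).trans hb
    refine ⟨?_, by simp only [hP]; linarith⟩
    have h3 := norm_add_le b.2 (y • v + (b.1 : E))
    have h4 := norm_add_le (y • v) (b.1 : E)
    simp only [hP]
    linarith
  have hPw : ∀ (y : ℂ) (b : N × E), ww l (P y b) = y := by
    intro y b
    simp [ww, hP, hlv, hNl]
  have hPd : ∀ (y : ℂ) (b : N × E), (P y b).1 - (P y b).2 = y • v + (b.1 : E) := by
    intro y b
    simp [hP]
  have hlow : ∀ᶠ z in 𝓝 ((0, 0) : ℝ × ℂ), ∀ b ∈ sphere (0 : N × E) r,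
      z.1 * ‖(P z.2 b).1 - (P z.2 b).2‖ ≤ ‖g (P z.2 b).1 - g (P z.2 b).2‖ := by
    apply (isCompact_sphere (0 : N × E) r).eventually_forall_of_forall_eventually
      (P := fun (z : ℝ × ℂ) b =>
        z.1 * ‖(P z.2 b).1 - (P z.2 b).2‖ ≤ ‖g (P z.2 b).1 - g (P z.2 b).2‖)
    intro b hb
    have hb' : ‖b‖ = r := by simpa using hb
    obtain ⟨n1, n2⟩ := hPn 0 b (by simpa using hrpos) hb'.le
    have hnot : P 0 b ∉ Dbar g := by
      intro hD
      have h1 : P 0 b ∈ ball (0 : E × E) r₁ := by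
        rw [mem_ball_zero_iff, Prod.norm_def]
        exact max_lt (by linarith) (by linarith)
      have h2 := hiso' _ h1 hD (hPw 0 b)
      have h3 : b.2 = 0 := congrArg Prod.snd h2
      have h4 : (b.1 : E) = 0 := by
        have := hPd 0 b
        rw [h2] at this
        simpa using this.symm
      have h5 : b = 0 := Prod.ext (Subtype.ext h4) h3
      rw [h5, norm_zero] at hb'
      exact hrpos.ne hb'
    obtain ⟨c, hc, hev⟩ := lower_of_not_mem_Dbar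
      (han _ (mem_ball_zero_iff.2 (by linarith))) (han _ (mem_ball_zero_iff.2 (by linarith))) hnot
    have hcont : Continuous (fun w : (ℝ × ℂ) × (N × E) => P w.1.2 w.2) := by
      simp only [hP]; fun_prop
    have e1 := (hcont.tendsto ((0, 0), b)).eventually hev
    have e2 : ∀ᶠ w : (ℝ × ℂ) × (N × E) in 𝓝 ((0, 0), b), w.1.1 < c := by
      have : ContinuousAt (fun w : (ℝ × ℂ) × (N × E) => w.1.1) ((0, 0), b) := by fun_prop
      exact this.eventually_lt continuousAt_const hc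
    filter_upwards [e1, e2] with w h1 h2
    exact (mul_le_mul_of_nonneg_right h2.le (norm_nonneg _)).trans h1
  rw [nhds_prod_eq] at hlow
  obtain ⟨δ, hδ1, hδ⟩ := ((hlow.curry.filter_mono (nhdsWithin_le_nhds (s := Ioi (0 : ℝ)))).and
    self_mem_nhdsWithin).exists
  have hδ' : 0 < δ := hδ
  have hder : HasDerivAt (fun y : ℂ => g (y • v)) 0 0 := by
    have d1 : HasDerivAt (fun y : ℂ => y • v) v 0 := by
      simpa using (hasDerivAt_id (0 : ℂ)).smul_const v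
    have d2 : HasFDerivAt g (fderiv ℂ g 0) ((0 : ℂ) • v) := by
      simpa using hg.differentiableAt.hasFDerivAt
    have := d2.comp_hasDerivAt (0 : ℂ) d1
    rw [hdv] at this
    exact this
  have hsmall : ∀ᶠ y in 𝓝 (0 : ℂ), ‖g (y • v) - g 0‖ ≤ δ * ‖v‖ / 2 * ‖y‖ := by
    have := (hasDerivAt_iff_isLittleO.1 hder).def (c := δ * ‖v‖ / 2) (by positivity)
    simpa using this
  have hyv : ∀ᶠ y in 𝓝 (0 : ℂ), ‖y • v‖ < r := by
    have : ContinuousAt (fun y : ℂ => ‖y • v‖) 0 := by fun_prop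
    exact this.eventually_lt continuousAt_const (by simpa using hrpos)
  filter_upwards [nhdsWithin_le_nhds hδ1, nhdsWithin_le_nhds hsmall, nhdsWithin_le_nhds hyv,
    self_mem_nhdsWithin] with y h1 h2 h3 hy
  have hy' : y ≠ 0 := hy
  by_contra hno
  push Not at hno
  set T : N × E →L[ℂ] E := N.subtypeL.comp (ContinuousLinearMap.fst ℂ N E) with hT
  have hTP : ∀ b : N × E, T b + y • v = (P y b).1 - (P y b).2 := by
    intro b
    rw [hPd, add_comm]
    rfl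
  have hne : ∀ b : N × E, (P y b).1 - (P y b).2 ≠ 0 := by
    intro b h
    have := hPw y b
    rw [ww, h, map_zero] at this
    exact hy' this.symm
  obtain ⟨b, hb, hb', hle⟩ := min_principle hfin (isCompact_closedBall (0 : N × E) r)
    (Ψ := fun b => g (P y b).1 - g (P y b).2)
    (fun b hb => by
      obtain ⟨n1, n2⟩ := hPn y b h3 (mem_closedBall_zero_iff.1 hb)
      have a1 : AnalyticAt ℂ (fun b : N × E => (P y b).1) b :=
        analyticAt_snd.add (analyticAt_const.add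
          ((N.subtypeL.analyticAt _).comp analyticAt_fst))
      have a2 : AnalyticAt ℂ (fun b : N × E => (P y b).2) b := analyticAt_snd
      exact (AnalyticAt.comp (g := g) (han _ (mem_ball_zero_iff.2 (by linarith))) a1).sub
        (AnalyticAt.comp (g := g) (han _ (mem_ball_zero_iff.2 (by linarith))) a2))
    T (y • v) (fun b _ => by rw [hTP]; exact hne b)
    (fun b hb h => by
      obtain ⟨n1, n2⟩ := hPn y b h3 (mem_closedBall_zero_iff.1 hb)
      refine hno (P y b) (Or.inl ⟨sub_ne_zero.1 (hne b), sub_eq_zero.1 h⟩) ?_ (hPw y b)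
      rw [Prod.norm_def]
      exact max_lt (by linarith) (by linarith))
    (x₀ := 0) (mem_closedBall_self hrpos.le)
  have hsph : b ∈ sphere (0 : N × E) r := by
    have : b ∉ ball (0 : N × E) r := fun h =>
      hb' (interior_maximal ball_subset_closedBall isOpen_ball h)
    rw [mem_ball_zero_iff, not_lt] at this
    rw [mem_sphere_zero_iff_norm]
    exact le_antisymm (mem_closedBall_zero_iff.1 hb) this
  have l1 : δ ≤ ‖g (P y b).1 - g (P y b).2‖ / ‖T b + y • v‖ := by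
    rw [hTP, le_div_iff₀ (norm_pos_iff.2 (hne b))]
    exact h1 b hsph
  have hyn : 0 < ‖y‖ := norm_pos_iff.2 hy'
  have l2 : ‖g (P y 0).1 - g (P y 0).2‖ / ‖T 0 + y • v‖ < δ := by
    have e1 : (P y 0).1 = y • v := by simp [hP]
    have e2 : (P y 0).2 = 0 := by simp [hP]
    rw [e1, e2, map_zero, zero_add, norm_smul, div_lt_iff₀ (by positivity)]
    have : 0 < δ * (‖y‖ * ‖v‖) := by positivity
    nlinarith
  exact absurd (l1.trans hle) (not_le.2 l2)

end Pool.Agent.MP_7e71a7_ag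

end

-- part MP_7e71a7_ag.GermData
section

/-! The double point curve of the germ as a covering of a punctured disc. -/

open Filter Topology Set Function Metric Module

namespace Pool.Agent.MP_7e71a7_ag

variable {E F : Type} [NormedAddCommGroup E] [NormedSpace ℂ E] [FiniteDimensional ℂ E]
  [NormedAddCommGroup F] [InnerProductSpace ℂ F] [FiniteDimensional ℂ F]

omit [FiniteDimensional ℂ E] [FiniteDimensional ℂ F] in
theorem fib_ZZ_eq {g : E → F} {l : E →L[ℂ] ℂ} {ρ R R' : ℝ} {y : ℂ} (h : ‖y‖ ≤ R) (h' : ‖y‖ ≤ R') :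
    fib (ZZ g l ρ R) (ww l) y = fib (ZZ g l ρ R') (ww l) y := by
  ext p
  simp only [fib, ZZ, mem_ofPred_eq, mem_inter_iff]
  constructor
  · rintro ⟨⟨h1, h2, -⟩, h3⟩; exact ⟨⟨h1, h2, h3 ▸ h'⟩, h3⟩
  · rintro ⟨⟨h1, h2, -⟩, h3⟩; exact ⟨⟨h1, h2, h3 ▸ h⟩, h3⟩

theorem germ_data (hdim : finrank ℂ F + 1 = 2 * finrank ℂ E) (J : (F × ℂ) ≃L[ℂ] (E × E))
    {g : E → F} (hg : AnalyticAt ℂ g 0)
    (hnice : ∀ᶠ p in 𝓝 (0 : E × E), p ∈ Dbar g → p ≠ 0 → Nice g p) {v₀ : E} (hv₀ : v₀ ≠ 0)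
    (hv : fderiv ℂ g 0 v₀ = 0) (hcc : ¬ CrossCap g 0) {ρ₀ : ℝ} (hρ₀ : 0 < ρ₀) :
    ∃ (l : E →L[ℂ] ℂ) (ρ R : ℝ) (m : ℕ), 0 < ρ ∧ ρ < ρ₀ ∧ 0 < R ∧
      (∀ p ∈ Dbar g, ‖p‖ = ρ → R < ‖ww l p‖) ∧
      (∀ p ∈ Dbar g, ‖p‖ ≤ ρ → ww l p = 0 → p = 0) ∧
      (∀ p ∈ ZZ g l ρ R, p ≠ 0 → jac J l g p ≠ 0) ∧
      (∀ y : ℂ, y ≠ 0 → ‖y‖ ≤ R → (fib (ZZ g l ρ R) (ww l) y).ncard = m) ∧
      ∀ ε > 0, ∀ᶠ y in 𝓝[≠] (0 : ℂ), ‖∏ᶠ p ∈ fib (ZZ g l ρ R) (ww l) y, jac J l g p‖ <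
        ε * ‖y‖ ^ (finrank ℂ E * m) := by
  classical
  have hn : 1 ≤ finrank ℂ E := by omega
  obtain ⟨l, C, hl, hgood⟩ := exists_good_functional J hg hnice hv₀
  obtain ⟨a, ha, hA⟩ := Metric.eventually_nhds_iff.1 (hgood.and hnice)
  obtain ⟨b, hb, hB⟩ := Metric.eventually_nhds_iff.1 hg.eventually_analyticAt
  obtain ⟨ρ, hρ, hρ'⟩ : ∃ ρ > 0, ρ < min a (min b ρ₀) := exists_between (by positivity)
  simp only [lt_min_iff] at hρ'
  have han : ∀ x, ‖x‖ ≤ ρ → AnalyticAt ℂ g x := fun x hx =>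
    hB (by simpa using hx.trans_lt hρ'.2.1)
  have hA' : ∀ p ∈ Dbar g, ‖p‖ ≤ ρ → p ≠ 0 →
      (p.1 ≠ p.2 ∧ ‖p.1 - p.2‖ ≤ C * ‖ww l p‖) ∧ Nice g p := fun p hp hpρ hp0 =>
    have := hA (y := p) (by simpa using hpρ.trans_lt hρ'.1)
    ⟨this.1 hp hp0, this.2 hp hp0⟩
  have hiso : ∀ p ∈ Dbar g, ‖p‖ ≤ ρ → ww l p = 0 → p = 0 := by
    intro p hp hpρ hw
    by_contra hp0
    obtain ⟨⟨h1, h2⟩, -⟩ := hA' p hp hpρ hp0
    rw [hw, norm_zero, mul_zero, norm_le_zero_iff, sub_eq_zero] at h2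
    exact h1 h2
  obtain ⟨R₁, hR₁, hsph⟩ := exists_radius l han fun p hp hpρ hw => by
    have := hiso p hp hpρ.le hw
    rw [this, norm_zero] at hpρ
    exact hρ.ne hpρ
  have hw0 : ww l (0 : E × E) = 0 := by simp [ww]
  obtain ⟨e, γ, hRS, hlow⟩ := exists_RS_gen J l (Ω := ball 0 R₁ \ {0})
    (isOpen_ball.sdiff isClosed_singleton) sdiff_subset han hsph fun p hp hw =>
      (hA' p hp.1 (by simpa using hp.2.1) fun h0 => hw.2 (by simp [h0, hw0])).2
  set Z := ZZ g l ρ R₁ with hZ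
  obtain ⟨m, hm⟩ := hRS.deg_const (isPreconnected_punctured R₁)
  have hjan : ∀ p ∈ Z, AnalyticAt ℂ (jac J l g) p := by
    intro p hp
    have : ‖p‖ ≤ ρ := by simpa using hp.2.1
    exact analyticAt_jac J l (han _ ((norm_fst_le p).trans this))
      (han _ ((norm_snd_le p).trans this))
  obtain ⟨N, hN, hNeq⟩ := hRS.extend hR₁ hjan
  have hpun : ∀ᶠ y in 𝓝[≠] (0 : ℂ), y ∈ ball (0 : ℂ) R₁ \ {0} :=
    inter_mem (mem_nhdsWithin_of_mem_nhds (ball_mem_nhds _ hR₁)) self_mem_nhdsWithin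
  -- regular values have nonzero norm
  have hreg : ∀ y ∈ ball (0 : ℂ) R₁ \ {0}, (∀ p ∈ fib Z (ww l) y, e p = 1) → N y ≠ 0 := by
    intro y hy h1
    rw [hNeq y hy.2, nrm, finprod_mem_eq_finite_toFinset_prod _ (hRS.finite hy),
      Finset.prod_ne_zero_iff]
    intro p hp
    rw [Finite.mem_toFinset] at hp
    refine pow_ne_zero _ fun hj => ?_
    obtain ⟨κ, hκ, hev⟩ := (hlow p hp.1 (hp.2 ▸ hy)).2
    have h0 := hev.self_of_nhds
    have hne : p.1 ≠ p.2 := fun hpp => hy.2 (by rw [← hp.2]; simp [ww, hpp])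
    rw [if_neg hne, h1 p hp, (hRS.chart p hp.1 (hp.2 ▸ hy)).zero] at h0
    simp [hj] at h0
    linarith
  have hne : ∀ᶠ y in 𝓝[≠] (0 : ℂ), N y ≠ 0 := by
    rcases hN.eventually_eq_zero_or_eventually_ne_zero with h0 | h0
    · exfalso
      obtain ⟨v, hv1, hv2⟩ := (hpun.and
        (h0.eventually_nhds.filter_mono nhdsWithin_le_nhds)).exists
      have h1 : ∀ᶠ y in 𝓝[≠] v, y ∈ ball (0 : ℂ) R₁ \ {0} :=
        mem_nhdsWithin_of_mem_nhds (hRS.opn.mem_nhds hv1)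
      obtain ⟨y, hy1, hy2, hy3⟩ := ((hRS.local_prod hv1 ℂ).and
        (h1.and (hv2.filter_mono nhdsWithin_le_nhds))).exists
      exact hreg y hy2 hy1.1 hy3
    · exact h0
  obtain ⟨c, hc, hcN⟩ := Metric.eventually_nhds_iff.1 (eventually_nhdsWithin_iff.1 hne)
  obtain ⟨R, hR, hR'⟩ : ∃ R > 0, R < min c R₁ := exists_between (by positivity)
  simp only [lt_min_iff] at hR'
  have hmem : ∀ y : ℂ, y ≠ 0 → ‖y‖ ≤ R → y ∈ ball (0 : ℂ) R₁ \ {0} := fun y hy hyR =>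
    ⟨by simpa using hyR.trans_lt hR'.2, hy⟩
  have hjac : ∀ y : ℂ, y ≠ 0 → ‖y‖ ≤ R → ∀ p ∈ fib Z (ww l) y, jac J l g p ≠ 0 := by
    intro y hy hyR p hp
    have h1 := hcN (y := y) (by simpa using hyR.trans_lt hR'.1) hy
    rw [hNeq y hy, nrm, finprod_mem_eq_finite_toFinset_prod _ (hRS.finite (hmem y hy hyR)),
      Finset.prod_ne_zero_iff] at h1
    have h2 := h1 p (by simpa using hp)
    have h3 := (hRS.chart p hp.1 (hp.2 ▸ hmem y hy hyR)).pos
    exact fun hj => h2 (by rw [hj, zero_pow (by omega)])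
  have hcard : ∀ y : ℂ, y ≠ 0 → ‖y‖ ≤ R → (fib Z (ww l) y).ncard = m := fun y hy hyR => by
    rw [hRS.ncard_eq (hmem y hy hyR), hm y (hmem y hy hyR)]
    exact fun p hp => (hlow p hp.1 (hp.2 ▸ hmem y hy hyR)).1 (hjac y hy hyR p hp)
  have hsm : ∀ᶠ y in 𝓝[≠] (0 : ℂ), y ≠ 0 ∧ ‖y‖ ≤ R := by
    have : ∀ᶠ y in 𝓝 (0 : ℂ), ‖y‖ ≤ R := by
      filter_upwards [closedBall_mem_nhds (0 : ℂ) hR] with y hy using by simpa using hy
    exact Eventually.and self_mem_nhdsWithin (this.filter_mono nhdsWithin_le_nhds)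
  have hm1 : 1 ≤ m := by
    have hiso' : ∀ᶠ p in 𝓝 (0 : E × E), p ∈ Dbar g → ww l p = 0 → p = 0 := by
      filter_upwards [closedBall_mem_nhds (0 : E × E) hρ] with p hp h1 h2
      exact hiso p h1 (by simpa using hp) h2
    obtain ⟨y, ⟨p, hp1, hp2, hp3⟩, hy, hyR⟩ :=
      ((exists_double hdim hg hv hl hiso' hρ).and hsm).exists
    rw [← hcard y hy hyR, Nat.one_le_iff_ne_zero]
    refine Set.ncard_ne_zero_of_mem (a := p) ⟨⟨hp1, by simpa using hp2.le, ?_⟩, hp3⟩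
      (hRS.finite (hmem y hy hyR))
    show ‖ww l p‖ ≤ R₁
    rw [hp3]; exact hyR.trans hR'.2.le
  refine ⟨l, ρ, R, m, hρ, hρ'.2.2, hR, fun p hp hpρ => hR'.2.trans (hsph p hp hpρ), hiso,
    fun p hp hp0 => ?_, fun y hy hyR => ?_, fun ε hε => ?_⟩
  · have hw : ww l p ≠ 0 := fun hw => hp0 (hiso p hp.1 (by simpa using hp.2.1) hw)
    exact hjac _ hw hp.2.2 p ⟨⟨hp.1, hp.2.1, le_trans hp.2.2 hR'.2.le⟩, rfl⟩
  · rw [fib_ZZ_eq hyR (hyR.trans hR'.2.le)]; exact hcard y hy hyR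
  · set n := finrank ℂ E with hn'
    -- `δ` small
    obtain ⟨δ, hδ, hδ1, hδε⟩ : ∃ δ : ℝ, 0 < δ ∧ δ ≤ 1 ∧ δ < ε :=
      ⟨min 1 (ε / 2), by positivity, min_le_left _ _, (min_le_right _ _).trans_lt (by linarith)⟩
    have hsmall := jac_small hn J l hg hcc (ε := δ / (|C| + 1) ^ n) (by positivity)
    have h0fib : fib Z (ww l) 0 ⊆ {0} := fun p hp => hiso p hp.1.1 (by simpa using hp.1.2.1) hp.2
    obtain ⟨U', hU', -, hU⟩ := fib_decomp hRS.cpt hRS.cont ((finite_singleton _).subset h0fib)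
      (fun _ => {p | p ∈ Dbar g → ‖jac J l g p‖ ≤ δ / (|C| + 1) ^ n * ‖p.1 - p.2‖ ^ n})
      fun p hp => by
        rw [h0fib hp]; exact mem_nhdsWithin_of_mem_nhds hsmall
    filter_upwards [hsm, hU.filter_mono nhdsWithin_le_nhds] with y ⟨hy, hyR⟩ hyU
    rw [fib_ZZ_eq hyR (hyR.trans hR'.2.le)]
    have hf := hRS.finite (hmem y hy hyR)
    have hy0 : 0 < ‖y‖ := norm_pos_iff.2 hy
    rw [finprod_mem_eq_finite_toFinset_prod _ hf, norm_prod]
    have hle : ∀ p ∈ hf.toFinset, ‖jac J l g p‖ ≤ δ * ‖y‖ ^ n := by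
      intro p hp
      rw [Finite.mem_toFinset] at hp
      obtain ⟨q, hq, hpq⟩ := mem_iUnion₂.1 (hyU hp)
      have h1 := ((hU' q hq).2 hpq).1 hp.1.1
      have hp0 : p ≠ 0 := fun h0 => hy (by rw [← hp.2, h0, hw0])
      have h2 := (hA' p hp.1.1 (by simpa using hp.1.2.1) hp0).1.2
      rw [hp.2] at h2
      have h3 : ‖p.1 - p.2‖ ≤ (|C| + 1) * ‖y‖ :=
        h2.trans (by gcongr; linarith [le_abs_self C])
      calc _ ≤ δ / (|C| + 1) ^ n * ((|C| + 1) * ‖y‖) ^ n := h1.trans (by gcongr)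
        _ = δ * ‖y‖ ^ n := by rw [mul_pow]; field_simp
    calc _ ≤ ∏ _p ∈ hf.toFinset, δ * ‖y‖ ^ n :=
          Finset.prod_le_prod (fun _ _ => norm_nonneg _) hle
      _ = δ ^ m * ‖y‖ ^ (n * m) := by
          rw [Finset.prod_const, ← Set.ncard_eq_toFinset_card _ hf, hcard y hy hyR, mul_pow,
            ← pow_mul]
      _ ≤ δ * ‖y‖ ^ (n * m) := by
          gcongr
          exact pow_le_of_le_one hδ.le hδ1 (by omega)
      _ < ε * ‖y‖ ^ (n * m) := by gcongr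

end Pool.Agent.MP_7e71a7_ag

end

-- part MP_7e71a7_ag.Top1
section

/-! Line bundles on a contractible image are trivial. -/

open Filter Topology Set Function Metric Module

namespace Pool.Agent.MP_7e71a7_ag

theorem proj_section {X H : Type*} [TopologicalSpace X] [CompactSpace X] [ContractibleSpace X]
    [NormedAddCommGroup H] [NormedSpace ℂ H] (P : X → H →L[ℂ] H) (hP : Continuous P)
    (hPP : ∀ y v, P y (P y v) = P y v) (h0 : ∀ y, ∃ v, v ≠ 0 ∧ P y v = v) :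
    ∃ s : X → H, Continuous s ∧ ∀ y, s y ≠ 0 ∧ P y (s y) = s y := by
  obtain ⟨y₀, ⟨Hm⟩⟩ := id_nullhomotopic X
  let Q : C(unitInterval, C(X, H →L[ℂ] H)) :=
    ContinuousMap.curry ((⟨P, hP⟩ : C(X, H →L[ℂ] H)).comp Hm.toContinuousMap)
  let S : unitInterval → Prop := fun t =>
    ∃ s : X → H, Continuous s ∧ ∀ y, s y ≠ 0 ∧ Q t y (s y) = s y
  have step : ∀ t t', dist (Q t') (Q t) < 1 → S t → S t' := by
    rintro t t' hd ⟨s, hs, h⟩
    refine ⟨fun y => Q t' y (s y), (Q t').continuous.clm_apply hs, fun y => ⟨fun hz => ?_, hPP _ _⟩⟩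
    have h1 : ‖Q t' y - Q t y‖ < 1 := by
      rw [← dist_eq_norm]; exact (ContinuousMap.dist_apply_le_dist y).trans_lt hd
    have h2 := (Q t' y - Q t y).le_opNorm (s y)
    have hz' : Q t' y (s y) = 0 := hz
    rw [ContinuousLinearMap.sub_apply, hz', (h y).2, zero_sub, norm_neg] at h2
    have h3 := norm_pos_iff.2 (h y).1
    nlinarith
  have key := PreconnectedSpace.induction₂' (fun t t' => S t → S t') (fun t => by
    filter_upwards [Q.continuous.continuousAt (ball_mem_nhds (Q t) one_pos)] with t' ht'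
    exact ⟨step t t' ht', step t' t (by rw [dist_comm]; exact ht')⟩)
    ⟨fun _ _ _ h h' => h' ∘ h⟩ 1 0
  obtain ⟨v, hv, hv'⟩ := h0 y₀
  obtain ⟨s, hs, h⟩ := key ⟨fun _ => v, continuous_const, fun y => ⟨hv, by simpa [Q] using hv'⟩⟩
  exact ⟨s, hs, fun y => ⟨(h y).1, by simpa [Q] using (h y).2⟩⟩

/- HINT. `P x v = (⟪a x, v⟫ / ‖a x‖ ^ 2) • a x` depends only on `g x`, so it descends to a
continuous `P' : g '' K → H →L[ℂ] H` (the map `K → g '' K` is a quotient map: continuous surjection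
from a compact to a Hausdorff space, `IsClosedMap.isQuotientMap`). A contraction
`Hm : I × X → X` from a constant `y₀` to the identity is uniformly continuous in `t` (compactness):
take `N` with `‖P' (Hm (t, y)) - P' (Hm (t', y))‖ < 1` for `|t - t'| ≤ 1 / N`. Define
`s₀ y = a x₀`, `s_{i+1} y = P' (Hm ((i+1)/N, y)) (s_i y)`: continuous, nonzero, fixed by the
projection (if `P v = v ≠ 0` and `‖Q - P‖ < 1` then `Q v ≠ 0`). Then `s (g x) = κ x • a x` with
`κ x = ⟪a x, s (g x)⟫ / ‖a x‖ ^ 2`. An induction over `t ∈ [0,1]` by connectedness also works. -/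
theorem exists_section {E F H : Type*} [TopologicalSpace E] [TopologicalSpace F] [T2Space F]
    [NormedAddCommGroup H] [InnerProductSpace ℂ H] {K : Set E} (hK : IsCompact K) {g : E → F}
    (hg : ContinuousOn g K) {a : E → H} (ha : ContinuousOn a K) (ha0 : ∀ x ∈ K, a x ≠ 0)
    (hprop : ∀ x ∈ K, ∀ x' ∈ K, g x = g x' → ∃ c : ℂ, a x' = c • a x)
    (hc : ContractibleSpace (g '' K)) :
    ∃ κ : E → ℂ, ContinuousOn κ K ∧ (∀ x ∈ K, κ x ≠ 0) ∧
      ∀ x ∈ K, ∀ x' ∈ K, g x = g x' → κ x • a x = κ x' • a x' := by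
  classical
  let P : E → H →L[ℂ] H := fun x => ((‖a x‖ : ℂ) ^ 2)⁻¹ •
    ContinuousLinearMap.smulRightL ℂ H H (innerSL ℂ (a x)) (a x)
  have hP : ∀ x v, P x v = (((‖a x‖ : ℂ) ^ 2)⁻¹ * inner ℂ (a x) v) • a x := fun x v => by
    simp [P, smul_smul]
  have hn : ∀ x ∈ K, ((‖a x‖ : ℂ) ^ 2) ≠ 0 := fun x hx => by simpa using ha0 x hx
  have hPa : ∀ x ∈ K, P x (a x) = a x := fun x hx => by
    rw [hP, inner_self_eq_norm_sq_to_K]
    change (_ * ((‖a x‖ : ℂ) ^ 2)) • _ = _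
    rw [inv_mul_cancel₀ (hn x hx), one_smul]
  have hcn : ContinuousOn (fun x => ((‖a x‖ : ℂ) ^ 2)⁻¹) K :=
    ((Complex.continuous_ofReal.comp_continuousOn ha.norm).pow 2).inv₀ hn
  have hPc : ContinuousOn P K := hcn.smul (ContinuousOn.clm_apply
    ((ContinuousLinearMap.smulRightL ℂ H H).continuous.comp_continuousOn
      ((innerSL ℂ).continuous.comp_continuousOn ha)) ha)
  have hPeq : ∀ x ∈ K, ∀ x' ∈ K, g x = g x' → P x' = P x := by
    intro x hx x' hx' h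
    obtain ⟨c, hc⟩ := hprop x hx x' hx' h
    have hc0 : c ≠ 0 := fun h => ha0 x' hx' (by rw [hc, h, zero_smul])
    ext v
    have h1 := hn x hx
    have h2 : (‖c‖ : ℂ) ≠ 0 := by simpa using hc0
    rw [hP, hP, hc, inner_smul_left, smul_smul, norm_smul]
    congr 1
    have := Complex.mul_conj' c
    push_cast
    rw [mul_pow, mul_inv]
    linear_combination (((‖a x‖ : ℂ) ^ 2)⁻¹ * inner ℂ (a x) v * ((‖c‖ : ℂ) ^ 2)⁻¹) * this +
      (((‖a x‖ : ℂ) ^ 2)⁻¹ * inner ℂ (a x) v) * mul_inv_cancel₀ (pow_ne_zero 2 h2)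
  have : CompactSpace K := isCompact_iff_compactSpace.1 hK
  have : CompactSpace (g '' K) := isCompact_iff_compactSpace.1 (hK.image_of_continuousOn hg)
  let q : K → g '' K := fun x => ⟨g x, x, x.2, rfl⟩
  have hq : Continuous q := (continuousOn_iff_continuous_restrict.1 hg).subtype_mk _
  have hq' : IsQuotientMap q := hq.isClosedMap.isQuotientMap hq (by
    rintro ⟨_, x, hx, rfl⟩; exact ⟨⟨x, hx⟩, rfl⟩)
  choose r hr hr' using fun y : g '' K => y.2
  have e : ∀ x : K, P (r (q x)) = P x := fun x => hPeq _ x.2 _ (hr _) (hr' (q x)).symm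
  obtain ⟨s, hs, h⟩ := proj_section (fun y : g '' K => P (r y))
    (hq'.continuous_iff.2 ((continuousOn_iff_continuous_restrict.1 hPc).congr fun x => (e x).symm))
    (fun y v => by rw [hP (r y) v, map_smul, hPa _ (hr y)])
    (fun y => ⟨a (r y), ha0 _ (hr y), hPa _ (hr y)⟩)
  let κ : E → ℂ := fun x =>
    if hx : x ∈ K then ((‖a x‖ : ℂ) ^ 2)⁻¹ * inner ℂ (a x) (s (q ⟨x, hx⟩)) else 0
  have hκ : ∀ x (hx : x ∈ K), κ x • a x = s (q ⟨x, hx⟩) := fun x hx => by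
    rw [← (h _).2, e, hP]; simp only [κ, dif_pos hx]
  refine ⟨κ, ?_, fun x hx h0 => (h (q ⟨x, hx⟩)).1 (by rw [← hκ, h0, zero_smul]),
    fun x hx x' hx' hg => ?_⟩
  · rw [continuousOn_iff_continuous_restrict]
    refine ((continuousOn_iff_continuous_restrict.1 hcn).mul
      ((continuousOn_iff_continuous_restrict.1 ha).inner (𝕜 := ℂ) (hs.comp hq))).congr fun x => ?_
    simp [κ]
  · rw [hκ x hx, hκ x' hx']
    exact congrArg s (Subtype.ext hg)

/- HINT. On the compact type `D` put `a₀ p = (1 + φ p.swap, p.1 + φ p.swap • p.2) : ℂ × E`; it is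
nonzero and `a₀ p.swap = φ p • a₀ p`. `fst : D → E` is a closed embedding; extend `a₀` by
`ContinuousMap.exists_extension` (`TietzeExtension.of_tvs ℂ`), add the coordinate
`infDist x (fst '' D)` (if `D` is empty the claim is trivial) and compose with a linear equivalence
onto a Euclidean space. `exists_section` gives `κ x = κ x' * φ (x, x')` on `D`;
`Complex.exists_continuousOn_eqOn_exp_comp` on the ball (convex, hence contractible, hence simply
connected). -/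
theorem exists_log {E F : Type*} [NormedAddCommGroup E] [NormedSpace ℂ E] [FiniteDimensional ℂ E]
    [TopologicalSpace F] [T2Space F] {K : Set E} (hK : IsCompact K) {g : E → F}
    (hg : ContinuousOn g K) {D : Set (E × E)} (hD : IsCompact D) (hDK : D ⊆ K ×ˢ K)
    (hsw : ∀ p ∈ D, p.swap ∈ D) (hDg : ∀ p ∈ D, g p.1 = g p.2)
    (hall : ∀ x ∈ K, ∀ x' ∈ K, x ≠ x' → g x = g x' → (x, x') ∈ D) (hinj : InjOn Prod.fst D)
    {φ : E × E → ℂ} (hφ : ContinuousOn φ D) (hanti : ∀ p ∈ D, φ p * φ p.swap = 1)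
    (hfix : ∀ p ∈ D, p.1 = p.2 → φ p = 1) (hc : ContractibleSpace (g '' K)) {ρ : ℝ}
    (hρ : ball 0 ρ ⊆ K) :
    ∃ L : E → ℂ, ContinuousOn L (ball 0 ρ) ∧
      ∀ p ∈ D, p.1 ∈ ball 0 ρ → p.2 ∈ ball 0 ρ → Complex.exp (L p.1 - L p.2) = φ p := by
  rcases D.eq_empty_or_nonempty with rfl | hne
  · exact ⟨0, continuousOn_const, fun p hp => hp.elim⟩
  rcases le_or_gt ρ 0 with h0 | h0
  · exact ⟨0, continuousOn_const, fun p _ hp => by simp [ball_eq_empty.2 h0] at hp⟩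
  have : CompactSpace D := isCompact_iff_compactSpace.1 hD
  have hφ' : Continuous fun p : D => φ p.1.swap :=
    hφ.comp_continuous (continuous_swap.comp continuous_subtype_val) fun p => hsw _ p.2
  let a₀ : C(D, ℂ × E) := ⟨fun p => (1 + φ p.1.swap, p.1.1 + φ p.1.swap • p.1.2),
    (continuous_const.add hφ').prodMk ((continuous_fst.comp continuous_subtype_val).add
      (hφ'.smul (continuous_snd.comp continuous_subtype_val)))⟩
  have he : IsClosedEmbedding fun p : D => p.1.1 :=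
    Continuous.isClosedEmbedding (by fun_prop) fun p p' h => Subtype.ext (hinj p.2 p'.2 h)
  have : TietzeExtension (ℂ × E) := TietzeExtension.of_tvs ℂ
  obtain ⟨A, hA⟩ := a₀.exists_extension' he
  have hA' : ∀ p (hp : p ∈ D), A p.1 = (1 + φ p.swap, p.1 + φ p.swap • p.2) :=
    fun p hp => congrFun hA ⟨p, hp⟩
  let T : ((ℂ × E) × ℂ) ≃L[ℂ] EuclideanSpace ℂ (Fin (finrank ℂ ((ℂ × E) × ℂ))) :=
    ContinuousLinearEquiv.ofFinrankEq finrank_euclideanSpace_fin.symm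
  let a : E → EuclideanSpace ℂ (Fin (finrank ℂ ((ℂ × E) × ℂ))) :=
    fun x => T (A x, (infDist x (Prod.fst '' D) : ℝ))
  have hac : Continuous a := T.continuous.comp (A.continuous.prodMk
    (Complex.continuous_ofReal.comp (continuous_infDist_pt _)))
  have ha0 : ∀ x, a x ≠ 0 := by
    intro x hx
    have h1 := Prod.mk_eq_zero.1 (T.map_eq_zero_iff.1 hx)
    obtain ⟨p, hp, rfl⟩ := ((hD.image continuous_fst).isClosed.mem_iff_infDist_zero
      (hne.image _)).2 (by exact_mod_cast h1.2)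
    have h2 := Prod.mk_eq_zero.1 ((hA' p hp).symm.trans h1.1)
    have h3 : φ p.swap = -1 := by linear_combination h2.1
    have h4 : p.1 = p.2 := by
      have := h2.2
      rwa [h3, neg_one_smul, add_neg_eq_zero] at this
    have h5 := hfix _ (hsw p hp) h4.symm
    rw [h3] at h5
    norm_num at h5
  have hsm : ∀ p ∈ D, a p.2 = φ p • a p.1 := by
    intro p hp
    have h1 : infDist p.1 (Prod.fst '' D) = 0 := infDist_zero_of_mem ⟨p, hp, rfl⟩
    have h2 : infDist p.2 (Prod.fst '' D) = 0 := infDist_zero_of_mem ⟨p.swap, hsw p hp, rfl⟩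
    have h3 : A p.2 = (1 + φ p, p.2 + φ p • p.1) := hA' _ (hsw p hp)
    simp only [a]
    rw [← map_smul, h1, h2, h3, hA' p hp]
    simp [mul_add, smul_smul, hanti p hp, add_comm]
  obtain ⟨κ, hκ, hκ0, hκ1⟩ := exists_section hK hg hac.continuousOn (fun x _ => ha0 x)
    (fun x hx x' hx' h => by
      by_cases hxx : x = x'
      · exact ⟨1, by rw [hxx, one_smul]⟩
      · exact ⟨_, hsm _ (hall x hx x' hx' hxx h)⟩) hc
  have := (convex_ball (0 : E) ρ).contractibleSpace (nonempty_ball.2 h0)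
  obtain ⟨L, hL, hL'⟩ := Complex.exists_continuousOn_eqOn_exp_comp (U := ball (0 : E) ρ)
    (show SimplyConnectedSpace _ from inferInstance) isOpen_ball (hκ.mono hρ)
    (by rintro ⟨x, hx, h⟩; exact hκ0 x (hρ hx) h)
  refine ⟨L, hL, fun p hp h1 h2 => ?_⟩
  have h3 := hκ1 _ (hρ h1) _ (hρ h2) (hDg p hp)
  rw [hsm p hp, smul_smul] at h3
  have h4 := smul_left_injective ℂ (ha0 p.1) h3
  have e1 : Complex.exp (L p.1) = κ p.1 := hL' h1
  have e2 : Complex.exp (L p.2) = κ p.2 := hL' h2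
  rw [Complex.exp_sub, e1, e2, h4, mul_div_cancel_left₀ _ (hκ0 _ (hρ h2))]

end Pool.Agent.MP_7e71a7_ag

end

-- part MP_7e71a7_ag.Top2
section

/-! A branched covering of a disc with an involution all of whose anti-invariant `ℂˣ`-valued
functions have logarithms has few branch points. -/

open Filter Topology Set Function Metric Module

namespace Pool.Agent.MP_7e71a7_ag

variable {Z : Type} [TopologicalSpace Z] [CompactSpace Z] [T2Space Z] {w : Z → ℂ}

omit [T2Space Z] in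
theorem zero_of_locally_const (hw : Continuous w) {Ω : Set ℂ} (hΩ : IsPreconnected Ω)
    (hopen : ∀ p, w p ∈ Ω → 𝓝 (w p) ≤ map w (𝓝 p)) {b : Z → ℂ}
    (hlc : ∀ p, w p ∈ Ω → ∀ᶠ q in 𝓝 p, b q = b p) {v : ℂ} (hv : v ∈ Ω)
    (h0 : ∀ p, w p = v → b p = 0) : ∀ p, w p ∈ Ω → b p = 0 := by
  let J : Set ℂ := {y | ∃ q, w q = y ∧ b q ≠ 0}
  have h1 : Ω ⊆ interior Jᶜ ∪ interior J := by
    intro y hy
    by_cases hJ : y ∈ J
    · obtain ⟨p, rfl, hp⟩ := hJ
      refine Or.inr (mem_interior_iff_mem_nhds.2 (hopen p hy ?_))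
      rw [Filter.mem_map]
      filter_upwards [hlc p hy] with q hq
      exact ⟨q, rfl, hq ▸ hp⟩
    · refine Or.inl (mem_interior_iff_mem_nhds.2 ?_)
      have := hw.isClosedMap.eventually_nhds_fiber (p := fun q => b q = 0) y fun p hp => by
        have hp' : w p = y := hp
        filter_upwards [hlc p (hp' ▸ hy)] with q hq
        rw [hq]
        by_contra h
        exact hJ ⟨p, hp', h⟩
      filter_upwards [this] with z hz
      rintro ⟨q, hq, hb⟩
      exact hb (hz q hq)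
  have h2 := hΩ.subset_left_of_subset_union isOpen_interior isOpen_interior
    (disjoint_compl_left.mono interior_subset interior_subset) h1 ⟨v, hv, by
      refine (h1 hv).resolve_right fun h => ?_
      obtain ⟨q, hq, hb⟩ := interior_subset h
      exact hb (h0 q hq)⟩
  intro p hp
  by_contra h
  exact interior_subset (h2 hp) ⟨p, rfl, h⟩

/-- The sheet through `q` over a convex open set of regular values. -/
theorem exists_sheet (hw : Continuous w) {S : Set ℂ} (hS : IsOpen S) (hc : Convex ℝ S)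
    (hopen : ∀ p, w p ∈ S → 𝓝 (w p) ≤ map w (𝓝 p))
    (hinj : ∀ p, w p ∈ S → ∃ U ∈ 𝓝 p, InjOn w U) {q : Z} (hq : w q ∈ S) :
    ∃ A : Set Z, q ∈ A ∧ (∀ p ∈ A, w p = w q → p = q) ∧
      ∀ p, w p ∈ S → ∀ᶠ p' in 𝓝 p, (p' ∈ A ↔ p ∈ A) := by
  have hloc : IsLocalHomeomorphOn w (w ⁻¹' S) := by
    rw [isLocalHomeomorphOn_iff_isOpenEmbedding_restrict]
    intro p hp
    obtain ⟨U, hU, hi⟩ := hinj p hp
    have hV : IsOpen (interior U ∩ w ⁻¹' S) := isOpen_interior.inter (hS.preimage hw)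
    refine ⟨interior U ∩ w ⁻¹' S, hV.mem_nhds ⟨mem_interior_iff_mem_nhds.2 hU, hp⟩,
      IsOpenEmbedding.of_continuous_injective_isOpenMap (hw.comp continuous_subtype_val)
        (fun a b hab => Subtype.ext (hi (interior_subset a.2.1) (interior_subset b.2.1) hab))
        (IsOpenMap.of_nhds_le fun a => ?_)⟩
    have : map (Subtype.val : ↥(interior U ∩ w ⁻¹' S) → Z) (𝓝 a) = 𝓝 a.1 :=
      hV.isOpenEmbedding_subtypeVal.map_nhds_eq a
    exact (hopen a.1 a.2.2).trans_eq (by rw [← this, map_map]; rfl)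
  have := hc.contractibleSpace ⟨_, hq⟩
  have := hc.locallyPathConnectedSpace
  obtain ⟨F, ⟨hF0, hF⟩, -⟩ := (IsCoveringMapOn.of_isLocalHomeomorphOn hw hloc
    ).existsUnique_continuousMap_lifts (A := S) ⟨Subtype.val, continuous_subtype_val⟩
    (a₀ := ⟨w q, hq⟩) (e₀ := q) rfl fun a => a.2
  classical
  let s : ℂ → Z := fun y => if h : y ∈ S then F ⟨y, h⟩ else q
  have hs : ContinuousOn s S := by
    rw [continuousOn_iff_continuous_domRestrict]
    convert F.continuous using 1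
    funext y
    exact dif_pos y.2
  have hws : ∀ y ∈ S, w (s y) = y := fun y hy => by
    simp only [s, dif_pos hy]
    exact congrFun hF ⟨y, hy⟩
  have hsq : s (w q) = q := by simp only [s, dif_pos hq, hF0]
  refine ⟨{p | s (w p) = p}, hsq, fun p hp h => by rw [← hp, h, hsq], fun p hp => ?_⟩
  have hG : ContinuousAt (fun p' => s (w p')) p :=
    (hs.continuousAt (hS.mem_nhds hp)).comp hw.continuousAt
  by_cases h : s (w p) = p
  · obtain ⟨U, hU, hi⟩ := hinj p hp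
    filter_upwards [hU, hG.eventually (show U ∈ 𝓝 (s (w p)) by rwa [h]),
      hw.continuousAt.eventually (hS.mem_nhds hp)] with p' h1 h2 h3
    exact iff_of_true (hi h2 h1 (hws _ h3)) h
  · filter_upwards [(hG.prodMk continuousAt_id).eventually
      (isClosed_diagonal.isOpen_compl.mem_nhds h)] with p' h1
    exact iff_of_false h1 h

theorem top2_const {X : Type} [TopologicalSpace X] {b : X → ℂ} {p : X} (hb : ContinuousAt b p)
    (h : ∀ᶠ q in 𝓝 p, Complex.exp (b q) = 1) : ∀ᶠ q in 𝓝 p, b q = b p := by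
  filter_upwards [h, hb.eventually (ball_mem_nhds _ one_pos)] with q h1 h2
  obtain ⟨n, hn⟩ := Complex.exp_eq_exp_iff_exists_int.1 (h1.trans h.self_of_nhds.symm)
  rw [hn, dist_self_add_left] at h2
  have h3 : |(n : ℝ)| * (2 * Real.pi) < 1 := by
    simpa [abs_of_pos Real.pi_pos] using h2
  have h4 : |(n : ℝ)| < 1 := by nlinarith [Real.pi_gt_three, abs_nonneg (n : ℝ)]
  have h5 : |n| < 1 := by exact_mod_cast h4
  rw [hn, Int.abs_lt_one_iff.1 h5]
  simp

/-- One cut at `re w = t`, one sheet through `q`. -/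
theorem exists_jump (hw : Continuous w) {σ : Z → Z} (hσ : Continuous σ) (hσσ : ∀ p, σ (σ p) = p)
    (hwσ : ∀ p, w (σ p) = -w p) {r R : ℝ} (hrR : r ≤ R)
    (hlog : ∀ φ : Z → ℂ, ContinuousOn φ {p | ‖w p‖ < R} → (∀ p, φ p * φ (σ p) = 1) →
      (∀ p, σ p = p → φ p = 1) → ∃ ℓ : Z → ℂ, ContinuousOn ℓ {p | ‖w p‖ < r} ∧
        ∀ p, ‖w p‖ < r → Complex.exp (ℓ p) = φ p ∧ ℓ (σ p) = -ℓ p)
    {t η : ℝ} (hη : 0 < η) (ht : 2 * η < t)
    (hopen : ∀ p, ‖w p‖ < R → 𝓝 (w p) ≤ map w (𝓝 p))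
    (hinj : ∀ p, ‖w p‖ < R → t - 2 * η < (w p).re → (w p).re < t + η → ∃ U ∈ 𝓝 p, InjOn w U)
    {q : Z} (hq : (w q).re = t) (hqr : ‖w q‖ < r) :
    ∃ ℓ b : Z → ℂ, ContinuousOn ℓ {p | ‖w p‖ < r} ∧ (∀ p, ‖w p‖ < r → b (σ p) = -b p) ∧
      (∀ p, ‖w p‖ < r → |(w p).re| ≠ t → ∀ᶠ p' in 𝓝 p, b p' = b p) ∧
      (∀ p, 0 ≤ (w p).re → ((w p).re < t - η ∨ t ≤ (w p).re) → b p = ℓ p) ∧
      Tendsto (fun p => ℓ p - b p) (𝓝[{p | (w p).re < t}] q) (𝓝 (2 * Real.pi * Complex.I)) ∧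
      ∀ q', w q' = w q → q' ≠ q → ∀ᶠ p in 𝓝 q', b p = ℓ p := by
  classical
  have hre : Continuous fun p => (w p).re := Complex.continuous_re.comp hw
  let S : Set ℂ := ball 0 R ∩ ({y | t - 2 * η < y.re} ∩ {y | y.re < t + η})
  have hS : IsOpen S := isOpen_ball.inter
    ((isOpen_lt continuous_const Complex.continuous_re).inter
      (isOpen_lt Complex.continuous_re continuous_const))
  have hqS : w q ∈ S := ⟨mem_ball_zero_iff.2 (hqr.trans_le hrR),
    show t - 2 * η < (w q).re by linarith, show (w q).re < t + η by linarith⟩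
  obtain ⟨A, hqA, hA1, hA⟩ := exists_sheet hw hS
    ((convex_ball _ _).inter ((convex_halfSpace_re_gt _).inter (convex_halfSpace_re_lt _)))
    (fun p hp => hopen p (mem_ball_zero_iff.1 hp.1))
    (fun p hp => hinj p (mem_ball_zero_iff.1 hp.1) hp.2.1 hp.2.2) hqS
  let β : Z → ℂ := fun p =>
    ((max 0 (min 1 (((w p).re - (t - η)) / η)) : ℝ) : ℂ) * (2 * Real.pi * Complex.I)
  have hβ : Continuous β := by fun_prop
  have hβ0 : ∀ p, (w p).re ≤ t - η → β p = 0 := fun p hp => by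
    simp only [β]
    rw [max_eq_left (min_le_of_right_le (div_nonpos_of_nonpos_of_nonneg (by linarith) hη.le))]
    simp
  have hβ1 : ∀ p, t ≤ (w p).re → β p = 2 * Real.pi * Complex.I := fun p hp => by
    simp only [β]
    rw [min_eq_left ((one_le_div hη).2 (by linarith)), max_eq_right zero_le_one]
    simp
  let α : Z → ℂ := fun p => if p ∈ A ∧ (w p).re < t then β p else 0
  have hα0 : ∀ p, (w p).re ≤ t - η ∨ t ≤ (w p).re ∨ p ∉ A → α p = 0 := by
    intro p hp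
    simp only [α]
    split_ifs with h
    · rcases hp with hp | hp | hp
      · exact hβ0 p hp
      · exact absurd h.2 (not_lt.2 hp)
      · exact absurd h.1 hp
    · rfl
  have hαA : ∀ p ∈ A, Complex.exp (α p) = Complex.exp (β p) := by
    intro p hp
    simp only [α]
    split_ifs with h
    · rfl
    · rw [hβ1 p (not_lt.1 fun h' => h ⟨hp, h'⟩), Complex.exp_zero, Complex.exp_two_pi_mul_I]
  have hout : ∀ p, ‖w p‖ < R → w p ∉ S ∨ p ∉ A ∨ t < (w p).re → ∀ᶠ p' in 𝓝 p, α p' = 0 := by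
    intro p hp h
    by_cases h1 : (w p).re < t - η
    · exact (hre.continuousAt.eventually (gt_mem_nhds h1)).mono fun p' h' => hα0 p' (Or.inl h'.le)
    by_cases h2 : t < (w p).re
    · exact (hre.continuousAt.eventually (lt_mem_nhds h2)).mono fun p' h' =>
        hα0 p' (Or.inr (Or.inl h'.le))
    have hpS : w p ∈ S := ⟨mem_ball_zero_iff.2 hp, show t - 2 * η < (w p).re by linarith,
      show (w p).re < t + η by linarith⟩
    have hpA : p ∉ A := (h.resolve_left (not_not.2 hpS)).resolve_right h2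
    exact (hA p hpS).mono fun p' h' => hα0 p' (Or.inr (Or.inr fun h'' => hpA (h'.1 h'')))
  have hE : ∀ p, ‖w p‖ < R → ContinuousAt (fun p => Complex.exp (α p)) p := by
    intro p hp
    by_cases h : w p ∈ S ∧ p ∈ A
    · refine (Complex.continuous_exp.comp hβ).continuousAt.congr ?_
      filter_upwards [hA p h.1] with p' h'
      exact (hαA p' (h'.2 h.2)).symm
    · refine (continuousAt_const (y := Complex.exp 0)).congr ?_
      filter_upwards [hout p hp (by tauto)] with p' h'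
      rw [h']
  have hαc : ∀ p, ‖w p‖ < R → (w p).re ≠ t → ContinuousAt α p := by
    intro p hp hne
    by_cases h : w p ∈ S ∧ p ∈ A ∧ (w p).re < t
    · refine hβ.continuousAt.congr ?_
      filter_upwards [hA p h.1, hre.continuousAt.eventually (gt_mem_nhds h.2.2)] with p' h1 h2
      exact (if_pos ⟨h1.2 h.2.1, h2⟩).symm
    · refine (continuousAt_const (y := 0)).congr ?_
      have : ¬ (w p).re < t → t < (w p).re := fun h' => lt_of_le_of_ne (not_lt.1 h') hne.symm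
      filter_upwards [hout p hp (by tauto)] with p' h'
      rw [h']
  have hn : ∀ p, ‖w (σ p)‖ = ‖w p‖ := fun p => by rw [hwσ, norm_neg]
  have hr : ∀ p, (w (σ p)).re = -(w p).re := fun p => by rw [hwσ, Complex.neg_re]
  obtain ⟨ℓ, hℓ, hℓ'⟩ := hlog (fun p => Complex.exp (α p - α (σ p)))
    (fun p hp => by
      simp only [Complex.exp_sub]
      exact ((hE p hp).div ((hE (σ p) ((hn p).trans_lt hp)).comp hσ.continuousAt)
        (Complex.exp_ne_zero _)).continuousWithinAt)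
    (fun p => by rw [← Complex.exp_add, hσσ]; simp) (fun p hp => by simp [hp])
  have ho : IsOpen {p | ‖w p‖ < r} := isOpen_lt hw.norm continuous_const
  have hσ0 : ∀ p, 0 < (w p).re → ∀ᶠ p' in 𝓝 p, α (σ p') = 0 := fun p hp =>
    (hre.continuousAt.eventually (lt_mem_nhds hp)).mono fun p' h' =>
      hα0 _ (Or.inl (by rw [hr]; linarith))
  refine ⟨ℓ, fun p => ℓ p - (α p - α (σ p)), hℓ, fun p hp => ?_, fun p hp hne => ?_,
    fun p h0 h => ?_, ?_, fun q' h1 h2 => ?_⟩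
  · simp only [(hℓ' p hp).2, hσσ]
    ring
  · refine top2_const ((hℓ.continuousAt (ho.mem_nhds hp)).sub
      ((hαc p (hp.trans_le hrR) fun h => hne ?_).sub
        ((hαc (σ p) ((hn p).trans_lt (hp.trans_le hrR)) fun h => hne ?_).comp
          hσ.continuousAt))) ?_
    · rw [h, abs_of_pos (by linarith)]
    · rw [← abs_neg, ← hr, h, abs_of_pos (by linarith)]
    · filter_upwards [ho.mem_nhds hp] with p' h'
      rw [Complex.exp_sub, (hℓ' p' h').1, div_self (Complex.exp_ne_zero _)]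
  · simp only
    rw [hα0 p (h.imp le_of_lt Or.inl), hα0 (σ p) (Or.inl (by rw [hr]; linarith))]
    simp
  · rw [← hβ1 q hq.ge]
    refine (hβ.continuousAt.tendsto.mono_left nhdsWithin_le_nhds).congr' ?_
    filter_upwards [nhdsWithin_le_nhds (hA q hqS), nhdsWithin_le_nhds (hσ0 q (by linarith)),
      self_mem_nhdsWithin] with p h1 h2 h3
    have : α p = β p := if_pos ⟨h1.2 hqA, h3⟩
    rw [h2, this]
    ring
  · filter_upwards [hout q' (h1 ▸ hqr.trans_le hrR) (Or.inr (Or.inl fun h => h2 (hA1 q' h h1))),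
      hσ0 q' (by rw [h1]; linarith)] with p h3 h4
    rw [h3, h4]
    simp

theorem euler_bound_re (hw : Continuous w) {σ : Z → Z} (hσ : Continuous σ)
    (hσσ : ∀ p, σ (σ p) = p) (hwσ : ∀ p, w (σ p) = -w p) {r R : ℝ} (hrR : r ≤ R) (C : Finset ℂ)
    (hC0 : (0 : ℂ) ∈ C) (hCneg : ∀ v ∈ C, -v ∈ C) (hCr : ∀ v ∈ C, ‖v‖ < r)
    (hre : InjOn Complex.re C) {m : ℕ}
    (hopen : ∀ p, ‖w p‖ < R → 𝓝 (w p) ≤ map w (𝓝 p))
    (hinj : ∀ p, ‖w p‖ < R → w p ∉ C → ∃ U ∈ 𝓝 p, InjOn w U)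
    (hfin : ∀ y, ‖y‖ < R → (w ⁻¹' {y}).Finite)
    (hm : ∀ y, ‖y‖ < R → y ∉ C → (w ⁻¹' {y}).ncard = m)
    (hlog : ∀ φ : Z → ℂ, ContinuousOn φ {p | ‖w p‖ < R} → (∀ p, φ p * φ (σ p) = 1) →
      (∀ p, σ p = p → φ p = 1) → ∃ ℓ : Z → ℂ, ContinuousOn ℓ {p | ‖w p‖ < r} ∧
        ∀ p, ‖w p‖ < r → Complex.exp (ℓ p) = φ p ∧ ℓ (σ p) = -ℓ p) :
    m * C.card + {p | σ p = p}.ncard ≤ m + ∑ v ∈ C, (w ⁻¹' {v}).ncard := by
  classical
  have hr0 : 0 < r := by simpa using hCr 0 hC0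
  have hre' : Continuous fun p => (w p).re := Complex.continuous_re.comp hw
  obtain ⟨η, hgap, hη⟩ : ∃ η : ℝ, (∀ v ∈ C, ∀ v' ∈ C, v.re < v'.re → v.re + 3 * η < v'.re) ∧
      0 < η := by
    refine (Filter.Eventually.and (f := 𝓝[>] (0 : ℝ)) ?_ self_mem_nhdsWithin).exists
    simp only [Finset.eventually_all]
    intro v _ v' _
    by_cases h : v.re < v'.re
    · have : ContinuousAt (fun η : ℝ => v.re + 3 * η) 0 := by fun_prop
      exact nhdsWithin_le_nhds ((this.eventually (gt_mem_nhds (by simpa using h))).mono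
        fun _ h' _ => h')
    · simp [h]
  obtain ⟨fib, hfib⟩ : ∃ fib : ℂ → Finset Z, ∀ y, ‖y‖ < R → ∀ p, p ∈ fib y ↔ w p = y := by
    refine ⟨fun y => if h : ‖y‖ < R then (hfin y h).toFinset else ∅, fun y hy p => ?_⟩
    simp [dif_pos hy]
  have hcard : ∀ y, ‖y‖ < R → (w ⁻¹' {y}).ncard = (fib y).card := fun y hy => by
    rw [← Set.ncard_coe_finset]
    congr 1
    ext p
    simp [hfib y hy]
  have hCR : ∀ v ∈ C, ‖v‖ < R := fun v hv => (hCr v hv).trans_le hrR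
  set Cp := C.filter fun v => 0 < v.re with hCp
  have mCp : ∀ v, v ∈ Cp ↔ v ∈ C ∧ 0 < v.re := fun v => Finset.mem_filter
  have hpos : ∀ v ∈ Cp, 3 * η < v.re := fun v hv => by
    simpa using hgap 0 hC0 v ((mCp v).1 hv).1 ((mCp v).1 hv).2
  obtain ⟨y, hy⟩ : ∃ y : ℂ → ℂ, ∀ v ∈ Cp, (y v).re = v.re - η ∧ ‖y v‖ < r := by
    refine ⟨fun v => ((v.re - η) / v.re) • v, fun v hv => ?_⟩
    have h1 := hpos v hv
    have h2 : 0 < v.re := by linarith
    refine ⟨by rw [Complex.smul_re, smul_eq_mul, div_mul_cancel₀ _ h2.ne'], ?_⟩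
    rw [norm_smul, Real.norm_of_nonneg (div_nonneg (by linarith) h2.le)]
    exact (mul_le_of_le_one_left (norm_nonneg _) ((div_le_one h2).2 (by linarith))).trans_lt
      (hCr v ((mCp v).1 hv).1)
  have hnC : ∀ v ∈ C, ∀ z : ℂ, v.re - 3 * η < z.re → z.re < v.re → z ∉ C :=
    fun v hv z h1 h2 hz => by linarith [hgap z hz v hv h2]
  set Q := Cp.biUnion fun v => fib (y v) with hQ
  have mQ : ∀ q, q ∈ Q ↔ ∃ v ∈ Cp, w q = y v := fun q => by
    simp only [hQ, Finset.mem_biUnion]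
    exact exists_congr fun v => and_congr_right fun hv => hfib _ ((hy v hv).2.trans_le hrR) q
  have cQ : Q.card = Cp.card * m := by
    rw [hQ, Finset.card_biUnion, Finset.sum_const_nat]
    · intro v hv
      rw [← hcard _ ((hy v hv).2.trans_le hrR)]
      exact hm _ ((hy v hv).2.trans_le hrR)
        (hnC v ((mCp v).1 hv).1 _ (by linarith [(hy v hv).1]) (by linarith [(hy v hv).1]))
    · intro v hv v' hv' hne
      refine Finset.disjoint_left.2 fun p h1 h2 => hne (hre ((mCp v).1 hv).1 ((mCp v').1 hv').1 ?_)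
      rw [hfib _ ((hy v hv).2.trans_le hrR)] at h1
      rw [hfib _ ((hy v' hv').2.trans_le hrR)] at h2
      have a1 := (hy v hv).1
      have a2 := (hy v' hv').1
      rw [← h1] at a1
      rw [← h2] at a2
      linarith
  have hj : ∀ q ∈ Q, ∃ ℓ b : Z → ℂ, ContinuousOn ℓ {p | ‖w p‖ < r} ∧
      (∀ p, ‖w p‖ < r → b (σ p) = -b p) ∧
      (∀ p, ‖w p‖ < r → |(w p).re| ≠ (w q).re → ∀ᶠ p' in 𝓝 p, b p' = b p) ∧
      (∀ p, 0 ≤ (w p).re → ((w p).re < (w q).re - η ∨ (w q).re ≤ (w p).re) → b p = ℓ p) ∧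
      Tendsto (fun p => ℓ p - b p) (𝓝[{p | (w p).re < (w q).re}] q)
        (𝓝 (2 * Real.pi * Complex.I)) ∧
      ∀ q', w q' = w q → q' ≠ q → ∀ᶠ p in 𝓝 q', b p = ℓ p := by
    intro q hq
    obtain ⟨v, hv, e⟩ := (mQ q).1 hq
    have a1 := hy v hv
    rw [← e] at a1
    exact exists_jump hw hσ hσσ hwσ hrR hlog hη (by linarith [hpos v hv]) hopen
      (fun p hp h1 h2 => hinj p hp (hnC v ((mCp v).1 hv).1 _ (by linarith) (by linarith))) rfl a1.2
  choose! ℓ b hℓ hb1 hb2 hb3 hb4 hb5 using hj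
  obtain ⟨enc, henc⟩ := Set.countable_iff_exists_injOn.1 (fib 0).countable_toSet
  have m0 : ∀ p, p ∈ fib 0 ↔ w p = 0 := hfib 0 (hCR 0 hC0)
  have mσ : ∀ p ∈ fib 0, σ p ∈ fib 0 := fun p hp => by
    rw [m0] at hp ⊢
    rw [hwσ, hp, neg_zero]
  set H := (fib 0).filter fun p => enc p < enc (σ p) with hH
  set E := Cp.biUnion fib ∪ H with hE
  have hli : LinearIndependent ℂ fun (q : Q) (e : E) => b q e := by
    rw [Fintype.linearIndependent_iff]
    intro g hg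
    let B : Z → ℂ := fun p => ∑ q : Q, g q * b q p
    let L : Z → ℂ := fun p => ∑ q : Q, g q * ℓ q p
    have hBE : ∀ p ∈ E, B p = 0 := fun p hp => by
      simpa [B] using congrFun hg ⟨p, hp⟩
    have hBσ : ∀ p, ‖w p‖ < r → B (σ p) = -B p := fun p hp => by
      simp only [B, ← Finset.sum_neg_distrib]
      exact Finset.sum_congr rfl fun q _ => by rw [hb1 q q.2 p hp, mul_neg]
    have hBC : ∀ v ∈ C, 0 ≤ v.re → ∀ p, w p = v → B p = 0 := by
      intro v hv h0 p hp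
      rcases h0.eq_or_lt with h0 | h0
      · have hv0 : v = 0 := hre hv hC0 h0.symm
        have hp0 : p ∈ fib 0 := (m0 p).2 (hp.trans hv0)
        have h1 := hBσ p (hp ▸ hCr v hv)
        rcases lt_trichotomy (enc p) (enc (σ p)) with h | h | h
        · exact hBE p (Finset.mem_union_right _ (Finset.mem_filter.2 ⟨hp0, h⟩))
        · rw [← henc hp0 (mσ p hp0) h] at h1
          linear_combination h1 / 2
        · rw [hBE (σ p) (Finset.mem_union_right _ (Finset.mem_filter.2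
            ⟨mσ p hp0, by rwa [hσσ]⟩))] at h1
          linear_combination h1
      · exact hBE p (Finset.mem_union_left _ (Finset.mem_biUnion.2
          ⟨v, (mCp v).2 ⟨hv, h0⟩, (hfib v (hCR v hv) p).2 hp⟩))
    have hBΩ : ∀ v ∈ C, 0 ≤ v.re → ∀ p, ‖w p‖ < r → v.re - η < (w p).re →
        (∀ v' ∈ C, v.re < v'.re → (w p).re < v'.re - η) → B p = 0 := by
      intro v hv h0 p h1 h2 h3
      let Ω : Set ℂ := ball 0 r ∩ ({z | v.re - η < z.re} ∩
        ⋂ v' ∈ {v' | v' ∈ C ∧ v.re < v'.re}, {z | z.re < v'.re - η})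
      have mΩ : ∀ z, z ∈ Ω ↔ ‖z‖ < r ∧ v.re - η < z.re ∧
          ∀ v' ∈ C, v.re < v'.re → z.re < v'.re - η := fun z => by simp [Ω]
      have hΩ : Convex ℝ Ω := (convex_ball _ _).inter ((convex_halfSpace_re_gt _).inter
        (convex_iInter₂ fun _ _ => convex_halfSpace_re_lt _))
      refine zero_of_locally_const hw hΩ.isPreconnected
        (fun p hp => hopen p (((mΩ _).1 hp).1.trans_le hrR)) (fun p hp => ?_)
        ((mΩ v).2 ⟨hCr v hv, by linarith, fun v' hv' h => by linarith [hgap v hv v' hv' h]⟩)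
        (hBC v hv h0) p ((mΩ _).2 ⟨h1, h2, h3⟩)
      obtain ⟨c1, c2, c3⟩ := (mΩ _).1 hp
      have : ∀ q : Q, ∀ᶠ p' in 𝓝 p, b q p' = b q p := fun q => hb2 q q.2 p c1 fun h => by
        obtain ⟨v', hv', e⟩ := (mQ q).1 q.2
        have a1 := (hy v' hv').1
        have a2 := hpos v' hv'
        rw [e, a1] at h
        rcases le_total 0 (w p).re with h' | h'
        · rw [abs_of_nonneg h'] at h
          linarith [c3 v' ((mCp v').1 hv').1 (by linarith)]
        · rw [abs_of_nonpos h'] at h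
          linarith
      filter_upwards [Filter.eventually_all.2 this] with p' h'
      simp only [B, h']
    intro q
    obtain ⟨v, hv, e⟩ := (mQ q).1 q.2
    obtain ⟨a1, a2⟩ := hy v hv
    rw [← e] at a1 a2
    have a3 := hpos v hv
    have hvC := ((mCp v).1 hv).1
    have ho : IsOpen {p | ‖w p‖ < r} := isOpen_lt hw.norm continuous_const
    have hL : ContinuousAt L q := by
      refine tendsto_finsetSum _ fun q' _ => ?_
      exact ((hℓ q' q'.2).continuousAt (ho.mem_nhds a2)).const_mul _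
    have hne : ∀ U : Set ℂ, w q ∈ closure U → (𝓝[w ⁻¹' U] (q : Z)).NeBot := fun U hU => by
      rw [← mem_closure_iff_nhdsWithin_neBot, mem_closure_iff_frequently]
      exact ((mem_closure_iff_frequently.1 hU).filter_mono (hopen q (a2.trans_le hrR)))
    have nR : (𝓝[{p | (w q).re < (w p).re}] (q : Z)).NeBot :=
      hne {z | (w q).re < z.re} (by rw [Complex.closure_setOfPred_lt_re]; exact le_refl (w q).re)
    have nL : (𝓝[{p | (w p).re < (w q).re}] (q : Z)).NeBot :=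
      hne {z | z.re < (w q).re} (by rw [Complex.closure_setOfPred_re_lt]; exact le_refl (w q).re)
    have near : ∀ᶠ p in 𝓝 (q : Z), ‖w p‖ < r ∧ (w q).re - η < (w p).re ∧
        (w p).re < (w q).re + η :=
      (ho.eventually_mem a2).and ((hre'.continuousAt.eventually (lt_mem_nhds (by linarith))).and
        (hre'.continuousAt.eventually (gt_mem_nhds (by linarith))))
    have tri : ∀ q' : Q, w q' = w q ∨ (w q').re + 3 * η < (w q).re ∨
        (w q).re + 3 * η < (w q').re := by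
      intro q'
      obtain ⟨v', hv', e'⟩ := (mQ q').1 q'.2
      have b1 := (hy v' hv').1
      have hv'C := ((mCp v').1 hv').1
      rcases lt_trichotomy v'.re v.re with h | h | h
      · exact Or.inr (Or.inl (by rw [e', b1]; linarith [hgap v' hv'C v hvC h]))
      · exact Or.inl (by rw [e, e', hre hv'C hvC h])
      · exact Or.inr (Or.inr (by rw [e', b1]; linarith [hgap v hvC v' hv'C h]))
    have hL0 : L q = 0 := by
      refine tendsto_nhds_unique (hL.tendsto.mono_left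
        (nhdsWithin_le_nhds (s := {p | (w q).re < (w p).re}))) (tendsto_const_nhds.congr' ?_)
      filter_upwards [nhdsWithin_le_nhds near, self_mem_nhdsWithin] with p ⟨c1, c2, c3⟩ c4
      have c4' : (w q).re < (w p).re := c4
      rw [← hBΩ v hvC (by linarith) p c1 (by linarith)
        fun v' hv' h => by linarith [hgap v hvC v' hv' h]]
      refine Finset.sum_congr rfl fun q' _ => ?_
      rw [hb3 q' q'.2 p (by linarith)]
      rcases tri q' with h | h | h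
      · exact Or.inr (by rw [h]; linarith)
      · exact Or.inr (by linarith)
      · exact Or.inl (by linarith)
    obtain ⟨v0, hv0, hmax⟩ := Finset.exists_max_image (C.filter fun v' => v'.re < v.re) Complex.re
      ⟨0, Finset.mem_filter.2 ⟨hC0, by simp; linarith⟩⟩
    obtain ⟨d1, d2⟩ := Finset.mem_filter.1 hv0
    have d3 : 0 ≤ v0.re := by
      simpa using hmax 0 (Finset.mem_filter.2 ⟨hC0, by simp; linarith⟩)
    have t1 : Tendsto (fun p => ∑ q' : Q, g q' * (ℓ q' p - b q' p))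
        (𝓝[{p | (w p).re < (w q).re}] (q : Z)) (𝓝 0) := by
      rw [← hL0]
      refine (hL.tendsto.mono_left nhdsWithin_le_nhds).congr' ?_
      filter_upwards [nhdsWithin_le_nhds near, self_mem_nhdsWithin] with p ⟨c1, c2, c3⟩ c4
      have c4' : (w p).re < (w q).re := c4
      have := hBΩ v0 d1 d3 p c1 (by linarith [hgap v0 d1 v hvC d2]) fun v' hv' h => by
        have : v.re ≤ v'.re := not_lt.1 fun h' =>
          absurd (hmax v' (Finset.mem_filter.2 ⟨hv', h'⟩)) (not_le.2 h)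
        linarith
      simp only [mul_sub, Finset.sum_sub_distrib]
      exact (sub_eq_self.2 this).symm
    have t2 : Tendsto (fun p => ∑ q' : Q, g q' * (ℓ q' p - b q' p))
        (𝓝[{p | (w p).re < (w q).re}] (q : Z))
        (𝓝 (∑ q' : Q, if q' = q then g q * (2 * Real.pi * Complex.I) else 0)) := by
      refine tendsto_finsetSum _ fun q' _ => ?_
      split_ifs with h
      · rw [h]
        exact (hb4 q q.2).const_mul _
      · refine tendsto_const_nhds.congr' (nhdsWithin_le_nhds ?_)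
        have : ∀ᶠ p in 𝓝 (q : Z), b q' p = ℓ q' p := by
          rcases tri q' with h' | h' | h'
          · exact hb5 q' q'.2 q h'.symm fun h'' => h (Subtype.ext h''.symm)
          · exact near.mono fun p ⟨c1, c2, c3⟩ => hb3 q' q'.2 p (by linarith) (Or.inr (by linarith))
          · exact near.mono fun p ⟨c1, c2, c3⟩ => hb3 q' q'.2 p (by linarith) (Or.inl (by linarith))
        filter_upwards [this] with p hp
        rw [hp, sub_self, mul_zero]
    have := tendsto_nhds_unique t2 t1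
    simpa using this
  have k1 := hli.fintype_card_le_finrank
  rw [Module.finrank_fintype_fun_eq_card, Fintype.card_coe, Fintype.card_coe, cQ] at k1
  have k2 : E.card ≤ ∑ v ∈ Cp, (fib v).card + H.card :=
    (Finset.card_union_le _ _).trans (Nat.add_le_add_right Finset.card_biUnion_le _)
  have hσi : Injective σ := LeftInverse.injective hσσ
  have k3 : {p | σ p = p}.ncard + 2 * H.card ≤ (fib 0).card := by
    have e1 : {p | σ p = p} = ((fib 0).filter fun p => σ p = p : Finset Z) := by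
      ext p
      simp only [mem_ofPred_eq, Finset.coe_filter, m0, iff_and_self]
      intro h
      have := hwσ p
      rw [h] at this
      linear_combination this / 2
    rw [e1, Set.ncard_coe_finset, two_mul]
    nth_rewrite 2 [← Finset.card_image_of_injective H hσi]
    rw [← Finset.card_union_of_disjoint, ← Finset.card_union_of_disjoint]
    · refine Finset.card_le_card (Finset.union_subset (Finset.filter_subset _ _)
        (Finset.union_subset (Finset.filter_subset _ _) fun p hp => ?_))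
      obtain ⟨p', hp', rfl⟩ := Finset.mem_image.1 hp
      exact mσ p' (Finset.mem_filter.1 hp').1
    · refine Finset.disjoint_left.2 fun p h1 h2 => ?_
      have c1 := (Finset.mem_filter.1 h1).2
      rcases Finset.mem_union.1 h2 with h | h
      · have := (Finset.mem_filter.1 h).2
        rw [c1] at this
        exact lt_irrefl _ this
      · obtain ⟨p', hp', rfl⟩ := Finset.mem_image.1 h
        have := (Finset.mem_filter.1 hp').2
        rw [hσi c1] at this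
        exact lt_irrefl _ this
    · refine Finset.disjoint_left.2 fun p h1 h2 => ?_
      obtain ⟨p', hp', rfl⟩ := Finset.mem_image.1 h2
      have c1 := (Finset.mem_filter.1 h1).2
      have c2 := (Finset.mem_filter.1 hp').2
      rw [hσσ] at c1
      omega
  have eC : C = insert 0 (Cp ∪ Cp.image fun v => -v) := by
    ext v
    simp only [Finset.mem_insert, Finset.mem_union, Finset.mem_image, mCp]
    constructor
    · intro hv
      rcases lt_trichotomy v.re 0 with h | h | h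
      · exact Or.inr (Or.inr ⟨-v, ⟨hCneg v hv, by simpa using h⟩, neg_neg v⟩)
      · exact Or.inl (hre hv hC0 h)
      · exact Or.inr (Or.inl ⟨hv, h⟩)
    · rintro (rfl | h | ⟨v', h, rfl⟩)
      exacts [hC0, h.1, hCneg _ h.1]
  have n0 : (0 : ℂ) ∉ Cp ∪ Cp.image fun v => -v := by
    simp only [Finset.mem_union, Finset.mem_image, mCp, neg_eq_zero]
    rintro (h | ⟨v, h, rfl⟩) <;> simpa using h.2
  have dj : Disjoint Cp (Cp.image fun v => -v) := Finset.disjoint_left.2 fun v h1 h2 => by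
    obtain ⟨v', h, rfl⟩ := Finset.mem_image.1 h2
    have c1 := ((mCp _).1 h1).2
    have c2 := ((mCp _).1 h).2
    rw [Complex.neg_re] at c1
    linarith
  have k4 : C.card = 2 * Cp.card + 1 := by
    conv_lhs => rw [eC]
    rw [Finset.card_insert_of_notMem n0, Finset.card_union_of_disjoint dj,
      Finset.card_image_of_injective _ neg_injective]
    ring
  have k5 : ∑ v ∈ Cp, (fib v).card ≤ ∑ v ∈ Cp, (fib (-v)).card :=
    Finset.sum_le_sum fun v hv => Finset.card_le_card_of_injOn σ (fun p hp => by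
      have c1 := ((mCp v).1 hv).1
      have c2 := (hfib v (hCR v c1) p).1 hp
      exact (hfib _ (hCR _ (hCneg v c1)) _).2 (by rw [hwσ, c2])) hσi.injOn
  have k6 : ∑ v ∈ C, (w ⁻¹' {v}).ncard =
      (fib 0).card + (∑ v ∈ Cp, (fib v).card + ∑ v ∈ Cp, (fib (-v)).card) := by
    rw [Finset.sum_congr rfl fun v hv => hcard v (hCR v hv)]
    conv_lhs => rw [eC]
    rw [Finset.sum_insert n0, Finset.sum_union dj, Finset.sum_image neg_injective.injOn]
  rw [k4, k6]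
  nlinarith

theorem euler_bound (hw : Continuous w) {σ : Z → Z} (hσ : Continuous σ)
    (hσσ : ∀ p, σ (σ p) = p) (hwσ : ∀ p, w (σ p) = -w p) {r R : ℝ} (hrR : r ≤ R) (C : Finset ℂ)
    (hC0 : (0 : ℂ) ∈ C) (hCneg : ∀ v ∈ C, -v ∈ C) (hCr : ∀ v ∈ C, ‖v‖ < r) {m : ℕ}
    (hopen : ∀ p, ‖w p‖ < R → 𝓝 (w p) ≤ map w (𝓝 p))
    (hinj : ∀ p, ‖w p‖ < R → w p ∉ C → ∃ U ∈ 𝓝 p, InjOn w U)
    (hfin : ∀ y, ‖y‖ < R → (w ⁻¹' {y}).Finite)
    (hm : ∀ y, ‖y‖ < R → y ∉ C → (w ⁻¹' {y}).ncard = m)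
    (hlog : ∀ φ : Z → ℂ, ContinuousOn φ {p | ‖w p‖ < R} → (∀ p, φ p * φ (σ p) = 1) →
      (∀ p, σ p = p → φ p = 1) → ∃ ℓ : Z → ℂ, ContinuousOn ℓ {p | ‖w p‖ < r} ∧
        ∀ p, ‖w p‖ < r → Complex.exp (ℓ p) = φ p ∧ ℓ (σ p) = -ℓ p) :
    m * C.card + {p | σ p = p}.ncard ≤ m + ∑ v ∈ C, (w ⁻¹' {v}).ncard := by
  classical
  obtain ⟨x, hx⟩ := Infinite.exists_notMem_finset
    ((C ×ˢ C).image fun v : ℂ × ℂ => (v.1 - v.2).re / (v.1 - v.2).im)
  have h0 : (1 + x * Complex.I : ℂ) ≠ 0 := fun h => by simpa using congrArg Complex.re h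
  obtain ⟨θ, hθ, hθC⟩ : ∃ θ : ℂ, ‖θ‖ = 1 ∧
      ∀ v ∈ C, ∀ v' ∈ C, (θ * v).re = (θ * v').re → v = v' := by
    have hn := norm_pos_iff.2 h0
    refine ⟨(‖(1 + x * Complex.I : ℂ)‖⁻¹ : ℝ) • (1 + x * Complex.I : ℂ), ?_, fun v hv v' hv' h => ?_⟩
    · rw [norm_smul, norm_inv, norm_norm, inv_mul_cancel₀ hn.ne']
    · rw [smul_mul_assoc, smul_mul_assoc, Complex.smul_re, Complex.smul_re, smul_eq_mul,
        smul_eq_mul, mul_right_inj' (inv_ne_zero hn.ne')] at h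
      have h1 : (v - v').re = x * (v - v').im := by
        simp at h ⊢
        linarith
      by_cases h2 : (v - v').im = 0
      · exact sub_eq_zero.1 (Complex.ext (by rw [h1, h2, mul_zero]; rfl) h2)
      · exact absurd (Finset.mem_image.2 ⟨(v, v'), Finset.mem_product.2 ⟨hv, hv'⟩, by
          rw [h1, mul_div_cancel_right₀ _ h2]⟩) hx
  have hθ0 : θ ≠ 0 := fun h => by simp [h] at hθ
  have hi : Injective fun v : ℂ => θ * v := mul_right_injective₀ hθ0
  have hn : ∀ z, ‖θ * z‖ = ‖z‖ := fun z => by rw [norm_mul, hθ, one_mul]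
  have hpre : ∀ y, (fun p => θ * w p) ⁻¹' {θ * y} = w ⁻¹' {y} := fun y => by
    ext p
    simp [hθ0]
  have hsur : ∀ y : ℂ, ∃ z, y = θ * z := fun y => ⟨θ⁻¹ * y, by field_simp⟩
  have := euler_bound_re (w := fun p => θ * w p) (continuous_const.mul hw) hσ hσσ
    (fun p => by rw [hwσ, mul_neg]) hrR (C.image fun v => θ * v)
    (Finset.mem_image.2 ⟨0, hC0, mul_zero θ⟩)
    (fun v hv => by
      obtain ⟨v', h, rfl⟩ := Finset.mem_image.1 hv
      exact Finset.mem_image.2 ⟨-v', hCneg _ h, mul_neg _ _⟩)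
    (fun v hv => by
      obtain ⟨v', h, rfl⟩ := Finset.mem_image.1 hv
      exact (hn _).trans_lt (hCr _ h))
    (fun v hv v' hv' h => by
      obtain ⟨a, ha, rfl⟩ := Finset.mem_image.1 (Finset.mem_coe.1 hv)
      obtain ⟨a', ha', rfl⟩ := Finset.mem_image.1 (Finset.mem_coe.1 hv')
      rw [hθC a ha a' ha' h]) (m := m)
    (fun p hp => by
      rw [hn] at hp
      exact ((Homeomorph.mulLeft₀ θ hθ0).map_nhds_eq (w p)).ge.trans (map_mono (hopen p hp)))
    (fun p hp h => by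
      rw [hn] at hp
      obtain ⟨U, hU, h'⟩ := hinj p hp fun h' => h (Finset.mem_image_of_mem _ h')
      exact ⟨U, hU, fun a ha b hb hab => h' ha hb (hi hab)⟩)
    (fun y hy => by
      obtain ⟨z, rfl⟩ := hsur y
      rw [hpre]
      exact hfin z ((hn z).symm.trans_lt hy))
    (fun y hy h => by
      obtain ⟨z, rfl⟩ := hsur y
      rw [hpre]
      exact hm z ((hn z).symm.trans_lt hy) fun h' => h (Finset.mem_image_of_mem _ h'))
    (by simpa only [hn] using hlog)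
  rw [Finset.card_image_of_injective _ hi, Finset.sum_image hi.injOn] at this
  simpa only [hpre] using this

end Pool.Agent.MP_7e71a7_ag

end

-- part MP_7e71a7_ag.Count
section

/-! One fixed member of the family: topological bound on branch points, zeros of the norm. -/

open Filter Topology Set Function Metric Module

namespace Pool.Agent.MP_7e71a7_ag

variable {E F : Type} [NormedAddCommGroup E] [NormedSpace ℂ E] [FiniteDimensional ℂ E]
  [NormedAddCommGroup F] [NormedSpace ℂ F] [FiniteDimensional ℂ F]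

omit [FiniteDimensional ℂ E] [FiniteDimensional ℂ F] in
theorem ZZ.swap {g : E → F} {l : E →L[ℂ] ℂ} {ρ R : ℝ} {p : E × E} (h : p ∈ ZZ g l ρ R) :
    p.swap ∈ ZZ g l ρ R := by
  refine ⟨Dbar.swap h.1, ?_, ?_⟩
  · have := h.2.1
    simp only [mem_closedBall, dist_zero_right] at this ⊢
    rw [Prod.norm_def] at this ⊢
    rwa [max_comm]
  · have := h.2.2
    simp only [mem_ofPred_eq] at this ⊢
    rwa [ww_swap, norm_neg]

theorem image_val_fibre {V B : Type} (Z : Set V) (w : V → B) (y : B) :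
    Subtype.val '' ((fun p : Z => w p) ⁻¹' {y}) = {p | p ∈ Z ∧ w p = y} := by
  ext p; simp [and_comm]

theorem count_bound {g : E → F} {l : E →L[ℂ] ℂ} {ρ R r ρ₂ : ℝ} {e : E × E → ℕ}
    {γ : E × E → ℂ → E × E} (h : RS (ZZ g l ρ R) (ww l) (ball 0 R) e γ) {K : Set E}
    (hK : IsCompact K) (hρ₂ : ball 0 ρ₂ ⊆ K) (hg : ∀ x ∈ K, AnalyticAt ℂ g x)
    (hKZ : ∀ p ∈ K ×ˢ K, ‖p‖ ≤ ρ ∧ ‖ww l p‖ < R) (hinj : InjOn Prod.fst (Dbar g ∩ K ×ˢ K))
    (hr : r ≤ R) (hsmall : ∀ p ∈ ZZ g l ρ R, ‖ww l p‖ < r → ‖p‖ < ρ₂)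
    (hc : ContractibleSpace (g '' K)) (C : Finset ℂ) (hC0 : (0 : ℂ) ∈ C) (hCneg : ∀ v ∈ C, -v ∈ C)
    (hCr : ∀ v ∈ C, ‖v‖ < r) (he : ∀ p ∈ ZZ g l ρ R, ‖ww l p‖ < R → ww l p ∉ C → e p = 1)
    {m : ℕ} (hm : ∀ y ∈ ball (0 : ℂ) R, deg (ZZ g l ρ R) (ww l) e y = m) :
    m * C.card + {p | p ∈ ZZ g l ρ R ∧ p.1 = p.2}.ncard ≤
      m + ∑ v ∈ C, (fib (ZZ g l ρ R) (ww l) v).ncard := by
  classical
  set Z := ZZ g l ρ R with hZ
  have : CompactSpace Z := isCompact_iff_compactSpace.1 h.cpt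
  let σ : Z → Z := fun p => ⟨p.1.swap, ZZ.swap p.2⟩
  have hnc : ∀ y, ((fun p : Z => ww l p) ⁻¹' {y}).ncard = (fib Z (ww l) y).ncard := fun y => by
    rw [← Set.ncard_image_of_injective _ Subtype.val_injective, image_val_fibre]; rfl
  have key := euler_bound (Z := Z) (w := fun p : Z => ww l p)
    ((continuous_ww l).comp continuous_subtype_val) (σ := σ)
    ((continuous_swap.comp continuous_subtype_val).subtype_mk _) (fun p => rfl)
    (fun p => ww_swap l p) hr C hC0 hCneg hCr (m := m) ?_ ?_ ?_ ?_ ?_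
  · have h1 : {p : Z | σ p = p}.ncard = {p | p ∈ Z ∧ p.1 = p.2}.ncard := by
      rw [← Set.ncard_image_of_injective _ Subtype.val_injective]
      congr 1
      ext ⟨x, x'⟩
      constructor
      · rintro ⟨p, h1, h2⟩
        have h3 : p.1.swap = p.1 := congrArg Subtype.val h1
        rw [← h2]
        exact ⟨p.2, (congrArg Prod.fst h3).symm⟩
      · rintro ⟨h1, h2⟩
        exact ⟨⟨_, h1⟩, Subtype.ext (Prod.ext h2.symm h2), rfl⟩
    rw [h1] at key
    simpa only [hnc] using key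
  · intro p hp
    have := (h.chart p p.2 (by simpa using hp)).isOpenAt
    rwa [← map_nhds_subtype_val, Filter.map_map] at this
  · intro p hp hpC
    have hch := h.chart p p.2 (by simpa using hp)
    rw [he p p.2 hp hpC] at hch
    obtain ⟨U, hU, hi⟩ := hch.injOn
    rw [← map_nhds_subtype_val] at hU
    exact ⟨_, hU, fun a ha b hb hab => Subtype.ext (hi ha hb hab)⟩
  · intro y hy
    have := h.finite (y := y) (by simpa using hy)
    rw [← Set.finite_image_iff Subtype.val_injective.injOn, image_val_fibre]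
    exact this
  · intro y hy hyC
    rw [hnc, h.ncard_eq (by simpa using hy), hm y (by simpa using hy)]
    intro p hp
    exact he p hp.1 (by rw [hp.2]; exact hy) (by rw [hp.2]; exact hyC)
  · intro φ hφ hanti hfix
    let φ' : E × E → ℂ := fun p => if hp : p ∈ Z then φ ⟨p, hp⟩ else 1
    have hDZ : ∀ p ∈ Dbar g ∩ K ×ˢ K, p ∈ Z := fun p hp =>
      ⟨hp.1, by simpa using (hKZ p hp.2).1, (hKZ p hp.2).2.le⟩
    have hcont : ContinuousOn φ' (Dbar g ∩ K ×ˢ K) := by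
      rw [continuousOn_iff_continuous_domRestrict]
      have : (Dbar g ∩ K ×ˢ K).domRestrict φ' =
          φ ∘ fun p : ↥(Dbar g ∩ K ×ˢ K) => (⟨p.1, hDZ p.1 p.2⟩ : Z) := by
        ext p; simp [φ', hDZ p.1 p.2]
      rw [this]
      exact hφ.comp_continuous (continuous_subtype_val.subtype_mk _) fun p => (hKZ p.1 p.2.2).2
    obtain ⟨L, hL, hexp⟩ := exists_log (g := g) hK
      (fun x hx => (hg x hx).continuousAt.continuousWithinAt)
      (isCompact_Dbar_inter (hK.prod hK) fun p hp => ⟨hg _ hp.1, hg _ hp.2⟩) inter_subset_right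
      (fun p hp => ⟨Dbar.swap hp.1, hp.2.2, hp.2.1⟩) (fun p hp => Dbar.eq hp.1)
      (fun x hx x' hx' hne he => ⟨Or.inl ⟨hne, he⟩, hx, hx'⟩) hinj hcont
      (fun p hp => by
        have h1 := hDZ p hp
        have h2 : p.swap ∈ Z := ZZ.swap h1
        simp only [φ', h1, h2, dif_pos]
        exact hanti ⟨p, h1⟩)
      (fun p hp hpp => by
        have h1 := hDZ p hp
        simp only [φ', h1, dif_pos]
        refine hfix _ (Subtype.ext ?_)
        exact Prod.ext hpp.symm hpp) hc hρ₂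
    have hb : ∀ p : Z, ‖ww l p‖ < r → p.1.1 ∈ ball (0 : E) ρ₂ ∧ p.1.2 ∈ ball (0 : E) ρ₂ := by
      intro p hp
      have := hsmall p p.2 hp
      rw [Prod.norm_def, max_lt_iff] at this
      simpa using this
    refine ⟨fun p => L p.1.1 - L p.1.2, ?_, fun p hp => ⟨?_, by simp [σ]⟩⟩
    · exact (hL.comp (continuous_fst.comp continuous_subtype_val).continuousOn
        fun p hp => (hb p hp).1).sub (hL.comp
          (continuous_snd.comp continuous_subtype_val).continuousOn fun p hp => (hb p hp).2)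
    · have := hexp p.1 ⟨p.2.1, hρ₂ (hb p hp).1, hρ₂ (hb p hp).2⟩ (hb p hp).1 (hb p hp).2
      simpa [φ', p.2] using this

open Classical in
theorem norm_lower {J : (F × ℂ) ≃L[ℂ] (E × E)} {g : E → F} {l : E →L[ℂ] ℂ} {ρ R r₁ r₂ κ : ℝ}
    {e : E × E → ℕ} {γ : E × E → ℂ → E × E} (hn : 1 ≤ finrank ℂ E)
    (h : RS (ZZ g l ρ R) (ww l) (ball 0 R) e γ) (hg : ∀ x, ‖x‖ ≤ ρ → AnalyticAt ℂ g x)
    (hlow : ∀ p ∈ ZZ g l ρ R, ww l p ∈ ball (0 : ℂ) R → (jac J l g p ≠ 0 → e p = 1) ∧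
      ∃ κ > 0, ∀ᶠ t in 𝓝 (0 : ℂ),
        κ * ‖t‖ ^ ((if p.1 = p.2 then finrank ℂ E else 0) + e p - 1) ≤ ‖jac J l g (γ p t)‖)
    (h2 : 0 < r₂) (h12 : r₂ < r₁) (h1 : r₁ < R)
    (hreg : ∀ p ∈ ZZ g l ρ R, r₂ ≤ ‖ww l p‖ → jac J l g p ≠ 0) {m : ℕ}
    (hm : ∀ y ∈ ball (0 : ℂ) R, deg (ZZ g l ρ R) (ww l) e y = m)
    (hcount : ∀ C : Finset ℂ, (0 : ℂ) ∈ C → (∀ v ∈ C, -v ∈ C) → (∀ v ∈ C, ‖v‖ < r₁) →
      (∀ p ∈ ZZ g l ρ R, ‖ww l p‖ < R → ww l p ∉ C → e p = 1) →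
      m * C.card + {p | p ∈ ZZ g l ρ R ∧ p.1 = p.2}.ncard ≤
        m + ∑ v ∈ C, (fib (ZZ g l ρ R) (ww l) v).ncard)
    (hκ : 0 < κ) (hs : ∀ y ∈ sphere (0 : ℂ) r₁, κ ≤ ‖nrm (ZZ g l ρ R) (ww l) e (jac J l g) y‖) :
    ∃ y ∈ sphere (0 : ℂ) r₂, κ * (r₂ / (2 * r₁)) ^ (finrank ℂ E * m) ≤
      ‖nrm (ZZ g l ρ R) (ww l) e (jac J l g) y‖ := by
  set Z := ZZ g l ρ R with hZ
  set n := finrank ℂ E with hn'
  have hfin := h.crit_finite (isCompact_closedBall (0 : ℂ) r₂)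
    (closedBall_subset_ball (h12.trans h1))
  let C : Finset ℂ := insert 0 (hfin.toFinset ∪ hfin.toFinset.image Neg.neg)
  have hCr : ∀ v ∈ C, ‖v‖ < r₁ := by
    intro v hv
    simp only [C, Finset.mem_insert, Finset.mem_union, Finite.mem_toFinset, mem_ofPred_eq,
      Finset.mem_image, mem_closedBall, dist_zero_right] at hv
    rcases hv with rfl | hv | ⟨a, ha, rfl⟩
    · simpa using h2.trans h12
    · exact hv.1.trans_lt h12
    · rw [norm_neg]; exact ha.1.trans_lt h12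
  have hCneg : ∀ v ∈ C, -v ∈ C := by
    intro v hv
    simp only [C, Finset.mem_insert, Finset.mem_union, Finset.mem_image] at hv ⊢
    rcases hv with rfl | hv | ⟨a, ha, rfl⟩
    · simp
    · exact Or.inr (Or.inr ⟨v, hv, rfl⟩)
    · exact Or.inr (Or.inl (by simpa using ha))
  have hC0 : (0 : ℂ) ∈ C := Finset.mem_insert_self _ _
  have he : ∀ p ∈ Z, ‖ww l p‖ < R → ww l p ∉ C → e p = 1 := by
    intro p hp hpR hpC
    by_contra hne
    rcases le_total r₂ ‖ww l p‖ with hle | hle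
    · exact hne ((hlow p hp (by simpa using hpR)).1 (hreg p hp hle))
    · apply hpC
      simp only [C, Finset.mem_insert, Finset.mem_union, Finite.mem_toFinset, mem_ofPred_eq]
      exact Or.inr (Or.inl ⟨by simpa using hle, p, ⟨hp, rfl⟩, hne⟩)
  have hc := hcount C hC0 hCneg hCr he
  have hCb : ∀ v ∈ C, v ∈ ball (0 : ℂ) R := fun v hv => by simpa using (hCr v hv).trans h1
  let k : ℂ → ℕ := fun v => ∑ᶠ p ∈ fib Z (ww l) v, ((if p.1 = p.2 then n else 0) + e p - 1)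
  let c : ℕ := {p | p ∈ Z ∧ p.1 = p.2}.ncard
  have hdiag : ∀ p : E × E, p.1 = p.2 → ww l p = 0 := fun p hp => by simp [ww, hp]
  have hkv : ∀ v ∈ C, k v + (fib Z (ww l) v).ncard = (if v = 0 then n * c else 0) + m := by
    intro v hv
    have hf := h.finite (hCb v hv)
    have hd := hm v (hCb v hv)
    rw [deg, finsum_mem_eq_finite_toFinset_sum _ hf] at hd
    simp only [k]
    rw [finsum_mem_eq_finite_toFinset_sum _ hf, Set.ncard_eq_toFinset_card _ hf,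
      Finset.card_eq_sum_ones, ← Finset.sum_add_distrib, ← hd]
    have h3 : ∑ p ∈ hf.toFinset, (if p.1 = p.2 then n else 0) = if v = 0 then n * c else 0 := by
      rw [← Finset.sum_filter, Finset.sum_const, smul_eq_mul, mul_comm]
      split_ifs with hv0
      · congr 1
        rw [← Set.ncard_coe_finset]
        congr 1
        ext p
        simp only [Finset.coe_filter, Finite.mem_toFinset, mem_ofPred_eq, fib]
        exact ⟨fun hp => ⟨hp.1.1, hp.2⟩, fun hp => ⟨⟨hp.1, hv0 ▸ hdiag p hp.2⟩, hp.2⟩⟩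
      · rw [Finset.filter_eq_empty_iff.2, Finset.card_empty, mul_zero]
        intro p hp hpp
        rw [Finite.mem_toFinset] at hp
        exact hv0 (hp.2.symm.trans (hdiag p hpp))
    rw [← h3, ← Finset.sum_add_distrib]
    refine Finset.sum_congr rfl fun p hp => ?_
    rw [Finite.mem_toFinset] at hp
    have := (h.chart p hp.1 (hp.2 ▸ hCb v hv)).pos
    omega
  have hcm : c ≤ m := by
    have hf := h.finite (hCb 0 hC0)
    rw [← hm 0 (hCb 0 hC0)]
    refine le_trans (Set.ncard_le_ncard (fun p hp => ?_) hf) (h.ncard_le (hCb 0 hC0))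
    exact ⟨hp.1, hdiag p hp.2⟩
  have hK : ∑ v ∈ C, k v ≤ n * m := by
    have h4 := Finset.sum_congr rfl hkv
    rw [Finset.sum_add_distrib, Finset.sum_add_distrib, Finset.sum_ite_eq' C 0, if_pos hC0,
      Finset.sum_const, smul_eq_mul] at h4
    change m * C.card + c ≤ _ at hc
    obtain ⟨n', hn''⟩ : ∃ n', n = n' + 1 := ⟨n - 1, by omega⟩
    have h5 : n' * c ≤ n' * m := Nat.mul_le_mul_left _ hcm
    rw [hn''] at h4 ⊢
    nlinarith
  have hjan : ∀ p ∈ Z, ww l p ∈ ball (0 : ℂ) R → AnalyticAt ℂ (jac J l g) p := by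
    intro p hp _
    have : ‖p‖ ≤ ρ := by simpa using hp.2.1
    exact analyticAt_jac J l (hg _ ((norm_fst_le p).trans this)) (hg _ ((norm_snd_le p).trans this))
  refine zero_bound h2 h12 C hCr k hK
    (fun y hy => h.analytic hjan y (closedBall_subset_ball h1 hy)) (fun y hy hyC => ?_)
    (fun v hv => h.lower (hCb v hv) _ fun p hp => (hlow p hp.1 (hp.2 ▸ hCb v hv)).2) hκ hs
  have hyb : y ∈ ball (0 : ℂ) R := closedBall_subset_ball h1 hy
  rw [nrm, finprod_mem_eq_finite_toFinset_prod _ (h.finite hyb), Finset.prod_ne_zero_iff]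
  intro p hp
  rw [Finite.mem_toFinset] at hp
  refine pow_ne_zero _ ?_
  obtain ⟨κ', hκ', hev⟩ := (hlow p hp.1 (hp.2 ▸ hyb)).2
  have h0 := hev.self_of_nhds
  have hne : p.1 ≠ p.2 := fun hpp => hyC (hp.2 ▸ hdiag p hpp ▸ hC0)
  rw [if_neg hne, he p hp.1 (by rw [hp.2]; simpa using hyb) (hp.2 ▸ hyC),
    (h.chart p hp.1 (hp.2 ▸ hyb)).zero] at h0
  intro hj
  simp [hj] at h0
  linarith

end Pool.Agent.MP_7e71a7_ag

end

-- part MP_7e71a7_ag.Core
section

/-! The analytic core: nice perturbations of a germ that is neither an immersion nor a cross-cap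
have a non-contractible image. -/

open Filter Topology Set Function Metric Module

namespace Pool.Agent.MP_7e71a7_ag

variable {E F P : Type} [NormedAddCommGroup E] [NormedSpace ℂ E] [FiniteDimensional ℂ E]
  [NormedAddCommGroup F] [InnerProductSpace ℂ F] [FiniteDimensional ℂ F]
  [NormedAddCommGroup P] [NormedSpace ℂ P] [FiniteDimensional ℂ P]

theorem eventually_forall_compact {X Y : Type} [TopologicalSpace X] [TopologicalSpace Y]
    {K : Set X} (hK : IsCompact K) {y₀ : Y} {Q : X × Y → Prop}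
    (h : ∀ x ∈ K, ∀ᶠ q in 𝓝 (x, y₀), Q q) : ∀ᶠ y in 𝓝 y₀, ∀ x ∈ K, Q (x, y) :=
  hK.eventually_forall_of_forall_eventually (P := fun y x => Q (x, y)) fun x hx =>
    (continuous_swap.tendsto' (y₀, x) (x, y₀) rfl).eventually (h x hx)

theorem param_cont (hn : 1 ≤ finrank ℂ E) (J : (F × ℂ) ≃L[ℂ] (E × E)) {l : E →L[ℂ] ℂ}
    {G : E × P → F} {ρ R : ℝ} (hρ : 0 < ρ)
    (han : ∀ x s, ‖x‖ ≤ ρ → ‖s‖ ≤ ρ → AnalyticAt ℂ G (x, s))
    (hsph : ∀ p ∈ Dbar (fun z => G (z, 0)), ‖p‖ = ρ → R < ‖ww l p‖)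
    {y₀ : ℂ} (hy₀ : ‖y₀‖ < R)
    (hjac : ∀ p ∈ fib (ZZ (fun z => G (z, 0)) l ρ R) (ww l) y₀,
      jac J l (fun z => G (z, 0)) p ≠ 0) :
    ContinuousAt (fun b : ℂ × P => ∏ᶠ p ∈ fib (ZZ (fun z => G (z, b.2)) l ρ R) (ww l) b.1,
        jac J l (fun z => G (z, b.2)) p) (y₀, 0) ∧
      ∀ᶠ b : ℂ × P in 𝓝 (y₀, 0), (fib (ZZ (fun z => G (z, b.2)) l ρ R) (ww l) b.1).ncard =
        (fib (ZZ (fun z => G (z, 0)) l ρ R) (ww l) y₀).ncard := by
  have : ProperSpace E := FiniteDimensional.proper ℂ E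
  have : ProperSpace P := FiniteDimensional.proper ℂ P
  let D : Set ((E × E) × P) := {q | q.1 ∈ Dbar (fun z => G (z, q.2))}
  let K : Set ((E × E) × P) := (closedBall 0 ρ ∩ {p | ‖ww l p‖ ≤ R}) ×ˢ closedBall 0 ρ
  let π : (E × E) × P → ℂ × P := fun q => (ww l q.1, q.2)
  have hπ : Continuous π := ((continuous_ww l).comp continuous_fst).prodMk continuous_snd
  have hK : IsCompact K := ((isCompact_closedBall _ _).inter_right
    (isClosed_le (continuous_ww l).norm continuous_const)).prod (isCompact_closedBall _ _)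
  have hKan : ∀ q ∈ K, AnalyticAt ℂ G (q.1.1, q.2) ∧ AnalyticAt ℂ G (q.1.2, q.2) := by
    intro q hq
    have h1 : ‖q.1‖ ≤ ρ := by simpa using hq.1.1
    have h2 : ‖q.2‖ ≤ ρ := by simpa using hq.2
    exact ⟨han _ _ ((norm_fst_le _).trans h1) h2, han _ _ ((norm_snd_le _).trans h1) h2⟩
  have hZ : IsCompact (D ∩ K) := by
    refine hK.of_isClosed_subset ?_ inter_subset_right
    rw [← isOpen_compl_iff, isOpen_iff_mem_nhds]
    intro q hq
    by_cases hqK : q ∈ K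
    · have hqD : q.1 ∉ Dbar (fun z => G (z, q.2)) := fun h => hq ⟨h, hqK⟩
      filter_upwards [not_mem_Dbar_eventually (hKan q hqK).1 (hKan q hqK).2 hqD] with q' hq' h
      exact hq' h.1
    · filter_upwards [hK.isClosed.isOpen_compl.mem_nhds hqK] with q' hq' h
      exact hq' h.2
  have hfib : ∀ b : ℂ × P, ‖b.2‖ ≤ ρ → fib (D ∩ K) π b =
      (fun p => (p, b.2)) '' fib (ZZ (fun z => G (z, b.2)) l ρ R) (ww l) b.1 := by
    rintro ⟨y, s⟩ hs
    ext ⟨p, s'⟩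
    simp only [fib, ZZ, D, K, π, mem_ofPred_eq, mem_inter_iff, mem_prod, mem_image, Prod.mk.injEq]
    constructor
    · rintro ⟨⟨h1, h2, -⟩, h3, rfl⟩
      exact ⟨p, ⟨⟨h1, h2⟩, h3⟩, rfl, rfl⟩
    · rintro ⟨p', ⟨⟨h1, h2⟩, h3⟩, rfl, rfl⟩
      exact ⟨⟨h1, h2, by simpa using hs⟩, h3, rfl⟩
  have hinjs : ∀ s : P, Injective fun p : E × E => (p, s) := fun s a b h => congrArg Prod.fst h
  have hloc : ∀ q ∈ fib (D ∩ K) π (y₀, 0), (𝓝 ((y₀, 0) : ℂ × P) ≤ map π (𝓝[D ∩ K] q)) ∧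
      ∃ U ∈ 𝓝[D ∩ K] q, InjOn π U := by
    intro q hq
    have hqK := hq.1.2
    rw [hfib _ (by simpa using hρ.le)] at hq
    obtain ⟨p, hp, rfl⟩ := hq
    have hlt : ‖p‖ < ρ := by
      refine lt_of_le_of_ne (by simpa using hp.1.2.1) fun h => ?_
      have := hsph p hp.1.1 h
      rw [hp.2] at this
      exact lt_asymm this hy₀
    have hKn : K ∈ 𝓝 ((p, 0) : (E × E) × P) := by
      refine prod_mem_nhds (inter_mem (closedBall_mem_nhds_of_mem (by simpa using hlt)) ?_)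
        (closedBall_mem_nhds _ hρ)
      exact mem_of_superset (((continuous_ww l).norm.tendsto p).eventually_lt_const
        (by rw [hp.2]; exact hy₀)) fun q hq => show ‖ww l q‖ ≤ R from le_of_lt hq
    have := local_homeo_param hn (hKan _ hqK).1 (hKan _ hqK).2 hp.1.1 (hjac p hp)
    rw [nhdsWithin_inter_of_mem' (mem_nhdsWithin_of_mem_nhds hKn)]
    simp only at this
    rw [hp.2] at this
    exact this
  obtain ⟨-, hc, hcard⟩ := fib_param hZ hπ (fun q hq => (hloc q hq).1) (fun q hq => (hloc q hq).2)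
    (G := fun q => jac J l (fun z => G (z, q.2)) q.1) fun q hq =>
      (continuousAt_jac_param J l (hKan q hq.1.2).1 (hKan q hq.1.2).2).continuousWithinAt
  have hev : ∀ᶠ b : ℂ × P in 𝓝 (y₀, 0), ‖b.2‖ ≤ ρ :=
    (continuous_snd.norm.tendsto ((y₀, 0) : ℂ × P)).eventually_le_const (by simpa using hρ)
  constructor
  · refine hc.congr (hev.mono fun b hb => ?_)
    simp only
    rw [hfib b hb, finprod_mem_image (hinjs _).injOn]
  · filter_upwards [hev, hcard] with b hb hb'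
    rw [hfib b hb, hfib _ (by simpa using hρ.le), Set.ncard_image_of_injective _ (hinjs _),
      Set.ncard_image_of_injective _ (hinjs _)] at hb'
    exact hb'.2

theorem core (hdim : finrank ℂ F + 1 = 2 * finrank ℂ E) {G : E × P → F} (hG : AnalyticAt ℂ G 0)
    (hnice : ∀ᶠ p in 𝓝 (0 : E × E), p ∈ Dbar (fun z => G (z, 0)) → p ≠ 0 →
      Nice (fun z => G (z, 0)) p)
    (hsing : ¬ Injective (fderiv ℂ (fun z => G (z, 0)) 0))
    (hcc : ¬ CrossCap (fun z => G (z, 0)) 0) :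
    ∃ ρ₁ > 0, (∀ x s, ‖x‖ ≤ ρ₁ → ‖s‖ ≤ ρ₁ → AnalyticAt ℂ G (x, s)) ∧ ∀ ρ₂ > 0,
      ∀ᶠ s in 𝓝 (0 : P), ∀ K : Set E, IsCompact K → ball 0 ρ₂ ⊆ K → K ⊆ ball 0 ρ₁ →
        (∀ p ∈ Dbar (fun z => G (z, s)) ∩ K ×ˢ K, Nice (fun z => G (z, s)) p) →
        InjOn Prod.fst (Dbar (fun z => G (z, s)) ∩ K ×ˢ K) →
        ¬ ContractibleSpace ((fun z => G (z, s)) '' K) := by
  classical
  have : ProperSpace E := FiniteDimensional.proper ℂ E
  have hn : 1 ≤ finrank ℂ E := by omega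
  let J : (F × ℂ) ≃L[ℂ] (E × E) := ContinuousLinearEquiv.ofFinrankEq (by simp; omega)
  obtain ⟨v₀, hv, hv₀⟩ : ∃ v₀, fderiv ℂ (fun z => G (z, 0)) 0 v₀ = 0 ∧ v₀ ≠ 0 := by
    simpa [injective_iff_map_eq_zero] using hsing
  obtain ⟨b, hb, hB⟩ := Metric.eventually_nhds_iff.1 hG.eventually_analyticAt
  have hslice : ∀ x s, AnalyticAt ℂ G (x, s) → AnalyticAt ℂ (fun z => G (z, s)) x :=
    fun x s h => h.comp_of_eq (analyticAt_id.prod analyticAt_const) rfl
  obtain ⟨l, ρ, R, m, hρ, hρb, hR, hsph, hiso, hjac, hcard, hsmall⟩ :=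
    germ_data hdim J (hslice 0 0 hG) hnice hv₀ hv hcc hb
  have han : ∀ x s, ‖x‖ ≤ ρ → ‖s‖ ≤ ρ → AnalyticAt ℂ G (x, s) := fun x s hx hs =>
    hB (by rw [dist_zero_right, Prod.norm_def]; exact (max_le hx hs).trans_lt hρb)
  have han0 : ∀ p : E × E, ‖p‖ ≤ ρ → AnalyticAt ℂ G (p.1, 0) ∧ AnalyticAt ℂ G (p.2, 0) :=
    fun p hp => ⟨han _ _ ((norm_fst_le _).trans hp) (by simpa using hρ.le),
      han _ _ ((norm_snd_le _).trans hp) (by simpa using hρ.le)⟩
  set n := finrank ℂ E with hn'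
  let PN : ℂ × P → ℂ := fun b => ∏ᶠ p ∈ fib (ZZ (fun z => G (z, b.2)) l ρ R) (ww l) b.1,
    jac J l (fun z => G (z, b.2)) p
  have hw0 : ww l (0 : E × E) = 0 := by simp [ww]
  have hpc : ∀ y₀ : ℂ, y₀ ≠ 0 → ‖y₀‖ < R → ContinuousAt PN (y₀, 0) ∧ ∀ᶠ b : ℂ × P in 𝓝 (y₀, 0),
      (fib (ZZ (fun z => G (z, b.2)) l ρ R) (ww l) b.1).ncard = m := fun y₀ h0 h1 => by
    rw [← hcard y₀ h0 h1.le]
    exact param_cont hn J hρ han hsph h1 fun p hp =>
      hjac p hp.1 fun h => h0 (by rw [← hp.2, h, hw0])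
  have hPN0 : ∀ y₀ : ℂ, y₀ ≠ 0 → PN (y₀, 0) ≠ 0 := fun y₀ h0 => by
    refine finprod_mem_induction (fun a : ℂ => a ≠ 0) one_ne_zero (fun a b => mul_ne_zero) ?_
    exact fun p hp => hjac p hp.1 fun h => h0 (hp.2.symm.trans (by rw [h, hw0]))
  have hl0 : 0 < 2 * ‖l‖ + 1 := by positivity
  refine ⟨min ρ (R / (2 * ‖l‖ + 1)), by positivity, fun x s hx hs =>
    han x s (hx.trans (min_le_left _ _)) (hs.trans (min_le_left _ _)), fun ρ₂ hρ₂ => ?_⟩
  -- choice of `r₁`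
  have hK1 : IsCompact (closedBall (0 : E × E) ρ \ ball 0 ρ₂) :=
    (isCompact_closedBall _ _).diff isOpen_ball
  obtain ⟨a, ha, ha'⟩ := (isCompact_Dbar_inter (g := fun z => G (z, 0)) hK1 fun p hp =>
    ⟨hslice _ _ (han0 p (by simpa using hp.1)).1, hslice _ _ (han0 p (by simpa using hp.1)).2⟩
    ).exists_forall_le' (continuous_ww l).norm.continuousOn (a := 0) fun p hp => by
      rw [norm_pos_iff]
      intro hw
      have := hiso p hp.1 (by simpa using hp.2.1) hw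
      exact hp.2.2 (by simpa [this] using hρ₂)
  obtain ⟨r₁, hr₁, hr₁'⟩ : ∃ r₁ > 0, r₁ < min a R := exists_between (by positivity)
  simp only [lt_min_iff] at hr₁'
  have hs1 : ∀ y ∈ sphere (0 : ℂ) r₁, y ≠ 0 ∧ ‖y‖ < R := fun y hy => by
    have : ‖y‖ = r₁ := by simpa using hy
    exact ⟨norm_pos_iff.1 (this ▸ hr₁), this ▸ hr₁'.2⟩
  obtain ⟨κ', hκ', hκ''⟩ := (isCompact_sphere (0 : ℂ) r₁).exists_forall_le'
    (f := fun y => ‖PN (y, 0)‖) (a := 0) (fun y hy => (((hpc y (hs1 y hy).1 (hs1 y hy).2).1.comp_of_eq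
      (continuousAt_id.prodMk continuousAt_const) rfl).norm).continuousWithinAt)
    fun y hy => norm_pos_iff.2 (hPN0 y (hs1 y hy).1)
  set κ := κ' / 2 with hκdef
  have hκ : 0 < κ := by positivity
  -- choice of `r₂`
  obtain ⟨c, hc, hc'⟩ := Metric.eventually_nhds_iff.1 (eventually_nhdsWithin_iff.1
    (hsmall (κ / (2 * r₁) ^ (n * m)) (by positivity)))
  obtain ⟨r₂, hr₂, hr₂'⟩ : ∃ r₂ > 0, r₂ < min c r₁ := exists_between (by positivity)
  simp only [lt_min_iff] at hr₂'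
  have hs2 : ∀ y ∈ sphere (0 : ℂ) r₂, y ≠ 0 ∧ ‖y‖ < R ∧
      ‖PN (y, 0)‖ < κ * (r₂ / (2 * r₁)) ^ (n * m) := fun y hy => by
    have h1 : ‖y‖ = r₂ := by simpa using hy
    have h2 : y ≠ 0 := norm_pos_iff.1 (h1 ▸ hr₂)
    refine ⟨h2, h1 ▸ hr₂'.2.trans hr₁'.2, ?_⟩
    have := hc' (y := y) (by simpa [h1] using hr₂'.1) h2
    rw [h1] at this
    refine this.trans_eq ?_
    rw [div_pow]; ring
  have hcl : ∀ t : ℝ, IsClosed {p : E × E | ‖ww l p‖ ≤ t} := fun t =>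
    isClosed_le (continuous_ww l).norm continuous_const
  have E1 := eventually_forall_compact ((isCompact_sphere (0 : E × E) ρ).inter_right (hcl R))
    (y₀ := (0 : P)) (Q := fun q => q.1 ∉ Dbar (fun z => G (z, q.2))) fun p hp => by
      have h1 : ‖p‖ = ρ := by simpa using hp.1
      exact not_mem_Dbar_eventually (han0 p h1.le).1 (han0 p h1.le).2
        fun h => absurd (hsph p h h1) (not_lt.2 hp.2)
  have E2 := eventually_forall_compact (hK1.inter_right (hcl r₁))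
    (y₀ := (0 : P)) (Q := fun q => q.1 ∉ Dbar (fun z => G (z, q.2))) fun p hp => by
      have h1 : ‖p‖ ≤ ρ := by simpa using hp.1.1
      exact not_mem_Dbar_eventually (han0 p h1).1 (han0 p h1).2
        fun h => absurd ((ha' p ⟨h, hp.1⟩).trans hp.2) (not_le.2 hr₁'.1)
  have E3 := eventually_forall_compact (((isCompact_closedBall (0 : E × E) ρ).inter_right
    (hcl R)).inter_right (isClosed_le (continuous_const (y := r₂)) (continuous_ww l).norm))
    (y₀ := (0 : P)) (Q := fun q => q.1 ∈ Dbar (fun z => G (z, q.2)) →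
      jac J l (fun z => G (z, q.2)) q.1 ≠ 0) fun p hp => by
      have h1 : ‖p‖ ≤ ρ := by simpa using hp.1.1
      by_cases hD : p ∈ Dbar (fun z => G (z, 0))
      · have h2 := hjac p ⟨hD, hp.1⟩ fun h0 => by
          have := hp.2
          simp only [h0, mem_ofPred_eq, hw0, norm_zero] at this
          exact absurd this (not_le.2 hr₂)
        exact ((continuousAt_jac_param J l (han0 p h1).1 (han0 p h1).2).eventually_ne h2).mono
          fun q hq _ => hq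
      · exact (not_mem_Dbar_eventually (han0 p h1).1 (han0 p h1).2 hD).mono
          fun q hq h => absurd h hq
  have E4 := eventually_forall_compact (isCompact_sphere (0 : ℂ) r₁) (y₀ := (0 : P))
    (Q := fun b => κ < ‖PN b‖ ∧ (fib (ZZ (fun z => G (z, b.2)) l ρ R) (ww l) b.1).ncard = m)
    fun y hy => by
      obtain ⟨h1, h2⟩ := hpc y (hs1 y hy).1 (hs1 y hy).2
      exact (h1.norm.tendsto.eventually_const_lt
        (lt_of_lt_of_le (by linarith) (hκ'' y hy))).and h2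
  have E5 := eventually_forall_compact (isCompact_sphere (0 : ℂ) r₂) (y₀ := (0 : P))
    (Q := fun b => ‖PN b‖ < κ * (r₂ / (2 * r₁)) ^ (n * m)) fun y hy =>
      (hpc y (hs2 y hy).1 (hs2 y hy).2.1).1.norm.tendsto.eventually_lt_const (hs2 y hy).2.2
  filter_upwards [E1, E2, E3, E4, E5, closedBall_mem_nhds (0 : P) hρ] with s e1 e2 e3 e4 e5 hs
    K hK hK2 hK1' hKn hKi hcon
  set g : E → F := fun z => G (z, s) with hg
  have hgan : ∀ x, ‖x‖ ≤ ρ → AnalyticAt ℂ g x := fun x hx =>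
    hslice _ _ (han x s hx (by simpa using hs))
  have hsmallZ : ∀ p ∈ ZZ g l ρ R, ‖ww l p‖ < r₁ → ‖p‖ < ρ₂ := fun p hp hw => by
    by_contra h
    exact e2 p ⟨⟨hp.2.1, by simpa using h⟩, hw.le⟩ hp.1
  have hreg : ∀ p ∈ ZZ g l ρ R, r₂ ≤ ‖ww l p‖ → jac J l g p ≠ 0 := fun p hp hw =>
    e3 p ⟨hp.2, hw⟩ hp.1
  obtain ⟨e, γ, hRS, hlow⟩ := exists_RS_gen J l (g := g) (ρ := ρ) (R := R) isOpen_ball subset_rfl
    hgan (fun p hp hpρ => by
      by_contra h
      exact e1 p ⟨by simpa using hpρ, not_lt.1 h⟩ hp) fun p hp _ => by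
      rcases le_or_gt r₂ ‖ww l p‖ with h | h
      · exact (nice_of_jac hn (hreg p hp h)).2
      · have := hsmallZ p hp (h.trans hr₂'.2)
        rw [Prod.norm_def, max_lt_iff] at this
        exact hKn p ⟨hp.1, hK2 (by simpa using this.1), hK2 (by simpa using this.2)⟩
  obtain ⟨m', hm'⟩ := hRS.deg_const (convex_ball (0 : ℂ) R).isPreconnected
  have he1 : ∀ y : ℂ, r₂ ≤ ‖y‖ → ‖y‖ < R → ∀ p ∈ fib (ZZ g l ρ R) (ww l) y, e p = 1 :=
    fun y h1 h2 p hp => (hlow p hp.1 (by rw [hp.2]; simpa using h2)).1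
      (hreg p hp.1 (by rw [hp.2]; exact h1))
  have hnrm : ∀ y : ℂ, r₂ ≤ ‖y‖ → ‖y‖ < R →
      nrm (ZZ g l ρ R) (ww l) e (jac J l g) y = PN (y, s) := fun y h1 h2 =>
    finprod_mem_congr rfl fun p hp => by rw [he1 y h1 h2 p hp, pow_one]
  have hn1 : ∀ y ∈ sphere (0 : ℂ) r₁, r₂ ≤ ‖y‖ := fun y hy => by
    have : ‖y‖ = r₁ := by simpa using hy
    exact this ▸ hr₂'.2.le
  obtain rfl : m' = m := by
    have hy : ((r₁ : ℝ) : ℂ) ∈ sphere (0 : ℂ) r₁ := by simp [hr₁.le]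
    have hyb : ((r₁ : ℝ) : ℂ) ∈ ball (0 : ℂ) R := by simpa using (hs1 _ hy).2
    rw [← hm' _ hyb, ← hRS.ncard_eq hyb (he1 _ (hn1 _ hy) (hs1 _ hy).2)]
    exact (e4 _ hy).2
  have hKρ : ∀ x ∈ K, ‖x‖ < ρ ∧ ‖x‖ < R / (2 * ‖l‖ + 1) := fun x hx => by
    simpa using hK1' hx
  obtain ⟨y, hy, hy'⟩ := norm_lower hn hRS hgan hlow hr₂ hr₂'.2 hr₁'.2 hreg hm'
    (fun C h0 hneg hr he => count_bound hRS hK hK2 (fun x hx => hgan x (hKρ x hx).1.le)
      (fun p hp => ⟨by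
        rw [Prod.norm_def]; exact max_le (hKρ _ hp.1).1.le (hKρ _ hp.2).1.le, by
        have h1 := (lt_div_iff₀ hl0).1 (hKρ _ hp.1).2
        have h2 := (lt_div_iff₀ hl0).1 (hKρ _ hp.2).2
        have h3 : ‖ww l p‖ ≤ ‖l‖ * (‖p.1‖ + ‖p.2‖) :=
          (l.le_opNorm _).trans (by gcongr; exact norm_sub_le _ _)
        nlinarith [norm_nonneg p.1, norm_nonneg p.2]⟩)
      hKi hr₁'.2.le hsmallZ hcon C h0 hneg hr he hm') hκ
    (fun y hy => by rw [hnrm y (hn1 y hy) (hs1 y hy).2]; exact (e4 y hy).1.le)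
  have h1 : ‖y‖ = r₂ := by simpa using hy
  rw [hnrm y h1.ge (hs2 y hy).2.1] at hy'
  exact absurd (e5 y hy) (not_lt.2 hy')

end Pool.Agent.MP_7e71a7_ag

end

-- part MP_7e71a7_ag.NF
section

/-! Unfoldings with a normal form are trivial; immersions are stable. -/

open Filter Topology Set Function Metric Module

namespace Pool.Agent.MP_7e71a7_ag

open Pool.Agent.Lib.SCV

variable {E F X Y P : Type} [NormedAddCommGroup E] [NormedSpace ℂ E] [FiniteDimensional ℂ E]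
  [NormedAddCommGroup F] [NormedSpace ℂ F] [FiniteDimensional ℂ F]
  [NormedAddCommGroup X] [NormedSpace ℂ X] [FiniteDimensional ℂ X]
  [NormedAddCommGroup Y] [NormedSpace ℂ Y] [FiniteDimensional ℂ Y]
  [NormedAddCommGroup P] [NormedSpace ℂ P] [FiniteDimensional ℂ P]

/-- The family `G` is the fixed map `N` in parameter dependent coordinates. -/
def NF (N : X → Y) (G : E × P → F) : Prop :=
  ∃ (Φ : E × P → X) (Ψ : Y × P → F), AnalyticAt ℂ Φ 0 ∧ AnalyticAt ℂ Ψ 0 ∧ Φ 0 = 0 ∧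
    (Bijective fun v : E => fderiv ℂ Φ 0 (v, 0)) ∧ (Bijective fun v : Y => fderiv ℂ Ψ 0 (v, 0)) ∧
    ∀ᶠ q in 𝓝 (0 : E × P), G q = Ψ (N (Φ q), q.2)

omit [FiniteDimensional ℂ E] [FiniteDimensional ℂ X] [FiniteDimensional ℂ P] in
theorem nf_slice {Φ : E × P → X} (hΦ : AnalyticAt ℂ Φ 0) :
    AnalyticAt ℂ (fun x : E => Φ (x, 0)) 0 ∧
      ∀ v, fderiv ℂ (fun x : E => Φ (x, 0)) 0 v = fderiv ℂ Φ 0 (v, 0) := by
  refine ⟨hΦ.comp_of_eq (analyticAt_id.prod analyticAt_const) rfl, fun v => ?_⟩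
  have h1 : HasFDerivAt Φ (fderiv ℂ Φ 0) (((0 : E), (0 : P))) := hΦ.differentiableAt.hasFDerivAt
  have h2 := h1.comp (0 : E) (hasFDerivAt_prodMk_left (𝕜 := ℂ) (0 : E) (0 : P))
  have h3 : fderiv ℂ (fun x : E => Φ (x, 0)) 0 = _ := h2.fderiv
  rw [h3]
  rfl

omit [FiniteDimensional ℂ P] in
theorem nf_slice_inv {Φ : E × P → X} (hΦ : AnalyticAt ℂ Φ 0) (h0 : Φ 0 = 0)
    (hb : Bijective fun v : E => fderiv ℂ Φ 0 (v, 0)) :
    ∃ χ : X → E, AnalyticAt ℂ χ 0 ∧ χ 0 = 0 ∧ (∀ᶠ x in 𝓝 (0 : E), χ (Φ (x, 0)) = x) ∧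
      (∀ᶠ y in 𝓝 (0 : X), Φ (χ y, 0) = y) := by
  obtain ⟨h1, h2⟩ := nf_slice hΦ
  have h3 : (fderiv ℂ (fun x : E => Φ (x, 0)) 0 : E → X) = fun v => fderiv ℂ Φ 0 (v, 0) := funext h2
  obtain ⟨χ, k1, k2, k3, k4⟩ := exists_local_inverse h1 (h3 ▸ hb)
  have h4 : Φ ((0 : E), (0 : P)) = 0 := h0
  simp only [h4] at k1 k2 k4
  exact ⟨χ, k1, k2, k3, k4⟩

/- HINT. `Φ₀ = Φ (·, 0)` and `Ψ₀ = Ψ (·, 0)` have analytic local inverses `α`, `β`
(`exists_local_inverse`; `Ψ 0 = G 0 = f 0 = 0`). Take `Φ' q = α (Φ q)`, `Ψ' (y, s) = Ψ (β y, s)`.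
For `q` near `0` and `x = Φ' q`: `f x = G (x, 0) = Ψ₀ (N (Φ₀ x)) = Ψ₀ (N (Φ q))`, so
`β (f x) = N (Φ q)`. -/
theorem isTrivial_of_NF {N : X → Y} (hN : ContinuousAt N 0) (hN0 : N 0 = 0) {f : E → F}
    (hf0 : f 0 = 0) {d : ℕ} {G : E × Cn d → F} (hG : IsUnfolding f {0} G) (h : NF N G) :
    IsTrivial f {0} 0 G := by
  obtain ⟨Φ, Ψ, hΦ, hΨ, h0, hbΦ, hbΨ, hq⟩ := h
  obtain ⟨hGa, hGf⟩ := hG 0 rfl
  have hΨ0 : Ψ 0 = 0 := by
    have h1 := hq.self_of_nhds
    have h2 := hGf.self_of_nhds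
    rw [h0, hN0] at h1
    exact h1.symm.trans (h2.trans hf0)
  obtain ⟨α, a1, a2, a3, a4⟩ := nf_slice_inv hΦ h0 hbΦ
  obtain ⟨β, b1, b2, b3, b4⟩ := nf_slice_inv hΨ hΨ0 hbΨ
  refine ⟨fun q => α (Φ q), fun q => Ψ (β q.1, q.2), ?_, ?_, ?_⟩
  · rintro x rfl
    exact ⟨a1.comp_of_eq hΦ h0, a3⟩
  · rintro y rfl
    refine ⟨hΨ.comp_of_eq ((b1.comp_of_eq analyticAt_fst rfl).prod analyticAt_snd) ?_, b4⟩
    simp [b2]
  · rintro x rfl
    have tΦ : Tendsto Φ (𝓝 0) (𝓝 0) := h0 ▸ hΦ.continuousAt.tendsto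
    have tα : Tendsto α (𝓝 0) (𝓝 0) := a2 ▸ a1.continuousAt.tendsto
    have tN : Tendsto N (𝓝 0) (𝓝 0) := hN0 ▸ hN.tendsto
    have ti : Tendsto (fun z : E => (z, (0 : Cn d))) (𝓝 0) (𝓝 0) :=
      (continuous_id.prodMk continuous_const).tendsto' _ _ rfl
    change ∀ᶠ q in 𝓝 (0 : E × Cn d), _
    filter_upwards [hq, (tα.comp tΦ).eventually hGf, (tα.comp tΦ).eventually (ti.eventually hq),
      tΦ.eventually a4, (tN.comp tΦ).eventually b3] with q k1 k2 k3 k4 k5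
    simp only [Function.comp] at k2 k3 k5
    rw [← k2, k3, k4, k5, k1]

/- HINT. New `Φ` is `q ↦ Φ' (Φ q, q.2)`; chain rule for the partial derivative. -/
theorem NF.of_source {N : X → Y} {G : E × P → F} {E' : Type} [NormedAddCommGroup E']
    [NormedSpace ℂ E'] [FiniteDimensional ℂ E'] {G' : E' × P → F} {Φ : E × P → E'}
    (hΦ : AnalyticAt ℂ Φ 0) (h0 : Φ 0 = 0) (hb : Bijective fun v : E => fderiv ℂ Φ 0 (v, 0))
    (hG : ∀ᶠ q in 𝓝 (0 : E × P), G q = G' (Φ q, q.2)) (h : NF N G') : NF N G := by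
  obtain ⟨Φ', Ψ, hΦ', hΨ, h0', hbΦ, hbΨ, hq⟩ := h
  have e0 : (Φ 0, (0 : E × P).2) = 0 := by simp [h0]
  have hA : AnalyticAt ℂ (fun q : E × P => (Φ q, q.2)) 0 := hΦ.prod analyticAt_snd
  refine ⟨fun q => Φ' (Φ q, q.2), Ψ, hΦ'.comp_of_eq hA e0, hΨ, by simp only [e0, h0'], ?_, hbΨ, ?_⟩
  · have h1 : HasFDerivAt Φ' (fderiv ℂ Φ' 0) (Φ 0, (0 : E × P).2) := by
      rw [e0]; exact hΦ'.differentiableAt.hasFDerivAt
    have h2 := h1.comp (0 : E × P) (hΦ.differentiableAt.hasFDerivAt.prodMk hasFDerivAt_snd)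
    have h3 : fderiv ℂ (fun q : E × P => Φ' (Φ q, q.2)) 0 = _ := h2.fderiv
    rw [h3]
    exact hbΦ.comp hb
  · have ht : Tendsto (fun q : E × P => (Φ q, q.2)) (𝓝 0) (𝓝 0) := e0 ▸ hA.continuousAt.tendsto
    filter_upwards [hG, ht.eventually hq] with q k1 k2
    rw [k1, k2]

/- HINT. New `Ψ` is `L ∘ Ψ`. -/
theorem NF.of_target {N : X → Y} {G : E × P → F} {F' : Type} [NormedAddCommGroup F']
    [NormedSpace ℂ F'] [FiniteDimensional ℂ F'] (L : F ≃L[ℂ] F') (h : NF N (fun q => L (G q))) :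
    NF N G := by
  obtain ⟨Φ, Ψ, hΦ, hΨ, h0, hbΦ, hbΨ, hq⟩ := h
  refine ⟨Φ, fun q => L.symm (Ψ q), hΦ, (L.symm.analyticAt _).comp hΨ, h0, hbΦ, ?_, ?_⟩
  · have h3 : fderiv ℂ (fun q => L.symm (Ψ q)) 0 = _ := L.symm.comp_fderiv
    rw [h3]
    exact L.symm.bijective.comp hbΨ
  · filter_upwards [hq] with q k
    rw [← k, L.symm_apply_apply]

/- HINT. Let `Y' ` be a complement of the range of `fderiv f 0` (`Submodule.exists_isCompl`),
`N x = (x, 0) : E × Y'`, `Φ = fst`, `Ψ ((x, u), s) = G (x, s) + u`. -/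
theorem isStable_of_immersion {f : E → F} (hf : AnalyticAt ℂ f 0) (hf0 : f 0 = 0)
    (hi : Injective (fderiv ℂ f 0)) : IsStable f {0} 0 := by
  intro d G hG
  obtain ⟨hGa, hGf⟩ := hG 0 rfl
  obtain ⟨Y', hY⟩ := Submodule.exists_isCompl (LinearMap.range (fderiv ℂ f 0 : E →ₗ[ℂ] F))
  refine isTrivial_of_NF (N := fun x : E => (x, (0 : Y'))) (by fun_prop) rfl hf0 hG ?_
  let A : (E × Y') × Cn d →L[ℂ] E × Cn d :=
    ((ContinuousLinearMap.fst ℂ E Y').comp (ContinuousLinearMap.fst ℂ _ _)).prod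
      (ContinuousLinearMap.snd ℂ _ _)
  let B : (E × Y') × Cn d →L[ℂ] F :=
    Y'.subtypeL.comp ((ContinuousLinearMap.snd ℂ E Y').comp (ContinuousLinearMap.fst ℂ _ _))
  have hGa' : AnalyticAt ℂ G 0 := hGa
  refine ⟨Prod.fst, fun q => G (A q) + B q, analyticAt_fst,
    (hGa'.comp_of_eq (A.analyticAt 0) (map_zero A)).add (B.analyticAt 0), rfl, ?_, ?_, ?_⟩
  · rw [fderiv_fst]
    exact Function.bijective_id
  · have h1 : HasFDerivAt G (fderiv ℂ G 0) (A 0) := by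
      rw [map_zero]; exact hGa'.differentiableAt.hasFDerivAt
    have h2 := (h1.comp (0 : (E × Y') × Cn d) A.hasFDerivAt).add B.hasFDerivAt
    have h3 : fderiv ℂ (fun q => G (A q) + B q) 0 = _ := h2.fderiv
    have h4 : ∀ v, fderiv ℂ G 0 (v, 0) = fderiv ℂ f 0 v := fun v => by
      rw [← (nf_slice hGa').2 v, Filter.EventuallyEq.fderiv_eq hGf]
    have h5 : (fun v : E × Y' => fderiv ℂ (fun q => G (A q) + B q) 0 (v, 0))
        = fun v => fderiv ℂ f 0 v.1 + (v.2 : F) := by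
      funext v
      rw [h3, ← h4]
      rfl
    rw [h5]
    constructor
    · rintro ⟨x, u⟩ ⟨x', u'⟩ hx
      have e1 : fderiv ℂ f 0 (x - x') = ((u' - u : Y') : F) := by
        rw [map_sub, Submodule.coe_sub, sub_eq_sub_iff_add_eq_add, add_comm (u' : F)]
        exact hx
      have e2 : fderiv ℂ f 0 (x - x') = 0 :=
        (Submodule.disjoint_def.1 hY.disjoint) _ ⟨x - x', rfl⟩ (e1 ▸ (u' - u).2)
      have e3 : x - x' = 0 := hi (by rw [e2, map_zero])
      have e4 : u' - u = 0 := Subtype.ext (e1.symm.trans e2)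
      rw [sub_eq_zero.1 e3, sub_eq_zero.1 e4]
    · intro y
      have : y ∈ LinearMap.range (fderiv ℂ f 0 : E →ₗ[ℂ] F) ⊔ Y' := by
        rw [hY.sup_eq_top]; trivial
      obtain ⟨_, ⟨x, rfl⟩, u, hu, rfl⟩ := Submodule.mem_sup.1 this
      exact ⟨(x, ⟨u, hu⟩), rfl⟩
  · refine Eventually.of_forall fun q => ?_
    change G q = G (q.1, q.2) + 0
    rw [add_zero]

/- HINT. Put `T (x, v) = fderiv g x v`. For `g' = g ∘ χ`, near `a`:
`fderiv g' x v = fderiv g (χ x) (fderiv χ x v)`; differentiate in `x` in the direction `b`: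
`fderiv (fderiv g') a b v = fderiv (fderiv g) (χ a) (dχ b) (dχ v) + fderiv g (χ a) (d²χ b v)`. -/
theorem CrossCap.comp {g : E → F} {E' : Type} [NormedAddCommGroup E'] [NormedSpace ℂ E']
    [FiniteDimensional ℂ E'] {χ : E' → E} {a : E'} (hχ : AnalyticAt ℂ χ a)
    (hb : Bijective (fderiv ℂ χ a)) (hg : AnalyticAt ℂ g (χ a)) (h : CrossCap g (χ a)) :
    CrossCap (fun x => g (χ x)) a := by
  obtain ⟨v, hv0, hv, hy⟩ := h
  obtain ⟨v', rfl⟩ := hb.2 v
  have he : fderiv ℂ (fun x => g (χ x)) =ᶠ[𝓝 a] fun x => (fderiv ℂ g (χ x)).comp (fderiv ℂ χ x) := by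
    filter_upwards [hχ.eventually_analyticAt, hχ.continuousAt.eventually hg.eventually_analyticAt]
      with x k1 k2
    exact fderiv_comp x k2.differentiableAt k1.differentiableAt
  have h1 : HasFDerivAt (fun x => fderiv ℂ g (χ x))
      ((fderiv ℂ (fderiv ℂ g) (χ a)).comp (fderiv ℂ χ a)) a :=
    hg.fderiv.differentiableAt.hasFDerivAt.comp a hχ.differentiableAt.hasFDerivAt
  have h2 := h1.clm_comp hχ.fderiv.differentiableAt.hasFDerivAt
  refine ⟨v', fun h0 => hv0 (by rw [h0, map_zero]), by rw [he.eq_of_nhds]; exact hv, fun y => ?_⟩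
  obtain ⟨a₀, b₀, rfl⟩ := hy y
  obtain ⟨b', rfl⟩ := hb.2 b₀
  obtain ⟨a', ha'⟩ := hb.2 (a₀ - fderiv ℂ (fderiv ℂ χ) a b' v')
  refine ⟨a', b', ?_⟩
  rw [he.fderiv_eq, he.eq_of_nhds, h2.fderiv]
  simp [ha', ← add_assoc]

theorem CrossCap.target {g : E → F} {F' : Type} [NormedAddCommGroup F'] [NormedSpace ℂ F']
    [FiniteDimensional ℂ F'] (L : F ≃L[ℂ] F') {a : E} (hg : AnalyticAt ℂ g a)
    (h : CrossCap g a) : CrossCap (fun x => L (g x)) a := by
  obtain ⟨v, hv0, hv, hy⟩ := h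
  have he : fderiv ℂ (fun x => L (g x)) = fun x => (L : F →L[ℂ] F').comp (fderiv ℂ g x) :=
    funext fun x => L.comp_fderiv
  have h2 := (hasFDerivAt_const (L : F →L[ℂ] F') a).clm_comp hg.fderiv.differentiableAt.hasFDerivAt
  refine ⟨v, hv0, by rw [he]; simp [hv], fun y => ?_⟩
  obtain ⟨a₀, b₀, hab⟩ := hy (L.symm y)
  refine ⟨a₀, b₀, ?_⟩
  rw [he, h2.fderiv, ← L.apply_symm_apply y, ← hab]
  simp

theorem CrossCap.congr {g g' : E → F} {a : E} (hg : ∀ᶠ x in 𝓝 a, g x = g' x)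
    (h : CrossCap g a) : CrossCap g' a := by
  have h1 : g =ᶠ[𝓝 a] g' := hg
  have h2 : fderiv ℂ g =ᶠ[𝓝 a] fderiv ℂ g' := h1.fderiv
  unfold CrossCap at h ⊢
  rwa [← h2.fderiv_eq, ← h2.eq_of_nhds]

theorem IsStable.congr {f f' : E → F} (hf : ∀ᶠ x in 𝓝 (0 : E), f x = f' x)
    (h : IsStable f {0} 0) : IsStable f' {0} 0 := by
  intro d G hG
  obtain ⟨Φ, Ψ, h1, h2, h3⟩ := h d G (by
    rintro x rfl
    refine ⟨(hG 0 rfl).1, ?_⟩
    filter_upwards [(hG 0 rfl).2, hf] with z k1 k2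
    rw [k1, k2])
  refine ⟨Φ, Ψ, h1, h2, ?_⟩
  rintro x rfl
  have h4 : Φ (0, 0) = 0 := (h1 0 rfl).2.self_of_nhds
  have h5 : Tendsto Φ (𝓝 (0, 0)) (𝓝 0) := by
    have := (h1 0 rfl).1.continuousAt.tendsto
    rwa [h4] at this
  filter_upwards [h3 0 rfl, h5.eventually hf] with q k1 k2
  rw [k1, k2]

theorem IsAFinite.congr {f f' : E → F} (hf : ∀ᶠ x in 𝓝 (0 : E), f x = f' x)
    (h : IsAFinite f) : IsAFinite f' := by
  obtain ⟨k, θ, h1, h2⟩ := h
  refine ⟨k, θ, h1, fun v hv => ?_⟩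
  obtain ⟨c, ξ, η, k1, k2, k3⟩ := h2 v hv
  refine ⟨c, ξ, η, k1, k2, ?_⟩
  have h3 : f =ᶠ[𝓝 0] f' := hf
  filter_upwards [k3, hf, (h3.fderiv (𝕜 := ℂ))] with x e1 e2 e3
  rw [e1, e2, e3]

end Pool.Agent.MP_7e71a7_ag

end
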